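import Pool.Agent.H911R2.GaussField

/-! Two lower bounds for the weighted perimeter: sets outside a disc, and sets in a half-plane. -/

set_option autoImplicit false

namespace Pool.Agent.H911R2.Gauss

open MeasureTheory Set Filter Topology
open scoped ENNReal ContDiff Manifold RealInnerProductSpace

lemma divg_id (x : Plane) : divg (fun y => y) x = 2 := by
  unfold divg
  simp

/-- A set outside the disc of radius `r` has weighted perimeter at least `(r - 1/r)` times its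
Gaussian area. -/
lemma perim_ge_outside {A : Set Plane} (hA : MeasurableSet A) {r : ℝ} (hr : 0 < r)
    (h : ∀ x ∈ A, r ≤ ‖x‖) : ENNReal.ofReal ((r - 1 / r) * ∫ x in A, dens x) ≤ perim A := by
  let q : ℝ → ℝ := fun t => -(2 * r * (2 * Real.pi)⁻¹) * (Real.exp (-t / 2) / (t + r ^ 2))
  have hq : ∀ t, 0 ≤ t → HasDerivAt q (-(2 * r * (2 * Real.pi)⁻¹) *
      ((Real.exp (-t / 2) * (-1 / 2) * (t + r ^ 2) - Real.exp (-t / 2) * 1) /
        (t + r ^ 2) ^ 2)) t := by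
    intro t ht
    have h1 : HasDerivAt (fun t : ℝ => Real.exp (-t / 2)) (Real.exp (-t / 2) * (-1 / 2)) t :=
      (((hasDerivAt_id t).fun_neg).div_const 2).exp
    have h2 : HasDerivAt (fun t : ℝ => t + r ^ 2) 1 t := (hasDerivAt_id t).add_const _
    exact (h1.fun_div h2 (by positivity)).const_mul _
  let Z : Plane → Plane := fun x => q (‖x‖ ^ 2) • x
  have hqc : ∀ x : Plane, ContDiffAt ℝ 1 (fun x : Plane => q (‖x‖ ^ 2)) x := by
    intro x
    refine ContDiffAt.mul contDiffAt_const (ContDiffAt.div ?_ ?_ ?_)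
    · exact ((contDiff_norm_sq ℝ).neg.div_const 2).exp.contDiffAt
    · exact ((contDiff_norm_sq ℝ).add contDiff_const).contDiffAt
    · positivity
  have hZ1 : ContDiff ℝ 1 Z :=
    contDiff_iff_contDiffAt.2 fun x => (hqc x).smul contDiffAt_id
  have hdens : ∀ x : Plane, dens x = (2 * Real.pi)⁻¹ * Real.exp (-(‖x‖ ^ 2) / 2) := fun x => rfl
  have hZ3 : ∀ x, ‖Z x‖ ≤ dens x := by
    intro x
    have e1 : ‖Z x‖ = dens x * (2 * r * ‖x‖ / (‖x‖ ^ 2 + r ^ 2)) := by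
      simp only [Z, q, norm_smul, norm_mul, norm_neg, norm_div, hdens]
      rw [Real.norm_of_nonneg (by positivity : (0:ℝ) ≤ 2), Real.norm_of_nonneg hr.le,
        Real.norm_of_nonneg (by positivity : (0:ℝ) ≤ (2 * Real.pi)⁻¹),
        Real.norm_of_nonneg (Real.exp_pos _).le,
        Real.norm_of_nonneg (by positivity : (0:ℝ) ≤ ‖x‖ ^ 2 + r ^ 2)]
      ring
    rw [e1]
    refine mul_le_of_le_one_right (dens_pos x).le ?_
    rw [div_le_one (by positivity)]
    nlinarith [sq_nonneg (‖x‖ - r)]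
  have hdiv : ∀ x, divg Z x = dens x * (2 * r * (‖x‖ ^ 2 / (‖x‖ ^ 2 + r ^ 2) -
      2 * r ^ 2 / (‖x‖ ^ 2 + r ^ 2) ^ 2)) := by
    intro x
    have h1 := (hq (‖x‖ ^ 2) (by positivity)).comp_hasFDerivAt x
      (hasStrictFDerivAt_norm_sq x).hasFDerivAt
    change HasFDerivAt (fun x : Plane => q (‖x‖ ^ 2)) _ x at h1
    have h2 := divg_smul (Z := fun y => y) h1.differentiableAt (x := x) (by fun_prop)
    rw [divg_id, h1.fderiv] at h2
    have h3 : divg Z x = divg (fun y => q (‖y‖ ^ 2) • y) x := rfl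
    rw [h3, h2]
    have hne : ‖x‖ ^ 2 + r ^ 2 ≠ 0 := by positivity
    simp only [smul_apply, nsmul_eq_mul, innerSL_apply_apply,
      real_inner_self_eq_norm_sq, smul_eq_mul, hdens, q]
    push_cast
    field_simp
    ring
  have hdc : Continuous (divg Z) := continuous_divg hZ1
  have hint : Integrable (divg Z) := by
    refine (integrable_dens.const_mul (2 * r * (1 + 2 / r ^ 2))).mono' hdc.aestronglyMeasurable
      (Eventually.of_forall fun x => ?_)
    rw [hdiv, norm_mul, Real.norm_of_nonneg (dens_pos x).le, mul_comm]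
    refine mul_le_mul_of_nonneg_right ?_ (dens_pos x).le
    rw [norm_mul, Real.norm_of_nonneg (by positivity : (0:ℝ) ≤ 2 * r)]
    refine mul_le_mul_of_nonneg_left ?_ (by positivity)
    refine (norm_sub_le _ _).trans (add_le_add ?_ ?_)
    · rw [Real.norm_of_nonneg (by positivity), div_le_one (by positivity)]
      nlinarith
    · rw [Real.norm_of_nonneg (by positivity), div_le_div_iff₀ (by positivity) (by positivity)]
      have h1 : r ^ 2 ≤ ‖x‖ ^ 2 + r ^ 2 := by nlinarith [sq_nonneg ‖x‖]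
      have h2 : r ^ 2 * r ^ 2 ≤ (‖x‖ ^ 2 + r ^ 2) ^ 2 := by
        rw [sq (‖x‖ ^ 2 + r ^ 2)]
        exact mul_le_mul h1 h1 (by positivity) (by positivity)
      linarith
  refine le_trans (ENNReal.ofReal_le_ofReal ?_) (le_perim_of_field hZ1 hZ3 hint)
  rw [← integral_const_mul]
  refine setIntegral_mono_on (integrable_dens.const_mul _).integrableOn hint.integrableOn hA
    fun x hx => ?_
  rw [hdiv, mul_comm]
  refine mul_le_mul_of_nonneg_left ?_ (dens_pos x).le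
  have hx2 : r ^ 2 ≤ ‖x‖ ^ 2 := by gcongr; exact h x hx
  have h1 : 1 / 2 ≤ ‖x‖ ^ 2 / (‖x‖ ^ 2 + r ^ 2) := by
    rw [div_le_div_iff₀ (by norm_num) (by positivity)]; linarith
  have h2 : 2 * r ^ 2 / (‖x‖ ^ 2 + r ^ 2) ^ 2 ≤ 1 / (2 * r ^ 2) := by
    rw [div_le_div_iff₀ (by positivity) (by positivity)]
    have h3 : 2 * r ^ 2 ≤ ‖x‖ ^ 2 + r ^ 2 := by linarith
    have h4 : 2 * r ^ 2 * (2 * r ^ 2) ≤ (‖x‖ ^ 2 + r ^ 2) ^ 2 := by
      rw [sq (‖x‖ ^ 2 + r ^ 2)]
      exact mul_le_mul h3 h3 (by positivity) (by positivity)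
    linarith
  calc r - 1 / r = 2 * r * (1 / 2 - 1 / (2 * r ^ 2)) := by field_simp
    _ ≤ _ := by gcongr

lemma contDiff_G : ContDiff ℝ 1 G := by
  rw [contDiff_one_iff_deriv]
  refine ⟨fun t => (hasDerivAt_G t).differentiableAt, ?_⟩
  have : deriv G = fun t => -g t := funext fun t => (hasDerivAt_G t).deriv
  rw [this]
  exact continuous_g.neg

/-- A set contained in the half-plane `⟪ν, x⟫ > -ρ` has weighted perimeter at least
`exp(-(ρ+1)²/2)/√(2π)` times its Gaussian area. -/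
lemma perim_ge_halfplane {A : Set Plane} (hA : MeasurableSet A) {ρ : ℝ} (hρ : 0 ≤ ρ) {ν : Plane}
    (hν : ‖ν‖ = 1) (h : ∀ x ∈ A, -ρ < ⟪ν, x⟫) :
    ENNReal.ofReal ((√(2 * Real.pi))⁻¹ * g (ρ + 1) * ∫ x in A, dens x) ≤ perim A := by
  set c : ℝ := (√(2 * Real.pi))⁻¹ * g (ρ + 1) with hc
  have hs : 0 < √(2 * Real.pi) := by positivity
  have hc0 : 0 < c := mul_pos (inv_pos.2 hs) (g_pos _)
  let χ : ℝ → ℝ := fun t => Real.smoothTransition (t + (ρ + 1))
  have hχd : ContDiff ℝ 1 χ :=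
    (Real.smoothTransition.contDiff (n := 1)).comp (contDiff_id.add contDiff_const)
  have hχ0 : ∀ t, t ≤ -(ρ + 1) → χ t = 0 := fun t ht =>
    Real.smoothTransition.zero_of_nonpos (by linarith)
  have hχ1 : ∀ t, -ρ ≤ t → χ t = 1 := fun t ht =>
    Real.smoothTransition.one_of_one_le (by linarith)
  have hχ01 : ∀ t, 0 ≤ χ t ∧ χ t ≤ 1 := fun t =>
    ⟨Real.smoothTransition.nonneg _, Real.smoothTransition.le_one _⟩
  have hχder : ∀ t, HasDerivAt χ (deriv χ t) t := fun t =>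
    ((hχd.differentiable (by norm_num)) t).hasDerivAt
  have hgmono : ∀ t, -(ρ + 1) ≤ t → t ≤ 0 → g (ρ + 1) ≤ g t := by
    intro t h1 h2
    unfold g
    rw [Real.exp_le_exp]
    have : t ^ 2 ≤ (ρ + 1) ^ 2 := by nlinarith
    linarith
  -- the 1D bound
  have hbound : ∀ t, c * (G t * χ t) ≤ g t := by
    intro t
    rcases le_total t (-(ρ + 1)) with h1 | h1
    · rw [hχ0 t h1]; simpa using (g_pos t).le
    · rcases le_total t 0 with h2 | h2
      · have h3 : G t * χ t ≤ √(2 * Real.pi) * 1 :=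
          mul_le_mul (G_le t) (hχ01 t).2 (hχ01 t).1 hs.le
        calc c * (G t * χ t) ≤ c * (√(2 * Real.pi) * 1) := mul_le_mul_of_nonneg_left h3 hc0.le
          _ = g (ρ + 1) := by rw [hc]; field_simp
          _ ≤ g t := hgmono t h1 h2
      · have h3 : G t * χ t ≤ (√(2 * Real.pi) * g t) * 1 :=
          mul_le_mul (G_le_of_nonneg h2) (hχ01 t).2 (hχ01 t).1 (mul_nonneg hs.le (g_pos t).le)
        calc c * (G t * χ t) ≤ c * ((√(2 * Real.pi) * g t) * 1) :=
              mul_le_mul_of_nonneg_left h3 hc0.le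
          _ = g (ρ + 1) * g t := by rw [hc]; field_simp
          _ ≤ g t := mul_le_of_le_one_left (g_pos t).le (g_le_one _)
  let k : ℝ → ℝ := fun t => G t * χ t
  have hkd : ContDiff ℝ 1 k := contDiff_G.mul hχd
  have hk' : ∀ t, HasDerivAt k (-g t * χ t + G t * deriv χ t) t := fun t =>
    (hasDerivAt_G t).fun_mul (hχder t)
  let f : Plane → ℝ := fun x => -(c * (2 * Real.pi)⁻¹) *
    (Real.exp (-(‖x‖ ^ 2 - ⟪ν, x⟫ ^ 2) / 2) * k ⟪ν, x⟫)
  have hfd : ContDiff ℝ 1 f := by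
    refine contDiff_const.mul (ContDiff.mul ?_ ?_)
    · exact (((contDiff_norm_sq ℝ).sub ((contDiff_const.inner ℝ contDiff_id).pow 2)).neg.div_const
        2).exp
    · exact hkd.comp (contDiff_const.inner ℝ contDiff_id)
  have hff : ∀ x, fderiv ℝ f x ν = -(c * (2 * Real.pi)⁻¹) *
      (Real.exp (-(‖x‖ ^ 2 - ⟪ν, x⟫ ^ 2) / 2) * (-g ⟪ν, x⟫ * χ ⟪ν, x⟫ +
        G ⟪ν, x⟫ * deriv χ ⟪ν, x⟫)) := by
    intro x
    rw [← (hfd.differentiable (by norm_num) x).lineDeriv_eq_fderiv]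
    have h1 : ∀ s : ℝ, f (x + s • ν) = -(c * (2 * Real.pi)⁻¹) *
        (Real.exp (-(‖x‖ ^ 2 - ⟪ν, x⟫ ^ 2) / 2) * k (⟪ν, x⟫ + s)) := by
      intro s
      have e1 : ⟪ν, x + s • ν⟫ = ⟪ν, x⟫ + s := by
        rw [inner_add_right, inner_smul_right, real_inner_self_eq_norm_sq, hν]; ring
      have e2 : ‖x + s • ν‖ ^ 2 - (⟪ν, x⟫ + s) ^ 2 = ‖x‖ ^ 2 - ⟪ν, x⟫ ^ 2 := by
        rw [norm_add_sq_real, inner_smul_right, norm_smul, hν, real_inner_comm ν x, mul_one,
          Real.norm_eq_abs, sq_abs]; ring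
      simp only [f, e1, e2]
    have h2 : HasDerivAt (fun s : ℝ => k (⟪ν, x⟫ + s)) (-g ⟪ν, x⟫ * χ ⟪ν, x⟫ +
        G ⟪ν, x⟫ * deriv χ ⟪ν, x⟫) 0 := by
      have := (hk' (⟪ν, x⟫ + 0)).comp_const_add ⟪ν, x⟫ 0
      simpa using this
    have h3 := (h2.const_mul (Real.exp (-(‖x‖ ^ 2 - ⟪ν, x⟫ ^ 2) / 2))).const_mul
      (-(c * (2 * Real.pi)⁻¹))
    unfold lineDeriv
    simp_rw [h1]
    exact h3.deriv
  let Z : Plane → Plane := fun x => f x • ν
  have hZ1 : ContDiff ℝ 1 Z := hfd.smul contDiff_const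
  have hexp : ∀ x : Plane, (2 * Real.pi)⁻¹ * (Real.exp (-(‖x‖ ^ 2 - ⟪ν, x⟫ ^ 2) / 2) * g ⟪ν, x⟫) =
      dens x := by
    intro x
    unfold g dens
    rw [← Real.exp_add]
    congr 2; ring
  have hdiv : ∀ x, divg Z x = -(c * (2 * Real.pi)⁻¹) *
      (Real.exp (-(‖x‖ ^ 2 - ⟪ν, x⟫ ^ 2) / 2) * (-g ⟪ν, x⟫ * χ ⟪ν, x⟫ +
        G ⟪ν, x⟫ * deriv χ ⟪ν, x⟫)) := by
    intro x
    have h2 := divg_smul (Z := fun _ => ν) (hfd.differentiable (by norm_num) x)
      (by fun_prop : DifferentiableAt ℝ (fun _ : Plane => ν) x)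
    have h3 : divg Z x = divg (fun y => f y • ν) x := rfl
    rw [h3, h2, hff]
    simp [divg]
  have hZ3 : ∀ x, ‖Z x‖ ≤ dens x := by
    intro x
    have hk0 : 0 ≤ k ⟪ν, x⟫ := mul_nonneg (G_nonneg _) (hχ01 _).1
    have e1 : ‖Z x‖ = (2 * Real.pi)⁻¹ * (Real.exp (-(‖x‖ ^ 2 - ⟪ν, x⟫ ^ 2) / 2) *
        (c * k ⟪ν, x⟫)) := by
      simp only [Z, f, norm_smul, norm_mul, norm_neg, hν, mul_one]
      rw [Real.norm_of_nonneg hc0.le, Real.norm_of_nonneg (by positivity : (0:ℝ) ≤ (2 * Real.pi)⁻¹),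
        Real.norm_of_nonneg (Real.exp_pos _).le, Real.norm_of_nonneg hk0]
      ring
    rw [e1, ← hexp]
    gcongr
    exact hbound _
  have hint : Integrable (divg Z) := by
    obtain ⟨C, hC⟩ : ∃ C, ∀ t ∈ Icc (-(ρ + 1)) (-ρ), ‖deriv χ t‖ ≤ C :=
      isCompact_Icc.exists_bound_of_continuousOn (hχd.continuous_deriv (by norm_num)).continuousOn
    have hC0 : 0 ≤ C := (norm_nonneg _).trans (hC (-ρ) ⟨by linarith, le_rfl⟩)
    have hder0 : ∀ t, t ∉ Icc (-(ρ + 1)) (-ρ) → deriv χ t = 0 := by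
      intro t ht
      rw [mem_Icc, not_and_or, not_le, not_le] at ht
      rcases ht with ht | ht
      · have : χ =ᶠ[𝓝 t] fun _ => 0 := by
          filter_upwards [gt_mem_nhds ht] with s hs
          exact hχ0 s hs.le
        rw [this.deriv_eq]; simp
      · have : χ =ᶠ[𝓝 t] fun _ => 1 := by
          filter_upwards [lt_mem_nhds ht] with s hs
          exact hχ1 s (le_of_lt hs)
        rw [this.deriv_eq]; simp
    have hb2 : ∀ t, ‖-g t * χ t + G t * deriv χ t‖ ≤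
        (1 + √(2 * Real.pi) * C / g (ρ + 1)) * g t := by
      intro t
      refine (norm_add_le _ _).trans ?_
      rw [add_mul, one_mul]
      refine add_le_add ?_ ?_
      · rw [norm_mul, norm_neg, Real.norm_of_nonneg (g_pos t).le, Real.norm_of_nonneg (hχ01 t).1]
        exact mul_le_of_le_one_right (g_pos t).le (hχ01 t).2
      · by_cases ht : t ∈ Icc (-(ρ + 1)) (-ρ)
        · rw [norm_mul, Real.norm_of_nonneg (G_nonneg t)]
          have h1 : G t * ‖deriv χ t‖ ≤ √(2 * Real.pi) * C :=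
            mul_le_mul (G_le t) (hC t ht) (norm_nonneg _) hs.le
          have h2 : g (ρ + 1) ≤ g t := hgmono t ht.1 (by linarith [ht.2])
          rw [div_mul_eq_mul_div, le_div_iff₀ (g_pos _)]
          exact mul_le_mul h1 h2 (g_pos _).le (by positivity)
        · rw [hder0 t ht, mul_zero, norm_zero]
          have := g_pos t
          have := g_pos (ρ + 1)
          positivity
    refine (integrable_dens.const_mul (c * (1 + √(2 * Real.pi) * C / g (ρ + 1)))).mono'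
      (continuous_divg hZ1).aestronglyMeasurable (Eventually.of_forall fun x => ?_)
    rw [hdiv, norm_mul, norm_neg, norm_mul, norm_mul (Real.exp _), Real.norm_of_nonneg hc0.le,
      Real.norm_of_nonneg (by positivity : (0:ℝ) ≤ (2 * Real.pi)⁻¹),
      Real.norm_of_nonneg (Real.exp_pos _).le, ← hexp x]
    calc c * (2 * Real.pi)⁻¹ * (Real.exp (-(‖x‖ ^ 2 - ⟪ν, x⟫ ^ 2) / 2) *
          ‖-g ⟪ν, x⟫ * χ ⟪ν, x⟫ + G ⟪ν, x⟫ * deriv χ ⟪ν, x⟫‖)
        ≤ c * (2 * Real.pi)⁻¹ * (Real.exp (-(‖x‖ ^ 2 - ⟪ν, x⟫ ^ 2) / 2) *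
          ((1 + √(2 * Real.pi) * C / g (ρ + 1)) * g ⟪ν, x⟫)) := by gcongr; exact hb2 _
      _ = _ := by ring
  refine le_trans (ENNReal.ofReal_le_ofReal ?_) (le_perim_of_field hZ1 hZ3 hint)
  rw [← integral_const_mul]
  refine le_of_eq (setIntegral_congr_fun hA fun x hx => ?_)
  have h1 : -ρ < ⟪ν, x⟫ := h x hx
  have h2 : deriv χ ⟪ν, x⟫ = 0 := by
    have : χ =ᶠ[𝓝 ⟪ν, x⟫] fun _ => 1 := by
      filter_upwards [lt_mem_nhds h1] with s hs
      exact hχ1 s (le_of_lt hs)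
    rw [this.deriv_eq]; simp
  rw [hdiv, h2, hχ1 _ h1.le, ← hexp x]
  ring

end Pool.Agent.H911R2.Gauss
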