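import Pool.Agent.H911R2.GaussDefs

/-! Basic facts on the weighted perimeter. -/

set_option autoImplicit false

namespace Pool.Agent.H911R2.Gauss

open MeasureTheory Set Filter Topology
open scoped ENNReal ContDiff Manifold

lemma continuous_dens : Continuous dens := by unfold dens; fun_prop

lemma dens_pos (x : Plane) : 0 < dens x := by unfold dens; positivity

lemma fderiv_comp_apply {Z : Plane → Plane} {x : Plane} (hZ : DifferentiableAt ℝ Z x) (i : Fin 2)
    (v : Plane) : fderiv ℝ (fun y => Z y i) x v = (fderiv ℝ Z x v) i := by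
  have h2 : HasFDerivAt (fun y => Z y i)
      ((EuclideanSpace.proj i : Plane →L[ℝ] ℝ).comp (fderiv ℝ Z x)) x :=
    (EuclideanSpace.proj i : Plane →L[ℝ] ℝ).hasFDerivAt.comp x hZ.hasFDerivAt
  rw [h2.fderiv]
  rfl

lemma continuous_divg {Z : Plane → Plane} (hZ : ContDiff ℝ 1 Z) : Continuous (divg Z) := by
  unfold divg
  refine continuous_finsetSum _ fun i _ => ?_
  have h1 : Continuous (fun x => fderiv ℝ Z x) := hZ.continuous_fderiv (by norm_num)
  have h2 : Continuous fun x => fderiv ℝ Z x (EuclideanSpace.single i 1) :=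
    h1.clm_apply continuous_const
  fun_prop

lemma hasCompactSupport_divg {Z : Plane → Plane} (hc : HasCompactSupport Z) :
    HasCompactSupport (divg Z) := by
  have h := hc.fderiv ℝ
  exact h.comp_left (g := fun L : Plane →L[ℝ] Plane =>
    ∑ i : Fin 2, (L (EuclideanSpace.single i 1)) i) (by simp)

lemma integrable_divg {Z : Plane → Plane} (hZ : ContDiff ℝ 1 Z) (hc : HasCompactSupport Z) :
    Integrable (divg Z) :=
  (continuous_divg hZ).integrable_of_hasCompactSupport (hasCompactSupport_divg hc)

lemma integral_fderiv_zero {g : Plane → ℝ} (hg : ContDiff ℝ 1 g) (hc : HasCompactSupport g)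
    (v : Plane) : ∫ x, fderiv ℝ g x v = 0 := by
  have h1 : Continuous (fun x => fderiv ℝ g x v) :=
    (hg.continuous_fderiv (by norm_num)).clm_apply continuous_const
  have h2 : HasCompactSupport (fun x => fderiv ℝ g x v) :=
    (hc.fderiv ℝ).comp_left (g := fun L : Plane →L[ℝ] ℝ => L v) (by simp)
  have h := integral_mul_fderiv_eq_neg_fderiv_mul_of_integrable (μ := (volume : Measure Plane))
    (f := fun _ : Plane => (1 : ℝ)) (g := g) (v := v) (by simp)
    (by simpa using h1.integrable_of_hasCompactSupport h2)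
    (by simpa using hg.continuous.integrable_of_hasCompactSupport hc)
    (fun x _ => by fun_prop) (fun x _ => (hg.differentiable (by norm_num)).differentiableAt)
  simpa using h

lemma integral_divg_zero {Z : Plane → Plane} (hZ : ContDiff ℝ 1 Z) (hc : HasCompactSupport Z) :
    ∫ x, divg Z x = 0 := by
  have hd : ∀ x, DifferentiableAt ℝ Z x := fun x => (hZ.differentiable (by norm_num)) x
  have h1 : ∀ x, divg Z x = ∑ i : Fin 2, fderiv ℝ (fun y => Z y i) x (EuclideanSpace.single i 1) :=
    fun x => Finset.sum_congr rfl fun i _ => (fderiv_comp_apply (hd x) i _).symm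
  simp_rw [h1]
  have hZi : ∀ i : Fin 2, ContDiff ℝ 1 (fun y => Z y i) := fun i =>
    (contDiff_euclidean.1 hZ i)
  have hci : ∀ i : Fin 2, HasCompactSupport (fun y => Z y i) := fun i =>
    hc.comp_left (g := fun z : Plane => z i) (by simp)
  rw [integral_finsetSum]
  · exact Finset.sum_eq_zero fun i _ => integral_fderiv_zero (hZi i) (hci i) _
  · intro i _
    have h1 : Continuous (fun x => fderiv ℝ (fun y => Z y i) x (EuclideanSpace.single i 1)) :=
      ((hZi i).continuous_fderiv (by norm_num)).clm_apply continuous_const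
    have h2 : HasCompactSupport
        (fun x => fderiv ℝ (fun y => Z y i) x (EuclideanSpace.single i 1)) :=
      ((hci i).fderiv ℝ).comp_left
        (g := fun L : Plane →L[ℝ] ℝ => L (EuclideanSpace.single i 1)) (by simp)
    exact h1.integrable_of_hasCompactSupport h2

/-- The type of admissible test fields. -/
def Test : Type := {Z : Plane → Plane // ContDiff ℝ 1 Z ∧ HasCompactSupport Z ∧ ∀ x, ‖Z x‖ ≤ dens x}

lemma le_perim {A : Set Plane} {Z : Plane → Plane} (h1 : ContDiff ℝ 1 Z)
    (h2 : HasCompactSupport Z) (h3 : ∀ x, ‖Z x‖ ≤ dens x) :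
    ENNReal.ofReal (∫ x in A, divg Z x) ≤ perim A :=
  le_iSup (fun Z : {Z : Plane → Plane // ContDiff ℝ 1 Z ∧ HasCompactSupport Z ∧
    ∀ x, ‖Z x‖ ≤ dens x} => ENNReal.ofReal (∫ x in A, divg Z.1 x)) ⟨Z, h1, h2, h3⟩

lemma perim_le {A : Set Plane} {c : ℝ≥0∞} (h : ∀ Z : Plane → Plane, ContDiff ℝ 1 Z →
    HasCompactSupport Z → (∀ x, ‖Z x‖ ≤ dens x) → ENNReal.ofReal (∫ x in A, divg Z x) ≤ c) :
    perim A ≤ c :=
  iSup_le fun Z => h Z.1 Z.2.1 Z.2.2.1 Z.2.2.2

lemma perim_congr {A B : Set Plane} (h : A =ᵐ[volume] B) : perim A = perim B := by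
  unfold perim
  congr 1
  ext Z
  rw [setIntegral_congr_set h]

lemma perim_empty : perim ∅ = 0 := by
  unfold perim
  simp

lemma divg_neg (Z : Plane → Plane) (x : Plane) : divg (fun y => -Z y) x = -divg Z x := by
  unfold divg
  have : fderiv ℝ (fun y => -Z y) x = -fderiv ℝ Z x := fderiv_neg
  rw [this]
  simp

lemma perim_compl_le {A : Set Plane} (hA : MeasurableSet A) : perim Aᶜ ≤ perim A := by
  refine perim_le fun Z h1 h2 h3 => ?_
  have h4 : ∫ x in Aᶜ, divg Z x = ∫ x in A, divg (fun y => -Z y) x := by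
    have := integral_add_compl hA (integrable_divg h1 h2)
    rw [integral_divg_zero h1 h2] at this
    simp_rw [divg_neg]
    rw [integral_neg]
    linarith
  rw [h4]
  exact le_perim h1.neg (h2.comp_left (g := fun z : Plane => -z) (by simp))
    (fun x => by simpa using h3 x)

lemma perim_compl {A : Set Plane} (hA : MeasurableSet A) : perim Aᶜ = perim A :=
  le_antisymm (perim_compl_le hA) (by simpa using perim_compl_le hA.compl)

lemma perim_union_le {A B : Set Plane} (hB : MeasurableSet B)
    (h : volume (A ∩ B) = 0) : perim (A ∪ B) ≤ perim A + perim B := by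
  refine perim_le fun Z h1 h2 h3 => ?_
  rw [setIntegral_union₀ (show AEDisjoint volume A B from h) hB.nullMeasurableSet
    (integrable_divg h1 h2).integrableOn (integrable_divg h1 h2).integrableOn]
  exact ENNReal.ofReal_add_le.trans (add_le_add (le_perim h1 h2 h3) (le_perim h1 h2 h3))

end Pool.Agent.H911R2.Gauss
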