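import Pool.Agent.H911R2.GaussPigeon
import Pool.Agent.H911R2.GaussPerim

/-! From a partition whose interface is a finite straight network to the open sets of `Net`. -/

set_option autoImplicit false

namespace Pool.Agent.H911R2.Gauss

open Set Filter Topology Metric MeasureTheory
open scoped RealInnerProductSpace

/-- Rotation by 90 degrees. -/
noncomputable def rot (u : Plane) : Plane := !₂[-(u 1), u 0]

lemma inner_eq (a b : Plane) : ⟪a, b⟫ = a 0 * b 0 + a 1 * b 1 := by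
  simp [PiLp.inner_apply, Fin.sum_univ_two]
  ring

lemma rot_zero (u : Plane) : rot u 0 = -u 1 := rfl
lemma rot_one (u : Plane) : rot u 1 = u 0 := rfl

lemma norm_rot (u : Plane) : ‖rot u‖ = ‖u‖ := by
  rw [EuclideanSpace.norm_eq, EuclideanSpace.norm_eq, Fin.sum_univ_two, Fin.sum_univ_two,
    rot_zero, rot_one, norm_neg, add_comm]

lemma inner_rot_self (u : Plane) : ⟪rot u, u⟫ = 0 := by
  rw [inner_eq, rot_zero, rot_one]; ring

lemma inner_rot_comm (u v : Plane) : ⟪rot u, v⟫ = -⟪rot v, u⟫ := by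
  rw [inner_eq, inner_eq, rot_zero, rot_one, rot_zero, rot_one]; ring

lemma rot_neg (u : Plane) : rot (-u) = -rot u := by
  ext i; fin_cases i <;> simp [rot]

lemma rot_sum (W : Fin 3 → Plane) (h : ∑ k, W k = 0) : ∑ k, rot (W k) = 0 := by
  rw [Fin.sum_univ_three] at h ⊢
  have h0 := congrArg (fun v : Plane => v 0) h
  have h1 := congrArg (fun v : Plane => v 1) h
  simp at h0 h1
  ext i
  fin_cases i
  · simp [rot]; linarith
  · simp [rot]; linarith

lemma onb_rot {u : Plane} (hu : ‖u‖ = 1) (v : Plane) : v = ⟪rot u, v⟫ • rot u + ⟪u, v⟫ • u :=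
  onb (by rw [norm_rot, hu]) hu (inner_rot_self u) v

lemma Edge.mem_carrier (e : Edge) (x : Plane) :
    x ∈ e.carrier ↔ ⟪rot e.u, x - e.a⟫ = 0 ∧ ⟪e.u, x - e.a⟫ ∈ e.I := by
  have huu : ⟪e.u, e.u⟫ = 1 := by rw [real_inner_self_eq_norm_sq, e.norm_u]; norm_num
  constructor
  · rintro ⟨t, ht, rfl⟩
    rw [add_sub_cancel_left, inner_smul_right, inner_smul_right, inner_rot_self, huu, mul_zero,
      mul_one]
    exact ⟨rfl, ht⟩
  · rintro ⟨h1, h2⟩
    refine ⟨_, h2, ?_⟩
    have := onb_rot e.norm_u (x - e.a)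
    rw [h1, zero_smul, zero_add] at this
    rw [← this]; abel

lemma Edge.isClosed_I (e : Edge) : IsClosed e.I := by
  rcases e.shape with ⟨l, -, h⟩ | h | h <;> rw [h]
  · exact isClosed_Icc
  · exact isClosed_Ici
  · exact isClosed_univ

lemma Edge.isClosed_carrier (e : Edge) : IsClosed e.carrier := by
  have : e.carrier = {x | ⟪rot e.u, x - e.a⟫ = 0} ∩ (fun x => ⟪e.u, x - e.a⟫) ⁻¹' e.I := by
    ext x; rw [e.mem_carrier]; rfl
  rw [this]
  exact (isClosed_eq (by fun_prop) continuous_const).inter (e.isClosed_I.preimage (by fun_prop))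

lemma Icc_ne_univ (l : ℝ) : Icc 0 l ≠ (univ : Set ℝ) := by
  intro h
  have : (-1 : ℝ) ∈ Icc 0 l := by rw [h]; trivial
  linarith [this.1]

lemma Ici_ne_univ : Ici (0 : ℝ) ≠ (univ : Set ℝ) := by
  intro h
  have : (-1 : ℝ) ∈ Ici (0 : ℝ) := by rw [h]; trivial
  rw [mem_Ici] at this
  linarith

lemma Edge.local_interior (e : Edge) {x : Plane} (hx : x ∈ e.carrier) (hend : ∀ w, ¬ e.IsEnd x w) :
    ∀ᶠ y in 𝓝 x, (y ∈ e.carrier ↔ ⟪rot e.u, y - x⟫ = 0) := by
  have huu : ⟪e.u, e.u⟫ = 1 := by rw [real_inner_self_eq_norm_sq, e.norm_u]; norm_num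
  obtain ⟨h1, h2⟩ := (e.mem_carrier x).1 hx
  obtain ⟨t, ht, hxt⟩ := hx
  have htt : ⟪e.u, x - e.a⟫ = t := by
    rw [hxt, add_sub_cancel_left, inner_smul_right, huu, mul_one]
  have hI : e.I ∈ 𝓝 t := by
    rcases e.shape with ⟨l, hl, h⟩ | h | h
    · rw [h] at ht ⊢
      have ht0 : t ≠ 0 := by
        rintro rfl
        refine hend e.u (Or.inl ⟨by rw [h]; exact Icc_ne_univ l, ?_, rfl⟩)
        rw [hxt]; simp
      have htl : t ≠ l := by
        rintro rfl
        exact hend (-e.u) (Or.inr ⟨t, hl, h, hxt, rfl⟩)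
      exact Icc_mem_nhds (lt_of_le_of_ne ht.1 (Ne.symm ht0)) (lt_of_le_of_ne ht.2 htl)
    · rw [h] at ht ⊢
      have ht0 : t ≠ 0 := by
        rintro rfl
        refine hend e.u (Or.inl ⟨by rw [h]; exact Ici_ne_univ, ?_, rfl⟩)
        rw [hxt]; simp
      exact Ici_mem_nhds (lt_of_le_of_ne ht (Ne.symm ht0))
    · rw [h]; exact univ_mem
  have hc : ContinuousAt (fun y : Plane => ⟪e.u, y - e.a⟫) x := by fun_prop
  have hev : ∀ᶠ y in 𝓝 x, ⟪e.u, y - e.a⟫ ∈ e.I := by
    apply hc.eventually_mem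
    rw [htt]; exact hI
  filter_upwards [hev] with y hy
  rw [e.mem_carrier]
  have e1 : y - e.a = (y - x) + (x - e.a) := by abel
  have e2 : ⟪rot e.u, y - e.a⟫ = ⟪rot e.u, y - x⟫ := by rw [e1, inner_add_right, h1, add_zero]
  rw [e2]
  exact ⟨fun h => h.1, fun h => ⟨h, hy⟩⟩

lemma Edge.IsEnd.mem {e : Edge} {p w : Plane} (h : e.IsEnd p w) : p ∈ e.carrier := by
  rcases h with ⟨hI, hp, -⟩ | ⟨l, hl, hI, hp, -⟩
  · refine ⟨0, ?_, by rw [hp]; simp⟩
    rcases e.shape with ⟨l, hl, h⟩ | h | h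
    · rw [h]; exact ⟨le_rfl, hl.le⟩
    · rw [h]; exact self_mem_Ici
    · rw [h]; trivial
  · exact ⟨l, by rw [hI]; exact ⟨hl.le, le_rfl⟩, hp⟩

lemma Edge.IsEnd.norm {e : Edge} {p w : Plane} (h : e.IsEnd p w) : ‖w‖ = 1 := by
  rcases h with ⟨-, -, hw⟩ | ⟨l, -, -, -, hw⟩
  · rw [hw, e.norm_u]
  · rw [hw, norm_neg, e.norm_u]

lemma Edge.IsEnd.local {e : Edge} {p w : Plane} (h : e.IsEnd p w) :
    ∀ᶠ y in 𝓝 p, (y ∈ e.carrier ↔ ⟪rot w, y - p⟫ = 0 ∧ 0 ≤ ⟪w, y - p⟫) := by
  have huu : ⟪e.u, e.u⟫ = 1 := by rw [real_inner_self_eq_norm_sq, e.norm_u]; norm_num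
  rcases h with ⟨hI, rfl, rfl⟩ | ⟨l, hl, hI, rfl, rfl⟩
  · have hcont : ContinuousAt (fun y : Plane => ⟪e.u, y - e.a⟫) e.a := by fun_prop
    rcases e.shape with ⟨l, hl, h⟩ | h | h
    · have hev : ∀ᶠ y in 𝓝 e.a, ⟪e.u, y - e.a⟫ < l := by
        refine hcont.eventually_mem (isOpen_Iio.mem_nhds ?_)
        rw [mem_Iio, sub_self, inner_zero_right]; exact hl
      filter_upwards [hev] with y hy
      rw [e.mem_carrier, h]
      exact ⟨fun h2 => ⟨h2.1, h2.2.1⟩, fun h2 => ⟨h2.1, h2.2, hy.le⟩⟩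
    · refine Eventually.of_forall fun y => ?_
      rw [e.mem_carrier, h]; rfl
    · exact absurd h hI
  · have hcont : ContinuousAt (fun y : Plane => ⟪e.u, y - (e.a + l • e.u)⟫) (e.a + l • e.u) := by
      fun_prop
    have hev : ∀ᶠ y in 𝓝 (e.a + l • e.u), -l < ⟪e.u, y - (e.a + l • e.u)⟫ := by
      refine hcont.eventually_mem (isOpen_Ioi.mem_nhds ?_)
      rw [mem_Ioi, sub_self, inner_zero_right]; linarith
    filter_upwards [hev] with y hy
    rw [e.mem_carrier, hI, rot_neg, inner_neg_left, inner_neg_left]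
    have e1 : y - e.a = (y - (e.a + l • e.u)) + l • e.u := by abel
    have e2 : ⟪rot e.u, y - e.a⟫ = ⟪rot e.u, y - (e.a + l • e.u)⟫ := by
      rw [e1, inner_add_right, inner_smul_right, inner_rot_self, mul_zero, add_zero]
    have e3 : ⟪e.u, y - e.a⟫ = ⟪e.u, y - (e.a + l • e.u)⟫ + l := by
      rw [e1, inner_add_right, inner_smul_right, huu, mul_one]
    rw [e2, e3, mem_Icc, neg_eq_zero]
    constructor
    · rintro ⟨h1, h2, h3⟩
      exact ⟨h1, by linarith⟩
    · rintro ⟨h1, h2⟩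
      exact ⟨h1, by linarith, by linarith⟩

lemma network_local {m : ℕ} {e : Fin m → Edge} (he : IsNetwork e) {x : Plane}
    (hx : x ∈ ⋃ k, (e k).carrier) :
    (∃ ν, Reg (⋃ k, (e k).carrier) x ν) ∨ ∃ ν, Trip (⋃ k, (e k).carrier) x ν := by
  obtain ⟨he1, he2⟩ := he
  have hfar : ∀ k, x ∉ (e k).carrier → ∀ᶠ y in 𝓝 x, y ∉ (e k).carrier := fun k hk =>
    (e k).isClosed_carrier.isOpen_compl.mem_nhds hk
  by_cases hend : ∃ k w, (e k).IsEnd x w
  · right
    obtain ⟨k, w, hkw⟩ := hend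
    obtain ⟨K, W, hKinj, hKW, hall, hang⟩ := he2 x k w hkw
    have hWn : ∀ i, ‖W i‖ = 1 := fun i => (hKW i).norm
    have hWW : ∀ i, ⟪W i, W i⟫ = 1 := fun i => by
      rw [real_inner_self_eq_norm_sq, hWn]; norm_num
    have hWin : ∀ i j, i ≠ j → ⟪W i, W j⟫ = -1 / 2 := by
      intro i j hij
      have h1 := InnerProductGeometry.cos_angle (W i) (W j)
      rw [hang i j hij, hWn, hWn, mul_one, div_one] at h1
      rw [← h1]
      have : 2 * Real.pi / 3 = Real.pi - Real.pi / 3 := by ring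
      rw [this, Real.cos_pi_sub, Real.cos_pi_div_three]; norm_num
    have hWsum : ∑ i, W i = 0 := by
      rw [← norm_eq_zero, ← sq_eq_zero_iff, ← real_inner_self_eq_norm_sq, Fin.sum_univ_three]
      simp only [inner_add_left, inner_add_right, hWW]
      rw [hWin 0 1 (by decide), hWin 0 2 (by decide), hWin 1 0 (by decide), hWin 1 2 (by decide),
        hWin 2 0 (by decide), hWin 2 1 (by decide)]
      norm_num
    set D : ℝ := ⟪rot (W 0), W 1⟫ with hD
    have hDk : ∀ i, ⟪rot (W (i + 1)), W i⟫ = -D := by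
      have hs : W 2 = -(W 0) - W 1 := by
        rw [Fin.sum_univ_three] at hWsum
        rw [eq_sub_iff_add_eq, eq_neg_iff_add_eq_zero]
        rw [← hWsum]; abel
      intro i
      fin_cases i
      · change ⟪rot (W 1), W 0⟫ = -D
        rw [inner_rot_comm]
      · change ⟪rot (W 2), W 1⟫ = -D
        rw [inner_rot_comm, hs, inner_sub_right, inner_neg_right, inner_rot_self,
          inner_rot_comm (W 1) (W 0)]
        rw [hD]; ring
      · change ⟪rot (W 0), W 2⟫ = -D
        rw [hs, inner_sub_right, inner_neg_right, inner_rot_self, ← hD]; ring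
    have hD0 : D ≠ 0 := by
      intro h0
      have h1 := onb_rot (hWn 0) (W 1)
      rw [← hD, h0, zero_smul, zero_add, hWin 0 1 (by decide)] at h1
      have h2 := congrArg norm h1
      rw [norm_smul, hWn, hWn] at h2
      norm_num at h2
    -- the sign
    obtain ⟨σ, hσ1, hσ2⟩ : ∃ σ : ℝ, |σ| = 1 ∧ 0 < σ * D := by
      rcases lt_or_gt_of_ne hD0 with h | h
      · exact ⟨-1, by simp, by linarith⟩
      · exact ⟨1, by simp, by linarith⟩
    refine ⟨fun i => σ • rot (W i), fun i => ?_, ?_, ?_⟩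
    · rw [norm_smul, norm_rot, hWn, Real.norm_eq_abs, hσ1, mul_one]
    · rw [← Finset.smul_sum, rot_sum W hWsum, smul_zero]
    · have hσ0 : σ ≠ 0 := by rintro rfl; simp at hσ1
      have hothers : ∀ l, (∀ i, l ≠ K i) → ∀ᶠ y in 𝓝 x, y ∉ (e l).carrier := by
        intro l hl
        apply hfar
        intro hxl
        obtain ⟨⟨w', hw'⟩, -⟩ := he1 l (K 0) (hl 0) x ⟨hxl, (hKW 0).mem⟩
        obtain ⟨i, hi⟩ := hall l w' hw'
        exact hl i hi
      have hev1 : ∀ᶠ y in 𝓝 x, ∀ l, (∀ i, l ≠ K i) → y ∉ (e l).carrier := by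
        rw [Filter.eventually_all]
        intro l
        by_cases hl : ∀ i, l ≠ K i
        · filter_upwards [hothers l hl] with y hy _ using hy
        · exact Eventually.of_forall fun y h => absurd h hl
      have hev2 : ∀ᶠ y in 𝓝 x, ∀ i, (y ∈ (e (K i)).carrier ↔
          ⟪rot (W i), y - x⟫ = 0 ∧ 0 ≤ ⟪W i, y - x⟫) := by
        rw [Filter.eventually_all]
        exact fun i => (hKW i).local
      filter_upwards [hev1, hev2] with y hy1 hy2
      have hiff : ∀ i, (⟪rot (W i), y - x⟫ = 0 ∧ 0 ≤ ⟪W i, y - x⟫) ↔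
          (⟪σ • rot (W i), y - x⟫ = 0 ∧ ⟪σ • rot (W (i + 1)), y - x⟫ ≤ 0) := by
        intro i
        rw [inner_smul_left, inner_smul_left]
        simp only [conj_trivial]
        have h3 : σ * ⟪rot (W i), y - x⟫ = 0 ↔ ⟪rot (W i), y - x⟫ = 0 := by
          rw [mul_eq_zero, or_iff_right hσ0]
        rw [h3]
        refine and_congr_right fun h4 => ?_
        have h5 := onb_rot (hWn i) (y - x)
        rw [h4, zero_smul, zero_add] at h5
        have h6 : ⟪rot (W (i + 1)), y - x⟫ = ⟪W i, y - x⟫ * (-D) := by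
          conv_lhs => rw [h5]
          rw [inner_smul_right, hDk]
        rw [h6]
        constructor
        · intro h7
          have := mul_nonneg h7 hσ2.le
          linarith
        · intro h7
          by_contra hcon; push Not at hcon
          have := mul_neg_of_neg_of_pos hcon hσ2
          linarith
      rw [mem_iUnion]
      constructor
      · rintro ⟨l, hl⟩
        by_cases hlK : ∀ i, l ≠ K i
        · exact absurd hl (hy1 l hlK)
        · push Not at hlK
          obtain ⟨i, rfl⟩ := hlK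
          exact ⟨i, (hiff i).1 ((hy2 i).1 hl)⟩
      · rintro ⟨i, hi⟩
        exact ⟨K i, (hy2 i).2 ((hiff i).2 hi)⟩
  · left
    push Not at hend
    obtain ⟨k, hk⟩ := mem_iUnion.1 hx
    have hothers : ∀ l, l ≠ k → x ∉ (e l).carrier := by
      intro l hl hxl
      obtain ⟨⟨w', hw'⟩, -⟩ := he1 l k hl x ⟨hxl, hk⟩
      exact hend l w' hw'
    refine ⟨rot (e k).u, by rw [norm_rot, (e k).norm_u], ?_⟩
    have hev1 : ∀ᶠ y in 𝓝 x, ∀ l, l ≠ k → y ∉ (e l).carrier := by
      rw [Filter.eventually_all]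
      intro l
      by_cases hl : l = k
      · exact Eventually.of_forall fun y h => absurd hl h
      · filter_upwards [hfar l (hothers l hl)] with y hy _ using hy
    filter_upwards [hev1, (e k).local_interior hk (hend k)] with y hy1 hy2
    rw [mem_iUnion, ← hy2]
    constructor
    · rintro ⟨l, hl⟩
      by_cases hlk : l = k
      · rw [← hlk]; exact hl
      · exact absurd hl (hy1 l hlk)
    · exact fun h => ⟨k, h⟩

end Pool.Agent.H911R2.Gauss
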