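import Pool.Agent.H911R2.GaussUpper

/-! The comparison partition: a half-plane, and the complementary half-plane cut into strips. -/

set_option autoImplicit false

namespace Pool.Agent.H911R2.Gauss

open MeasureTheory Set Filter Topology
open scoped ENNReal

lemma s2pi_pos : 0 < √(2 * Real.pi) := by positivity

lemma s2pi_sq : √(2 * Real.pi) * √(2 * Real.pi) = 2 * Real.pi :=
  Real.mul_self_sqrt (by positivity)

lemma inv_2pi : (2 * Real.pi)⁻¹ = (√(2 * Real.pi))⁻¹ * (√(2 * Real.pi))⁻¹ := by
  rw [← mul_inv, s2pi_sq]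

lemma integral_Iio_g (y : ℝ) : ∫ u in Iio y, g u = √(2 * Real.pi) - G y := by
  rw [setIntegral_congr_set Iio_ae_eq_Iic, ← G_add y]; ring

lemma integral_Ici_g (y : ℝ) : ∫ u in Ici y, g u = G y := by
  rw [← setIntegral_congr_set Ioi_ae_eq_Ici]; rfl

/-- The Gaussian distribution function. -/
noncomputable def cum (y : ℝ) : ℝ := 1 - G y / √(2 * Real.pi)

lemma cum_strictMono : StrictMono cum := by
  intro a b hab
  unfold cum
  have := div_lt_div_of_pos_right (G_strictAnti hab) s2pi_pos
  linarith

lemma cum_continuous : Continuous cum := by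
  unfold cum
  exact continuous_const.sub (continuous_G.div_const _)

lemma cum_lt_one (y : ℝ) : cum y < 1 := by
  unfold cum
  have := div_pos (G_pos y) s2pi_pos
  linarith

lemma cum_nonneg (y : ℝ) : 0 ≤ cum y := by
  unfold cum
  have := (div_le_one s2pi_pos).2 (G_le y)
  linarith

lemma cum_tendsto_atTop : Tendsto cum atTop (𝓝 1) := by
  unfold cum
  have := (tendsto_const_nhds (x := (1 : ℝ))).sub (tendsto_G_atTop.div_const √(2 * Real.pi))
  simpa using this

lemma cum_tendsto_atBot : Tendsto cum atBot (𝓝 0) := by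
  unfold cum
  have := (tendsto_const_nhds (x := (1 : ℝ))).sub (tendsto_G_atBot.div_const √(2 * Real.pi))
  rw [div_self s2pi_pos.ne', sub_self] at this
  exact this

lemma integral_cum_lt {t : ℝ} (h0 : 0 ≤ t) (h1 : t ≤ 1) :
    ∫ y in {y | cum y < t}, g y = √(2 * Real.pi) * t := by
  rcases eq_or_lt_of_le h0 with h0 | h0
  · have : {y | cum y < t} = ∅ := by
      ext y; simp only [mem_ofPred_eq, mem_empty_iff_false, iff_false, not_lt]
      rw [← h0]; exact cum_nonneg y
    rw [this, ← h0]; simp
  rcases eq_or_lt_of_le h1 with h1 | h1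
  · have : {y | cum y < t} = univ := by
      ext y; simp only [mem_ofPred_eq, mem_univ, iff_true]
      rw [h1]; exact cum_lt_one y
    rw [this, h1, Measure.restrict_univ, integral_g, mul_one]
  · obtain ⟨y, hy⟩ : ∃ y, cum y = t := by
      obtain ⟨a, ha⟩ := (cum_tendsto_atBot.eventually (gt_mem_nhds h0)).exists
      obtain ⟨b, hb⟩ := (cum_tendsto_atTop.eventually (lt_mem_nhds h1)).exists
      exact mem_range_of_exists_le_of_exists_ge cum_continuous ⟨a, ha.le⟩ ⟨b, hb.le⟩
    have : {y | cum y < t} = Iio y := by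
      ext z
      simp only [mem_ofPred_eq, mem_Iio]
      rw [← hy]; exact cum_strictMono.lt_iff_lt
    rw [this, integral_Iio_g, ← hy]
    unfold cum
    field_simp

section comp

variable {m : ℕ} (w : Fin m → ℝ)

/-- Partial sums of the weights. -/
noncomputable def psum (k : ℕ) : ℝ := ∑ i ∈ Finset.range k, if h : i < m then w ⟨i, h⟩ else 0

lemma psum_zero : psum w 0 = 0 := by simp [psum]

lemma psum_succ (k : Fin m) : psum w (k + 1) = psum w k + w k := by
  unfold psum
  rw [Finset.sum_range_succ, dif_pos k.2]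

lemma psum_last : psum w m = ∑ i, w i := by
  unfold psum
  rw [← Fin.sum_univ_eq_sum_range (fun i => if h : i < m then w ⟨i, h⟩ else 0) m]
  exact Finset.sum_congr rfl fun i _ => by rw [dif_pos i.2]

lemma psum_mono (hw : ∀ i, 0 < w i) : Monotone (psum w) := by
  refine monotone_nat_of_le_succ fun k => ?_
  unfold psum
  rw [Finset.sum_range_succ]
  split_ifs with h
  · have := hw ⟨k, h⟩; linarith
  · linarith

/-- The intervals cut out by the weights. -/
def Jset (k : ℕ) : Set ℝ := {y | psum w k ≤ cum y ∧ cum y < psum w (k + 1)}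

lemma Jset_eq (k : ℕ) : Jset w k = cum ⁻¹' Ico (psum w k) (psum w (k + 1)) := rfl

lemma Jset_measurable (k : ℕ) : MeasurableSet (Jset w k) := by
  rw [Jset_eq]; exact cum_continuous.measurable measurableSet_Ico

lemma Jset_ordConnected (k : ℕ) : (Jset w k).OrdConnected := by
  rw [Jset_eq]; exact ordConnected_Ico.preimage_mono cum_strictMono.monotone

lemma Jset_disjoint (hw : ∀ i, 0 < w i) {k l : ℕ} (hkl : k ≠ l) {y : ℝ} (h1 : y ∈ Jset w k)
    (h2 : y ∈ Jset w l) : False := by
  rcases lt_or_gt_of_ne hkl with h | h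
  · have := psum_mono w hw (Nat.succ_le_of_lt h)
    have h3 := h1.2
    have h4 := h2.1
    simp only [Nat.succ_eq_add_one] at this
    linarith
  · have := psum_mono w hw (Nat.succ_le_of_lt h)
    have h3 := h2.2
    have h4 := h1.1
    simp only [Nat.succ_eq_add_one] at this
    linarith

lemma Jset_cover (hsum : ∑ i, w i = 1) (y : ℝ) : ∃ k : Fin m, y ∈ Jset w k := by
  classical
  have hex : ∃ k, cum y < psum w k := ⟨m, by rw [psum_last, hsum]; exact cum_lt_one y⟩
  have h1 := Nat.find_spec hex
  have h2 : Nat.find hex ≤ m := Nat.find_min' hex (by rw [psum_last, hsum]; exact cum_lt_one y)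
  have h3 : Nat.find hex ≠ 0 := by
    intro h0
    rw [h0, psum_zero] at h1
    have := cum_nonneg y
    linarith
  obtain ⟨k, hk⟩ := Nat.exists_eq_succ_of_ne_zero h3
  have hkm : k < m := by omega
  refine ⟨⟨k, hkm⟩, ?_, ?_⟩
  · have := Nat.find_min hex (m := k) (by omega)
    exact not_lt.1 this
  · rw [hk] at h1; exact h1

lemma integral_Jset (hw : ∀ i, 0 < w i) (hsum : ∑ i, w i = 1) (k : Fin m) :
    ∫ y in Jset w k, g y = √(2 * Real.pi) * w k := by
  have h0 : ∀ k, 0 ≤ psum w k := fun k => by
    rw [← psum_zero w]; exact psum_mono w hw (Nat.zero_le k)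
  have h1 : ∀ k, k ≤ m → psum w k ≤ 1 := fun k hk => by
    rw [← hsum, ← psum_last]; exact psum_mono w hw hk
  have hunion : {y | cum y < psum w (k + 1)} = {y | cum y < psum w k} ∪ Jset w k := by
    ext y
    simp only [mem_ofPred_eq, mem_union, Jset]
    constructor
    · intro h
      by_cases h2 : cum y < psum w k
      · exact Or.inl h2
      · exact Or.inr ⟨not_lt.1 h2, h⟩
    · rintro (h | h)
      · exact h.trans_le (psum_mono w hw (Nat.le_succ _))
      · exact h.2
  have hdis : Disjoint {y | cum y < psum w k} (Jset w k) := by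
    rw [Set.disjoint_left]
    intro y h2 h3
    exact absurd h3.1 (not_le.2 h2)
  have h2 := integral_cum_lt (h0 (k + 1)) (h1 (k + 1) k.2)
  rw [hunion, setIntegral_union hdis (Jset_measurable w k) integrable_g.integrableOn
    integrable_g.integrableOn, integral_cum_lt (h0 k) (h1 k k.2.le), psum_succ] at h2
  linarith

end comp

lemma locFin_of_perim {A : Set Plane} (h : perim A ≠ ⊤) : LocFinPerim A := by
  intro R
  set R' := max R 0 with hR'
  have hR0 : 0 ≤ R' := le_max_right _ _
  set c : ℝ := (2 * Real.pi)⁻¹ * g R' with hc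
  have hc0 : 0 < c := mul_pos (by positivity) (g_pos _)
  refine ⟨(perim A).toReal / c, fun Z hZ1 hZ2 hZ3 => ?_⟩
  have hcs : HasCompactSupport Z := by
    refine HasCompactSupport.intro (isCompact_closedBall (0 : Plane) R') fun x hx => ?_
    apply hZ2
    rw [Metric.mem_closedBall, dist_zero_right, not_le] at hx
    exact ((le_max_left _ _).trans_lt hx).le
  have h1 : ContDiff ℝ 1 (fun x => c • Z x) := hZ1.const_smul c
  have h2 : HasCompactSupport (fun x => c • Z x) := hcs.smul_left (f := fun _ => c)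
  have h3 : ∀ x, ‖c • Z x‖ ≤ dens x := by
    intro x
    by_cases hx : R' ≤ ‖x‖
    · rw [hZ2 x ((le_max_left _ _).trans hx), smul_zero, norm_zero]; exact (dens_pos x).le
    · push Not at hx
      rw [norm_smul, Real.norm_of_nonneg hc0.le]
      calc c * ‖Z x‖ ≤ c * 1 := by gcongr; exact hZ3 x
        _ = c := mul_one c
        _ ≤ dens x := by
          rw [dens_eq', hc]
          gcongr
          unfold g
          rw [Real.exp_le_exp]
          have : ‖x‖ ^ 2 ≤ R' ^ 2 := by gcongr
          linarith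
  have h4 : ∀ x, divg (fun x => c • Z x) x = c * divg Z x := by
    intro x
    have := divg_smul (f := fun _ => c) (Z := Z) (x := x) (by fun_prop)
      ((hZ1.differentiable one_ne_zero) x)
    rw [this]
    simp
  have h5 := le_perim (A := A) h1 h2 h3
  simp_rw [h4] at h5
  rw [integral_const_mul] at h5
  have h6 := (ENNReal.ofReal_le_iff_le_toReal h).1 h5
  rw [le_div_iff₀ hc0]
  linarith

/-- The comparison partition. -/
lemma competitor {m : ℕ} (w : Fin m → ℝ) (hw : ∀ i, 0 < w i) (hsum : ∑ i, w i = 1) (s : ℝ) :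
    ∃ A : Fin (m + 1) → Set Plane,
      IsPartition (Fin.cons (1 - G s / √(2 * Real.pi)) fun i => G s / √(2 * Real.pi) * w i) A ∧
      totalPerim A ≤ ENNReal.ofReal ((2 * Real.pi)⁻¹ * (√(2 * Real.pi) * g s + m * G s)) := by
  let A : Fin (m + 1) → Set Plane :=
    Fin.cons {x : Plane | x 0 ∈ Iio s ∧ x 1 ∈ univ} fun k => {x : Plane | x 0 ∈ Ici s ∧ x 1 ∈ Jset w k}
  have hA0 : A 0 = {x : Plane | x 0 ∈ Iio s ∧ x 1 ∈ univ} := rfl
  have hAs : ∀ k : Fin m, A k.succ = {x : Plane | x 0 ∈ Ici s ∧ x 1 ∈ Jset w k} := fun k => rfl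
  have hmeasprod : ∀ I J : Set ℝ, MeasurableSet I → MeasurableSet J →
      MeasurableSet {x : Plane | x 0 ∈ I ∧ x 1 ∈ J} := fun I J hI hJ =>
    ((by fun_prop : Measurable fun x : Plane => x 0) hI).inter
      ((by fun_prop : Measurable fun x : Plane => x 1) hJ)
  have hp0 : perim (A 0) ≤ ENNReal.ofReal ((2 * Real.pi)⁻¹ * (√(2 * Real.pi) * g s)) := by
    have := perim_prod_le (intBd_Iio s) intBd_univ measurableSet_Iio MeasurableSet.univ
    rw [Measure.restrict_univ, integral_g, zero_mul, add_zero, mul_comm (g s)] at this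
    rw [hA0]; exact this
  have hps : ∀ k : Fin m, perim (A k.succ) ≤
      ENNReal.ofReal ((2 * Real.pi)⁻¹ * (√(2 * Real.pi) * g s * w k + 2 * G s)) := by
    intro k
    have := perim_prod_le (intBd_Ici s) (intBd_ordConnected (Jset_ordConnected w k))
      measurableSet_Ici (Jset_measurable w k)
    rw [integral_Jset w hw hsum, integral_Ici_g] at this
    rw [hAs]
    refine this.trans (le_of_eq ?_)
    congr 2; ring
  have hfin : ∀ i, perim (A i) ≠ ⊤ := by
    intro i
    refine Fin.cases ?_ (fun k => ?_) i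
    · exact ne_top_of_le_ne_top ENNReal.ofReal_ne_top hp0
    · exact ne_top_of_le_ne_top ENNReal.ofReal_ne_top (hps k)
  refine ⟨A, ⟨?_, fun i => locFin_of_perim (hfin i), ?_, ?_, ?_⟩, ?_⟩
  · intro i
    refine Fin.cases ?_ (fun k => ?_) i
    · exact hmeasprod _ _ measurableSet_Iio MeasurableSet.univ
    · exact hmeasprod _ _ measurableSet_Ici (Jset_measurable w k)
  · intro i j hij
    have : A i ∩ A j = ∅ := by
      rw [← disjoint_iff_inter_eq_empty, Set.disjoint_left]
      revert hij
      refine Fin.cases ?_ (fun k => ?_) i <;> refine Fin.cases ?_ (fun l => ?_) j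
      · intro h; exact absurd rfl h
      · rintro - x ⟨h1, -⟩ ⟨h2, -⟩
        rw [mem_Iio] at h1; rw [mem_Ici] at h2; linarith
      · rintro - x ⟨h2, -⟩ ⟨h1, -⟩
        rw [mem_Iio] at h1; rw [mem_Ici] at h2; linarith
      · rintro hkl x ⟨-, h1⟩ ⟨-, h2⟩
        have hkl' : (k : ℕ) ≠ (l : ℕ) := fun h => hkl (by rw [Fin.ext h])
        exact Jset_disjoint w hw hkl' h1 h2
    rw [this]; exact measure_empty
  · have : (⋃ i, A i)ᶜ = ∅ := by
      rw [compl_empty_iff, eq_univ_iff_forall]
      intro x
      rw [mem_iUnion]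
      by_cases hx : x 0 < s
      · exact ⟨0, hx, trivial⟩
      · obtain ⟨k, hk⟩ := Jset_cover w hsum (x 1)
        exact ⟨k.succ, not_lt.1 hx, hk⟩
    rw [this]; exact measure_empty
  · intro i
    have h2pi : (2 * Real.pi)⁻¹ * (√(2 * Real.pi) * √(2 * Real.pi)) = 1 := by
      rw [s2pi_sq]; field_simp
    refine Fin.cases ?_ (fun k => ?_) i
    · rw [hA0, gam_prod measurableSet_Iio MeasurableSet.univ, Measure.restrict_univ, integral_g,
        integral_Iio_g]
      congr 1
      rw [Fin.cons_zero, inv_2pi]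
      field_simp
    · rw [hAs, gam_prod measurableSet_Ici (Jset_measurable w k), integral_Jset w hw hsum,
        integral_Ici_g]
      congr 1
      rw [Fin.cons_succ, inv_2pi]
      field_simp
  · unfold totalPerim
    rw [Fin.sum_univ_succ]
    have h1 : ∑ k : Fin m, perim (A k.succ) ≤ ENNReal.ofReal
        (∑ k : Fin m, (2 * Real.pi)⁻¹ * (√(2 * Real.pi) * g s * w k + 2 * G s)) := by
      rw [ENNReal.ofReal_sum_of_nonneg]
      · exact Finset.sum_le_sum fun k _ => hps k
      · intro k _
        have := g_pos s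
        have := G_pos s
        have := hw k
        positivity
    have h2 : ∑ k : Fin m, (2 * Real.pi)⁻¹ * (√(2 * Real.pi) * g s * w k + 2 * G s) =
        (2 * Real.pi)⁻¹ * (√(2 * Real.pi) * g s + 2 * m * G s) := by
      rw [← Finset.mul_sum, Finset.sum_add_distrib, ← Finset.mul_sum, hsum]
      simp
      ring
    rw [h2] at h1
    have hg := g_pos s
    have hG := G_pos s
    calc (perim (A 0) + ∑ k : Fin m, perim (A k.succ)) / 2
        ≤ (ENNReal.ofReal ((2 * Real.pi)⁻¹ * (√(2 * Real.pi) * g s)) + ENNReal.ofReal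
          ((2 * Real.pi)⁻¹ * (√(2 * Real.pi) * g s + 2 * m * G s))) / 2 := by
          gcongr
      _ = ENNReal.ofReal ((2 * Real.pi)⁻¹ * (√(2 * Real.pi) * g s + m * G s)) := by
          rw [← ENNReal.ofReal_add (by positivity) (by positivity)]
          rw [show (2 : ℝ≥0∞) = ENNReal.ofReal 2 by simp, ← ENNReal.ofReal_div_of_pos (by norm_num)]
          congr 1
          ring

end Pool.Agent.H911R2.Gauss
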