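import Pool.Agent.H911R2.GaussDefs

/-! Open connected locally convex sets are convex. -/

set_option autoImplicit false

namespace Pool.Agent.H911R2.Gauss

open Set Filter Topology Metric
open scoped RealInnerProductSpace

lemma convex_of_local {F : Set Plane} (hF : IsOpen F) (hc : IsPreconnected F)
    (hl : ∀ x, ∃ ρ > 0, Convex ℝ (F ∩ ball x ρ)) : Convex ℝ F := by
  rw [convex_iff_segment_subset]
  intro x hx
  let V : Set Plane := {y | y ∈ F ∧ segment ℝ x y ⊆ F}
  have hVo : IsOpen V := by
    rw [Metric.isOpen_iff]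
    rintro y ⟨hy, hseg⟩
    have hcomp : IsCompact (segment ℝ x y) := by
      rw [segment_eq_image_lineMap]
      exact isCompact_Icc.image (by fun_prop)
    obtain ⟨ε, hε, hsub⟩ := hcomp.exists_thickening_subset_open hF hseg
    refine ⟨ε, hε, fun y' hy' => ?_⟩
    have hs : segment ℝ x y' ⊆ F := by
      rintro z ⟨a, b, ha, hb, hab, rfl⟩
      apply hsub
      rw [mem_thickening_iff]
      refine ⟨a • x + b • y, ⟨a, b, ha, hb, hab, rfl⟩, ?_⟩
      rw [dist_eq_norm, add_sub_add_left_eq_sub, ← smul_sub, norm_smul, Real.norm_of_nonneg hb,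
        ← dist_eq_norm]
      calc b * dist y' y ≤ 1 * dist y' y := by
            gcongr; linarith
        _ < ε := by simpa using hy'
    exact ⟨hs (right_mem_segment _ _ _), hs⟩
  have hVcl : closure V ∩ F ⊆ V := by
    rintro y ⟨hy, hyF⟩
    refine ⟨hyF, ?_⟩
    -- parametrize
    let z : ℝ → Plane := fun t => x + t • (y - x)
    have hzc : Continuous z := by fun_prop
    have hclos : ∀ t ∈ Icc (0 : ℝ) 1, z t ∈ closure F := by
      intro t ht
      have hmaps : MapsTo (fun w : Plane => x + t • (w - x)) V F := by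
        rintro w ⟨hw, hws⟩
        apply hws
        rw [segment_eq_image_lineMap]
        refine ⟨t, ht, ?_⟩
        simp [AffineMap.lineMap_apply, add_comm]
      exact map_mem_closure (f := fun w : Plane => x + t • (w - x)) (by fun_prop) hy hmaps
    have hsub : Icc (0 : ℝ) 1 ⊆ z ⁻¹' F := by
      refine isPreconnected_Icc.subset_of_closure_inter_subset (hF.preimage hzc)
        ⟨0, ⟨le_rfl, zero_le_one⟩, by simpa [z] using hx⟩ ?_
      rintro t ⟨htc, ht⟩
      rcases eq_or_lt_of_le ht.1 with h0 | h0
      · rw [← h0]; simpa [z] using hx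
      rcases eq_or_lt_of_le ht.2 with h1 | h1
      · rw [h1]; simpa [z] using hyF
      obtain ⟨ρ, hρ, hconv⟩ := hl (z t)
      -- nearby t1 with z t1 ∈ F, reflected point in closure
      have hev : ∀ᶠ s in 𝓝 t, z s ∈ ball (z t) ρ ∧ z (2 * t - s) ∈ ball (z t) ρ ∧
          s ∈ Ioo (0 : ℝ) 1 ∧ 2 * t - s ∈ Ioo (0 : ℝ) 1 := by
        refine Filter.Eventually.and ?_ (Filter.Eventually.and ?_ (Filter.Eventually.and ?_ ?_))
        · exact hzc.continuousAt.eventually_mem (isOpen_ball.mem_nhds (mem_ball_self hρ))
        · have : ContinuousAt (fun s => z (2 * t - s)) t := by fun_prop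
          refine this.eventually_mem (isOpen_ball.mem_nhds ?_)
          have : 2 * t - t = t := by ring
          simp only [this]; exact mem_ball_self hρ
        · exact isOpen_Ioo.mem_nhds ⟨h0, h1⟩
        · have : ContinuousAt (fun s => 2 * t - s) t := by fun_prop
          refine this.eventually_mem (isOpen_Ioo.mem_nhds ?_)
          constructor <;> linarith
      obtain ⟨s, hsF, hs1, hs2, hs3, hs4⟩ :=
        ((mem_closure_iff_frequently.1 htc).and_eventually hev).exists
      have hK1 : z s ∈ interior (F ∩ ball (z t) ρ) := by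
        rw [(hF.inter isOpen_ball).interior_eq]
        exact ⟨hsF, hs1⟩
      have hK2 : z (2 * t - s) ∈ closure (F ∩ ball (z t) ρ) := by
        have h2 := hclos (2 * t - s) ⟨hs4.1.le, hs4.2.le⟩
        rw [_root_.mem_closure_iff] at h2 ⊢
        intro o ho hzo
        obtain ⟨w, ⟨hw1, hw2⟩, hw3⟩ := h2 (o ∩ ball (z t) ρ) (ho.inter isOpen_ball) ⟨hzo, hs2⟩
        exact ⟨w, hw1, hw3, hw2⟩
      have hmid := hconv.openSegment_interior_closure_subset_interior hK1 hK2
      have hz : z t ∈ openSegment ℝ (z s) (z (2 * t - s)) := by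
        refine ⟨1 / 2, 1 / 2, by norm_num, by norm_num, by norm_num, ?_⟩
        simp only [z]
        module
      exact (interior_subset (hmid hz)).1
    intro w hw
    rw [segment_eq_image_lineMap] at hw
    obtain ⟨t, ht, rfl⟩ := hw
    have := hsub ht
    simpa [z, AffineMap.lineMap_apply, add_comm] using this
  have hmain := hc.subset_of_closure_inter_subset hVo
    ⟨x, hx, hx, by simpa using hx⟩ hVcl
  exact fun y hy => (hmain hy).2

end Pool.Agent.H911R2.Gauss
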