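import Mathlib

/-!
The Gauss plane: Gaussian area, weighted perimeter, partitions, their interface, and finite straight
networks whose edges meet in threes at 120 degrees.
-/

set_option autoImplicit false

namespace Pool.Agent.H911R2.Gauss

open MeasureTheory Set

/-- The plane `ℝ²`. -/
abbrev Plane : Type := EuclideanSpace ℝ (Fin 2)

/-- The Gaussian density `γ(x) = (2π)⁻¹ exp(-|x|²/2)`. -/
noncomputable def dens (x : Plane) : ℝ := (2 * Real.pi)⁻¹ * Real.exp (-(‖x‖ ^ 2) / 2)

/-- Gaussian area: the measure `γ(E) = ∫_E γ dx`. -/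
noncomputable def gam : Measure Plane := volume.withDensity fun x => ENNReal.ofReal (dens x)

/-- The divergence of a vector field on the plane. -/
noncomputable def divg (Z : Plane → Plane) (x : Plane) : ℝ :=
  ∑ i : Fin 2, (fderiv ℝ Z x (EuclideanSpace.single i 1)) i

/-- The weighted perimeter `P_γ(A) = sup { ∫_A div Z dx : Z ∈ C¹_c(ℝ², ℝ²), |Z| ≤ γ }`; for a set
`A` of locally finite perimeter this is `∫_{∂*A} γ dH¹`, and it is `∞` for any other measurable
set. -/
noncomputable def perim (A : Set Plane) : ENNReal :=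
  ⨆ Z : {Z : Plane → Plane // ContDiff ℝ 1 Z ∧ HasCompactSupport Z ∧ ∀ x, ‖Z x‖ ≤ dens x},
    ENNReal.ofReal (∫ x in A, divg Z.1 x)

/-- `A` has locally finite perimeter: for each `R` the integrals `∫_A div Z` over the `C¹` fields
`Z` with `|Z| ≤ 1` vanishing outside the ball of radius `R` are bounded above. -/
def LocFinPerim (A : Set Plane) : Prop :=
  ∀ R : ℝ, ∃ C : ℝ, ∀ Z : Plane → Plane, ContDiff ℝ 1 Z → (∀ x, R ≤ ‖x‖ → Z x = 0) →
    (∀ x, ‖Z x‖ ≤ 1) → ∫ x in A, divg Z x ≤ C

/-- `A 0, …, A (n-1)` is a partition of the Gauss plane into `n` regions of areas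
`v 0, …, v (n-1)`: the `A i` are measurable sets of locally finite perimeter, pairwise disjoint up
to null sets, covering the plane up to a null set, with `γ(A i) = v i`. -/
structure IsPartition {n : ℕ} (v : Fin n → ℝ) (A : Fin n → Set Plane) : Prop where
  meas : ∀ i, MeasurableSet (A i)
  locFin : ∀ i, LocFinPerim (A i)
  disj : ∀ i j, i ≠ j → volume (A i ∩ A j) = 0
  cover : volume (⋃ i, A i)ᶜ = 0
  area : ∀ i, gam (A i) = ENNReal.ofReal (v i)

/-- The perimeter of a partition: half the sum of the weighted perimeters of the regions, i.e. the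
weighted length of the interface `⋃ ∂*(A i)`. -/
noncomputable def totalPerim {n : ℕ} (A : Fin n → Set Plane) : ENNReal := (∑ i, perim (A i)) / 2

/-- A partition is perimeter-minimizing if no partition with the same areas has smaller
perimeter. -/
def IsMinimizing {n : ℕ} (v : Fin n → ℝ) (A : Fin n → Set Plane) : Prop :=
  IsPartition v A ∧ ∀ B : Fin n → Set Plane, IsPartition v B → totalPerim A ≤ totalPerim B

/-- The interface of a partition, as a closed set: the points all of whose neighbourhoods meet some
region and its complement in sets of positive area. This is the closure of `⋃ ∂*(A i)`. If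
`⋃ ∂*(A i)` coincides up to an `H¹`-null set with a finite union `N` of closed segments, half-lines
and lines, then this closed set is exactly `N`. -/
def interface {n : ℕ} (A : Fin n → Set Plane) : Set Plane :=
  {x | ∀ r : ℝ, 0 < r →
    ∃ i, volume (A i ∩ Metric.ball x r) ≠ 0 ∧ volume (Metric.ball x r \ A i) ≠ 0}

/-- A straight edge `{a + t u : t ∈ I}`, `|u| = 1`: a closed segment of positive length, a closed
half-line, or a line. -/
structure Edge where
  a : Plane
  u : Plane
  I : Set ℝ
  norm_u : ‖u‖ = 1
  shape : (∃ l : ℝ, 0 < l ∧ I = Icc 0 l) ∨ I = Ici 0 ∨ I = univ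

/-- The set of points of an edge. -/
def Edge.carrier (e : Edge) : Set Plane := {x | ∃ t ∈ e.I, x = e.a + t • e.u}

/-- `p` is an end point of the edge `e`, and `w` is the unit vector at `p` pointing along `e`. -/
def Edge.IsEnd (e : Edge) (p w : Plane) : Prop :=
  (e.I ≠ univ ∧ p = e.a ∧ w = e.u) ∨
    ∃ l : ℝ, 0 < l ∧ e.I = Icc 0 l ∧ p = e.a + l • e.u ∧ w = -e.u

/-- Finitely many edges (segments, half-lines, lines) that meet in threes at angles of 120 degrees:
two distinct edges meet at most in common end points, and each end point of an edge is an end point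
of exactly three edges, which make angles of 120 degrees with each other. -/
def IsNetwork {m : ℕ} (e : Fin m → Edge) : Prop :=
  (∀ k l, k ≠ l → ∀ x ∈ (e k).carrier ∩ (e l).carrier,
    (∃ w, (e k).IsEnd x w) ∧ ∃ w, (e l).IsEnd x w) ∧
  ∀ p k w, (e k).IsEnd p w → ∃ K : Fin 3 → Fin m, ∃ W : Fin 3 → Plane, K.Injective ∧
    (∀ i, (e (K i)).IsEnd p (W i)) ∧ (∀ k' w', (e k').IsEnd p w' → ∃ i, k' = K i) ∧
    ∀ i j, i ≠ j → InnerProductGeometry.angle (W i) (W j) = 2 * Real.pi / 3

end Pool.Agent.H911R2.Gauss
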