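import Pool.Agent.H911R2.GaussStrong
import Pool.Agent.H911R2.GaussComp

/-! Existence of perimeter-minimizing partitions with prescribed areas. -/

set_option autoImplicit false

namespace Pool.Agent.H911R2.Gauss

open MeasureTheory Set Filter Topology Metric
open scoped ENNReal

/-- The sets `A k` converge to `B` (locally in measure), their perimeters converge, and the perimeter
of `B` is at most the limit. -/
def Conv (A : ℕ → Set Plane) (B : Set Plane) : Prop :=
  MeasurableSet B ∧ (∃ p : ℝ≥0∞, Tendsto (fun k => perim (A k)) atTop (𝓝 p) ∧ perim B ≤ p) ∧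
    ∀ S : Set Plane, MeasurableSet S →
      Tendsto (fun k => gam.real (A k ∩ S)) atTop (𝓝 (gam.real (B ∩ S)))

lemma Conv.subseq {A : ℕ → Set Plane} {B : Set Plane} (h : Conv A B) {φ : ℕ → ℕ}
    (hφ : StrictMono φ) : Conv (fun k => A (φ k)) B := by
  obtain ⟨h1, ⟨p, hp, hp2⟩, h3⟩ := h
  exact ⟨h1, ⟨p, hp.comp hφ.tendsto_atTop, hp2⟩, fun S hS => (h3 S hS).comp hφ.tendsto_atTop⟩

lemma setIntegral_volume_gam {S : Set Plane} (hS : MeasurableSet S) (h : Plane → ℝ) :
    ∫ x in S, h x = ∫ x in S, h x / dens x ∂gam := by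
  rw [setIntegral_gam _ hS]
  congr 1; ext x
  have := (dens_pos x).ne'
  field_simp

lemma compact_one (A : ℕ → Set Plane) (hA : ∀ k, MeasurableSet (A k)) {P : ℝ≥0∞} (hPt : P ≠ ⊤)
    (hP : ∀ k, perim (A k) ≤ P) :
    ∃ B : Set Plane, ∃ φ : ℕ → ℕ, StrictMono φ ∧ Conv (fun k => A (φ k)) B := by
  obtain ⟨p, -, ψ, hψ, hp⟩ := isCompact_univ.tendsto_subseq (x := fun k => perim (A k))
    (fun k => mem_univ _)
  obtain ⟨f, hf, hf01, φ, hφ, hlim⟩ := weak_sets (fun k => A (ψ k)) (fun k => hA _)
  have hAm : ∀ k, MeasurableSet (A (ψ (φ k))) := fun k => hA _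
  have hfin : ∀ k, perim (A (ψ (φ k))) ≠ ⊤ := fun k => ne_top_of_le_ne_top hPt (hP _)
  have hPr : ∀ k, (perim (A (ψ (φ k)))).toReal ≤ P.toReal := fun k =>
    ENNReal.toReal_mono hPt (hP _)
  have hs := strong (A := fun k => A (ψ (φ k))) hAm hfin hPr hf hf01 hlim
  let B : Set Plane := {x | 1 / 2 < f x}
  have hB : MeasurableSet B := measurableSet_lt measurable_const hf
  have hfB : ∀ᵐ x : Plane, f x = B.indicator (fun _ => (1 : ℝ)) x := by
    filter_upwards [hs] with x hx
    rcases mul_eq_zero.1 hx with h | h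
    · have : x ∉ B := by simp only [B, mem_ofPred_eq, h]; norm_num
      rw [indicator_of_notMem this, h]
    · have h1 : f x = 1 := by linarith
      have : x ∈ B := by simp only [B, mem_ofPred_eq, h1]; norm_num
      rw [indicator_of_mem this, h1]
  have hfB' : ∀ᵐ x ∂gam, f x = B.indicator (fun _ => (1 : ℝ)) x := gam_absCont.ae_eq hfB
  have hmul : ∀ (h : Plane → ℝ) (x : Plane), h x * B.indicator (fun _ => (1 : ℝ)) x =
      B.indicator h x := by
    intro h x
    by_cases hx : x ∈ B
    · rw [indicator_of_mem hx, indicator_of_mem hx, mul_one]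
    · rw [indicator_of_notMem hx, indicator_of_notMem hx, mul_zero]
  refine ⟨B, fun k => ψ (φ k), hψ.comp hφ, hB, ⟨p, hp.comp hφ.tendsto_atTop, ?_⟩, ?_⟩
  · refine perim_le fun Z h1 h2 h3 => ?_
    obtain ⟨R, hR⟩ : ∃ R : ℝ, ∀ x, R < ‖x‖ → divg Z x = 0 := by
      obtain ⟨R, hR⟩ := (hasCompactSupport_divg h2).isCompact.isBounded.subset_closedBall 0
      refine ⟨R, fun x hx => ?_⟩
      by_contra h
      have := hR (subset_tsupport _ h)
      rw [mem_closedBall, dist_zero_right] at this
      linarith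
    have hBM : BM (divg Z) := by
      obtain ⟨C, hC⟩ := (continuous_divg h1).bounded_above_of_compact_support
        (hasCompactSupport_divg h2)
      exact ⟨(continuous_divg h1).measurable, C, fun x => by
        rw [← Real.norm_eq_abs]; exact hC x⟩
    have hl := weak_volume hAm hlim hBM hR
    have e : ∫ x, divg Z x * f x = ∫ x in B, divg Z x := by
      rw [← integral_indicator hB]
      refine integral_congr_ae (hfB.mono fun x hx => ?_)
      simp only
      rw [hx, hmul]
    rw [e] at hl
    refine le_of_tendsto_of_tendsto' (ENNReal.tendsto_ofReal hl) (hp.comp hφ.tendsto_atTop)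
      fun k => ?_
    exact le_perim h1 h2 h3
  · intro S hS
    have hBM : BM (S.indicator fun _ => (1 : ℝ)) := ⟨measurable_const.indicator hS, 1, fun x => by
      by_cases hx : x ∈ S
      · rw [indicator_of_mem hx]; simp
      · rw [indicator_of_notMem hx]; simp⟩
    have hl := hlim _ hBM
    have e1 : ∀ k, ∫ x in A (ψ (φ k)), S.indicator (fun _ => (1 : ℝ)) x ∂gam =
        gam.real (A (ψ (φ k)) ∩ S) := by
      intro k
      rw [setIntegral_indicator hS]; simp
    have e2 : ∫ x, S.indicator (fun _ => (1 : ℝ)) x * f x ∂gam = gam.real (B ∩ S) := by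
      have : ∫ x, S.indicator (fun _ => (1 : ℝ)) x * f x ∂gam =
          ∫ x in B, S.indicator (fun _ => (1 : ℝ)) x ∂gam := by
        rw [← integral_indicator hB]
        refine integral_congr_ae (hfB'.mono fun x hx => ?_)
        simp only
        rw [hx, hmul]
      rw [this, setIntegral_indicator hS]; simp
    simp only [e1, e2] at hl
    exact hl

lemma compact_fin {n : ℕ} (A : Fin n → ℕ → Set Plane) (hA : ∀ i k, MeasurableSet (A i k))
    {P : ℝ≥0∞} (hPt : P ≠ ⊤) (hP : ∀ i k, perim (A i k) ≤ P) (s : Finset (Fin n)) :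
    ∃ B : Fin n → Set Plane, ∃ φ : ℕ → ℕ, StrictMono φ ∧
      ∀ i ∈ s, Conv (fun k => A i (φ k)) (B i) := by
  classical
  induction s using Finset.induction_on with
  | empty => exact ⟨fun _ => ∅, id, strictMono_id, by simp⟩
  | insert a s ha ih =>
    obtain ⟨B, φ, hφ, hB⟩ := ih
    obtain ⟨B', ψ, hψ, hB'⟩ := compact_one (fun k => A a (φ k)) (fun k => hA _ _) hPt
      (fun k => hP _ _)
    refine ⟨Function.update B a B', fun k => φ (ψ k), hφ.comp hψ, fun i hi => ?_⟩
    rcases Finset.mem_insert.1 hi with rfl | hi'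
    · rw [Function.update_self]; exact hB'
    · rw [Function.update_of_ne (by rintro rfl; exact ha hi')]
      exact (hB i hi').subseq hψ

lemma sum_real_inter {n : ℕ} {v : Fin n → ℝ} {A : Fin n → Set Plane} (hA : IsPartition v A)
    {S : Set Plane} (hS : MeasurableSet S) : ∑ i, gam.real (A i ∩ S) = gam.real S := by
  have hcov : gam (⋃ i, A i)ᶜ = 0 := gam_absCont hA.cover
  have h1 : gam.real S = gam.real (⋃ i, A i ∩ S) := by
    rw [← iUnion_inter]
    have hsub : S ⊆ ((⋃ i, A i) ∩ S) ∪ (⋃ i, A i)ᶜ := by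
      intro x hx
      by_cases h : x ∈ ⋃ i, A i
      · exact Or.inl ⟨h, hx⟩
      · exact Or.inr h
    apply le_antisymm
    · refine (measureReal_mono hsub).trans ((measureReal_union_le _ _).trans ?_)
      have : gam.real (⋃ i, A i)ᶜ = 0 := by unfold Measure.real; rw [hcov]; rfl
      rw [this, add_zero]
    · exact measureReal_mono inter_subset_right
  rw [h1]
  unfold Measure.real
  rw [measure_iUnion₀, tsum_fintype, ENNReal.toReal_sum fun i _ => measure_ne_top _ _]
  · intro i j hij
    have : gam (A i ∩ A j) = 0 := gam_absCont (hA.disj i j hij)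
    exact measure_mono_null (by
      rintro x ⟨⟨h1, -⟩, h2, -⟩; exact ⟨h1, h2⟩) this
  · exact fun i => ((hA.meas i).inter hS).nullMeasurableSet

theorem exists_minimizing {n : ℕ} {v : Fin n → ℝ} {A₀ : Fin n → Set Plane}
    (hA₀ : IsPartition v A₀) (hfin : totalPerim A₀ ≠ ⊤) : ∃ A, IsMinimizing v A := by
  classical
  let m : ℝ≥0∞ := ⨅ A : {A : Fin n → Set Plane // IsPartition v A}, totalPerim A.1
  have hm : m ≤ totalPerim A₀ := iInf_le (fun A : {A : Fin n → Set Plane // IsPartition v A} =>
    totalPerim A.1) ⟨A₀, hA₀⟩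
  have hmt : m ≠ ⊤ := ne_top_of_le_ne_top hfin hm
  have hseq : ∀ k : ℕ, ∃ A : Fin n → Set Plane, IsPartition v A ∧
      totalPerim A ≤ m + ENNReal.ofReal (1 / ((k : ℝ) + 1)) := by
    intro k
    have h1 : m < m + ENNReal.ofReal (1 / ((k : ℝ) + 1)) :=
      ENNReal.lt_add_right hmt (by
        rw [Ne, ENNReal.ofReal_eq_zero, not_le]; positivity)
    obtain ⟨A, hA⟩ := iInf_lt_iff.1 h1
    exact ⟨A.1, A.2, hA.le⟩
  choose A hA hAT using hseq
  have htot : Tendsto (fun k => totalPerim (A k)) atTop (𝓝 m) := by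
    refine tendsto_of_tendsto_of_tendsto_of_le_of_le tendsto_const_nhds (h := fun k : ℕ =>
      m + ENNReal.ofReal (1 / ((k : ℝ) + 1))) ?_ (fun k => ?_) hAT
    · have := ENNReal.tendsto_ofReal tendsto_one_div_add_atTop_nhds_zero_nat
      rw [ENNReal.ofReal_zero] at this
      simpa using this.const_add m
    · exact iInf_le (fun A : {A : Fin n → Set Plane // IsPartition v A} => totalPerim A.1)
        ⟨A k, hA k⟩
  have hPt : 2 * (m + 1) ≠ ⊤ :=
    ENNReal.mul_ne_top (by norm_num) (ENNReal.add_ne_top.2 ⟨hmt, by norm_num⟩)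
  have hper : ∀ i k, perim (A k i) ≤ 2 * (m + 1) := by
    intro i k
    have h1 : perim (A k i) ≤ ∑ i, perim (A k i) :=
      Finset.single_le_sum (f := fun i => perim (A k i)) (fun _ _ => zero_le) (Finset.mem_univ i)
    have h2 : ∑ i, perim (A k i) = 2 * totalPerim (A k) := by
      unfold totalPerim
      rw [ENNReal.mul_div_cancel (by norm_num) (by norm_num)]
    rw [h2] at h1
    refine h1.trans (mul_le_mul_right ((hAT k).trans (add_le_add_right ?_ m)) 2)
    rw [← ENNReal.ofReal_one]
    apply ENNReal.ofReal_le_ofReal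
    rw [div_le_one (by positivity)]
    have : (0 : ℝ) ≤ k := by positivity
    linarith
  obtain ⟨B, φ, hφ, hB⟩ := compact_fin (fun i k => A k i) (fun i k => (hA k).meas i) hPt hper
    Finset.univ
  have hB' : ∀ i, Conv (fun k => A (φ k) i) (B i) := fun i => hB i (Finset.mem_univ i)
  have hBm : ∀ i, MeasurableSet (B i) := fun i => (hB' i).1
  have hperB : ∀ i, perim (B i) ≠ ⊤ := by
    intro i
    obtain ⟨-, ⟨p, hp, hp2⟩, -⟩ := hB' i
    exact ne_top_of_le_ne_top hPt (hp2.trans (le_of_tendsto' hp fun k => hper i _))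
  have hsum : ∀ S : Set Plane, MeasurableSet S → ∑ i, gam.real (B i ∩ S) = gam.real S := by
    intro S hS
    have h1 : Tendsto (fun k => ∑ i, gam.real (A (φ k) i ∩ S)) atTop
        (𝓝 (∑ i, gam.real (B i ∩ S))) := tendsto_finsetSum _ fun i _ => (hB' i).2.2 S hS
    have h2 : (fun k => ∑ i, gam.real (A (φ k) i ∩ S)) = fun _ => gam.real S := by
      ext k; exact sum_real_inter (hA _) hS
    rw [h2] at h1
    exact (tendsto_nhds_unique h1 tendsto_const_nhds)
  have hzero : ∀ S : Set Plane, gam.real S = 0 → volume S = 0 := by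
    intro S hS
    apply absCont_gam
    unfold Measure.real at hS
    rcases (ENNReal.toReal_eq_zero_iff _).1 hS with h | h
    · exact h
    · exact absurd h (measure_ne_top _ _)
  have hpart : IsPartition v B := by
    refine ⟨hBm, fun i => locFin_of_perim (hperB i), fun i j hij => ?_, ?_, fun i => ?_⟩
    · apply hzero
      have h1 := hsum (B i ∩ B j) ((hBm i).inter (hBm j))
      have h2 : ∑ l ∈ ({i, j} : Finset (Fin n)), gam.real (B l ∩ (B i ∩ B j)) ≤
          ∑ l, gam.real (B l ∩ (B i ∩ B j)) :=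
        Finset.sum_le_univ_sum_of_nonneg fun l => measureReal_nonneg
      rw [Finset.sum_pair hij, h1] at h2
      have h3 : B i ∩ (B i ∩ B j) = B i ∩ B j := by
        ext x; simp only [mem_inter_iff]; tauto
      have h4 : B j ∩ (B i ∩ B j) = B i ∩ B j := by
        ext x; simp only [mem_inter_iff]; tauto
      rw [h3, h4] at h2
      have h5 : 0 ≤ gam.real (B i ∩ B j) := measureReal_nonneg
      linarith
    · apply hzero
      rw [← hsum _ (MeasurableSet.iUnion hBm).compl]
      refine Finset.sum_eq_zero fun i _ => ?_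
      have : B i ∩ (⋃ i, B i)ᶜ = ∅ := by
        ext x
        simp only [mem_inter_iff, mem_compl_iff, mem_iUnion, not_exists, mem_empty_iff_false,
          iff_false, not_and, not_forall, not_not]
        exact fun h => ⟨i, h⟩
      rw [this]; simp
    · have h1 := (hB' i).2.2 univ MeasurableSet.univ
      simp only [inter_univ] at h1
      have h2 : (fun k => gam.real (A (φ k) i)) = fun _ => (ENNReal.ofReal (v i)).toReal := by
        ext k; unfold Measure.real; rw [(hA (φ k)).area i]
      rw [h2] at h1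
      have h3 := tendsto_nhds_unique h1 tendsto_const_nhds
      unfold Measure.real at h3
      rwa [ENNReal.toReal_eq_toReal_iff' (measure_ne_top _ _) ENNReal.ofReal_ne_top] at h3
  refine ⟨B, hpart, fun C hC => ?_⟩
  have h1 : totalPerim B ≤ m := by
    choose p hp hp2 using fun i => (hB' i).2.1
    have h2 : Tendsto (fun k => totalPerim (A (φ k))) atTop (𝓝 ((∑ i, p i) / 2)) := by
      unfold totalPerim
      exact ENNReal.Tendsto.div_const (tendsto_finsetSum _ fun i _ => hp i) (Or.inr (by norm_num))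
    have h3 : (∑ i, p i) / 2 = m := tendsto_nhds_unique h2 (htot.comp hφ.tendsto_atTop)
    rw [← h3]
    unfold totalPerim
    exact ENNReal.div_le_div_right (Finset.sum_le_sum fun i _ => hp2 i) 2
  exact h1.trans (iInf_le (fun A : {A : Fin n → Set Plane // IsPartition v A} => totalPerim A.1)
    ⟨C, hC⟩)

end Pool.Agent.H911R2.Gauss
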