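import Pool.Agent.H911R2.GaussNet

/-! Faces of straight networks: local description, convexity. -/

set_option autoImplicit false

namespace Pool.Agent.H911R2.Gauss

open Set Filter Topology Metric
open scoped RealInnerProductSpace

variable {n : ℕ} {N : Set Plane} {U : Fin n → Set Plane}

lemma Net.not_both (h : Net N U) {i j : Fin n} {y : Plane} (hi : y ∈ U i) (hj : y ∈ U j) :
    i = j := by
  by_contra hne
  exact (Set.disjoint_left.1 (h.disj i j hne)) hi hj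

lemma Net.describe (h : Net N U) {x : Plane} (hx : x ∈ N) (l : Fin n) :
    ∃ ρ > 0, (∀ y ∈ ball x ρ, y ∉ U l) ∨ ∃ n₁ n₂ : Plane, ‖n₁‖ = 1 ∧ ‖n₂‖ = 1 ∧
      ((n₁ = n₂ ∧ ∀ y ∈ ball x ρ, (y ∈ N ↔ ⟪n₁, y - x⟫ = 0)) ∨ ⟪n₁, n₂⟫ = 1 / 2) ∧
      ∀ y ∈ ball x ρ, (y ∈ U l ↔ ⟪n₁, y - x⟫ < 0 ∧ ⟪n₂, y - x⟫ < 0) := by
  rcases h.loc x hx with ⟨ν, hr⟩ | ⟨ν, hr⟩
  · obtain ⟨ρ, hρ, hN, i, j, hij, hi, hj⟩ := h.local_reg hx hr
    refine ⟨ρ, hρ, ?_⟩
    have key : ∀ y ∈ ball x ρ, y ∈ U l → (l = i ∧ ⟪ν, y - x⟫ < 0) ∨ (l = j ∧ 0 < ⟪ν, y - x⟫) := by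
      intro y hy hyl
      have hyN : y ∉ N := h.subset_compl l hyl
      rw [hN y hy] at hyN
      rcases lt_or_gt_of_ne hyN with h3 | h3
      · left; exact ⟨h.not_both hyl (hi y hy h3), h3⟩
      · right; exact ⟨h.not_both hyl (hj y hy h3), h3⟩
    by_cases hli : l = i
    · right
      refine ⟨ν, ν, hr.1, hr.1, Or.inl ⟨rfl, hN⟩, fun y hy => ⟨fun hyl => ?_, fun hy2 => ?_⟩⟩
      · rcases key y hy hyl with ⟨-, h3⟩ | ⟨h3, -⟩
        · exact ⟨h3, h3⟩
        · exact absurd (hli.symm.trans h3) hij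
      · rw [hli]; exact hi y hy hy2.1
    by_cases hlj : l = j
    · right
      refine ⟨-ν, -ν, by rw [norm_neg, hr.1], by rw [norm_neg, hr.1],
        Or.inl ⟨rfl, fun y hy => by rw [hN y hy, inner_neg_left, neg_eq_zero]⟩,
        fun y hy => ⟨fun hyl => ?_, fun hy2 => ?_⟩⟩
      · rcases key y hy hyl with ⟨h3, -⟩ | ⟨-, h3⟩
        · exact absurd h3 hli
        · simpa using h3
      · rw [hlj]; exact hj y hy (by simpa using hy2.1)
    · left
      intro y hy hyl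
      rcases key y hy hyl with ⟨h3, -⟩ | ⟨h3, -⟩
      · exact hli h3
      · exact hlj h3
  · obtain ⟨ρ, hρ, hN, i, hi, hU⟩ := h.local_trip hr
    obtain ⟨h1, h2, -⟩ := hr
    refine ⟨ρ, hρ, ?_⟩
    have key : ∀ y ∈ ball x ρ, y ∈ U l → ∃ k, l = i k ∧ 0 < ⟪ν k, y - x⟫ ∧
        ⟪ν (k + 1), y - x⟫ < 0 := by
      intro y hy hyl
      have hyN : y ∉ N := h.subset_compl l hyl
      rw [hN y hy] at hyN
      have hsum : ⟪ν 0, y - x⟫ + ⟪ν 1, y - x⟫ + ⟪ν 2, y - x⟫ = 0 := by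
        rw [← inner_add_left, ← inner_add_left, ← Fin.sum_univ_three, h2, inner_zero_left]
      have hc := sector_cover hsum (fun h3 => hyN ⟨0, h3⟩) (fun h3 => hyN ⟨1, h3⟩)
        (fun h3 => hyN ⟨2, h3⟩)
      rcases hc with h3 | h3 | h3
      · exact ⟨0, h.not_both hyl (hU 0 y hy h3.1 h3.2), h3⟩
      · exact ⟨1, h.not_both hyl (hU 1 y hy h3.1 h3.2), h3⟩
      · exact ⟨2, h.not_both hyl (hU 2 y hy h3.1 h3.2), h3⟩
    by_cases hl : ∃ k, l = i k
    · right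
      obtain ⟨k, rfl⟩ := hl
      refine ⟨-ν k, ν (k + 1), by rw [norm_neg, h1], h1 _, Or.inr ?_, fun y hy =>
        ⟨fun hyl => ?_, fun hy2 => ?_⟩⟩
      · rw [inner_neg_left, trip_inner h1 h2]; norm_num
      · obtain ⟨m, hm, h3⟩ := key y hy hyl
        have := fin3_inj hi hm
        subst this
        simpa using h3
      · exact hU k y hy (by simpa using hy2.1) hy2.2
    · left
      intro y hy hyl
      obtain ⟨m, hm, -⟩ := key y hy hyl
      exact hl ⟨m, hm⟩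

lemma Net.local_convex (h : Net N U) (l : Fin n) (x : Plane) :
    ∃ ρ > 0, Convex ℝ (U l ∩ ball x ρ) := by
  by_cases hx : x ∈ N
  · obtain ⟨ρ, hρ, h1⟩ := h.describe hx l
    refine ⟨ρ, hρ, ?_⟩
    rcases h1 with h1 | ⟨n₁, n₂, -, -, -, h1⟩
    · have : U l ∩ ball x ρ = ∅ := by
        ext y; simp only [mem_inter_iff, mem_empty_iff_false, iff_false, not_and]
        exact fun h2 h3 => h1 y h3 h2
      rw [this]; exact convex_empty
    · have : U l ∩ ball x ρ = (({y : Plane | ⟪n₁, y - x⟫ < 0} ∩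
          {y : Plane | ⟪n₂, y - x⟫ < 0}) ∩ ball x ρ) := by
        ext y
        constructor
        · rintro ⟨h2, h3⟩
          exact ⟨(h1 y h3).1 h2, h3⟩
        · rintro ⟨h2, h3⟩
          exact ⟨(h1 y h3).2 h2, h3⟩
      rw [this]
      exact ((convex_lt _ _).inter (convex_lt _ _)).inter (convex_ball _ _)
  · have h1 : x ∈ ⋃ i, U i := by rw [h.cover]; exact hx
    obtain ⟨i, hi⟩ := mem_iUnion.1 h1
    obtain ⟨ρ, hρ, hb⟩ := Metric.isOpen_iff.1 (h.isOpen i) x hi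
    refine ⟨ρ, hρ, ?_⟩
    by_cases hli : l = i
    · rw [hli, inter_eq_self_of_subset_right hb]; exact convex_ball _ _
    · have : U l ∩ ball x ρ = ∅ := by
        ext y; simp only [mem_inter_iff, mem_empty_iff_false, iff_false, not_and]
        exact fun h2 h3 => hli (h.not_both h2 (hb h3))
      rw [this]; exact convex_empty

section comp

variable {W : Set Plane}

lemma comp_local (hl : ∀ x, ∃ ρ > 0, Convex ℝ (W ∩ ball x ρ)) (a x : Plane) :
    ∃ ρ > 0, Convex ℝ (W ∩ ball x ρ) ∧ ((connectedComponentIn W a ∩ ball x ρ = ∅) ∨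
      (connectedComponentIn W a ∩ ball x ρ = W ∩ ball x ρ)) := by
  obtain ⟨ρ, hρ, hc⟩ := hl x
  refine ⟨ρ, hρ, hc, ?_⟩
  by_cases hne : (connectedComponentIn W a ∩ ball x ρ).Nonempty
  · right
    obtain ⟨y, hy, hyb⟩ := hne
    refine Subset.antisymm (inter_subset_inter_left _ (connectedComponentIn_subset W a)) ?_
    refine subset_inter ?_ inter_subset_right
    rw [connectedComponentIn_eq hy]
    exact hc.isPreconnected.subset_connectedComponentIn
      ⟨connectedComponentIn_subset W a hy, hyb⟩ inter_subset_left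
  · left; exact not_nonempty_iff_eq_empty.1 hne

lemma comp_convex (hW : IsOpen W) (hl : ∀ x, ∃ ρ > 0, Convex ℝ (W ∩ ball x ρ)) (a : Plane) :
    Convex ℝ (connectedComponentIn W a) := by
  refine convex_of_local hW.connectedComponentIn isPreconnected_connectedComponentIn fun x => ?_
  obtain ⟨ρ, hρ, hc, h1 | h1⟩ := comp_local hl a x
  · exact ⟨ρ, hρ, by rw [h1]; exact convex_empty⟩
  · exact ⟨ρ, hρ, by rw [h1]; exact hc⟩

lemma comp_diff_isOpen (hW : IsOpen W) (hl : ∀ x, ∃ ρ > 0, Convex ℝ (W ∩ ball x ρ)) (a : Plane) :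
    IsOpen (W \ connectedComponentIn W a) := by
  rw [Metric.isOpen_iff]
  rintro x ⟨hx, hxF⟩
  obtain ⟨ρ, hρ, hc, h1 | h1⟩ := comp_local hl a x
  · obtain ⟨δ, hδ, hb⟩ := Metric.isOpen_iff.1 hW x hx
    refine ⟨min ρ δ, lt_min hρ hδ, fun y hy => ⟨hb (ball_subset_ball (min_le_right _ _) hy), ?_⟩⟩
    intro hyF
    have : y ∈ connectedComponentIn W a ∩ ball x ρ :=
      ⟨hyF, ball_subset_ball (min_le_left _ _) hy⟩
    rw [h1] at this; exact this
  · have h2 : x ∈ W ∩ ball x ρ := ⟨hx, mem_ball_self hρ⟩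
    rw [← h1] at h2
    exact absurd h2.1 hxF

lemma comp_disjoint_closure (hl : ∀ x, ∃ ρ > 0, Convex ℝ (W ∩ ball x ρ)) (a : Plane) :
    Disjoint (closure (connectedComponentIn W a)) (closure (W \ connectedComponentIn W a)) := by
  rw [Set.disjoint_left]
  intro x hx1 hx2
  obtain ⟨ρ, hρ, hc, h1 | h1⟩ := comp_local hl a x
  · obtain ⟨y, hy1, hy2⟩ := Metric.mem_closure_iff.1 hx1 ρ hρ
    have : y ∈ connectedComponentIn W a ∩ ball x ρ := ⟨hy1, by rwa [mem_ball, dist_comm]⟩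
    rw [h1] at this; exact this
  · obtain ⟨y, hy1, hy2⟩ := Metric.mem_closure_iff.1 hx2 ρ hρ
    have : y ∈ W ∩ ball x ρ := ⟨hy1.1, by rwa [mem_ball, dist_comm]⟩
    rw [← h1] at this; exact hy1.2 this.1

end comp

end Pool.Agent.H911R2.Gauss
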