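import Pool.Agent.H911R2.GaussProd

/-! Additivity of the weighted perimeter for open sets with disjoint closures, and lower bounds by
fields that do not have compact support. -/

set_option autoImplicit false

namespace Pool.Agent.H911R2.Gauss

open MeasureTheory Set Filter Topology
open scoped ENNReal ContDiff Manifold

lemma divg_congr {Z W : Plane → Plane} {x : Plane} (h : Z =ᶠ[𝓝 x] W) : divg Z x = divg W x := by
  unfold divg
  rw [h.fderiv_eq]

lemma perim_add_aux {A B : Set Plane} (hA : IsOpen A) (hB : IsOpen B)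
    (hAB : Disjoint (closure A) (closure B)) {Z W : Plane → Plane}
    (hZ1 : ContDiff ℝ 1 Z) (hZ2 : HasCompactSupport Z) (hZ3 : ∀ x, ‖Z x‖ ≤ dens x)
    (hW1 : ContDiff ℝ 1 W) (hW2 : HasCompactSupport W) (hW3 : ∀ x, ‖W x‖ ≤ dens x) :
    ENNReal.ofReal ((∫ x in A, divg Z x) + ∫ x in B, divg W x) ≤ perim (A ∪ B) := by
  obtain ⟨f, hf0, hf1, hf⟩ := exists_contMDiffMap_zero_one_of_isClosed (n := 1)
    𝓘(ℝ, Plane) (s := closure B) (t := closure A) isClosed_closure isClosed_closure hAB.symm
  have hfd : ContDiff ℝ 1 (f : Plane → ℝ) := f.contMDiff.contDiff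
  have h1 : ContDiff ℝ 1 (fun x => f x • Z x + (1 - f x) • W x) :=
    (hfd.smul hZ1).add ((contDiff_const.sub hfd).smul hW1)
  have h2 : HasCompactSupport (fun x => f x • Z x + (1 - f x) • W x) := by
    refine HasCompactSupport.add ?_ ?_
    · exact hZ2.smul_left (f := fun x => f x)
    · exact hW2.smul_left (f := fun x => 1 - f x)
  have h3 : ∀ x, ‖f x • Z x + (1 - f x) • W x‖ ≤ dens x := by
    intro x
    obtain ⟨h0, h1⟩ := hf x
    calc ‖f x • Z x + (1 - f x) • W x‖ ≤ ‖f x • Z x‖ + ‖(1 - f x) • W x‖ := norm_add_le _ _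
      _ = f x * ‖Z x‖ + (1 - f x) * ‖W x‖ := by
        rw [norm_smul, norm_smul, Real.norm_of_nonneg h0, Real.norm_of_nonneg (by linarith)]
      _ ≤ f x * dens x + (1 - f x) * dens x := by
        exact add_le_add (mul_le_mul_of_nonneg_left (hZ3 x) h0)
          (mul_le_mul_of_nonneg_left (hW3 x) (by linarith))
      _ = dens x := by ring
  have hdA : ∀ x ∈ A, divg (fun x => f x • Z x + (1 - f x) • W x) x = divg Z x := by
    intro x hx
    refine divg_congr ?_
    filter_upwards [hA.mem_nhds hx] with y hy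
    rw [show f y = 1 from hf1 (subset_closure hy)]
    simp
  have hdB : ∀ x ∈ B, divg (fun x => f x • Z x + (1 - f x) • W x) x = divg W x := by
    intro x hx
    refine divg_congr ?_
    filter_upwards [hB.mem_nhds hx] with y hy
    rw [show f y = 0 from hf0 (subset_closure hy)]
    simp
  have hdisj : Disjoint A B := hAB.mono subset_closure subset_closure
  have h4 := le_perim (A := A ∪ B) h1 h2 h3
  rw [setIntegral_union hdisj hB.measurableSet (integrable_divg h1 h2).integrableOn
    (integrable_divg h1 h2).integrableOn, setIntegral_congr_fun hA.measurableSet hdA,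
    setIntegral_congr_fun hB.measurableSet hdB] at h4
  exact h4

lemma perim_add_le {A B : Set Plane} (hA : IsOpen A) (hB : IsOpen B)
    (hAB : Disjoint (closure A) (closure B)) : perim A + perim B ≤ perim (A ∪ B) := by
  have hz1 : ContDiff ℝ 1 (fun _ : Plane => (0 : Plane)) := contDiff_const
  have hz2 : HasCompactSupport (fun _ : Plane => (0 : Plane)) := HasCompactSupport.zero
  have hz3 : ∀ x : Plane, ‖(0 : Plane)‖ ≤ dens x := fun x => by simpa using (dens_pos x).le
  have hdz : ∀ x, divg (fun _ : Plane => (0 : Plane)) x = 0 := by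
    intro x; simp [divg]
  have : Nonempty {Z : Plane → Plane // ContDiff ℝ 1 Z ∧ HasCompactSupport Z ∧
    ∀ x, ‖Z x‖ ≤ dens x} := ⟨⟨_, hz1, hz2, hz3⟩⟩
  refine ENNReal.iSup_add_iSup_le fun Z W => ?_
  obtain ⟨Z, hZ1, hZ2, hZ3⟩ := Z
  obtain ⟨W, hW1, hW2, hW3⟩ := W
  simp only
  rcases le_total 0 (∫ x in A, divg Z x) with ha | ha
  · rcases le_total 0 (∫ x in B, divg W x) with hb | hb
    · rw [← ENNReal.ofReal_add ha hb]
      exact perim_add_aux hA hB hAB hZ1 hZ2 hZ3 hW1 hW2 hW3
    · rw [ENNReal.ofReal_of_nonpos hb, add_zero]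
      have := perim_add_aux hA hB hAB hZ1 hZ2 hZ3 hz1 hz2 hz3
      simpa [hdz] using this
  · rw [ENNReal.ofReal_of_nonpos ha, zero_add]
    have := perim_add_aux hA hB hAB hz1 hz2 hz3 hW1 hW2 hW3
    simpa [hdz] using this

lemma divg_smul {f : Plane → ℝ} {Z : Plane → Plane} {x : Plane} (hf : DifferentiableAt ℝ f x)
    (hZ : DifferentiableAt ℝ Z x) :
    divg (fun y => f y • Z y) x = f x * divg Z x + fderiv ℝ f x (Z x) := by
  unfold divg
  have h := (hf.hasFDerivAt.fun_smul hZ.hasFDerivAt).fderiv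
  rw [h]
  have h2 : Z x = ∑ i : Fin 2, (Z x i) • (EuclideanSpace.single i (1 : ℝ)) := by
    ext j
    fin_cases j <;> simp [Fin.sum_univ_two]
  conv_rhs => rw [h2]
  simp only [Fin.sum_univ_two]
  simp
  ring

lemma le_perim_of_field {A : Set Plane} {Z : Plane → Plane} (h1 : ContDiff ℝ 1 Z)
    (h3 : ∀ x, ‖Z x‖ ≤ dens x) (hint : Integrable (divg Z)) :
    ENNReal.ofReal (∫ x in A, divg Z x) ≤ perim A := by
  let b : ContDiffBump (0 : Plane) := ⟨1, 2, one_pos, one_lt_two⟩
  have hbd : ContDiff ℝ 1 (b : Plane → ℝ) := b.contDiff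
  have hbc : HasCompactSupport (b : Plane → ℝ) := b.hasCompactSupport
  obtain ⟨C, hC⟩ : ∃ C, ∀ x, ‖fderiv ℝ b x‖ ≤ C :=
    (hbc.fderiv ℝ).exists_bound_of_continuous (hbd.continuous_fderiv (by norm_num))
  have hC0 : 0 ≤ C := (norm_nonneg _).trans (hC 0)
  let χ : ℕ → Plane → ℝ := fun k x => b (((k : ℝ) + 1)⁻¹ • x)
  have hχd : ∀ k, ContDiff ℝ 1 (χ k) := fun k => hbd.comp (contDiff_const_smul _)
  have hkpos : ∀ k : ℕ, (0 : ℝ) < (k : ℝ) + 1 := fun k => by positivity
  have hχc : ∀ k, HasCompactSupport (χ k) := by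
    intro k
    exact hbc.comp_smul (inv_ne_zero (hkpos k).ne')
  have hχ01 : ∀ k x, 0 ≤ χ k x ∧ χ k x ≤ 1 := fun k x => ⟨b.nonneg, b.le_one⟩
  have hfd : ∀ k x v, ‖fderiv ℝ (χ k) x v‖ ≤ C * ‖v‖ := by
    intro k x v
    have hd : HasFDerivAt (χ k) ((fderiv ℝ b (((k : ℝ) + 1)⁻¹ • x)).comp
        (((k : ℝ) + 1)⁻¹ • ContinuousLinearMap.id ℝ Plane)) x := by
      have h5 : HasFDerivAt (fun y : Plane => ((k : ℝ) + 1)⁻¹ • y)
          (((k : ℝ) + 1)⁻¹ • ContinuousLinearMap.id ℝ Plane) x :=
        (hasFDerivAt_id x).fun_const_smul _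
      exact ((hbd.differentiable (by norm_num)) _).hasFDerivAt.comp x h5
    rw [hd.fderiv]
    simp only [ContinuousLinearMap.comp_apply, smul_apply,
      ContinuousLinearMap.id_apply, map_smul, norm_smul]
    have h6 : ‖((k : ℝ) + 1)⁻¹‖ ≤ 1 := by
      rw [norm_inv, Real.norm_of_nonneg (hkpos k).le]
      exact inv_le_one_of_one_le₀ (by have : (0:ℝ) ≤ k := by positivity
                                      linarith)
    calc ‖((k : ℝ) + 1)⁻¹‖ * ‖fderiv ℝ b (((k : ℝ) + 1)⁻¹ • x) v‖ ≤ 1 * (C * ‖v‖) := by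
          gcongr
          exact (ContinuousLinearMap.le_opNorm _ _).trans (by gcongr; exact hC _)
      _ = C * ‖v‖ := one_mul _
  have hZd : ∀ x, DifferentiableAt ℝ Z x := fun x => (h1.differentiable (by norm_num)) x
  have hdiv : ∀ k x, divg (fun y => χ k y • Z y) x = χ k x * divg Z x + fderiv ℝ (χ k) x (Z x) :=
    fun k x => divg_smul ((hχd k).differentiable (by norm_num) x) (hZd x)
  have hlim : Tendsto (fun k => ∫ x in A, divg (fun y => χ k y • Z y) x) atTop
      (𝓝 (∫ x in A, divg Z x)) := by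
    refine tendsto_integral_of_dominated_convergence (fun x => ‖divg Z x‖ + C * dens x) ?_ ?_ ?_ ?_
    · intro k
      exact (continuous_divg ((hχd k).smul h1)).aestronglyMeasurable
    · exact (hint.norm.add (integrable_dens.const_mul C)).integrableOn
    · intro k
      refine Eventually.of_forall fun x => ?_
      rw [hdiv]
      refine (norm_add_le _ _).trans (add_le_add ?_ ?_)
      · rw [norm_mul, Real.norm_of_nonneg (hχ01 k x).1]
        exact mul_le_of_le_one_left (norm_nonneg _) (hχ01 k x).2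
      · exact (hfd k x _).trans (by gcongr; exact h3 x)
    · refine Eventually.of_forall fun x => ?_
      refine tendsto_const_nhds.congr' ?_
      obtain ⟨K, hK⟩ := exists_nat_gt ‖x‖
      filter_upwards [eventually_ge_atTop K] with k hk
      refine (divg_congr ?_).symm
      have hx : x ∈ Metric.ball (0 : Plane) ((k : ℝ) + 1) := by
        simp only [mem_ball_zero_iff]
        have : (K : ℝ) ≤ k := by exact_mod_cast hk
        linarith
      filter_upwards [Metric.isOpen_ball.mem_nhds hx] with y hy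
      have hy1 : χ k y = 1 := by
        refine b.one_of_mem_closedBall ?_
        rw [mem_closedBall_zero_iff, norm_smul, norm_inv, Real.norm_of_nonneg (hkpos k).le,
          inv_mul_le_iff₀ (hkpos k)]
        rw [mem_ball_zero_iff] at hy
        change ‖y‖ ≤ ((k : ℝ) + 1) * 1
        linarith
      rw [hy1, one_smul]
  have hlim2 := (ENNReal.continuous_ofReal.tendsto _).comp hlim
  refine le_of_tendsto' hlim2 fun k => ?_
  refine le_perim ((hχd k).smul h1) ((hχc k).smul_right) fun x => ?_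
  rw [norm_smul, Real.norm_of_nonneg (hχ01 k x).1]
  exact (mul_le_of_le_one_left (norm_nonneg _) (hχ01 k x).2).trans (h3 x)

end Pool.Agent.H911R2.Gauss
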