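import Pool.Agent.H911R2.GaussMain

/-! Passing from the tail parameter `s` to the small area `t`. -/

set_option autoImplicit false

namespace Pool.Agent.H911R2.Gauss

open MeasureTheory Set Filter Topology
open scoped ENNReal

lemma exists_tail (s₀ : ℝ) {t : ℝ} (ht0 : 0 < t) (ht : t < G s₀ / √(2 * Real.pi)) :
    ∃ s, s₀ ≤ s ∧ G s / √(2 * Real.pi) = t := by
  have hlim : Tendsto (fun s => G s / √(2 * Real.pi)) atTop (𝓝 0) := by
    simpa using tendsto_G_atTop.div_const √(2 * Real.pi)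
  obtain ⟨b, hb, hb0⟩ := ((hlim.eventually (gt_mem_nhds ht0)).and (eventually_ge_atTop s₀)).exists
  have hc : ContinuousOn (fun s => G s / √(2 * Real.pi)) (Icc s₀ b) :=
    (continuous_G.div_const _).continuousOn
  obtain ⟨s, hs, hst⟩ := intermediate_value_Icc' hb0 hc ⟨hb.le, ht.le⟩
  exact ⟨s, hs.1, hst⟩

theorem no_straight_minimizer {m : ℕ} (hm : 7 ≤ m) (w : Fin m → ℝ) (hw : ∀ i, 0 < w i)
    (hsum : ∑ i, w i = 1) : ∃ t₀ : ℝ, 0 < t₀ ∧ ∀ t : ℝ, 0 < t → t < t₀ →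
      ∀ A : Fin (m + 1) → Set Plane, IsMinimizing (Fin.cons (1 - t) fun i => t * w i) A →
      ∀ (k : ℕ) (e : Fin k → Edge), IsNetwork e → interface A ≠ ⋃ i, (e i).carrier := by
  obtain ⟨s₀, hs₀⟩ := straight_perim hm w hw hsum
  refine ⟨G s₀ / √(2 * Real.pi), div_pos (G_pos _) s2pi_pos, fun t ht0 ht A hA => ?_⟩
  obtain ⟨s, hs, rfl⟩ := exists_tail s₀ ht0 ht
  obtain ⟨B, hB, hBT⟩ := competitor w hw hsum s
  exact hs₀ s hs A hA.1 ((hA.2 B hB).trans hBT)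

end Pool.Agent.H911R2.Gauss
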