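import Pool.Agent.H911R2.GaussFinal
import Pool.Agent.H911R2.GaussExist

/-! Existence and non-straightness of the minimizers together. -/

set_option autoImplicit false

namespace Pool.Agent.H911R2.Gauss

open MeasureTheory Set Filter Topology
open scoped ENNReal

theorem minimizers_not_straight {m : ℕ} (hm : 7 ≤ m) (w : Fin m → ℝ) (hw : ∀ i, 0 < w i)
    (hsum : ∑ i, w i = 1) : ∃ t₀ : ℝ, 0 < t₀ ∧ t₀ ≤ 1 ∧ ∀ t : ℝ, 0 < t → t < t₀ →
      (∃ A : Fin (m + 1) → Set Plane, IsMinimizing (Fin.cons (1 - t) fun i => t * w i) A) ∧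
      ∀ A : Fin (m + 1) → Set Plane, IsMinimizing (Fin.cons (1 - t) fun i => t * w i) A →
      totalPerim A ≠ ⊤ ∧
      ∀ (k : ℕ) (e : Fin k → Edge), IsNetwork e → interface A ≠ ⋃ i, (e i).carrier := by
  obtain ⟨t₀, ht₀, h⟩ := no_straight_minimizer hm w hw hsum
  have hG : 0 < G 0 / √(2 * Real.pi) := div_pos (G_pos _) s2pi_pos
  refine ⟨min t₀ (min 1 (G 0 / √(2 * Real.pi))), lt_min ht₀ (lt_min one_pos hG),
    (min_le_right _ _).trans (min_le_left _ _), fun t ht0 ht => ?_⟩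
  have ht1 : t < t₀ := ht.trans_le (min_le_left _ _)
  have ht2 : t < G 0 / √(2 * Real.pi) :=
    ht.trans_le ((min_le_right _ _).trans (min_le_right _ _))
  obtain ⟨B, hB, hBt⟩ : ∃ B : Fin (m + 1) → Set Plane,
      IsPartition (Fin.cons (1 - t) fun i => t * w i) B ∧ totalPerim B ≠ ⊤ := by
    obtain ⟨s, -, rfl⟩ := exists_tail 0 ht0 ht2
    obtain ⟨B, hB, hBT⟩ := competitor w hw hsum s
    exact ⟨B, hB, ne_top_of_le_ne_top ENNReal.ofReal_ne_top hBT⟩
  exact ⟨exists_minimizing hB hBt, fun A hA =>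
    ⟨ne_top_of_le_ne_top hBt (hA.2 B hB), h t ht0 ht1 A hA⟩⟩

end Pool.Agent.H911R2.Gauss
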