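import Pool.Agent.H911R2.GaussPart

/-! Lower bounds for the perimeter of partitions whose interface is a straight network. -/

set_option autoImplicit false

namespace Pool.Agent.H911R2.Gauss

open Set Filter Topology Metric MeasureTheory
open scoped RealInnerProductSpace ENNReal

lemma ofReal_mul_gam {A : Set Plane} (hA : MeasurableSet A) {c : ℝ} (hc : 0 ≤ c) :
    ENNReal.ofReal (c * ∫ x in A, dens x) = ENNReal.ofReal c * gam A := by
  rw [gam_apply hA, ENNReal.ofReal_mul hc]

lemma perim_ge_convex {F : Set Plane} (hF : IsOpen F) (hc : Convex ℝ F) {x₀ : Plane}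
    (hx₀ : x₀ ∉ F) : ENNReal.ofReal ((√(2 * Real.pi))⁻¹ * g (‖x₀‖ + 1)) * gam F ≤ perim F := by
  rcases F.eq_empty_or_nonempty with hemp | hne
  · rw [hemp]; simp
  obtain ⟨f, hf⟩ := geometric_hahn_banach_open_point hc hF hx₀
  let w : Plane := (InnerProductSpace.toDual ℝ Plane).symm f
  have hw : ∀ y, ⟪w, y⟫ = f y := fun y => InnerProductSpace.toDual_symm_apply
  have hw0 : w ≠ 0 := by
    intro h0
    obtain ⟨y, hy⟩ := hne
    have := hf y hy
    rw [← hw, ← hw, h0, inner_zero_left, inner_zero_left] at this
    exact lt_irrefl _ this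
  have hwn : 0 < ‖w‖ := norm_pos_iff.2 hw0
  have hν : ‖-(‖w‖⁻¹ • w)‖ = 1 := by
    rw [norm_neg, norm_smul, norm_inv, norm_norm, inv_mul_cancel₀ hwn.ne']
  rw [← ofReal_mul_gam hF.measurableSet (mul_nonneg (by positivity) (g_pos _).le)]
  refine perim_ge_halfplane hF.measurableSet (norm_nonneg x₀) hν fun y hy => ?_
  have h1 : ⟪-(‖w‖⁻¹ • w), x₀⟫ < ⟪-(‖w‖⁻¹ • w), y⟫ := by
    rw [inner_neg_left, inner_neg_left, inner_smul_left, inner_smul_left, hw, hw]
    simp only [conj_trivial]
    have := mul_lt_mul_of_pos_left (hf y hy) (inv_pos.2 hwn)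
    linarith
  refine lt_of_le_of_lt ?_ h1
  have h2 := abs_real_inner_le_norm (-(‖w‖⁻¹ • w)) x₀
  rw [hν, one_mul] at h2
  exact (abs_le.1 h2).1

variable {n : ℕ} {N : Set Plane} {U : Fin n → Set Plane}

/-- If the network contains `x₀`, then each region has perimeter at least a constant times its
area. -/
lemma Net.lb1 (h : Net N U) {x₀ : Plane} (hx₀ : x₀ ∈ N) (i : Fin n) :
    ENNReal.ofReal ((√(2 * Real.pi))⁻¹ * g (‖x₀‖ + 1)) * gam (U i) ≤ perim (U i) := by
  set c : ℝ≥0∞ := ENNReal.ofReal ((√(2 * Real.pi))⁻¹ * g (‖x₀‖ + 1)) with hc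
  let d : ℕ → Plane := TopologicalSpace.denseSeq Plane
  let F : ℕ → Set Plane := fun k => connectedComponentIn (U i) (d k)
  let W : ℕ → Set Plane := fun k => ⋃ l ∈ Finset.range k, F l
  have hUo : IsOpen (U i) := h.isOpen i
  have hloc := h.local_convex i
  have hFo : ∀ k, IsOpen (F k) := fun k => hUo.connectedComponentIn
  have hFU : ∀ k, F k ⊆ U i := fun k => connectedComponentIn_subset _ _
  have hWo : ∀ k, IsOpen (W k) := fun k => isOpen_biUnion fun l _ => hFo l
  have hWU : ∀ k, W k ⊆ U i := fun k => iUnion₂_subset fun l _ => hFU l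
  have hWs : ∀ k, W (k + 1) = W k ∪ F k := by
    intro k
    simp only [W, Finset.range_add_one, Finset.set_biUnion_insert]
    rw [union_comm]
  have hFF : ∀ k l, F k ⊆ F l ∨ F k ⊆ U i \ F l := by
    intro k l
    by_cases hd : Disjoint (F k) (F l)
    · right
      intro y hy
      exact ⟨hFU k hy, fun hyl => Set.disjoint_left.1 hd hy hyl⟩
    · left
      obtain ⟨y, hyk, hyl⟩ := Set.not_disjoint_iff.1 hd
      have e1 : F k = connectedComponentIn (U i) y := connectedComponentIn_eq hyk
      have e2 : F l = connectedComponentIn (U i) y := connectedComponentIn_eq hyl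
      rw [e1, e2]
  -- lower bound for the finite unions
  have hW : ∀ k, c * gam (W k) ≤ perim (W k) := by
    intro k
    induction k with
    | zero => simp [W]
    | succ k ih =>
      by_cases hex : ∃ l ∈ Finset.range k, F k ⊆ F l
      · obtain ⟨l, hl, hkl⟩ := hex
        have : W (k + 1) = W k := by
          rw [hWs, union_eq_left]
          exact hkl.trans (subset_biUnion_of_mem (u := F) hl)
        rw [this]; exact ih
      · push Not at hex
        have hdis : Disjoint (closure (W k)) (closure (F k)) := by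
          have e : closure (W k) = ⋃ l ∈ Finset.range k, closure (F l) :=
            Finset.closure_biUnion _ _
          rw [e, disjoint_iUnion₂_left]
          intro l hl
          have h1 : F k ⊆ U i \ F l := (hFF k l).resolve_left (hex l hl)
          exact (comp_disjoint_closure hloc (d l)).mono_right (closure_mono h1)
        rw [hWs]
        have h2 : Disjoint (W k) (F k) := hdis.mono subset_closure subset_closure
        rw [measure_union h2 (hFo k).measurableSet, mul_add]
        refine le_trans (add_le_add ih ?_) (perim_add_le (hWo k) (hFo k) hdis)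
        exact perim_ge_convex (hFo k) (comp_convex hUo hloc (d k))
          (fun hx => h.subset_compl i (hFU k hx) hx₀)
  -- the finite unions are clopen in `U i`
  have hWU2 : ∀ k, IsOpen (U i \ W k) ∧ Disjoint (closure (W k)) (closure (U i \ W k)) := by
    intro k
    constructor
    · have e : U i \ W k = U i ∩ ⋂ l ∈ Finset.range k, (U i \ F l) := by
        ext y
        simp only [W, Set.mem_sdiff, mem_inter_iff, mem_iUnion, mem_iInter, not_exists]
        exact ⟨fun h => ⟨h.1, fun l hl => ⟨h.1, h.2 l hl⟩⟩, fun h => ⟨h.1, fun l hl => (h.2 l hl).2⟩⟩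
      rw [e]
      exact hUo.inter (isOpen_biInter_finset fun l _ => comp_diff_isOpen hUo hloc (d l))
    · have e : closure (W k) = ⋃ l ∈ Finset.range k, closure (F l) :=
        Finset.closure_biUnion _ _
      rw [e, disjoint_iUnion₂_left]
      intro l hl
      refine (comp_disjoint_closure hloc (d l)).mono_right (closure_mono ?_)
      exact sdiff_subset_sdiff_right (subset_biUnion_of_mem (u := F) hl)
  have hWP : ∀ k, c * gam (W k) ≤ perim (U i) := by
    intro k
    have h1 := perim_add_le (hWo k) (hWU2 k).1 (hWU2 k).2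
    rw [union_sdiff_cancel (hWU k)] at h1
    exact (hW k).trans (le_trans (le_add_right le_rfl) h1)
  -- exhaustion
  have hmono : Monotone W := by
    refine monotone_nat_of_le_succ fun k => ?_
    rw [hWs]; exact subset_union_left
  have hU : ⋃ k, W k = U i := by
    apply Subset.antisymm (iUnion_subset hWU)
    intro y hy
    have hop : IsOpen (connectedComponentIn (U i) y) := hUo.connectedComponentIn
    obtain ⟨k, hk⟩ := (TopologicalSpace.denseRange_denseSeq Plane).exists_mem_open hop
      ⟨y, mem_connectedComponentIn hy⟩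
    have e : F k = connectedComponentIn (U i) y := (connectedComponentIn_eq hk).symm
    refine mem_iUnion.2 ⟨k + 1, ?_⟩
    rw [hWs]
    right
    rw [e]; exact mem_connectedComponentIn hy
  rw [← hU, hmono.measure_iUnion, ENNReal.mul_iSup, hU]
  exact iSup_le hWP

lemma Net.perim_biUnion_le (h : Net N U) (S : Finset (Fin n)) :
    perim (⋃ i ∈ S, U i) ≤ ∑ i ∈ S, perim (U i) := by
  classical
  induction S using Finset.induction_on with
  | empty => simp [perim_empty]
  | insert i S hi ih =>
    rw [Finset.sum_insert hi, Finset.set_biUnion_insert]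
    refine (perim_union_le ?_ ?_).trans (add_le_add_right ih _)
    · exact (isOpen_biUnion fun i _ => h.isOpen i).measurableSet
    · have : U i ∩ ⋃ j ∈ S, U j = ∅ := by
        rw [← disjoint_iff_inter_eq_empty, disjoint_iUnion₂_right]
        intro j hj
        exact h.disj i j (fun hij => hi (hij ▸ hj))
      rw [this]; exact measure_empty

/-- Lower bound: if the network avoids the disc of radius `r` about the origin, then the total
perimeter is at least `(r - 1/r)` times the area outside the region containing the origin plus the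
area of some region from any given family of seven other regions. -/
lemma Net.lb2 (h : Net N U) (hN0 : volume N = 0) {r : ℝ} (hr : 1 ≤ r) (hball : ∀ x ∈ N, r ≤ ‖x‖)
    {l : Fin n} (h0 : (0 : Plane) ∈ U l) (J : Finset (Fin n)) (hlJ : l ∉ J) (hJ : 7 ≤ J.card) :
    ∃ j ∈ J, 2 * (ENNReal.ofReal (r - 1 / r) * (gam (U l)ᶜ + gam (U j))) ≤ ∑ i, perim (U i) := by
  classical
  have hr0 : 0 < r := by linarith
  have hc0 : 0 ≤ r - 1 / r := by
    have : 1 / r ≤ 1 := by rw [div_le_one hr0]; exact hr
    linarith
  obtain ⟨j, hj, hdis⟩ := h.exists_far (0 : Plane) J hlJ hJ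
  refine ⟨j, hj, ?_⟩
  have hlj : l ≠ j := fun hlj => hlJ (hlj ▸ hj)
  set F := connectedComponentIn (U l) (0 : Plane) with hF
  have hloc := h.local_convex l
  have hFo : IsOpen F := (h.isOpen l).connectedComponentIn
  have hFU : F ⊆ U l := connectedComponentIn_subset _ _
  -- the disc is contained in `F`
  have hbN : ball (0 : Plane) r ⊆ Nᶜ := by
    intro x hx hxN
    have := hball x hxN
    rw [mem_ball_zero_iff] at hx
    linarith
  have hbF : ball (0 : Plane) r ⊆ F := by
    obtain ⟨k, hk⟩ := h.label (convex_ball (0 : Plane) r).isPreconnected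
      ⟨0, mem_ball_self hr0⟩ hbN
    have hkl : k = l := h.not_both (hk (mem_ball_self hr0)) h0
    rw [hkl] at hk
    exact (convex_ball (0 : Plane) r).isPreconnected.subset_connectedComponentIn
      (mem_ball_self hr0) hk
  have hout : ∀ {B : Set Plane}, MeasurableSet B → (∀ x ∈ B, x ∉ F) →
      ENNReal.ofReal (r - 1 / r) * gam B ≤ perim B := by
    intro B hB hBF
    rw [← ofReal_mul_gam hB hc0]
    refine perim_ge_outside hB hr0 fun x hx => ?_
    by_contra hcon
    push Not at hcon
    exact hBF x hx (hbF (by rwa [mem_ball_zero_iff]))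
  have h1 : ENNReal.ofReal (r - 1 / r) * gam (U l)ᶜ ≤ perim F := by
    rw [← perim_compl hFo.measurableSet]
    refine le_trans ?_ (hout hFo.measurableSet.compl fun x hx => hx)
    gcongr
  have h2 : ENNReal.ofReal (r - 1 / r) * gam (U j) ≤ perim (U j) :=
    hout (h.isOpen j).measurableSet fun x hx hxF => hlj (h.not_both (hFU hxF) hx)
  -- decomposition of the sum
  set S : Finset (Fin n) := (Finset.univ.erase l).erase j with hS
  have hjm : j ∈ Finset.univ.erase l := Finset.mem_erase.2 ⟨hlj.symm, Finset.mem_univ _⟩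
  have hsum : ∑ i, perim (U i) = perim (U l) + (perim (U j) + ∑ i ∈ S, perim (U i)) := by
    rw [hS, Finset.add_sum_erase (Finset.univ.erase l) (fun i => perim (U i)) hjm,
      Finset.add_sum_erase Finset.univ (fun i => perim (U i)) (Finset.mem_univ l)]
  have h3 : perim F + perim (U l \ F) ≤ perim (U l) := by
    have := perim_add_le hFo (comp_diff_isOpen (h.isOpen l) hloc 0)
      (comp_disjoint_closure hloc 0)
    rwa [← hF, union_sdiff_cancel hFU] at this
  have h4 : perim (F ∪ U j) ≤ perim (U l \ F) + ∑ i ∈ S, perim (U i) := by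
    have hmeas : MeasurableSet (⋃ i ∈ S, U i) :=
      (isOpen_biUnion fun i _ => h.isOpen i).measurableSet
    have hdis2 : volume ((U l \ F) ∩ ⋃ i ∈ S, U i) = 0 := by
      have : (U l \ F) ∩ ⋃ i ∈ S, U i = ∅ := by
        rw [← disjoint_iff_inter_eq_empty, disjoint_iUnion₂_right]
        intro i hi
        rw [hS, Finset.mem_erase, Finset.mem_erase] at hi
        exact (h.disj l i hi.2.1.symm).mono_left sdiff_subset
      rw [this]; exact measure_empty
    have h5 := (perim_union_le hmeas hdis2).trans (add_le_add_right (h.perim_biUnion_le S) _)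
    refine le_trans (le_of_eq ?_) h5
    rw [← perim_compl (hFo.union (h.isOpen j)).measurableSet]
    refine perim_congr ?_
    rw [ae_eq_set]
    constructor
    · refine measure_mono_null ?_ hN0
      rintro y ⟨hy1, hy2⟩
      by_contra hyN
      have hy3 : y ∈ ⋃ i, U i := by rw [h.cover]; exact hyN
      obtain ⟨i, hi⟩ := mem_iUnion.1 hy3
      have hyF : y ∉ F := fun hyF => hy1 (Or.inl hyF)
      have hyj : y ∉ U j := fun hyj => hy1 (Or.inr hyj)
      apply hy2
      by_cases hil : i = l
      · left; rw [hil] at hi; exact ⟨hi, hyF⟩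
      · right
        have hij : i ≠ j := by rintro rfl; exact hyj hi
        exact mem_biUnion (x := i) (by
          rw [hS]; simp [hil, hij]) hi
    · have : ((U l \ F) ∪ ⋃ i ∈ S, U i) \ (F ∪ U j)ᶜ = ∅ := by
        rw [sdiff_eq_empty]
        rintro y (⟨hy1, hy2⟩ | hy)
        · rintro (hy3 | hy3)
          · exact hy2 hy3
          · exact hlj (h.not_both hy1 hy3)
        · obtain ⟨i, hi, hyi⟩ := mem_iUnion₂.1 hy
          rw [hS, Finset.mem_erase, Finset.mem_erase] at hi
          rintro (hy3 | hy3)
          · exact hi.2.1 (h.not_both hyi (hFU hy3))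
          · exact hi.1 (h.not_both hyi hy3)
      rw [this]; exact measure_empty
  have h5 : perim F + perim (U j) ≤ perim (F ∪ U j) := perim_add_le hFo (h.isOpen j) hdis
  calc 2 * (ENNReal.ofReal (r - 1 / r) * (gam (U l)ᶜ + gam (U j)))
      = 2 * (ENNReal.ofReal (r - 1 / r) * gam (U l)ᶜ + ENNReal.ofReal (r - 1 / r) * gam (U j)) := by
        rw [mul_add]
    _ ≤ 2 * (perim F + perim (U j)) := by gcongr
    _ = (perim F + perim (U j)) + (perim F + perim (U j)) := two_mul _
    _ ≤ (perim F + perim (U j)) + (perim (U l \ F) + ∑ i ∈ S, perim (U i)) := by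
        exact add_le_add le_rfl (h5.trans h4)
    _ = (perim F + perim (U l \ F)) + (perim (U j) + ∑ i ∈ S, perim (U i)) := by
        abel
    _ ≤ perim (U l) + (perim (U j) + ∑ i ∈ S, perim (U i)) := by gcongr
    _ = ∑ i, perim (U i) := hsum.symm

end Pool.Agent.H911R2.Gauss
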