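import Pool.Agent.H911R2.GaussLower
import Pool.Agent.H911R2.GaussComp

/-! For one huge region and at least seven tiny ones, a partition whose interface is a straight
network has larger perimeter than the comparison partition. -/

set_option autoImplicit false

namespace Pool.Agent.H911R2.Gauss

open MeasureTheory Set Filter Topology
open scoped ENNReal

lemma two_le_s2pi : 2 ≤ √(2 * Real.pi) := by
  apply Real.le_sqrt_of_sq_le
  have := Real.pi_gt_three
  linarith

lemma g_shift (s : ℝ) : g (s - 1) = g s * Real.exp (s - 1 / 2) := by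
  unfold g
  rw [← Real.exp_add]
  congr 1; ring

lemma G_le_g {s : ℝ} (hs : 1 ≤ s) : G s ≤ g s := by
  have h := mul_G_le_g s
  have := G_pos s
  nlinarith

lemma g_anti {a b : ℝ} (ha : 0 ≤ a) (hab : a ≤ b) : g b ≤ g a := by
  unfold g
  rw [Real.exp_le_exp]
  have : a ^ 2 ≤ b ^ 2 := by gcongr
  linarith

theorem straight_perim {m : ℕ} (hm : 7 ≤ m) (w : Fin m → ℝ) (hw : ∀ i, 0 < w i)
    (hsum : ∑ i, w i = 1) : ∃ s₀ : ℝ, ∀ s, s₀ ≤ s → ∀ A : Fin (m + 1) → Set Plane,
      IsPartition (Fin.cons (1 - G s / √(2 * Real.pi)) fun i => G s / √(2 * Real.pi) * w i) A →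
      totalPerim A ≤ ENNReal.ofReal ((2 * Real.pi)⁻¹ * (√(2 * Real.pi) * g s + m * G s)) →
      ∀ (k : ℕ) (e : Fin k → Edge), IsNetwork e → interface A ≠ ⋃ i, (e i).carrier := by
  classical
  refine ⟨(∑ j, (7 + m) / w j) + m + 6, fun s hs A hA hT k e he hI => ?_⟩
  have hm0 : (0 : ℝ) ≤ m := Nat.cast_nonneg m
  have hm7 : (7 : ℝ) ≤ m := by exact_mod_cast hm
  have hterm : ∀ j, 0 < (7 + m) / w j := fun j => div_pos (by positivity) (hw j)
  have hsj : ∀ j, (7 + m) / w j + m + 6 ≤ s := fun j => by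
    have := Finset.single_le_sum (f := fun j => (7 + (m : ℝ)) / w j)
      (fun j _ => (hterm j).le) (Finset.mem_univ j)
    linarith
  have hsm : (m : ℝ) + 6 ≤ s := by
    have : 0 ≤ ∑ j, (7 + (m : ℝ)) / w j := Finset.sum_nonneg fun j _ => (hterm j).le
    linarith
  have hw1 : ∀ j, w j ≤ 1 := fun j => by
    rw [← hsum]; exact Finset.single_le_sum (fun j _ => (hw j).le) (Finset.mem_univ j)
  set q : ℝ := √(2 * Real.pi) with hq
  have hq2 : 2 ≤ q := two_le_s2pi
  have hq0 : 0 < q := by linarith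
  have hqi : q⁻¹ ≤ 1 / 2 := by rw [one_div]; exact inv_anti₀ (by norm_num) hq2
  have hqi0 : 0 < q⁻¹ := inv_pos.2 hq0
  have hg := g_pos s
  have hG := G_pos s
  have hGg : G s ≤ g s := G_le_g (by linarith)
  -- the constant
  set C : ℝ := (2 * Real.pi)⁻¹ * (q * g s + m * G s) with hC
  have hCe : C = q⁻¹ * (g s + m * G s * q⁻¹) := by
    rw [hC, inv_2pi, ← hq]; field_simp
  have hC1 : C ≤ q⁻¹ * ((1 + m / 2) * g s) := by
    rw [hCe]
    have : m * G s * q⁻¹ ≤ m * g s * (1 / 2) := by gcongr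
    have h3 : g s + m * G s * q⁻¹ ≤ (1 + m / 2) * g s := by linarith
    exact mul_le_mul_of_nonneg_left h3 hqi0.le
  have hexp : s + 1 / 2 ≤ Real.exp (s - 1 / 2) := by
    have := Real.add_one_le_exp (s - 1 / 2); linarith
  have hC2 : 2 * C < q⁻¹ * g (s - 1) := by
    rw [g_shift]
    have h1 : (2 + m) * g s < g s * Real.exp (s - 1 / 2) := by
      rw [mul_comm]
      exact mul_lt_mul_of_pos_left (by linarith) hg
    calc 2 * C ≤ 2 * (q⁻¹ * ((1 + m / 2) * g s)) := by linarith
      _ = q⁻¹ * ((2 + m) * g s) := by ring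
      _ < q⁻¹ * (g s * Real.exp (s - 1 / 2)) := mul_lt_mul_of_pos_left h1 hqi0
  have hC0 : 0 ≤ C := by rw [hC]; positivity
  -- the network
  set N : Set Plane := ⋃ i, (e i).carrier with hN
  have hNet := net_of_partition hA he hI
  have hN0 : volume N = 0 := volume_network e
  have hae : ∀ i, lab (A i) =ᵐ[volume] A i := lab_ae_eq hA (by rw [hI]; exact hN0)
  have hTsum : ∑ i, perim (lab (A i)) ≤ ENNReal.ofReal (2 * C) := by
    have h1 : ∑ i, perim (lab (A i)) = ∑ i, perim (A i) :=
      Finset.sum_congr rfl fun i _ => perim_congr (hae i)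
    have h2 : (∑ i, perim (A i)) = totalPerim A * 2 := by
      unfold totalPerim
      rw [ENNReal.div_mul_cancel (by norm_num) (by norm_num)]
    rw [h1, h2]
    calc totalPerim A * 2 ≤ ENNReal.ofReal C * 2 := by gcongr
      _ = ENNReal.ofReal (2 * C) := by
        rw [ENNReal.ofReal_mul (p := 2) (by norm_num), mul_comm]; simp
  have hgam : ∀ i, gam (lab (A i)) = ENNReal.ofReal
      ((Fin.cons (1 - G s / q) fun i => G s / q * w i : Fin (m + 1) → ℝ) i) := fun i => by
    rw [← hA.area i]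
    exact measure_congr (gam_absCont.ae_eq (hae i))
  have hgN : gam N = 0 := gam_absCont hN0
  -- step 1: the network avoids a large disc
  have hfar : ∀ x ∈ N, s - 2 ≤ ‖x‖ := by
    intro x hx
    by_contra hcon
    push Not at hcon
    have h1 : ∀ i, ENNReal.ofReal (q⁻¹ * g (‖x‖ + 1)) * gam (lab (A i)) ≤ perim (lab (A i)) :=
      fun i => hNet.lb1 hx i
    have h2 : ENNReal.ofReal (q⁻¹ * g (‖x‖ + 1)) ≤ ∑ i, perim (lab (A i)) := by
      refine le_trans ?_ (Finset.sum_le_sum fun i _ => h1 i)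
      rw [← Finset.mul_sum]
      have h3 : 1 ≤ ∑ i, gam (lab (A i)) := by
        have h4 : gam Nᶜ = 1 := (prob_compl_eq_one_iff hNet.closed.measurableSet).2 hgN
        rw [← h4, ← hNet.cover]
        exact measure_iUnion_fintype_le _ _
      calc ENNReal.ofReal (q⁻¹ * g (‖x‖ + 1)) = ENNReal.ofReal (q⁻¹ * g (‖x‖ + 1)) * 1 :=
            (mul_one _).symm
        _ ≤ _ := by gcongr
    have h3 := h2.trans hTsum
    rw [ENNReal.ofReal_le_ofReal_iff (by positivity)] at h3
    have h4 : g (s - 1) ≤ g (‖x‖ + 1) := g_anti (by positivity) (by linarith)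
    have h5 : q⁻¹ * g (s - 1) ≤ q⁻¹ * g (‖x‖ + 1) := by gcongr
    linarith
  -- step 2
  have h0N : (0 : Plane) ∉ N := by
    intro h0
    have := hfar 0 h0
    rw [norm_zero] at this
    linarith
  have h0U : (0 : Plane) ∈ ⋃ i, lab (A i) := by rw [hNet.cover]; exact h0N
  obtain ⟨l, hl⟩ := mem_iUnion.1 h0U
  have hcard : 7 ≤ (Finset.univ.erase l).card := by
    rw [Finset.card_erase_of_mem (Finset.mem_univ l), Finset.card_univ, Fintype.card_fin]
    omega
  obtain ⟨j, hj, hlb⟩ := hNet.lb2 hN0 (r := s - 2) (by linarith) hfar hl (Finset.univ.erase l)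
    (Finset.notMem_erase _ _) hcard
  have hjl : j ≠ l := (Finset.mem_erase.1 hj).1
  have hlb2 := hlb.trans hTsum
  set r : ℝ := s - 2 with hr
  have hr4 : 4 ≤ r := by linarith
  have hr1 : 1 / r ≤ 1 := by rw [div_le_one (by linarith)]; linarith
  have hrr : 0 ≤ r - 1 / r := by linarith
  have ht0 : 0 < G s / q := div_pos hG hq0
  have hg1 : g s ≤ 1 := g_le_one s
  have ht1 : G s / q ≤ 1 / 2 := by
    rw [div_le_div_iff₀ hq0 (by norm_num)]; linarith
  have hcompl : gam (lab (A l))ᶜ = 1 - gam (lab (A l)) := by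
    rw [prob_compl_eq_one_sub (isOpen_lab _).measurableSet]
  rw [hcompl] at hlb2
  -- cases on the label of the origin
  induction l using Fin.cases with
  | zero =>
    induction j using Fin.cases with
    | zero => exact hjl rfl
    | succ j =>
      rw [hgam, hgam, Fin.cons_zero, Fin.cons_succ, ← ENNReal.ofReal_one,
        ← ENNReal.ofReal_sub _ (by linarith),
        ← ENNReal.ofReal_add (by linarith) (mul_nonneg ht0.le (hw j).le),
        ← ENNReal.ofReal_mul hrr, show (2 : ℝ≥0∞) = ENNReal.ofReal 2 by simp,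
        ← ENNReal.ofReal_mul (by norm_num),
        ENNReal.ofReal_le_ofReal_iff (by positivity)] at hlb2
      have h1 : (r - 1 / r) * (1 + w j) * (G s * q⁻¹) ≤ C := by
        have : 1 - (1 - G s / q) + G s / q * w j = (1 + w j) * (G s * q⁻¹) := by
          rw [div_eq_mul_inv]; ring
        rw [this] at hlb2
        linarith
      have h2 : C ≤ (s + 1 / s + m / 2) * (G s * q⁻¹) := by
        rw [hCe]
        have h3 : g s ≤ (s + 1 / s) * G s := g_le_G (by linarith)
        have h4 : m * G s * q⁻¹ ≤ m * G s * (1 / 2) := by gcongr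
        calc q⁻¹ * (g s + m * G s * q⁻¹) ≤ q⁻¹ * ((s + 1 / s) * G s + m * G s * (1 / 2)) := by
              gcongr
          _ = _ := by ring
      have h3 : (r - 1 / r) * (1 + w j) ≤ s + 1 / s + m / 2 :=
        le_of_mul_le_mul_right (h1.trans h2) (mul_pos hG hqi0)
      have h4 : 1 / s ≤ 1 := by rw [div_le_one (by linarith)]; linarith
      have h5 : (s - 3) * (1 + w j) ≤ (r - 1 / r) * (1 + w j) :=
        mul_le_mul_of_nonneg_right (by linarith) (by linarith [hw j])
      have h6 := hsj j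
      have h7 : (7 + m) / w j * w j = 7 + m := by
        have := (hw j).ne'; field_simp
      have h8 : ((7 + m) / w j) * w j ≤ s * w j := by
        have := hw j
        gcongr
        linarith
      have := hw1 j
      nlinarith
  | succ l =>
    rw [hgam, Fin.cons_succ, ← ENNReal.ofReal_one, ← ENNReal.ofReal_sub _
      (mul_nonneg ht0.le (hw l).le)] at hlb2
    have h1 : ENNReal.ofReal (2 * ((r - 1 / r) * (1 - G s / q * w l))) ≤ ENNReal.ofReal (2 * C) := by
      rw [ENNReal.ofReal_mul (p := 2) (by norm_num), ENNReal.ofReal_mul hrr]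
      refine le_trans ?_ hlb2
      rw [show ENNReal.ofReal 2 = (2 : ℝ≥0∞) by simp]
      gcongr
      exact le_self_add
    rw [ENNReal.ofReal_le_ofReal_iff (by positivity)] at h1
    have h2 : G s / q * w l ≤ 1 / 2 := by
      calc G s / q * w l ≤ (1 / 2) * 1 := by
            have := hw1 l
            have := hw l
            gcongr
        _ = 1 / 2 := by ring
    have h3 : 3 ≤ r - 1 / r := by linarith
    have h4 : 3 * (1 / 2) ≤ (r - 1 / r) * (1 - G s / q * w l) :=
      mul_le_mul h3 (by linarith) (by norm_num) hrr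
    have h5 : q⁻¹ * g (s - 1) ≤ 1 / 2 * 1 :=
      mul_le_mul hqi (g_le_one _) (g_pos _).le (by norm_num)
    linarith

end Pool.Agent.H911R2.Gauss
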