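import Pool.Agent.H911R2.GaussConv

/-! Local structure of straight networks with 120 degree triple points. -/

set_option autoImplicit false

namespace Pool.Agent.H911R2.Gauss

open Set Filter Topology Metric
open scoped RealInnerProductSpace

/-- `N` is a straight line with unit normal `ν` near `x`. -/
def Reg (N : Set Plane) (x ν : Plane) : Prop :=
  ‖ν‖ = 1 ∧ ∀ᶠ y in 𝓝 x, (y ∈ N ↔ ⟪ν, y - x⟫ = 0)

/-- Near `x`, `N` consists of three half-lines at `x` making angles of 120 degrees; the unit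
vectors `ν k` are normal to them. -/
def Trip (N : Set Plane) (x : Plane) (ν : Fin 3 → Plane) : Prop :=
  (∀ k, ‖ν k‖ = 1) ∧ ∑ k, ν k = 0 ∧
    ∀ᶠ y in 𝓝 x, (y ∈ N ↔ ∃ k, ⟪ν k, y - x⟫ = 0 ∧ ⟪ν (k + 1), y - x⟫ ≤ 0)

/-- A straight network `N` and the open sets `U i` into which it divides the plane. -/
structure Net {n : ℕ} (N : Set Plane) (U : Fin n → Set Plane) : Prop where
  closed : IsClosed N
  loc : ∀ x ∈ N, (∃ ν, Reg N x ν) ∨ ∃ ν, Trip N x ν
  isOpen : ∀ i, IsOpen (U i)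
  disj : ∀ i j, i ≠ j → Disjoint (U i) (U j)
  cover : ⋃ i, U i = Nᶜ
  active : ∀ x ∈ N, ∀ i, ¬ ∀ᶠ y in 𝓝 x, y ∉ N → y ∈ U i

lemma convex_lt (ν x : Plane) : Convex ℝ {y : Plane | ⟪ν, y - x⟫ < 0} := by
  intro y hy z hz a b ha hb hab
  simp only [mem_ofPred_eq] at hy hz ⊢
  have e : a • y + b • z - x = a • (y - x) + b • (z - x) := by
    have : x = (a + b) • x := by rw [hab, one_smul]
    conv_lhs => rw [this]
    module
  rw [e, inner_add_right, inner_smul_right, inner_smul_right]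
  rcases eq_or_lt_of_le ha with h | h
  · rw [← h] at hab ⊢
    have : b = 1 := by linarith
    rw [this]; linarith
  · nlinarith

lemma convex_gt (ν x : Plane) : Convex ℝ {y : Plane | 0 < ⟪ν, y - x⟫} := by
  have := convex_lt (-ν) x
  simpa using this

variable {n : ℕ} {N : Set Plane} {U : Fin n → Set Plane}

lemma Net.subset_compl (h : Net N U) (i : Fin n) : U i ⊆ Nᶜ := by
  rw [← h.cover]; exact subset_iUnion _ i

lemma Net.label (h : Net N U) {C : Set Plane} (hc : IsPreconnected C) (hne : C.Nonempty)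
    (hC : C ⊆ Nᶜ) : ∃ i, C ⊆ U i := by
  obtain ⟨x, hx⟩ := hne
  have h1 : x ∈ ⋃ i, U i := by rw [h.cover]; exact hC hx
  obtain ⟨i, hi⟩ := mem_iUnion.1 h1
  refine ⟨i, ?_⟩
  refine hc.subset_left_of_subset_union (v := ⋃ j : {j // j ≠ i}, U j) (h.isOpen i)
    (isOpen_iUnion fun j => h.isOpen _) ?_ ?_ ⟨x, hx, hi⟩
  · rw [disjoint_iUnion_right]
    exact fun j => h.disj _ _ j.2.symm
  · intro y hy
    have h2 : y ∈ ⋃ i, U i := by rw [h.cover]; exact hC hy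
    obtain ⟨j, hj⟩ := mem_iUnion.1 h2
    by_cases hji : j = i
    · left; rw [← hji]; exact hj
    · right; exact mem_iUnion.2 ⟨⟨j, hji⟩, hj⟩

lemma Net.local_reg (h : Net N U) {x ν : Plane} (hx : x ∈ N) (hr : Reg N x ν) :
    ∃ ρ > 0, (∀ y ∈ ball x ρ, (y ∈ N ↔ ⟪ν, y - x⟫ = 0)) ∧ ∃ i j, i ≠ j ∧
      (∀ y ∈ ball x ρ, ⟪ν, y - x⟫ < 0 → y ∈ U i) ∧
      (∀ y ∈ ball x ρ, 0 < ⟪ν, y - x⟫ → y ∈ U j) := by
  obtain ⟨hν, hev⟩ := hr
  obtain ⟨ρ, hρ, hb⟩ := Metric.eventually_nhds_iff_ball.1 hev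
  have hc1 : Convex ℝ (ball x ρ ∩ {y : Plane | ⟪ν, y - x⟫ < 0}) :=
    (convex_ball x ρ).inter (convex_lt ν x)
  have hc2 : Convex ℝ (ball x ρ ∩ {y : Plane | 0 < ⟪ν, y - x⟫}) :=
    (convex_ball x ρ).inter (convex_gt ν x)
  have hνν : ⟪ν, ν⟫ = 1 := by rw [real_inner_self_eq_norm_sq, hν]; norm_num
  have hn1 : (ball x ρ ∩ {y : Plane | ⟪ν, y - x⟫ < 0}).Nonempty := by
    refine ⟨x - (ρ / 2) • ν, ?_, ?_⟩
    · rw [mem_ball, dist_eq_norm]
      simp only [sub_sub_cancel_left, norm_neg, norm_smul, hν, mul_one]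
      rw [Real.norm_of_nonneg (by positivity)]; linarith
    · simp only [mem_ofPred_eq, sub_sub_cancel_left, inner_neg_right, inner_smul_right, hνν]
      linarith
  have hn2 : (ball x ρ ∩ {y : Plane | 0 < ⟪ν, y - x⟫}).Nonempty := by
    refine ⟨x + (ρ / 2) • ν, ?_, ?_⟩
    · rw [mem_ball, dist_eq_norm]
      simp only [add_sub_cancel_left, norm_smul, hν, mul_one]
      rw [Real.norm_of_nonneg (by positivity)]; linarith
    · simp only [mem_ofPred_eq, add_sub_cancel_left, inner_smul_right, hνν]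
      linarith
  obtain ⟨i, hi⟩ := h.label hc1.isPreconnected hn1 (by
    rintro y ⟨hy, hy2⟩ hyN
    rw [hb y hy] at hyN
    simp only [mem_ofPred_eq] at hy2
    linarith)
  obtain ⟨j, hj⟩ := h.label hc2.isPreconnected hn2 (by
    rintro y ⟨hy, hy2⟩ hyN
    rw [hb y hy] at hyN
    simp only [mem_ofPred_eq] at hy2
    linarith)
  refine ⟨ρ, hρ, hb, i, j, ?_, fun y hy hy2 => hi ⟨hy, hy2⟩, fun y hy hy2 => hj ⟨hy, hy2⟩⟩
  rintro rfl
  apply h.active x hx i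
  filter_upwards [ball_mem_nhds x hρ] with y hy hyN
  rw [hb y hy] at hyN
  rcases lt_or_gt_of_ne hyN with h3 | h3
  · exact hi ⟨hy, h3⟩
  · exact hj ⟨hy, h3⟩

lemma trip_inner {ν : Fin 3 → Plane} (h1 : ∀ k, ‖ν k‖ = 1) (h2 : ∑ k, ν k = 0) (k : Fin 3) :
    ⟪ν k, ν (k + 1)⟫ = -1 / 2 := by
  have h3 : ν k + ν (k + 1) = -ν (k + 1 + 1) := by
    rw [Fin.sum_univ_three] at h2
    fin_cases k
    · exact eq_neg_of_add_eq_zero_left h2
    · have : ν 1 + ν 2 + ν 0 = 0 := by rw [← h2]; abel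
      exact eq_neg_of_add_eq_zero_left this
    · have : ν 2 + ν 0 + ν 1 = 0 := by rw [← h2]; abel
      exact eq_neg_of_add_eq_zero_left this
  have h4 : ‖ν k + ν (k + 1)‖ ^ 2 = 1 := by rw [h3, norm_neg, h1]; norm_num
  rw [norm_add_sq_real, h1, h1] at h4
  linarith

lemma sector_cover {a b c : ℝ} (h : a + b + c = 0) (h1 : ¬ (a = 0 ∧ b ≤ 0))
    (h2 : ¬ (b = 0 ∧ c ≤ 0)) (h3 : ¬ (c = 0 ∧ a ≤ 0)) :
    (0 < a ∧ b < 0) ∨ (0 < b ∧ c < 0) ∨ (0 < c ∧ a < 0) := by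
  by_contra hcon
  push Not at hcon
  obtain ⟨c1, c2, c3⟩ := hcon
  rcases lt_trichotomy a 0 with ha | ha | ha
  · have hc : c ≤ 0 := by by_contra hc; exact absurd (c3 (not_le.1 hc)) (by linarith)
    have hb : 0 < b := by linarith
    have := c2 hb
    exact h3 ⟨by linarith, ha.le⟩
  · apply h1
    refine ⟨ha, ?_⟩
    by_contra hb
    have := c2 (not_le.1 hb)
    linarith
  · have hb := c1 ha
    have hc : c < 0 := by linarith
    rcases eq_or_lt_of_le hb with hb | hb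
    · exact h2 ⟨hb.symm, hc.le⟩
    · have := c2 hb; linarith

lemma fin3_cases : ∀ k l : Fin 3, l = k ∨ l = k + 1 ∨ l = k + 1 + 1 := by decide

lemma fin3_inj {α : Type} {i : Fin 3 → α} (h : ∀ k, i k ≠ i (k + 1)) {a b : Fin 3}
    (hab : i a = i b) : a = b := by
  by_contra hne
  have h3 : b = a + 1 ∨ a = b + 1 := by
    revert a b
    intro a b
    fin_cases a <;> fin_cases b <;> simp
  rcases h3 with rfl | rfl
  · exact h a hab
  · exact h b hab.symm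

lemma Net.local_trip (h : Net N U) {x : Plane} {ν : Fin 3 → Plane} (hr : Trip N x ν) :
    ∃ ρ > 0, (∀ y ∈ ball x ρ, (y ∈ N ↔ ∃ k, ⟪ν k, y - x⟫ = 0 ∧ ⟪ν (k + 1), y - x⟫ ≤ 0)) ∧
      ∃ i : Fin 3 → Fin n, (∀ k, i k ≠ i (k + 1)) ∧
      ∀ k, ∀ y ∈ ball x ρ, 0 < ⟪ν k, y - x⟫ → ⟪ν (k + 1), y - x⟫ < 0 → y ∈ U (i k) := by
  obtain ⟨h1, h2, hev⟩ := hr
  obtain ⟨ρ, hρ, hb⟩ := Metric.eventually_nhds_iff_ball.1 hev
  have hin := trip_inner h1 h2
  have hself : ∀ k, ⟪ν k, ν k⟫ = 1 := fun k => by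
    rw [real_inner_self_eq_norm_sq, h1]; norm_num
  have hin2 : ∀ k, ⟪ν (k + 1), ν k⟫ = -1 / 2 := fun k => by rw [real_inner_comm]; exact hin k
  have hcyc : ∀ k : Fin 3, k + 1 + 1 + 1 = k := by intro k; fin_cases k <;> rfl
  have hcomp : ∀ k, (ball x ρ ∩ ({y : Plane | 0 < ⟪ν k, y - x⟫} ∩
      {y : Plane | ⟪ν (k + 1), y - x⟫ < 0})) ⊆ Nᶜ := by
    rintro k y ⟨hy, hy1, hy2⟩ hyN
    simp only [mem_ofPred_eq] at hy1 hy2
    rw [hb y hy] at hyN
    obtain ⟨l, hl1, hl2⟩ := hyN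
    have h3 : l = k ∨ l = k + 1 ∨ l = k + 1 + 1 := fin3_cases k l
    rcases h3 with rfl | rfl | rfl
    · linarith
    · linarith
    · rw [hcyc] at hl2; linarith
  have hlab : ∀ k, ∃ i, (ball x ρ ∩ ({y : Plane | 0 < ⟪ν k, y - x⟫} ∩
      {y : Plane | ⟪ν (k + 1), y - x⟫ < 0})) ⊆ U i := by
    intro k
    refine h.label ((convex_ball x ρ).inter ((convex_gt _ x).inter (convex_lt _ x))).isPreconnected
      ?_ (hcomp k)
    refine ⟨x + (ρ / 4) • (ν k - ν (k + 1)), ?_, ?_, ?_⟩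
    · rw [mem_ball, dist_eq_norm]
      simp only [add_sub_cancel_left, norm_smul]
      rw [Real.norm_of_nonneg (by positivity)]
      have : ‖ν k - ν (k + 1)‖ ≤ 2 := (norm_sub_le _ _).trans (by rw [h1, h1]; norm_num)
      nlinarith
    · simp only [mem_ofPred_eq, add_sub_cancel_left]
      simp only [inner_smul_right, inner_sub_right, hself, hin]
      nlinarith
    · simp only [mem_ofPred_eq, add_sub_cancel_left]
      simp only [inner_smul_right, inner_sub_right, hself, hin2]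
      nlinarith
  choose i hi using hlab
  refine ⟨ρ, hρ, hb, i, ?_, fun k y hy hy1 hy2 => hi k ⟨hy, hy1, hy2⟩⟩
  intro k hk
  -- the point on the half-line between the two sectors
  set w : Plane := ν k - ν (k + 1 + 1) with hw
  have hin3 : ⟪ν (k + 1 + 1), ν k⟫ = -1 / 2 := by
    have := hin (k + 1 + 1); rwa [hcyc] at this
  have hin4 : ⟪ν k, ν (k + 1 + 1)⟫ = -1 / 2 := by rw [real_inner_comm]; exact hin3
  have hwn : ‖w‖ ≤ 2 := (norm_sub_le _ _).trans (by rw [h1, h1]; norm_num)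
  have hx'b : x + (ρ / 4) • w ∈ ball x ρ := by
    rw [mem_ball, dist_eq_norm]
    simp only [add_sub_cancel_left, norm_smul]
    rw [Real.norm_of_nonneg (by positivity)]
    nlinarith
  have e1 : ⟪ν k, x + (ρ / 4) • w - x⟫ = ρ / 4 * (3 / 2) := by
    rw [add_sub_cancel_left, hw]
    simp only [inner_smul_right, inner_sub_right, hself, hin4]; ring
  have e2 : ⟪ν (k + 1), x + (ρ / 4) • w - x⟫ = 0 := by
    rw [add_sub_cancel_left, hw]
    simp only [inner_smul_right, inner_sub_right, hin2, hin (k + 1)]; ring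
  have e3 : ⟪ν (k + 1 + 1), x + (ρ / 4) • w - x⟫ = -(ρ / 4 * (3 / 2)) := by
    rw [add_sub_cancel_left, hw]
    simp only [inner_smul_right, inner_sub_right, hself, hin3]; ring
  have hx'N : x + (ρ / 4) • w ∈ N := by
    rw [hb _ hx'b]
    exact ⟨k + 1, e2, by rw [e3]; nlinarith⟩
  apply h.active _ hx'N (i k)
  have ev1 : ∀ᶠ y in 𝓝 (x + (ρ / 4) • w), 0 < ⟪ν k, y - x⟫ := by
    have hc : ContinuousAt (fun y : Plane => ⟪ν k, y - x⟫) (x + (ρ / 4) • w) := by fun_prop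
    refine hc.eventually_mem (isOpen_Ioi.mem_nhds ?_)
    rw [mem_Ioi, e1]; positivity
  have ev2 : ∀ᶠ y in 𝓝 (x + (ρ / 4) • w), ⟪ν (k + 1 + 1), y - x⟫ < 0 := by
    have hc : ContinuousAt (fun y : Plane => ⟪ν (k + 1 + 1), y - x⟫) (x + (ρ / 4) • w) := by
      fun_prop
    refine hc.eventually_mem (isOpen_Iio.mem_nhds ?_)
    rw [mem_Iio, e3]; linarith
  filter_upwards [ev1, ev2, isOpen_ball.mem_nhds hx'b] with y hy1 hy2 hy3 hyN
  rcases lt_trichotomy ⟪ν (k + 1), y - x⟫ 0 with h3 | h3 | h3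
  · exact hi k ⟨hy3, hy1, h3⟩
  · exact absurd ((hb y hy3).2 ⟨k + 1, h3, hy2.le⟩) hyN
  · rw [hk]; exact hi (k + 1) ⟨hy3, h3, hy2⟩

end Pool.Agent.H911R2.Gauss
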