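import Mathlib

/-! One-dimensional Gaussian facts. -/

set_option autoImplicit false

namespace Pool.Agent.H911R2.Gauss

open MeasureTheory Set Filter Topology

/-- `exp(-u²/2)`. -/
noncomputable def g (u : ℝ) : ℝ := Real.exp (-(u ^ 2) / 2)

lemma g_pos (u : ℝ) : 0 < g u := Real.exp_pos _

lemma g_le_one (u : ℝ) : g u ≤ 1 := by
  unfold g
  rw [Real.exp_le_one_iff]
  have := sq_nonneg u
  linarith

lemma continuous_g : Continuous g := by unfold g; fun_prop

lemma g_eq (u : ℝ) : g u = Real.exp (-(1 / 2) * u ^ 2) := by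
  unfold g; congr 1; ring

lemma hasDerivAt_g (u : ℝ) : HasDerivAt g (-u * g u) u := by
  unfold g
  have h : HasDerivAt (fun u : ℝ => -(u ^ 2) / 2) (-u) u := by
    exact (((hasDerivAt_pow 2 u).fun_neg).div_const 2).congr_deriv (by norm_num; ring)
  convert h.exp using 1
  ring

lemma integrable_g : Integrable g := by
  have := integrable_exp_neg_mul_sq (b := 1 / 2) (by norm_num)
  exact this.congr (Eventually.of_forall fun u => (g_eq u).symm)

lemma integrable_mul_g : Integrable (fun u => u * g u) := by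
  have := integrable_mul_exp_neg_mul_sq (b := 1 / 2) (by norm_num)
  exact this.congr (Eventually.of_forall fun u => by simp only [g_eq u])

lemma integral_g : ∫ u, g u = √(2 * Real.pi) := by
  have := integral_gaussian (1 / 2)
  simp_rw [g_eq]
  rw [this]
  congr 1
  field_simp

/-- The Gaussian tail. -/
noncomputable def G (t : ℝ) : ℝ := ∫ u in Ioi t, g u

lemma G_add (t : ℝ) : (∫ u in Iic t, g u) + G t = √(2 * Real.pi) := by
  unfold G
  rw [← integral_g, ← intervalIntegral.integral_Iic_add_Ioi integrable_g.integrableOn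
    integrable_g.integrableOn]

lemma hasDerivAt_G (t : ℝ) : HasDerivAt G (-g t) t := by
  have h1 : ∀ t, G t = G 0 - ∫ u in (0 : ℝ)..t, g u := by
    intro t
    unfold G
    rw [← intervalIntegral.integral_Ioi_sub_Ioi' integrable_g.integrableOn
      integrable_g.integrableOn]
    ring
  have h2 : HasDerivAt (fun t => G 0 - ∫ u in (0 : ℝ)..t, g u) (-g t) t := by
    have := intervalIntegral.integral_hasDerivAt_right
      (integrable_g.intervalIntegrable (a := 0) (b := t))
      (continuous_g.stronglyMeasurableAtFilter _ _) continuous_g.continuousAt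
    simpa using this.const_sub (G 0)
  exact h2.congr_of_eventuallyEq (Eventually.of_forall h1)

lemma continuous_G : Continuous G :=
  continuous_iff_continuousAt.2 fun t => (hasDerivAt_G t).continuousAt

lemma G_strictAnti : StrictAnti G :=
  strictAnti_of_deriv_neg fun t => by
    rw [(hasDerivAt_G t).deriv]; have := g_pos t; linarith

lemma tendsto_G_atTop : Tendsto G atTop (𝓝 0) := by
  have h1 : Tendsto (fun t => ∫ u in (0 : ℝ)..t, g u) atTop (𝓝 (∫ u in Ioi 0, g u)) :=
    intervalIntegral_tendsto_integral_Ioi 0 integrable_g.integrableOn tendsto_id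
  have h2 : Tendsto (fun t => G 0 - ∫ u in (0 : ℝ)..t, g u) atTop (𝓝 (G 0 - G 0)) :=
    tendsto_const_nhds.sub h1
  rw [sub_self] at h2
  refine h2.congr fun t => ?_
  unfold G
  rw [← intervalIntegral.integral_Ioi_sub_Ioi' integrable_g.integrableOn
      integrable_g.integrableOn]
  ring

lemma G_nonneg (t : ℝ) : 0 ≤ G t :=
  setIntegral_nonneg measurableSet_Ioi fun u _ => (g_pos u).le

lemma G_pos (t : ℝ) : 0 < G t :=
  lt_of_le_of_lt (G_nonneg (t + 1)) (G_strictAnti (by linarith))

lemma G_le (t : ℝ) : G t ≤ √(2 * Real.pi) := by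
  rw [← integral_g]
  exact setIntegral_le_integral integrable_g (Eventually.of_forall fun u => (g_pos u).le)

lemma tendsto_G_atBot : Tendsto G atBot (𝓝 √(2 * Real.pi)) := by
  have h1 : Tendsto (fun t => ∫ u in t..(0 : ℝ), g u) atBot (𝓝 (∫ u in Iic 0, g u)) :=
    intervalIntegral_tendsto_integral_Iic 0 integrable_g.integrableOn tendsto_id
  have h2 : Tendsto (fun t => (∫ u in t..(0 : ℝ), g u) + G 0) atBot
      (𝓝 ((∫ u in Iic 0, g u) + G 0)) := h1.add tendsto_const_nhds
  rw [G_add 0] at h2
  refine h2.congr fun t => ?_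
  unfold G
  rw [← intervalIntegral.integral_Ioi_sub_Ioi' integrable_g.integrableOn
      integrable_g.integrableOn]
  ring

lemma tendsto_g_atTop : Tendsto g atTop (𝓝 0) := by
  refine Real.tendsto_exp_atBot.comp ?_
  have h : Tendsto (fun u : ℝ => u ^ 2) atTop atTop := tendsto_pow_atTop (by norm_num)
  have h2 := (h.atTop_div_const (by norm_num : (0 : ℝ) < 2))
  have h3 := tendsto_neg_atTop_atBot.comp h2
  refine h3.congr fun u => ?_
  simp [neg_div]

lemma mul_G_le_g (t : ℝ) : t * G t ≤ g t := by
  have h1 : ∫ u in Ioi t, u * g u = g t := by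
    have := integral_Ioi_of_hasDerivAt_of_tendsto' (a := t) (f := fun u => -g u)
      (f' := fun u => u * g u) (m := 0)
      (fun x _ => by simpa using (hasDerivAt_g x).fun_neg)
      integrable_mul_g.integrableOn (by simpa using tendsto_g_atTop.neg)
    rw [this]; ring
  rw [← h1]
  unfold G
  rw [← integral_const_mul]
  refine setIntegral_mono_on (integrable_g.const_mul t).integrableOn integrable_mul_g.integrableOn
    measurableSet_Ioi fun u hu => ?_
  exact mul_le_mul_of_nonneg_right (le_of_lt hu) (g_pos u).le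

lemma g_mul_le_G (t : ℝ) : g t * (t / (t ^ 2 + 1)) ≤ G t := by
  have hd : ∀ t, HasDerivAt (fun t => G t - g t * (t / (t ^ 2 + 1)))
      (-g t * (2 / (t ^ 2 + 1) ^ 2)) t := by
    intro t
    have hpos : t ^ 2 + 1 ≠ 0 := by positivity
    have h1 : HasDerivAt (fun t : ℝ => t / (t ^ 2 + 1))
        ((1 * (t ^ 2 + 1) - t * (2 * t)) / (t ^ 2 + 1) ^ 2) t := by
      have h2 : HasDerivAt (fun t : ℝ => t ^ 2 + 1) (2 * t) t := by
        simpa using (hasDerivAt_pow 2 t).add_const 1
      exact (hasDerivAt_id t).div h2 hpos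
    refine ((hasDerivAt_G t).fun_sub ((hasDerivAt_g t).fun_mul h1)).congr_deriv ?_
    have h3 : (2 : ℝ) / (t ^ 2 + 1) ^ 2 = 1 - t * (t / (t ^ 2 + 1)) +
        (1 * (t ^ 2 + 1) - t * (2 * t)) / (t ^ 2 + 1) ^ 2 := by
      field_simp
      ring
    rw [h3]
    ring
  have hanti : Antitone (fun t => G t - g t * (t / (t ^ 2 + 1))) :=
    antitone_of_deriv_nonpos (fun t => (hd t).differentiableAt) fun t => by
      rw [(hd t).deriv]
      have := g_pos t
      have h2 : (0 : ℝ) ≤ 2 / (t ^ 2 + 1) ^ 2 := by positivity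
      nlinarith
  have hlim : Tendsto (fun t => G t - g t * (t / (t ^ 2 + 1))) atTop (𝓝 0) := by
    have h1 : Tendsto (fun t => g t * (t / (t ^ 2 + 1))) atTop (𝓝 0) := by
      refine squeeze_zero_norm (a := g) (fun t => ?_) tendsto_g_atTop
      rw [norm_mul, Real.norm_eq_abs, Real.norm_eq_abs, abs_of_pos (g_pos t)]
      refine mul_le_of_le_one_right (g_pos t).le ?_
      rw [abs_div, abs_of_pos (by positivity : (0 : ℝ) < t ^ 2 + 1), div_le_one (by positivity)]
      rw [abs_le]
      constructor <;> nlinarith [sq_nonneg (t + 1), sq_nonneg (t - 1)]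
    simpa using tendsto_G_atTop.sub h1
  have := hanti.le_of_tendsto hlim t
  linarith

lemma g_le_G {t : ℝ} (ht : 0 < t) : g t ≤ (t + 1 / t) * G t := by
  have h := g_mul_le_G t
  have h2 : (t + 1 / t) * (g t * (t / (t ^ 2 + 1))) = g t := by
    field_simp
  calc g t = (t + 1 / t) * (g t * (t / (t ^ 2 + 1))) := h2.symm
    _ ≤ (t + 1 / t) * G t := by gcongr

lemma G_le_of_nonneg {t : ℝ} (ht : 0 ≤ t) : G t ≤ √(2 * Real.pi) * g t := by
  have hd : ∀ t, HasDerivAt (fun t => G t / g t) ((-g t * g t - G t * (-t * g t)) / g t ^ 2) t :=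
    fun t => (hasDerivAt_G t).div (hasDerivAt_g t) (g_pos t).ne'
  have hanti : Antitone (fun t => G t / g t) :=
    antitone_of_deriv_nonpos (fun t => (hd t).differentiableAt) fun t => by
      rw [(hd t).deriv]
      have h1 := mul_G_le_g t
      have h2 := g_pos t
      apply div_nonpos_of_nonpos_of_nonneg _ (by positivity)
      nlinarith
  have h := hanti ht
  simp only at h
  rw [div_le_iff₀ (g_pos t)] at h
  refine h.trans ?_
  have h0 : g 0 = 1 := by simp [g]
  rw [h0, div_one]
  exact mul_le_mul_of_nonneg_right (G_le 0) (g_pos t).le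

end Pool.Agent.H911R2.Gauss
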