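import Pool.Agent.H911R2.GaussBuild
import Pool.Agent.H911R2.GaussBounds

/-! From a partition whose interface is a finite straight network to the open sets of `Net`. -/

set_option autoImplicit false

namespace Pool.Agent.H911R2.Gauss

open Set Filter Topology Metric MeasureTheory
open scoped RealInnerProductSpace

lemma volume_line (a ν : Plane) (hν : ‖ν‖ = 1) : volume {x : Plane | ⟪ν, x - a⟫ = 0} = 0 := by
  have h1 : {x : Plane | ⟪ν, x - a⟫ = 0} = (fun x => x + (-a)) ⁻¹' ((ℝ ∙ ν)ᗮ : Submodule ℝ Plane) := by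
    ext x
    simp only [mem_ofPred_eq, mem_preimage, SetLike.mem_coe,
      Submodule.mem_orthogonal_singleton_iff_inner_right, sub_eq_add_neg]
  rw [h1, measure_preimage_add_right]
  refine Measure.addHaar_submodule _ _ ?_
  intro h2
  have h3 : ν ∈ (ℝ ∙ ν)ᗮ := by rw [h2]; trivial
  rw [Submodule.mem_orthogonal_singleton_iff_inner_right, real_inner_self_eq_norm_sq, hν] at h3
  norm_num at h3

lemma volume_network {m : ℕ} (e : Fin m → Edge) : volume (⋃ k, (e k).carrier) = 0 := by
  refine measure_iUnion_null fun k => ?_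
  refine measure_mono_null ?_ (volume_line (e k).a (rot (e k).u) (by rw [norm_rot, (e k).norm_u]))
  intro x hx
  exact ((e k).mem_carrier x |>.1 hx).1

/-- The open set on which `A` has full measure. -/
def lab (A : Set Plane) : Set Plane := {x | ∃ r > 0, volume (ball x r \ A) = 0}

lemma isOpen_lab (A : Set Plane) : IsOpen (lab A) := by
  rw [Metric.isOpen_iff]
  rintro x ⟨r, hr, h⟩
  refine ⟨r / 2, by positivity, fun y hy => ⟨r / 2, by positivity, measure_mono_null ?_ h⟩⟩
  refine sdiff_subset_sdiff_left (ball_subset_ball' ?_)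
  rw [mem_ball] at hy
  linarith

lemma volume_lab_diff (A : Set Plane) : volume (lab A \ A) = 0 := by
  refine measure_null_of_locally_null _ fun x hx => ?_
  obtain ⟨⟨r, hr, h⟩, -⟩ := hx
  refine ⟨(lab A \ A) ∩ ball x r, ?_, ?_⟩
  · exact inter_mem_nhdsWithin _ (ball_mem_nhds x hr)
  · refine measure_mono_null ?_ h
    rintro y ⟨⟨-, hy⟩, hy2⟩
    exact ⟨hy2, hy⟩

variable {n : ℕ} {v : Fin n → ℝ} {A : Fin n → Set Plane}

lemma lab_disjoint {A B : Set Plane} (h : volume (A ∩ B) = 0) : Disjoint (lab A) (lab B) := by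
  rw [Set.disjoint_left]
  rintro x ⟨r, hr, h1⟩ ⟨s, hs, h2⟩
  have h3 : volume (ball x (min r s)) = 0 := by
    refine measure_mono_null (t := (ball x r \ A) ∪ ((ball x s \ B) ∪ (A ∩ B))) ?_
      (measure_union_null h1 (measure_union_null h2 h))
    intro y hy
    have hy1 : y ∈ ball x r := ball_subset_ball (min_le_left _ _) hy
    have hy2 : y ∈ ball x s := ball_subset_ball (min_le_right _ _) hy
    by_cases hA : y ∈ A
    · by_cases hB : y ∈ B
      · exact Or.inr (Or.inr ⟨hA, hB⟩)
      · exact Or.inr (Or.inl ⟨hy2, hB⟩)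
    · exact Or.inl ⟨hy1, hA⟩
  exact (measure_ball_pos volume x (lt_min hr hs)).ne' h3

lemma lab_cover (hA : IsPartition v A) : ⋃ i, lab (A i) = (interface A)ᶜ := by
  ext x
  constructor
  · intro hx
    obtain ⟨i, r, hr, h⟩ := mem_iUnion.1 hx
    intro hxi
    obtain ⟨k, hk1, hk2⟩ := hxi r hr
    by_cases hki : k = i
    · rw [hki] at hk2; exact hk2 h
    · apply hk1
      refine measure_mono_null (t := (A k ∩ A i) ∪ (ball x r \ A i)) ?_
        (measure_union_null (hA.disj k i hki) h)
      rintro y ⟨hy1, hy2⟩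
      by_cases hyi : y ∈ A i
      · exact Or.inl ⟨hy1, hyi⟩
      · exact Or.inr ⟨hy2, hyi⟩
  · intro hx
    have hx2 : ¬ ∀ r : ℝ, 0 < r → ∃ i, volume (A i ∩ ball x r) ≠ 0 ∧
      volume (ball x r \ A i) ≠ 0 := hx
    push Not at hx2
    obtain ⟨r, hr, h⟩ := hx2
    have h1 : ∃ i, volume (A i ∩ ball x r) ≠ 0 := by
      by_contra hcon
      push Not at hcon
      have h2 : volume (ball x r) = 0 := by
        refine measure_mono_null (t := (⋃ i, A i ∩ ball x r) ∪ (⋃ i, A i)ᶜ) ?_
          (measure_union_null (measure_iUnion_null hcon) hA.cover)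
        intro y hy
        by_cases hyA : y ∈ ⋃ i, A i
        · obtain ⟨i, hi⟩ := mem_iUnion.1 hyA
          exact Or.inl (mem_iUnion.2 ⟨i, hi, hy⟩)
        · exact Or.inr hyA
      exact (measure_ball_pos volume x hr).ne' h2
    obtain ⟨i, hi⟩ := h1
    exact mem_iUnion.2 ⟨i, r, hr, h i hi⟩

lemma net_of_partition (hA : IsPartition v A) {m : ℕ} {e : Fin m → Edge} (he : IsNetwork e)
    (hI : interface A = ⋃ k, (e k).carrier) : Net (⋃ k, (e k).carrier) (fun i => lab (A i)) where
  closed := isClosed_iUnion_of_finite fun k => (e k).isClosed_carrier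
  loc := fun x hx => network_local he hx
  isOpen := fun i => isOpen_lab _
  disj := fun i j hij => lab_disjoint (hA.disj i j hij)
  cover := by rw [← hI]; exact lab_cover hA
  active := by
    intro x hx i hev
    obtain ⟨r, hr, hb⟩ := Metric.eventually_nhds_iff_ball.1 hev
    have h1 : x ∈ lab (A i) := by
      refine ⟨r, hr, measure_mono_null (t := (⋃ k, (e k).carrier) ∪ (lab (A i) \ A i)) ?_
        (measure_union_null (volume_network e) (volume_lab_diff _))⟩
      rintro y ⟨hy1, hy2⟩
      by_cases hyN : y ∈ ⋃ k, (e k).carrier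
      · exact Or.inl hyN
      · exact Or.inr ⟨hb y hy1 hyN, hy2⟩
    have h2 : x ∈ (interface A)ᶜ := by
      rw [← lab_cover hA]; exact mem_iUnion.2 ⟨i, h1⟩
    rw [hI] at h2
    exact h2 hx

lemma lab_ae_eq (hA : IsPartition v A) (hN : volume (interface A) = 0) (i : Fin n) :
    lab (A i) =ᵐ[volume] A i := by
  rw [ae_eq_set]
  refine ⟨volume_lab_diff _, ?_⟩
  refine measure_mono_null (t := interface A ∪ ⋃ j : {j // j ≠ i}, (A i ∩ A j) ∪
    (lab (A j) \ A j)) ?_ (measure_union_null hN (measure_iUnion_null fun j =>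
      measure_union_null (hA.disj i j j.2.symm) (volume_lab_diff _)))
  rintro y ⟨hy1, hy2⟩
  by_cases hyI : y ∈ interface A
  · exact Or.inl hyI
  · right
    have h1 : y ∈ ⋃ i, lab (A i) := by rw [lab_cover hA]; exact hyI
    obtain ⟨j, hj⟩ := mem_iUnion.1 h1
    have hji : j ≠ i := by rintro rfl; exact hy2 hj
    refine mem_iUnion.2 ⟨⟨j, hji⟩, ?_⟩
    by_cases hyj : y ∈ A j
    · exact Or.inl ⟨hy1, hyj⟩
    · exact Or.inr ⟨hj, hyj⟩

end Pool.Agent.H911R2.Gauss
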