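import Pool.Agent.H911R2.GaussSeven

/-! Among seven unit vectors of the plane two make an angle less than 60 degrees. -/

set_option autoImplicit false

namespace Pool.Agent.H911R2.Gauss

open Set Filter Topology Metric
open scoped RealInnerProductSpace

lemma unit_angle {ν : Plane} (h : ‖ν‖ = 1) : ∃ θ ∈ Ioc (-Real.pi) Real.pi,
    ν 0 = Real.cos θ ∧ ν 1 = Real.sin θ := by
  have h1 : ν 0 ^ 2 + ν 1 ^ 2 = 1 := by
    have := EuclideanSpace.norm_sq_eq ν
    rw [h, Fin.sum_univ_two] at this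
    simpa using this.symm
  let z : ℂ := ⟨ν 0, ν 1⟩
  have hz : ‖z‖ = 1 := by
    rw [Complex.norm_def, Complex.normSq_mk]
    rw [show ν 0 * ν 0 + ν 1 * ν 1 = 1 by nlinarith]; simp
  have hz0 : z ≠ 0 := by intro h0; rw [h0, norm_zero] at hz; norm_num at hz
  refine ⟨z.arg, Complex.arg_mem_Ioc z, ?_, ?_⟩
  · rw [Complex.cos_arg hz0, hz, div_one]
  · rw [Complex.sin_arg, hz, div_one]

lemma seven_units {ι : Type} (J : Finset ι) (ν : ι → Plane) (h1 : ∀ j ∈ J, ‖ν j‖ = 1)
    (hJ : 7 ≤ J.card) : ∃ j ∈ J, ∃ j' ∈ J, j ≠ j' ∧ 1 / 2 < ⟪ν j, ν j'⟫ := by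
  classical
  have h2 : ∀ j : ι, ∃ θ : ℝ, j ∈ J → θ ∈ Ioc (-Real.pi) Real.pi ∧
      ν j 0 = Real.cos θ ∧ ν j 1 = Real.sin θ := by
    intro j
    by_cases hj : j ∈ J
    · obtain ⟨θ, hθ, h3⟩ := unit_angle (h1 j hj)
      exact ⟨θ, fun _ => ⟨hθ, h3⟩⟩
    · exact ⟨0, fun h => absurd h hj⟩
  choose θ hθ using h2
  have hpi := Real.pi_pos
  have hmaps : ∀ j ∈ J, ⌈θ j * (3 / Real.pi)⌉ ∈ Finset.Icc (-2 : ℤ) 3 := by
    intro j hj
    obtain ⟨⟨h3, h4⟩, -⟩ := hθ j hj
    rw [Finset.mem_Icc]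
    constructor
    · have : (-3 : ℝ) < θ j * (3 / Real.pi) := by
        have : -Real.pi * (3 / Real.pi) < θ j * (3 / Real.pi) := by gcongr
        have e : -Real.pi * (3 / Real.pi) = -3 := by field_simp
        linarith
      have h5 : (-3 : ℤ) < ⌈θ j * (3 / Real.pi)⌉ := by
        rw [Int.lt_ceil]; push_cast; exact this
      omega
    · rw [Int.ceil_le]
      push_cast
      have : θ j * (3 / Real.pi) ≤ Real.pi * (3 / Real.pi) := by gcongr
      have e : Real.pi * (3 / Real.pi) = 3 := by field_simp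
      linarith
  have hcard : (Finset.Icc (-2 : ℤ) 3).card < J.card := by
    have : (Finset.Icc (-2 : ℤ) 3).card = 6 := by decide
    omega
  obtain ⟨j, hj, j', hj', hne, heq⟩ := Finset.exists_ne_map_eq_of_card_lt_of_maps_to hcard hmaps
  refine ⟨j, hj, j', hj', hne, ?_⟩
  obtain ⟨-, hc, hs⟩ := hθ j hj
  obtain ⟨-, hc', hs'⟩ := hθ j' hj'
  have hin : ⟪ν j, ν j'⟫ = Real.cos (θ j - θ j') := by
    rw [Real.cos_sub, ← hc, ← hs, ← hc', ← hs']
    simp [PiLp.inner_apply, Fin.sum_univ_two]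
    ring
  rw [hin]
  have habs : |θ j - θ j'| < Real.pi / 3 := by
    have h3 := Int.ceil_lt_add_one (θ j * (3 / Real.pi))
    have h4 := Int.le_ceil (θ j * (3 / Real.pi))
    have h5 := Int.ceil_lt_add_one (θ j' * (3 / Real.pi))
    have h6 := Int.le_ceil (θ j' * (3 / Real.pi))
    rw [heq] at h3 h4
    have h7 : |θ j * (3 / Real.pi) - θ j' * (3 / Real.pi)| < 1 := by
      rw [abs_lt]; constructor <;> linarith
    rw [← sub_mul, abs_mul, abs_of_pos (by positivity : 0 < 3 / Real.pi)] at h7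
    rw [lt_div_iff₀ (by norm_num)]
    have : |θ j - θ j'| * (3 / Real.pi) * Real.pi < 1 * Real.pi := by gcongr
    have e : |θ j - θ j'| * (3 / Real.pi) * Real.pi = |θ j - θ j'| * 3 := by field_simp
    linarith
  rw [← Real.cos_pi_div_three, ← Real.cos_abs (θ j - θ j')]
  exact Real.cos_lt_cos_of_nonneg_of_le_pi (abs_nonneg _) (by linarith) habs

variable {n : ℕ} {N : Set Plane} {U : Fin n → Set Plane}

/-- A face has at most six neighbouring regions: among any seven regions there is one whose closure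
is disjoint from the closure of the face. -/
lemma Net.exists_far (h : Net N U) {l : Fin n} (a : Plane) (J : Finset (Fin n)) (hl : l ∉ J)
    (hJ : 7 ≤ J.card) :
    ∃ j ∈ J, Disjoint (closure (connectedComponentIn (U l) a)) (closure (U j)) := by
  classical
  by_contra hcon
  push Not at hcon
  have hne : ∀ j ∈ J, l ≠ j := fun j hj hlj => hl (hlj ▸ hj)
  have h1 : ∀ j : Fin n, ∃ p : Plane × Plane, j ∈ J →
      Side N (connectedComponentIn (U l) a) (U j) p.1 p.2 := by
    intro j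
    by_cases hj : j ∈ J
    · obtain ⟨x, hx1, hx2⟩ := Set.not_disjoint_iff.1 (hcon j hj)
      obtain ⟨x', ν, hs⟩ := h.adj (hne j hj) a hx1 hx2
      exact ⟨(x', ν), fun _ => hs⟩
    · exact ⟨(0, 0), fun h => absurd h hj⟩
  choose p hp using h1
  obtain ⟨j, hj, j', hj', hjj, hin⟩ := seven_units J (fun j => (p j).2)
    (fun j hj => (hp j hj).1) hJ
  exact hjj (h.side_unique (hne j hj) (hne j' hj') (hp j hj) (hp j' hj') hin)

end Pool.Agent.H911R2.Gauss
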