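import Pool.Agent.H911R2.GaussOne
import Pool.Agent.H911R2.GaussPerim

/-! Product structure of the Gauss plane. -/

set_option autoImplicit false

namespace Pool.Agent.H911R2.Gauss

open MeasureTheory Set Filter Topology
open scoped ENNReal

/-- The measurable identification of `ℝ × ℝ` with the plane. -/
noncomputable def Th : ℝ × ℝ ≃ᵐ Plane :=
  (MeasurableEquiv.finTwoArrow (α := ℝ)).symm.trans (MeasurableEquiv.toLp 2 (Fin 2 → ℝ))

lemma Th_zero (p : ℝ × ℝ) : Th p 0 = p.1 := rfl
lemma Th_one (p : ℝ × ℝ) : Th p 1 = p.2 := rfl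
lemma Th_apply (p : ℝ × ℝ) : Th p = !₂[p.1, p.2] := by
  ext i; fin_cases i <;> rfl

lemma mp_Th : MeasurePreserving Th (volume : Measure (ℝ × ℝ)) (volume : Measure Plane) :=
  (PiLp.volume_preserving_toLp (Fin 2)).comp (volume_preserving_finTwoArrow ℝ).symm

lemma integral_Th (f : Plane → ℝ) : ∫ x, f x = ∫ p : ℝ × ℝ, f (Th p) :=
  (mp_Th.integral_comp Th.measurableEmbedding f).symm

lemma norm_sq_eq (x : Plane) : ‖x‖ ^ 2 = x 0 ^ 2 + x 1 ^ 2 := by
  rw [EuclideanSpace.norm_sq_eq, Fin.sum_univ_two]; simp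

lemma dens_eq (x : Plane) : dens x = (2 * Real.pi)⁻¹ * (g (x 0) * g (x 1)) := by
  unfold dens g
  rw [← Real.exp_add, norm_sq_eq]
  congr 2; ring

lemma dens_eq' (x : Plane) : dens x = (2 * Real.pi)⁻¹ * g ‖x‖ := rfl

lemma integrable_dens : Integrable dens := by
  rw [← mp_Th.integrable_comp_emb Th.measurableEmbedding]
  have h := (integrable_g.mul_prod integrable_g).const_mul (2 * Real.pi)⁻¹
  refine h.congr (Eventually.of_forall fun p => ?_)
  simp only [Function.comp, dens_eq, Th_zero, Th_one]

lemma integral_dens_prod (I J : Set ℝ) :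
    ∫ x in {x : Plane | x 0 ∈ I ∧ x 1 ∈ J}, dens x =
      (2 * Real.pi)⁻¹ * ((∫ u in I, g u) * ∫ u in J, g u) := by
  have h1 : Th ⁻¹' {x : Plane | x 0 ∈ I ∧ x 1 ∈ J} = I ×ˢ J := by
    ext p; simp [Th_zero, Th_one]
  rw [← mp_Th.setIntegral_preimage_emb Th.measurableEmbedding, h1, ← setIntegral_prod_mul,
    ← integral_const_mul]
  simp only [dens_eq, Th_zero, Th_one]
  rfl

lemma integral_dens : ∫ x, dens x = 1 := by
  have h := integral_dens_prod univ univ
  simp only [mem_univ, and_self, Set.ofPred_true, Measure.restrict_univ] at h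
  rw [h, integral_g, Real.mul_self_sqrt (by positivity)]
  field_simp

lemma gam_apply {A : Set Plane} (hA : MeasurableSet A) :
    gam A = ENNReal.ofReal (∫ x in A, dens x) := by
  unfold gam
  rw [withDensity_apply _ hA, ofReal_integral_eq_lintegral_ofReal integrable_dens.integrableOn
    (Eventually.of_forall fun x => (dens_pos x).le)]

instance : IsProbabilityMeasure gam := ⟨by
  rw [gam_apply MeasurableSet.univ, Measure.restrict_univ, integral_dens, ENNReal.ofReal_one]⟩

lemma gam_absCont : gam ≪ volume := withDensity_absolutelyContinuous _ _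

lemma absCont_gam : (volume : Measure Plane) ≪ gam := by
  refine withDensity_absolutelyContinuous' ?_ ?_
  · exact (continuous_dens.measurable.ennreal_ofReal).aemeasurable
  · exact Eventually.of_forall fun x => by
      simpa using dens_pos x

lemma gam_prod {I J : Set ℝ} (hI : MeasurableSet I) (hJ : MeasurableSet J) :
    gam {x : Plane | x 0 ∈ I ∧ x 1 ∈ J} =
      ENNReal.ofReal ((2 * Real.pi)⁻¹ * ((∫ u in I, g u) * ∫ u in J, g u)) := by
  rw [gam_apply, integral_dens_prod]
  exact ((by fun_prop : Measurable fun x : Plane => x 0) hI).inter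
    ((by fun_prop : Measurable fun x : Plane => x 1) hJ)

end Pool.Agent.H911R2.Gauss
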