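import Pool.Agent.H911R2.GaussSix

/-! A face of a straight network with 120 degree triple points has at most six neighbours. -/

set_option autoImplicit false

namespace Pool.Agent.H911R2.Gauss

open Set Filter Topology Metric
open scoped RealInnerProductSpace

variable {n : ℕ} {N : Set Plane} {U : Fin n → Set Plane}

/-- Two sides of a face whose outer normals make an angle less than 60 degrees have the same
normal. -/
lemma Net.side_normal (h : Net N U) {l j j' : Fin n} (hlj : l ≠ j) (hlj' : l ≠ j')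
    {a x x' ν ν' : Plane}
    (hs : Side N (connectedComponentIn (U l) a) (U j) x ν)
    (hs' : Side N (connectedComponentIn (U l) a) (U j') x' ν') (hin : 1 / 2 < ⟪ν, ν'⟫) :
    ν = ν' := by
  by_contra hne
  set F := connectedComponentIn (U l) a with hFdef
  have hFo : IsOpen F := (h.isOpen l).connectedComponentIn
  have hFc : Convex ℝ F := comp_convex (h.isOpen l) (h.local_convex l) a
  have hν : ‖ν‖ = 1 := hs.1
  have hν' : ‖ν'‖ = 1 := hs'.1
  have hνν : ⟪ν, ν⟫ = 1 := by rw [real_inner_self_eq_norm_sq, hν]; norm_num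
  have hνν' : ⟪ν', ν'⟫ = 1 := by rw [real_inner_self_eq_norm_sq, hν']; norm_num
  have hxc := hs.mem_closure
  have hxc' := hs'.mem_closure
  have hlt : ∀ y ∈ F, ⟪ν, y - x⟫ < 0 := fun y hy => h.side_lt hlj hs hy
  have hlt' : ∀ y ∈ F, ⟪ν', y - x'⟫ < 0 := fun y hy => h.side_lt hlj' hs' hy
  -- the orthonormal frame
  set c : ℝ := ⟪ν, ν'⟫ with hc
  have hc1 : c < 1 := (inner_lt_one_iff_real_of_norm_eq_one hν hν').2 hne
  set s : ℝ := ‖ν' - c • ν‖ with hsdef
  have hs2 : s ^ 2 = 1 - c ^ 2 := by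
    rw [hsdef, norm_sub_sq_real, hν', inner_smul_right, real_inner_comm ν ν', norm_smul, hν,
      Real.norm_eq_abs, mul_one, sq_abs, ← hc]
    ring
  have hspos : 0 < s := by
    have h1 : 0 < s ^ 2 := by rw [hs2]; nlinarith
    have h2 : 0 ≤ s := norm_nonneg _
    rcases eq_or_lt_of_le h2 with h3 | h3
    · rw [← h3] at h1; norm_num at h1
    · exact h3
  obtain ⟨u, hudef⟩ : ∃ u : Plane, u = s⁻¹ • (ν' - c • ν) := ⟨_, rfl⟩
  have hu : ‖u‖ = 1 := by rw [hudef, norm_smul, norm_inv, Real.norm_of_nonneg hspos.le, ← hsdef,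
    inv_mul_cancel₀ hspos.ne']
  have hνu : ⟪ν, u⟫ = 0 := by
    rw [hudef, inner_smul_right, inner_sub_right, inner_smul_right, hνν, ← hc]; ring
  have huν : ⟪u, ν⟫ = 0 := by rw [real_inner_comm]; exact hνu
  have hν'eq : ν' = c • ν + s • u := by
    rw [hudef, smul_smul, mul_inv_cancel₀ hspos.ne', one_smul]; abel
  have huu : ⟪u, u⟫ = 1 := by rw [real_inner_self_eq_norm_sq, hu]; norm_num
  have hν'u : ⟪ν', u⟫ = s := by
    rw [hν'eq, inner_add_left, inner_smul_left, inner_smul_left, hνu, huu]; simp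
  -- the farthest point in direction u
  let T : Set ℝ := {t | x + t • u ∈ closure F}
  have hTc : IsClosed T := isClosed_closure.preimage (by fun_prop : Continuous fun t : ℝ => x + t • u)
  have hT0 : (0 : ℝ) ∈ T := by simpa [T] using hxc
  have hTb : BddAbove T := by
    refine ⟨⟪ν', x' - x⟫ / s, ?_⟩
    intro t ht
    have h1 := closure_le hlt' ht
    have e : x + t • u - x' = t • u - (x' - x) := by abel
    rw [e, inner_sub_right, inner_smul_right, hν'u] at h1
    rw [le_div_iff₀ hspos]; linarith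
  obtain ⟨ts, htsT, htmax⟩ : ∃ ts ∈ T, ∀ t ∈ T, t ≤ ts :=
    ⟨sSup T, hTc.csSup_mem ⟨0, hT0⟩ hTb, fun t ht => le_csSup hTb ht⟩
  -- T contains a positive number
  have hTpos : ∃ τ > 0, τ ∈ T := by
    obtain ⟨ε, hε, hb⟩ := Metric.eventually_nhds_iff_ball.1 hs.2
    refine ⟨ε / 2, by positivity, ?_⟩
    change x + (ε / 2) • u ∈ closure F
    rw [mem_closure_iff_frequently]
    have h2 : Tendsto (fun r : ℝ => x + (ε / 2) • u + r • (-ν)) (𝓝[>] 0)
        (𝓝 (x + (ε / 2) • u)) := by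
      have hc : ContinuousAt (fun r : ℝ => x + (ε / 2) • u + r • (-ν)) 0 := by fun_prop
      have : Tendsto (fun r : ℝ => x + (ε / 2) • u + r • (-ν)) (𝓝 0) (𝓝 (x + (ε / 2) • u)) := by
        simpa [ContinuousAt] using hc
      exact this.mono_left nhdsWithin_le_nhds
    refine h2.frequently (Eventually.frequently ?_)
    filter_upwards [Ioo_mem_nhdsGT (show (0 : ℝ) < ε / 2 by positivity)] with r hr
    refine (hb _ ?_).2.1 ?_
    · rw [mem_ball, dist_eq_norm]
      calc ‖x + (ε / 2) • u + r • (-ν) - x‖ = ‖(ε / 2) • u + r • (-ν)‖ := by congr 1; abel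
        _ ≤ ‖(ε / 2) • u‖ + ‖r • (-ν)‖ := norm_add_le _ _
        _ = ε / 2 + r := by
          rw [norm_smul, norm_smul, hu, norm_neg, hν, Real.norm_of_nonneg (by positivity),
            Real.norm_of_nonneg hr.1.le]; ring
        _ < ε := by linarith [hr.2]
    · have e : x + (ε / 2) • u + r • (-ν) - x = (ε / 2) • u + r • (-ν) := by abel
      rw [e, inner_add_right, inner_smul_right, inner_smul_right, hνu, inner_neg_right, hνν]
      have := hr.1
      linarith
  have htspos : 0 < ts := by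
    obtain ⟨τ, hτ, hτT⟩ := hTpos
    exact lt_of_lt_of_le hτ (htmax τ hτT)
  obtain ⟨p, hp⟩ : ∃ p : Plane, p = x + ts • u := ⟨_, rfl⟩
  have hpc : p ∈ closure F := by rw [hp]; exact htsT
  have hpx : ⟪ν, p - x⟫ = 0 := by
    rw [hp, add_sub_cancel_left, inner_smul_right, hνu, mul_zero]
  have hpF : p ∉ F := fun hpF => by
    have := hlt p hpF
    rw [hpx] at this; exact lt_irrefl _ this
  have hltp : ∀ y ∈ F, ⟪ν, y - p⟫ < 0 := by
    intro y hy
    have e : y - p = (y - x) - (p - x) := by abel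
    rw [e, inner_sub_right, hpx, sub_zero]; exact hlt y hy
  obtain ⟨ρ, hρ, m₁, m₂, hm1, hm2, hor, hdesc⟩ := h.boundary hpc hpF
  have hg1 : ∀ y ∈ F, ⟪m₁, y - p⟫ < 0 := fun y hy =>
    halfplane_of_local hFo hFc hpc (by
      filter_upwards [ball_mem_nhds p hρ] with w hw hwF
      exact ((hdesc w hw).1 hwF).1) hy
  have hg2 : ∀ y ∈ F, ⟪m₂, y - p⟫ < 0 := fun y hy =>
    halfplane_of_local hFo hFc hpc (by
      filter_upwards [ball_mem_nhds p hρ] with w hw hwF
      exact ((hdesc w hw).1 hwF).2) hy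
  have hxp : x - p = -(ts • u) := by rw [hp]; abel
  have hbeta : ∀ m : Plane, (∀ y ∈ F, ⟪m, y - p⟫ < 0) → 0 ≤ ⟪m, u⟫ := by
    intro m hm
    have h1 := closure_le hm hxc
    rw [hxp, inner_neg_right, inner_smul_right] at h1
    by_contra hcon; push Not at hcon
    have := mul_neg_of_pos_of_neg htspos hcon
    linarith
  have hb1 := hbeta m₁ hg1
  have hb2 := hbeta m₂ hg2
  -- one of the normals is ν
  have hnotboth : ⟪m₁, u⟫ = 0 ∨ ⟪m₂, u⟫ = 0 := by
    by_contra hcon
    push Not at hcon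
    have h1 : 0 < ⟪m₁, u⟫ := lt_of_le_of_ne hb1 (Ne.symm hcon.1)
    have h2 : 0 < ⟪m₂, u⟫ := lt_of_le_of_ne hb2 (Ne.symm hcon.2)
    -- direction z = -u + δ ν
    have hδ : ∃ δ : ℝ, δ > 0 ∧ ⟪m₁, -u + δ • ν⟫ < 0 ∧ ⟪m₂, -u + δ • ν⟫ < 0 := by
      have hcont : ∀ m : Plane, 0 < ⟪m, u⟫ → ∀ᶠ δ : ℝ in 𝓝[>] 0, ⟪m, -u + δ • ν⟫ < 0 := by
        intro m hm
        have hc : ContinuousAt (fun δ : ℝ => ⟪m, -u + δ • ν⟫) 0 := by fun_prop
        have : ∀ᶠ δ : ℝ in 𝓝 0, ⟪m, -u + δ • ν⟫ < 0 := by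
          refine hc.eventually_mem (isOpen_Iio.mem_nhds ?_)
          rw [mem_Iio, zero_smul, add_zero, inner_neg_right]; linarith
        exact nhdsWithin_le_nhds this
      obtain ⟨δ, hδ1, hδ2⟩ := (((hcont m₁ h1).and (hcont m₂ h2)).and self_mem_nhdsWithin).exists
      exact ⟨δ, hδ2, hδ1⟩
    obtain ⟨δ, hδ0, hδ1, hδ2⟩ := hδ
    obtain ⟨ε, hε, hε0⟩ := ((ev_ray (ball_mem_nhds p hρ) (-u + δ • ν)).and
      self_mem_nhdsWithin).exists
    have hε1 : (0 : ℝ) < ε := hε0
    have hin : p + ε • (-u + δ • ν) ∈ F := by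
      rw [hdesc _ hε, add_sub_cancel_left, inner_smul_right, inner_smul_right]
      exact ⟨mul_neg_of_pos_of_neg hε1 hδ1, mul_neg_of_pos_of_neg hε1 hδ2⟩
    have h3 := hltp _ hin
    rw [add_sub_cancel_left, inner_smul_right, inner_add_right, inner_neg_right, hνu,
      inner_smul_right, hνν] at h3
    have : 0 < ε * (-0 + δ * 1) := by rw [neg_zero, zero_add, mul_one]; positivity
    linarith
  have hFne : F.Nonempty := closure_nonempty_iff.1 ⟨x, hxc⟩
  have hmeq : ∀ m : Plane, ‖m‖ = 1 → (∀ y ∈ F, ⟪m, y - p⟫ < 0) → ⟪m, u⟫ = 0 → m = ν := by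
    intro m hm hmF hmu
    have h6 := onb hν hu hνu m
    rw [real_inner_comm m u, hmu, zero_smul, add_zero] at h6
    have h8 : |⟪ν, m⟫| = 1 := by
      have := congrArg norm h6
      rw [hm, norm_smul, hν, mul_one, Real.norm_eq_abs] at this
      exact this.symm
    rcases abs_eq (zero_le_one (α := ℝ)) |>.1 h8 with h9 | h9
    · rw [h9, one_smul] at h6; exact h6
    · exfalso
      rw [h9] at h6
      obtain ⟨y, hy⟩ := hFne
      have h10 := hmF y hy
      have h11 := hltp y hy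
      rw [h6, inner_smul_left] at h10
      simp only [conj_trivial] at h10
      linarith
  -- the core: the other normal `m` satisfies ⟪ν, m⟫ = 1/2
  have core : ∀ m : Plane, ‖m‖ = 1 → (∀ y ∈ F, ⟪m, y - p⟫ < 0) → 0 ≤ ⟪m, u⟫ →
      ⟪ν, m⟫ = 1 / 2 → False := by
    intro m hm hmF hmu hmν
    have h6 := onb hν hu hνu m
    rw [hmν] at h6
    obtain ⟨β, hβ⟩ : ∃ β : ℝ, β = ⟪u, m⟫ := ⟨_, rfl⟩
    rw [← hβ] at h6
    have hβ0 : 0 ≤ β := by rw [hβ, real_inner_comm]; exact hmu
    have hβ2 : β ^ 2 = 3 / 4 := by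
      have h7 : ⟪m, m⟫ = 1 := by rw [real_inner_self_eq_norm_sq, hm]; norm_num
      rw [h6, inner_add_left, inner_add_right, inner_add_right, inner_smul_left, inner_smul_left,
        inner_smul_left, inner_smul_left, inner_smul_right, inner_smul_right, inner_smul_right,
        inner_smul_right, hνν, hνu, huν, huu] at h7
      simp only [conj_trivial] at h7
      nlinarith
    have hβpos : 0 < β := by
      rcases eq_or_lt_of_le hβ0 with h7 | h7
      · rw [← h7] at hβ2; norm_num at hβ2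
      · exact h7
    have hsβ : s < β := by
      by_contra hcon; push Not at hcon
      have : β ^ 2 ≤ s ^ 2 := by gcongr
      rw [hβ2, hs2] at this
      nlinarith
    -- ν' = α ν + γ m
    have hα : 0 < c - s / (2 * β) := by
      have : s / (2 * β) < 1 / 2 := by
        rw [div_lt_div_iff₀ (by positivity) (by norm_num)]; linarith
      linarith
    have hγ : 0 < s / β := by positivity
    have hν'm : ∀ v : Plane, ⟪ν', v⟫ = (c - s / (2 * β)) * ⟪ν, v⟫ + (s / β) * ⟪m, v⟫ := by
      intro v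
      rw [hν'eq, h6, inner_add_left, inner_add_left, inner_smul_left, inner_smul_left,
        inner_smul_left, inner_smul_left]
      simp only [conj_trivial]
      field_simp
      ring
    have h1 := closure_le hltp hxc'
    have h2 := closure_le hmF hxc'
    have h3 : 0 ≤ ⟪ν', x' - p⟫ := by
      have := closure_le hlt' hpc
      have e : ⟪ν', p - x'⟫ = -⟪ν', x' - p⟫ := by rw [← inner_neg_right, neg_sub]
      linarith
    rw [hν'm] at h3
    have h4 : ⟪ν, x' - p⟫ = 0 := by
      by_contra hcon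
      have h5 : ⟪ν, x' - p⟫ < 0 := lt_of_le_of_ne h1 hcon
      have h6 := mul_neg_of_pos_of_neg hα h5
      have h7 : s / β * ⟪m, x' - p⟫ ≤ 0 := mul_nonpos_of_nonneg_of_nonpos hγ.le h2
      linarith
    have h5 : ⟪m, x' - p⟫ = 0 := by
      by_contra hcon
      have h5 : ⟪m, x' - p⟫ < 0 := lt_of_le_of_ne h2 hcon
      have h6 := mul_neg_of_pos_of_neg hγ h5
      rw [h4] at h3
      linarith
    have h7 : ⟪u, x' - p⟫ = 0 := by
      rw [h6, inner_add_left, inner_smul_left, inner_smul_left, h4] at h5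
      simp only [conj_trivial, mul_zero, zero_add] at h5
      exact (mul_eq_zero.1 h5).resolve_left hβpos.ne'
    have h8 : x' - p = 0 := by
      rw [onb hν hu hνu (x' - p), h4, h7]; simp
    have h9 : x' = p := sub_eq_zero.1 h8
    apply hne
    symm
    refine normal_eq (x := p) hν' hν ?_
    have hev := hs'.2
    rw [h9] at hev
    filter_upwards [hev] with y hy hy2
    exact hltp y (hy.2.1 hy2)
  -- conclusion
  have hfin : ∀ m₁ m₂ : Plane, ‖m₁‖ = 1 → ‖m₂‖ = 1 → (∀ y ∈ F, ⟪m₁, y - p⟫ < 0) →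
      (∀ y ∈ F, ⟪m₂, y - p⟫ < 0) → ⟪m₁, u⟫ = 0 → 0 ≤ ⟪m₂, u⟫ → (m₁ = m₂ ∨ ⟪m₁, m₂⟫ = 1 / 2) →
      (∀ y ∈ ball p ρ, (y ∈ F ↔ ⟪m₁, y - p⟫ < 0 ∧ ⟪m₂, y - p⟫ < 0)) → False := by
    intro m₁ m₂ hm1 hm2 hg1 hg2 h1 h2 hor hdesc
    have e1 := hmeq m₁ hm1 hg1 h1
    rcases hor with h3 | h3
    · -- regular point: contradiction with maximality
      have h4 : ts + ρ / 2 ∈ T := by
        change x + (ts + ρ / 2) • u ∈ closure F
        rw [mem_closure_iff_frequently]
        have h5 : Tendsto (fun r : ℝ => x + (ts + ρ / 2) • u + r • (-ν)) (𝓝[>] 0)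
            (𝓝 (x + (ts + ρ / 2) • u)) := by
          have hc : ContinuousAt (fun r : ℝ => x + (ts + ρ / 2) • u + r • (-ν)) 0 := by fun_prop
          have : Tendsto (fun r : ℝ => x + (ts + ρ / 2) • u + r • (-ν)) (𝓝 0)
              (𝓝 (x + (ts + ρ / 2) • u)) := by
            simpa [ContinuousAt] using hc
          exact this.mono_left nhdsWithin_le_nhds
        refine h5.frequently (Eventually.frequently ?_)
        filter_upwards [Ioo_mem_nhdsGT (show (0 : ℝ) < ρ / 2 by positivity)] with r hr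
        have e : x + (ts + ρ / 2) • u + r • (-ν) - p = (ρ / 2) • u + r • (-ν) := by
          rw [hp]; module
        have hlt3 : ⟪ν, x + (ts + ρ / 2) • u + r • (-ν) - p⟫ < 0 := by
          rw [e, inner_add_right, inner_smul_right, inner_smul_right, hνu, inner_neg_right, hνν]
          have := hr.1
          linarith
        rw [hdesc, ← h3, e1]
        · exact ⟨hlt3, hlt3⟩
        · rw [mem_ball, dist_eq_norm, e]
          calc ‖(ρ / 2) • u + r • (-ν)‖ ≤ ‖(ρ / 2) • u‖ + ‖r • (-ν)‖ := norm_add_le _ _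
            _ = ρ / 2 + r := by
              rw [norm_smul, norm_smul, hu, norm_neg, hν, Real.norm_of_nonneg (by positivity),
                Real.norm_of_nonneg hr.1.le]; ring
            _ < ρ := by linarith [hr.2]
      have := htmax _ h4
      linarith
    · rw [e1] at h3
      exact core m₂ hm2 hg2 h2 h3
  have hor' : m₁ = m₂ ∨ ⟪m₁, m₂⟫ = 1 / 2 := by
    rcases hor with ⟨h1, -⟩ | h1
    · exact Or.inl h1
    · exact Or.inr h1
  rcases hnotboth with h1 | h1
  · exact hfin m₁ m₂ hm1 hm2 hg1 hg2 h1 hb2 hor' hdesc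
  · refine hfin m₂ m₁ hm2 hm1 hg2 hg1 h1 hb1 ?_ fun y hy => by rw [hdesc y hy, and_comm]
    rcases hor' with h2 | h2
    · exact Or.inl h2.symm
    · exact Or.inr (by rw [real_inner_comm]; exact h2)

/-- Two sides of a face with outer normals at an angle less than 60 degrees have the same region on
the other side. -/
lemma Net.side_unique (h : Net N U) {l j j' : Fin n} (hlj : l ≠ j) (hlj' : l ≠ j')
    {a x x' ν ν' : Plane}
    (hs : Side N (connectedComponentIn (U l) a) (U j) x ν)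
    (hs' : Side N (connectedComponentIn (U l) a) (U j') x' ν') (hin : 1 / 2 < ⟪ν, ν'⟫) :
    j = j' := by
  have := h.side_normal hlj hlj' hs hs' hin
  subst this
  exact h.side_same hlj hlj' hs hs'

end Pool.Agent.H911R2.Gauss
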