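import Pool.Agent.H911R2.GaussFace

/-! A face of a straight network with 120 degree triple points has at most six neighbours. -/

set_option autoImplicit false

namespace Pool.Agent.H911R2.Gauss

open Set Filter Topology Metric
open scoped RealInnerProductSpace

variable {n : ℕ} {N : Set Plane} {U : Fin n → Set Plane}

/-- Near `x`, `N` is the line with unit normal `ν`, the side `⟪ν, · - x⟫ < 0` belongs to `F` and
the other side belongs to `W`. -/
def Side (N F W : Set Plane) (x ν : Plane) : Prop :=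
  ‖ν‖ = 1 ∧ ∀ᶠ y in 𝓝 x, (y ∈ N ↔ ⟪ν, y - x⟫ = 0) ∧ (⟪ν, y - x⟫ < 0 → y ∈ F) ∧
    (0 < ⟪ν, y - x⟫ → y ∈ W)

lemma ev_ray {P : Plane → Prop} {x : Plane} (h : ∀ᶠ y in 𝓝 x, P y) (z : Plane) :
    ∀ᶠ ε : ℝ in 𝓝[>] 0, P (x + ε • z) := by
  have hc : ContinuousAt (fun ε : ℝ => x + ε • z) 0 := by fun_prop
  have h2 : Tendsto (fun ε : ℝ => x + ε • z) (𝓝 0) (𝓝 x) := by
    simpa [ContinuousAt] using hc
  exact (h2.mono_left nhdsWithin_le_nhds).eventually h

lemma normal_eq {x n ν : Plane} (hn : ‖n‖ = 1) (hν : ‖ν‖ = 1)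
    (h : ∀ᶠ y in 𝓝 x, ⟪n, y - x⟫ < 0 → ⟪ν, y - x⟫ < 0) : n = ν := by
  by_contra hne
  have h1 : ⟪n, ν⟫ < 1 := (inner_lt_one_iff_real_of_norm_eq_one hn hν).2 hne
  obtain ⟨ε, hε, hε0⟩ := ((ev_ray h (ν - n)).and self_mem_nhdsWithin).exists
  have hε1 : (0 : ℝ) < ε := hε0
  rw [add_sub_cancel_left, inner_smul_right, inner_smul_right, inner_sub_right, inner_sub_right,
    real_inner_self_eq_norm_sq, real_inner_self_eq_norm_sq, hn, hν, real_inner_comm n ν] at hε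
  have := hε (by nlinarith)
  nlinarith

lemma halfplane_of_local {F : Set Plane} (hF : IsOpen F) (hc : Convex ℝ F) {p n : Plane}
    (hp : p ∈ closure F) (h : ∀ᶠ y in 𝓝 p, y ∈ F → ⟪n, y - p⟫ < 0) {y : Plane} (hy : y ∈ F) :
    ⟪n, y - p⟫ < 0 := by
  have h1 : openSegment ℝ p y ⊆ interior F :=
    hc.openSegment_closure_interior_subset_interior hp (by rwa [hF.interior_eq])
  obtain ⟨ε, hε, hε0⟩ := ((ev_ray h (y - p)).and (Ioo_mem_nhdsGT (zero_lt_one (α := ℝ)))).exists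
  have h2 : p + ε • (y - p) ∈ F := by
    apply interior_subset
    apply h1
    refine ⟨1 - ε, ε, by linarith [hε0.2], hε0.1, by ring, ?_⟩
    module
  have h3 := hε h2
  rw [add_sub_cancel_left, inner_smul_right] at h3
  have := hε0.1
  by_contra hcon
  push Not at hcon
  have : 0 ≤ ε * ⟪n, y - p⟫ := by positivity
  linarith

lemma closure_le {F : Set Plane} {n p : Plane} (h : ∀ y ∈ F, ⟪n, y - p⟫ < 0) {y : Plane}
    (hy : y ∈ closure F) : ⟪n, y - p⟫ ≤ 0 := by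
  have hcl : IsClosed {y : Plane | ⟪n, y - p⟫ ≤ 0} :=
    isClosed_le (by fun_prop) continuous_const
  exact closure_minimal (fun y hy => (h y hy).le) hcl hy

lemma onb {ν u : Plane} (hν : ‖ν‖ = 1) (hu : ‖u‖ = 1) (h : ⟪ν, u⟫ = 0) (v : Plane) :
    v = ⟪ν, v⟫ • ν + ⟪u, v⟫ • u := by
  have h1 : ν 0 ^ 2 + ν 1 ^ 2 = 1 := by
    have := EuclideanSpace.norm_sq_eq ν
    rw [hν, Fin.sum_univ_two] at this
    simpa using this.symm
  have h2 : u 0 ^ 2 + u 1 ^ 2 = 1 := by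
    have := EuclideanSpace.norm_sq_eq u
    rw [hu, Fin.sum_univ_two] at this
    simpa using this.symm
  have hin : ∀ a b : Plane, ⟪a, b⟫ = a 0 * b 0 + a 1 * b 1 := by
    intro a b
    simp [PiLp.inner_apply, Fin.sum_univ_two]
    ring
  rw [hin] at h
  have hc : u 0 = -ν 1 * (ν 0 * u 1 - ν 1 * u 0) := by
    linear_combination (-u 0) * h1 + ν 0 * h
  have hd : u 1 = ν 0 * (ν 0 * u 1 - ν 1 * u 0) := by
    linear_combination (-u 1) * h1 + ν 1 * h
  have hD : (ν 0 * u 1 - ν 1 * u 0) ^ 2 = 1 := by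
    linear_combination (u 0 ^ 2 + u 1 ^ 2) * h1 + h2 - (ν 0 * u 0 + ν 1 * u 1) * h
  set D := ν 0 * u 1 - ν 1 * u 0 with hDdef
  ext i
  rw [hin, hin]
  fin_cases i
  · simp only [Fin.zero_eta, PiLp.add_apply, PiLp.smul_apply, smul_eq_mul]
    rw [hc, hd]
    linear_combination (-v 0) * h1 + (ν 1 * (ν 0 * v 1 - ν 1 * v 0)) * hD
  · simp only [Fin.mk_one, PiLp.add_apply, PiLp.smul_apply, smul_eq_mul]
    rw [hc, hd]
    linear_combination (-v 1) * h1 + (ν 0 * (ν 1 * v 0 - ν 0 * v 1)) * hD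

lemma Side.mem_closure {F W : Set Plane} {x ν : Plane} (h : Side N F W x ν) : x ∈ closure F := by
  obtain ⟨hν, hev⟩ := h
  rw [mem_closure_iff_frequently]
  have h1 : ∀ᶠ ε : ℝ in 𝓝[>] 0, x + ε • (-ν) ∈ F := by
    filter_upwards [ev_ray hev (-ν), self_mem_nhdsWithin] with ε hε hε0
    refine hε.2.1 ?_
    rw [add_sub_cancel_left, inner_smul_right, inner_neg_right, real_inner_self_eq_norm_sq, hν]
    have : (0 : ℝ) < ε := hε0
    linarith
  have h2 : Tendsto (fun ε : ℝ => x + ε • (-ν)) (𝓝[>] 0) (𝓝 x) := by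
    have hc : ContinuousAt (fun ε : ℝ => x + ε • (-ν)) 0 := by fun_prop
    have : Tendsto (fun ε : ℝ => x + ε • (-ν)) (𝓝 0) (𝓝 x) := by
      simpa [ContinuousAt] using hc
    exact this.mono_left nhdsWithin_le_nhds
  exact h2.frequently h1.frequently

lemma trip_ray {x : Plane} {ν : Fin 3 → Plane} (h1 : ∀ k, ‖ν k‖ = 1) (h2 : ∑ k, ν k = 0)
    {ρ : ℝ} (hρ : 0 < ρ)
    (hb : ∀ y ∈ ball x ρ, (y ∈ N ↔ ∃ k, ⟪ν k, y - x⟫ = 0 ∧ ⟪ν (k + 1), y - x⟫ ≤ 0))
    (k : Fin 3) :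
    ∃ x', ⟪ν (k + 1), x' - x⟫ = 0 ∧ ∀ᶠ y in 𝓝 x', y ∈ ball x ρ ∧ 0 < ⟪ν k, y - x⟫ ∧
      ⟪ν (k + 1 + 1), y - x⟫ < 0 ∧ (y ∈ N ↔ ⟪ν (k + 1), y - x⟫ = 0) := by
  have hin := trip_inner h1 h2
  have hself : ∀ k, ⟪ν k, ν k⟫ = 1 := fun k => by
    rw [real_inner_self_eq_norm_sq, h1]; norm_num
  have hin2 : ∀ k, ⟪ν (k + 1), ν k⟫ = -1 / 2 := fun k => by rw [real_inner_comm]; exact hin k
  have hcyc : ∀ k : Fin 3, k + 1 + 1 + 1 = k := by decide
  set w : Plane := ν k - ν (k + 1 + 1) with hw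
  have hin3 : ⟪ν (k + 1 + 1), ν k⟫ = -1 / 2 := by
    have := hin (k + 1 + 1); rwa [hcyc] at this
  have hin4 : ⟪ν k, ν (k + 1 + 1)⟫ = -1 / 2 := by rw [real_inner_comm]; exact hin3
  have hwn : ‖w‖ ≤ 2 := (norm_sub_le _ _).trans (by rw [h1, h1]; norm_num)
  have hx'b : x + (ρ / 4) • w ∈ ball x ρ := by
    rw [mem_ball, dist_eq_norm]
    simp only [add_sub_cancel_left, norm_smul]
    rw [Real.norm_of_nonneg (by positivity)]
    nlinarith
  have e1 : ⟪ν k, x + (ρ / 4) • w - x⟫ = ρ / 4 * (3 / 2) := by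
    rw [add_sub_cancel_left, hw]
    simp only [inner_smul_right, inner_sub_right, hself, hin4]; ring
  have e2 : ⟪ν (k + 1), x + (ρ / 4) • w - x⟫ = 0 := by
    rw [add_sub_cancel_left, hw]
    simp only [inner_smul_right, inner_sub_right, hin2, hin (k + 1)]; ring
  have e3 : ⟪ν (k + 1 + 1), x + (ρ / 4) • w - x⟫ = -(ρ / 4 * (3 / 2)) := by
    rw [add_sub_cancel_left, hw]
    simp only [inner_smul_right, inner_sub_right, hself, hin3]; ring
  refine ⟨x + (ρ / 4) • w, e2, ?_⟩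
  have ev1 : ∀ᶠ y in 𝓝 (x + (ρ / 4) • w), 0 < ⟪ν k, y - x⟫ := by
    have hc : ContinuousAt (fun y : Plane => ⟪ν k, y - x⟫) (x + (ρ / 4) • w) := by fun_prop
    refine hc.eventually_mem (isOpen_Ioi.mem_nhds ?_)
    rw [mem_Ioi, e1]; positivity
  have ev2 : ∀ᶠ y in 𝓝 (x + (ρ / 4) • w), ⟪ν (k + 1 + 1), y - x⟫ < 0 := by
    have hc : ContinuousAt (fun y : Plane => ⟪ν (k + 1 + 1), y - x⟫) (x + (ρ / 4) • w) := by
      fun_prop
    refine hc.eventually_mem (isOpen_Iio.mem_nhds ?_)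
    rw [mem_Iio, e3]; linarith
  filter_upwards [ev1, ev2, isOpen_ball.mem_nhds hx'b] with y hy1 hy2 hy3
  refine ⟨hy3, hy1, hy2, ?_⟩
  rw [hb y hy3]
  constructor
  · rintro ⟨l, hl1, hl2⟩
    rcases fin3_cases k l with rfl | rfl | rfl
    · linarith
    · exact hl1
    · linarith
  · intro h3
    exact ⟨k + 1, h3, hy2.le⟩

lemma Net.mem_N_of_closure (h : Net N U) {l j : Fin n} (hlj : l ≠ j) {x : Plane}
    (hx1 : x ∈ closure (U l)) (hx2 : x ∈ closure (U j)) : x ∈ N := by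
  by_contra hx
  have h1 : x ∈ ⋃ i, U i := by rw [h.cover]; exact hx
  obtain ⟨k, hk⟩ := mem_iUnion.1 h1
  obtain ⟨y, hy1, hy2⟩ := _root_.mem_closure_iff.1 hx1 (U k) (h.isOpen k) hk
  obtain ⟨z, hz1, hz2⟩ := _root_.mem_closure_iff.1 hx2 (U k) (h.isOpen k) hk
  exact hlj ((h.not_both hy2 hy1).trans (h.not_both hz1 hz2))

lemma Net.adj (h : Net N U) {l j : Fin n} (hlj : l ≠ j) (a : Plane) {x : Plane}
    (hx1 : x ∈ closure (connectedComponentIn (U l) a)) (hx2 : x ∈ closure (U j)) :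
    ∃ x' ν, Side N (connectedComponentIn (U l) a) (U j) x' ν := by
  have hxN : x ∈ N := h.mem_N_of_closure hlj
    (closure_mono (connectedComponentIn_subset _ _) hx1) hx2
  -- near x, U l ⊆ F
  obtain ⟨ρ', hρ', hcv, hemp | hF⟩ := comp_local (h.local_convex l) a x
  · exfalso
    obtain ⟨y, hy1, hy2⟩ := Metric.mem_closure_iff.1 hx1 ρ' hρ'
    have : y ∈ connectedComponentIn (U l) a ∩ ball x ρ' := ⟨hy1, by rwa [mem_ball, dist_comm]⟩
    rw [hemp] at this; exact this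
  have hFl : ∀ y ∈ ball x ρ', y ∈ U l → y ∈ connectedComponentIn (U l) a := by
    intro y hy hyl
    have : y ∈ U l ∩ ball x ρ' := ⟨hyl, hy⟩
    rw [← hF] at this; exact this.1
  rcases h.loc x hxN with ⟨ν, hr⟩ | ⟨ν, hr⟩
  · obtain ⟨ρ, hρ, hN, i₁, i₂, hij, hi, hj⟩ := h.local_reg hxN hr
    set r := min ρ ρ' with hr'
    have hr0 : 0 < r := lt_min hρ hρ'
    have hbρ : ball x r ⊆ ball x ρ := ball_subset_ball (min_le_left _ _)
    have hbρ' : ball x r ⊆ ball x ρ' := ball_subset_ball (min_le_right _ _)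
    obtain ⟨y, hy1, hy2⟩ := Metric.mem_closure_iff.1 hx1 r hr0
    obtain ⟨z, hz1, hz2⟩ := Metric.mem_closure_iff.1 hx2 r hr0
    rw [dist_comm] at hy2 hz2
    have hyl : y ∈ U l := connectedComponentIn_subset _ _ hy1
    have hyN : y ∉ N := h.subset_compl l hyl
    have hzN : z ∉ N := h.subset_compl j hz1
    rw [hN y (hbρ hy2)] at hyN
    rw [hN z (hbρ hz2)] at hzN
    rcases lt_or_gt_of_ne hyN with h3 | h3
    · have hl : l = i₁ := h.not_both hyl (hi y (hbρ hy2) h3)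
      have hj' : j = i₂ := by
        rcases lt_or_gt_of_ne hzN with h4 | h4
        · exact absurd (hl.trans (h.not_both (hi z (hbρ hz2) h4) hz1)) hlj
        · exact h.not_both hz1 (hj z (hbρ hz2) h4)
      refine ⟨x, ν, hr.1, ?_⟩
      filter_upwards [ball_mem_nhds x hr0] with w hw
      refine ⟨hN w (hbρ hw), fun h5 => hFl w (hbρ' hw) ?_, fun h5 => ?_⟩
      · rw [hl]; exact hi w (hbρ hw) h5
      · rw [hj']; exact hj w (hbρ hw) h5
    · have hl : l = i₂ := h.not_both hyl (hj y (hbρ hy2) h3)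
      have hj' : j = i₁ := by
        rcases lt_or_gt_of_ne hzN with h4 | h4
        · exact h.not_both hz1 (hi z (hbρ hz2) h4)
        · exact absurd (hl.trans (h.not_both (hj z (hbρ hz2) h4) hz1)) hlj
      refine ⟨x, -ν, by rw [norm_neg, hr.1], ?_⟩
      filter_upwards [ball_mem_nhds x hr0] with w hw
      refine ⟨by rw [hN w (hbρ hw), inner_neg_left, neg_eq_zero], fun h5 => hFl w (hbρ' hw) ?_,
        fun h5 => ?_⟩
      · rw [hl]; exact hj w (hbρ hw) (by simpa using h5)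
      · rw [hj']; exact hi w (hbρ hw) (by simpa using h5)
  · obtain ⟨ρ, hρ, hN, i, hi, hU⟩ := h.local_trip hr
    obtain ⟨h1, h2, -⟩ := hr
    set r := min ρ ρ' with hr'
    have hr0 : 0 < r := lt_min hρ hρ'
    have hbρ : ball x r ⊆ ball x ρ := ball_subset_ball (min_le_left _ _)
    have hbρ' : ball x r ⊆ ball x ρ' := ball_subset_ball (min_le_right _ _)
    obtain ⟨y, hy1, hy2⟩ := Metric.mem_closure_iff.1 hx1 r hr0
    obtain ⟨z, hz1, hz2⟩ := Metric.mem_closure_iff.1 hx2 r hr0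
    rw [dist_comm] at hy2 hz2
    have hyl : y ∈ U l := connectedComponentIn_subset _ _ hy1
    have key : ∀ y ∈ ball x ρ, ∀ l, y ∈ U l → ∃ k, l = i k := by
      intro y hy l hyl
      have hyN : y ∉ N := h.subset_compl l hyl
      rw [hN y hy] at hyN
      have hsum : ⟪ν 0, y - x⟫ + ⟪ν 1, y - x⟫ + ⟪ν 2, y - x⟫ = 0 := by
        rw [← inner_add_left, ← inner_add_left, ← Fin.sum_univ_three, h2, inner_zero_left]
      have hc := sector_cover hsum (fun h3 => hyN ⟨0, h3⟩) (fun h3 => hyN ⟨1, h3⟩)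
        (fun h3 => hyN ⟨2, h3⟩)
      rcases hc with h3 | h3 | h3
      · exact ⟨0, h.not_both hyl (hU 0 y hy h3.1 h3.2)⟩
      · exact ⟨1, h.not_both hyl (hU 1 y hy h3.1 h3.2)⟩
      · exact ⟨2, h.not_both hyl (hU 2 y hy h3.1 h3.2)⟩
    obtain ⟨k, hk⟩ := key y (hbρ hy2) l hyl
    obtain ⟨m, hm⟩ := key z (hbρ hz2) j hz1
    have hkm : k ≠ m := by rintro rfl; exact hlj (hk.trans hm.symm)
    have hcase : m = k + 1 ∨ k = m + 1 := by
      rcases fin3_cases k m with h3 | h3 | h3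
      · exact absurd h3.symm hkm
      · exact Or.inl h3
      · right; rw [h3]; exact (by decide : ∀ k : Fin 3, k = k + 1 + 1 + 1) k
    rcases hcase with rfl | rfl
    · obtain ⟨x', hx', hev⟩ := trip_ray h1 h2 hr0 (fun y hy => hN y (hbρ hy)) k
      refine ⟨x', ν (k + 1), h1 _, ?_⟩
      filter_upwards [hev] with w ⟨hw1, hw2, hw3, hw4⟩
      have e : ⟪ν (k + 1), w - x'⟫ = ⟪ν (k + 1), w - x⟫ := by
        have : w - x = (w - x') + (x' - x) := by abel
        rw [this, inner_add_right, hx', add_zero]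
      rw [e]
      refine ⟨hw4, fun h5 => hFl w (hbρ' hw1) ?_, fun h5 => ?_⟩
      · rw [hk]; exact hU k w (hbρ hw1) hw2 h5
      · rw [hm]; exact hU (k + 1) w (hbρ hw1) h5 hw3
    · obtain ⟨x', hx', hev⟩ := trip_ray h1 h2 hr0 (fun y hy => hN y (hbρ hy)) m
      refine ⟨x', -ν (m + 1), by rw [norm_neg, h1], ?_⟩
      filter_upwards [hev] with w ⟨hw1, hw2, hw3, hw4⟩
      have e : ⟪ν (m + 1), w - x'⟫ = ⟪ν (m + 1), w - x⟫ := by
        have : w - x = (w - x') + (x' - x) := by abel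
        rw [this, inner_add_right, hx', add_zero]
      rw [inner_neg_left, e]
      refine ⟨by rw [hw4, neg_eq_zero], fun h5 => hFl w (hbρ' hw1) ?_, fun h5 => ?_⟩
      · rw [hk]; exact hU (m + 1) w (hbρ hw1) (by linarith) hw3
      · rw [hm]; exact hU m w (hbρ hw1) hw2 (by linarith)

end Pool.Agent.H911R2.Gauss
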