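import Pool.Agent.H911R2.GaussSide

/-! A face of a straight network with 120 degree triple points has at most six neighbours. -/

set_option autoImplicit false

namespace Pool.Agent.H911R2.Gauss

open Set Filter Topology Metric
open scoped RealInnerProductSpace

variable {n : ℕ} {N : Set Plane} {U : Fin n → Set Plane}

/-- Description of a face near a point of its boundary. -/
lemma Net.boundary (h : Net N U) {l : Fin n} {a z : Plane}
    (hz : z ∈ closure (connectedComponentIn (U l) a)) (hz2 : z ∉ connectedComponentIn (U l) a) :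
    ∃ ρ > 0, ∃ n₁ n₂ : Plane, ‖n₁‖ = 1 ∧ ‖n₂‖ = 1 ∧
      ((n₁ = n₂ ∧ ∀ y ∈ ball z ρ, (y ∈ N ↔ ⟪n₁, y - z⟫ = 0)) ∨ ⟪n₁, n₂⟫ = 1 / 2) ∧
      ∀ y ∈ ball z ρ, (y ∈ connectedComponentIn (U l) a ↔
        ⟪n₁, y - z⟫ < 0 ∧ ⟪n₂, y - z⟫ < 0) := by
  have hzN : z ∈ N := by
    by_contra hzN
    have h1 : z ∈ ⋃ i, U i := by rw [h.cover]; exact hzN
    obtain ⟨k, hk⟩ := mem_iUnion.1 h1
    obtain ⟨y, hy1, hy2⟩ := _root_.mem_closure_iff.1 hz (U k) (h.isOpen k) hk
    have hkl : k = l := h.not_both hy1 (connectedComponentIn_subset _ _ hy2)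
    subst hkl
    exact Set.disjoint_left.1 (comp_disjoint_closure (h.local_convex k) a) hz
      (subset_closure ⟨hk, hz2⟩)
  obtain ⟨ρ', hρ', hcv, hemp | hF⟩ := comp_local (h.local_convex l) a z
  · exfalso
    obtain ⟨y, hy1, hy2⟩ := Metric.mem_closure_iff.1 hz ρ' hρ'
    have : y ∈ connectedComponentIn (U l) a ∩ ball z ρ' := ⟨hy1, by rwa [mem_ball, dist_comm]⟩
    rw [hemp] at this; exact this
  obtain ⟨ρ, hρ, h1⟩ := h.describe hzN l
  refine ⟨min ρ ρ', lt_min hρ hρ', ?_⟩
  have hbρ : ball z (min ρ ρ') ⊆ ball z ρ := ball_subset_ball (min_le_left _ _)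
  have hbρ' : ball z (min ρ ρ') ⊆ ball z ρ' := ball_subset_ball (min_le_right _ _)
  rcases h1 with h1 | ⟨n₁, n₂, hn1, hn2, hor, h1⟩
  · exfalso
    obtain ⟨y, hy1, hy2⟩ := Metric.mem_closure_iff.1 hz ρ hρ
    rw [dist_comm] at hy2
    exact h1 y hy2 (connectedComponentIn_subset _ _ hy1)
  · refine ⟨n₁, n₂, hn1, hn2, ?_, fun y hy => ?_⟩
    · rcases hor with ⟨h2, h3⟩ | h2
      · exact Or.inl ⟨h2, fun y hy => h3 y (hbρ hy)⟩
      · exact Or.inr h2
    · rw [← h1 y (hbρ hy)]
      constructor
      · exact fun h2 => connectedComponentIn_subset _ _ h2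
      · intro h2
        have : y ∈ U l ∩ ball z ρ' := ⟨h2, hbρ' hy⟩
        rw [← hF] at this; exact this.1

lemma Net.side_lt (h : Net N U) {l j : Fin n} (hlj : l ≠ j) {a x ν : Plane}
    (hs : Side N (connectedComponentIn (U l) a) (U j) x ν) {y : Plane}
    (hy : y ∈ connectedComponentIn (U l) a) : ⟪ν, y - x⟫ < 0 := by
  refine halfplane_of_local (h.isOpen l).connectedComponentIn
    (comp_convex (h.isOpen l) (h.local_convex l) a) hs.mem_closure ?_ hy
  filter_upwards [hs.2] with w hw hwF
  have hwl := connectedComponentIn_subset _ _ hwF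
  have hwN : w ∉ N := h.subset_compl l hwl
  rw [hw.1] at hwN
  rcases lt_or_gt_of_ne hwN with h3 | h3
  · exact h3
  · exact absurd (h.not_both hwl (hw.2.2 h3)) hlj

/-- The segment between two boundary points with the same outer normal has the same region on the
other side. -/
lemma Net.side_same (h : Net N U) {l j j' : Fin n} (hlj : l ≠ j) (hlj' : l ≠ j') {a x x' ν : Plane}
    (hs : Side N (connectedComponentIn (U l) a) (U j) x ν)
    (hs' : Side N (connectedComponentIn (U l) a) (U j') x' ν) : j = j' := by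
  set F := connectedComponentIn (U l) a with hFdef
  have hFo : IsOpen F := (h.isOpen l).connectedComponentIn
  have hFc : Convex ℝ F := comp_convex (h.isOpen l) (h.local_convex l) a
  have hν : ‖ν‖ = 1 := hs.1
  have hνν : ⟪ν, ν⟫ = 1 := by rw [real_inner_self_eq_norm_sq, hν]; norm_num
  have hxc := hs.mem_closure
  have hxc' := hs'.mem_closure
  have hlt : ∀ y ∈ F, ⟪ν, y - x⟫ < 0 := fun y hy => h.side_lt hlj hs hy
  have hlt' : ∀ y ∈ F, ⟪ν, y - x'⟫ < 0 := fun y hy => h.side_lt hlj' hs' hy
  have hne : F.Nonempty := closure_nonempty_iff.1 ⟨x, hxc⟩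
  have hxx' : ⟪ν, x' - x⟫ = 0 := by
    have h1 := closure_le hlt hxc'
    have h2 := closure_le hlt' hxc
    have h3 : ⟪ν, x - x'⟫ = -⟪ν, x' - x⟫ := by rw [← inner_neg_right, neg_sub]
    linarith
  -- points of the segment
  have hseg : ∀ z ∈ segment ℝ x x', ⟪ν, z - x⟫ = 0 := by
    rintro z ⟨s, t, hs0, ht0, hst, rfl⟩
    have : s • x + t • x' - x = t • (x' - x) := by
      have : x = (s + t) • x := by rw [hst, one_smul]
      conv_lhs => rw [this]
      rw [hst, one_smul]
      have : s = 1 - t := by linarith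
      rw [this]
      module
    rw [this, inner_smul_right, hxx', mul_zero]
  have hlocal : ∀ z ∈ segment ℝ x x', ∀ᶠ y in 𝓝 z, 0 < ⟪ν, y - z⟫ → y ∉ N := by
    intro z hz
    by_cases hzx : z = x
    · rw [hzx]
      filter_upwards [hs.2] with y hy hy2 hyN
      rw [hy.1] at hyN; linarith
    by_cases hzx' : z = x'
    · rw [hzx']
      filter_upwards [hs'.2] with y hy hy2 hyN
      rw [hy.1] at hyN; linarith
    have hzc : z ∈ closure F := hFc.closure.segment_subset hxc hxc' hz
    have hzF : z ∉ F := fun hzF => by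
      have := hlt z hzF
      rw [hseg z hz] at this; exact lt_irrefl _ this
    obtain ⟨ρ, hρ, n₁, n₂, hn1, hn2, hor, hdesc⟩ := h.boundary hzc hzF
    have hg1 : ∀ y ∈ F, ⟪n₁, y - z⟫ < 0 := fun y hy =>
      halfplane_of_local hFo hFc hzc (by
        filter_upwards [ball_mem_nhds z hρ] with w hw hwF
        exact ((hdesc w hw).1 hwF).1) hy
    have hg2 : ∀ y ∈ F, ⟪n₂, y - z⟫ < 0 := fun y hy =>
      halfplane_of_local hFo hFc hzc (by
        filter_upwards [ball_mem_nhds z hρ] with w hw hwF
        exact ((hdesc w hw).1 hwF).2) hy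
    -- both normals equal ν
    have hnorm : ∀ m : Plane, ‖m‖ = 1 → (∀ y ∈ F, ⟪m, y - z⟫ < 0) → m = ν := by
      intro m hm hmF
      obtain ⟨s, t, hs0, ht0, hst, hzst⟩ := hz
      have hs1 : 0 < s := by
        rcases eq_or_lt_of_le hs0 with h3 | h3
        · exfalso; apply hzx'
          rw [← hzst, ← h3]
          have : t = 1 := by linarith
          rw [this]; simp
        · exact h3
      have ht1 : 0 < t := by
        rcases eq_or_lt_of_le ht0 with h3 | h3
        · exfalso; apply hzx
          rw [← hzst, ← h3]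
          have : s = 1 := by linarith
          rw [this]; simp
        · exact h3
      have e1 : x - z = -(t • (x' - x)) := by
        rw [← hzst]
        have : s = 1 - t := by linarith
        rw [this]
        module
      have e2 : x' - z = s • (x' - x) := by
        rw [← hzst]
        have : t = 1 - s := by linarith
        rw [this]
        module
      have h3 := closure_le hmF hxc
      have h4 := closure_le hmF hxc'
      rw [e1, inner_neg_right, inner_smul_right] at h3
      rw [e2, inner_smul_right] at h4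
      have h5 : ⟪m, x' - x⟫ = 0 := by
        apply le_antisymm
        · by_contra hcon; push Not at hcon
          have := mul_pos hs1 hcon; linarith
        · by_contra hcon; push Not at hcon
          have := mul_neg_of_pos_of_neg ht1 hcon; linarith
      have hd : x' - x ≠ 0 := by
        intro hd
        apply hzx
        rw [← hzst]
        have hxe : x' = x := sub_eq_zero.1 hd
        rw [hxe, ← add_smul, hst, one_smul]
      have hdn : ‖x' - x‖ ≠ 0 := norm_ne_zero_iff.2 hd
      have hu : ‖(‖x' - x‖⁻¹) • (x' - x)‖ = 1 := by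
        rw [norm_smul, norm_inv, norm_norm, inv_mul_cancel₀ hdn]
      have hνu : ⟪ν, (‖x' - x‖⁻¹) • (x' - x)⟫ = 0 := by
        rw [inner_smul_right, hxx', mul_zero]
      have h6 := onb hν hu hνu m
      have h7 : ⟪(‖x' - x‖⁻¹) • (x' - x), m⟫ = 0 := by
        rw [real_inner_comm, inner_smul_right, h5, mul_zero]
      rw [h7, zero_smul, add_zero] at h6
      have h8 : |⟪ν, m⟫| = 1 := by
        have := congrArg norm h6
        rw [hm, norm_smul, hν, mul_one, Real.norm_eq_abs] at this
        exact this.symm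
      rcases abs_eq (zero_le_one (α := ℝ)) |>.1 h8 with h9 | h9
      · rw [h9, one_smul] at h6; exact h6
      · exfalso
        rw [h9] at h6
        obtain ⟨y, hy⟩ := hne
        have h10 := hmF y hy
        have h11 := hlt y hy
        have hzst' : z ∈ segment ℝ x x' := ⟨s, t, hs0, ht0, hst, hzst⟩
        have h12 : ⟪ν, y - z⟫ = ⟪ν, y - x⟫ := by
          have : y - x = (y - z) + (z - x) := by abel
          rw [this, inner_add_right, hseg z hzst', add_zero]
        rw [h6, inner_smul_left] at h10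
        simp at h10
        linarith
    have e1 := hnorm n₁ hn1 hg1
    have e2 := hnorm n₂ hn2 hg2
    rcases hor with ⟨-, hN⟩ | hcon
    · filter_upwards [ball_mem_nhds z hρ] with y hy hy2 hyN
      rw [hN y hy, e1] at hyN
      linarith
    · rw [e1, e2, hνν] at hcon; norm_num at hcon
  -- a uniform strip
  have hcomp : IsCompact (segment ℝ x x') := by
    rw [segment_eq_image_lineMap]
    exact isCompact_Icc.image (by fun_prop)
  have hstrip : ∃ δ > 0, ∀ z ∈ segment ℝ x x', ∀ s ∈ Ioo (0 : ℝ) δ, z + s • ν ∉ N := by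
    refine hcomp.induction_on (p := fun K => ∃ δ > 0, ∀ z ∈ K, ∀ s ∈ Ioo (0 : ℝ) δ,
      z + s • ν ∉ N) ?_ ?_ ?_ ?_
    · exact ⟨1, one_pos, fun z hz => absurd hz (notMem_empty z)⟩
    · rintro s t hst ⟨δ, hδ, h1⟩
      exact ⟨δ, hδ, fun z hz => h1 z (hst hz)⟩
    · rintro s t ⟨δ, hδ, h1⟩ ⟨δ', hδ', h2⟩
      refine ⟨min δ δ', lt_min hδ hδ', ?_⟩
      rintro z (hz | hz) r hr
      · exact h1 z hz r ⟨hr.1, hr.2.trans_le (min_le_left _ _)⟩
      · exact h2 z hz r ⟨hr.1, hr.2.trans_le (min_le_right _ _)⟩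
    · intro z hz
      obtain ⟨ε, hε, hb⟩ := Metric.eventually_nhds_iff_ball.1 (hlocal z hz)
      refine ⟨ball z (ε / 2) ∩ segment ℝ x x', ?_, ε / 2, by positivity, ?_⟩
      · rw [inter_comm]
        exact inter_mem_nhdsWithin _ (ball_mem_nhds z (by positivity))
      · rintro w ⟨hw1, hw2⟩ s ⟨hs0, hs1⟩
        refine hb _ ?_ ?_
        · rw [mem_ball, dist_eq_norm]
          rw [mem_ball, dist_eq_norm] at hw1
          calc ‖w + s • ν - z‖ = ‖(w - z) + s • ν‖ := by congr 1; abel
            _ ≤ ‖w - z‖ + ‖s • ν‖ := norm_add_le _ _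
            _ < ε / 2 + ε / 2 := by
              refine add_lt_add hw1 ?_
              rw [norm_smul, hν, mul_one, Real.norm_of_nonneg hs0.le]; exact hs1
            _ = ε := by ring
        · have e : w + s • ν - z = (w - x) - (z - x) + s • ν := by abel
          rw [e, inner_add_right, inner_sub_right, hseg w hw2, hseg z hz, inner_smul_right, hνν]
          linarith
  obtain ⟨δ, hδ, hst⟩ := hstrip
  have hRpre : IsPreconnected ((fun p : Plane × ℝ => p.1 + p.2 • ν) ''
      (segment ℝ x x' ×ˢ Ioo (0 : ℝ) δ)) :=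
    ((convex_segment x x').isPreconnected.prod isPreconnected_Ioo).image _ (by fun_prop)
  obtain ⟨k, hk⟩ := h.label hRpre
    ⟨x + (δ / 2) • ν, (x, δ / 2), ⟨left_mem_segment _ _ _, by constructor <;> linarith⟩, rfl⟩ (by
      rintro y ⟨⟨z, s⟩, ⟨hz, hs⟩, rfl⟩
      exact hst z hz s hs)
  have hend : ∀ {w : Plane} {i : Fin n}, w ∈ segment ℝ x x' →
      (∀ᶠ y in 𝓝 w, 0 < ⟪ν, y - w⟫ → y ∈ U i) → k = i := by
    intro w i hw hev
    obtain ⟨ε, hε, hε0⟩ := ((ev_ray hev ν).and (Ioo_mem_nhdsGT hδ)).exists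
    rw [add_sub_cancel_left, inner_smul_right, hνν, mul_one] at hε
    exact h.not_both (hk ⟨(w, ε), ⟨hw, hε0⟩, rfl⟩) (hε hε0.1)
  have e1 : k = j := hend (left_mem_segment _ _ _) (hs.2.mono fun y hy => hy.2.2)
  have e2 : k = j' := hend (right_mem_segment _ _ _) (hs'.2.mono fun y hy => hy.2.2)
  exact e1.symm.trans e2

end Pool.Agent.H911R2.Gauss
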