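import Pool.Agent.H911R2.GaussWeak

/-! Strong compactness: weak limits of sets with bounded perimeter are sets. -/

set_option autoImplicit false

namespace Pool.Agent.H911R2.Gauss

open MeasureTheory Set Filter Topology Metric
open scoped ENNReal

lemma ball_est {A : Set Plane} (hA : MeasurableSet A) (hP : perim A ≠ ⊤) (R : ℝ) {ε : ℝ}
    (hε1 : ε ≤ 1) :
    ∫⁻ x in A ∩ ball 0 R, volume (closedBall x ε \ A) ≤
      volume (closedBall (0 : Plane) ε) * ENNReal.ofReal (ε * ((perim A).toReal / cmin R)) := by
  set A' : Set Plane := A ∩ ball 0 R with hA'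
  have hA'm : MeasurableSet A' := hA.inter measurableSet_ball
  let Q : Set (Plane × Plane) := {p | p.1 ∈ A' ∧ p.2 ∈ closedBall (0 : Plane) ε ∧ p.1 + p.2 ∉ A}
  have hQ : MeasurableSet Q := by
    refine (measurable_fst hA'm).inter ((measurable_snd measurableSet_closedBall).inter ?_)
    exact (((measurable_fst.add measurable_snd) : Measurable fun p : Plane × Plane => p.1 + p.2)
      hA).compl
  have e1 : (volume.prod volume) Q = ∫⁻ x in A', volume (closedBall x ε \ A) := by
    rw [Measure.prod_apply hQ, ← lintegral_indicator hA'm]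
    congr 1
    ext x
    by_cases hx : x ∈ A'
    · rw [indicator_of_mem hx]
      have : Prod.mk x ⁻¹' Q = (fun h => h + x) ⁻¹' (closedBall x ε \ A) := by
        ext h
        simp only [Q, mem_preimage, mem_ofPred_eq, Set.mem_sdiff, hx, true_and]
        rw [mem_closedBall, mem_closedBall, dist_zero_right, dist_eq_norm, add_sub_cancel_right,
          add_comm h x]
      rw [this, measure_preimage_add_right]
    · rw [indicator_of_notMem hx]
      have : Prod.mk x ⁻¹' Q = ∅ := by
        ext h
        simp only [Q, mem_preimage, mem_ofPred_eq, mem_empty_iff_false, iff_false]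
        exact fun h2 => hx h2.1
      rw [this, measure_empty]
  rw [← e1, Measure.prod_apply_symm hQ]
  calc ∫⁻ h, volume ((fun x => (x, h)) ⁻¹' Q)
      ≤ ∫⁻ h, (closedBall (0 : Plane) ε).indicator
          (fun _ => ENNReal.ofReal (ε * ((perim A).toReal / cmin R))) h := by
        refine lintegral_mono fun h => ?_
        by_cases hh : h ∈ closedBall (0 : Plane) ε
        · rw [indicator_of_mem hh]
          rw [mem_closedBall, dist_zero_right] at hh
          have h1 : (fun x => (x, h)) ⁻¹' Q ⊆ {x | x ∈ A ∩ ball 0 R ∧ x + h ∉ A} := by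
            rintro x ⟨hx1, -, hx3⟩
            exact ⟨hx1, hx3⟩
          refine (measure_mono h1).trans ((trans_est hA hP R (hh.trans hε1)).trans ?_)
          apply ENNReal.ofReal_le_ofReal
          have := cmin_pos R
          gcongr
        · rw [indicator_of_notMem hh]
          have : (fun x => (x, h)) ⁻¹' Q = ∅ := by
            ext x
            simp only [Q, mem_preimage, mem_ofPred_eq, mem_empty_iff_false, iff_false]
            exact fun h2 => hh h2.2.1
          rw [this, measure_empty]
    _ = _ := by
        rw [lintegral_indicator measurableSet_closedBall, setLIntegral_const, mul_comm]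

/-- The density of `A` in the disc of radius `ε` about `x`. -/
noncomputable def dav (A : Set Plane) (ε : ℝ) (x : Plane) : ℝ :=
  volume.real (A ∩ closedBall x ε) / volume.real (closedBall (0 : Plane) ε)

lemma vol_cb_pos {ε : ℝ} (hε : 0 < ε) : 0 < volume.real (closedBall (0 : Plane) ε) :=
  ENNReal.toReal_pos (measure_closedBall_pos volume 0 hε).ne' measure_closedBall_lt_top.ne

lemma vol_cb (x : Plane) (ε : ℝ) :
    volume (closedBall x ε) = volume (closedBall (0 : Plane) ε) :=
  Measure.addHaar_closedBall_center volume x ε

lemma dav_nonneg (A : Set Plane) (ε : ℝ) (x : Plane) : 0 ≤ dav A ε x := by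
  unfold dav; positivity

lemma dav_le_one (A : Set Plane) {ε : ℝ} (hε : 0 < ε) (x : Plane) : dav A ε x ≤ 1 := by
  unfold dav
  rw [div_le_one (vol_cb_pos hε)]
  have : volume.real (closedBall x ε) = volume.real (closedBall (0 : Plane) ε) := by
    unfold Measure.real; rw [vol_cb]
  rw [← this]
  exact measureReal_mono inter_subset_right measure_closedBall_lt_top.ne

lemma measurable_dav {A : Set Plane} (hA : MeasurableSet A) (ε : ℝ) : Measurable (dav A ε) := by
  have hQ : MeasurableSet {p : Plane × Plane | p.2 ∈ A ∧ dist p.2 p.1 ≤ ε} :=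
    (measurable_snd hA).inter
      (measurableSet_le (measurable_snd.dist measurable_fst) measurable_const)
  have h1 := measurable_measure_prodMk_left (ν := (volume : Measure Plane)) hQ
  have h2 : Measurable fun x : Plane => volume (A ∩ closedBall x ε) := h1
  exact h2.ennreal_toReal.div_const _

lemma ball_est_real {A : Set Plane} (hA : MeasurableSet A) (hP : perim A ≠ ⊤) (R : ℝ) {ε : ℝ}
    (hε : 0 < ε) (hε1 : ε ≤ 1) :
    ∫ x in A ∩ ball 0 R, (1 - dav A ε x) ≤ ε * ((perim A).toReal / cmin R) := by
  have hV := vol_cb_pos hε
  have h1 := ball_est hA hP R hε1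
  have hfin : ∀ x : Plane, volume (closedBall x ε \ A) ≠ ⊤ := fun x =>
    ((measure_mono sdiff_subset).trans_lt measure_closedBall_lt_top).ne
  have e1 : ∀ x : Plane, 1 - dav A ε x = (volume (closedBall x ε \ A)).toReal /
      volume.real (closedBall (0 : Plane) ε) := by
    intro x
    have h2 : volume.real (closedBall (0 : Plane) ε) = volume.real (closedBall x ε) := by
      unfold Measure.real; rw [vol_cb x]
    have h3 : volume.real (closedBall x ε) = volume.real (A ∩ closedBall x ε) +
        volume.real (closedBall x ε \ A) := by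
      rw [inter_comm]
      exact (measureReal_inter_add_sdiff hA measure_closedBall_lt_top.ne).symm
    unfold dav
    change 1 - _ = volume.real (closedBall x ε \ A) / _
    rw [eq_div_iff hV.ne', sub_mul, one_mul, div_mul_cancel₀ _ hV.ne']
    linarith
  have hmeas : Measurable fun x : Plane => volume (closedBall x ε \ A) := by
    have hQ : MeasurableSet {p : Plane × Plane | dist p.2 p.1 ≤ ε ∧ p.2 ∉ A} :=
      (measurableSet_le (measurable_snd.dist measurable_fst) measurable_const).inter
        (measurable_snd hA).compl
    exact measurable_measure_prodMk_left (ν := (volume : Measure Plane)) hQ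
  simp_rw [e1]
  rw [integral_div, integral_toReal hmeas.aemeasurable
    (Eventually.of_forall fun x => (hfin x).lt_top), div_le_iff₀ hV]
  have hc := cmin_pos R
  have h4 := ENNReal.toReal_mono (by
    exact ENNReal.mul_ne_top measure_closedBall_lt_top.ne ENNReal.ofReal_ne_top) h1
  rw [ENNReal.toReal_mul, ENNReal.toReal_ofReal (by positivity)] at h4
  calc _ ≤ _ := h4
    _ = _ := by unfold Measure.real; ring

lemma strong_aux {A : ℕ → Set Plane} (hA : ∀ k, MeasurableSet (A k)) {P : ℝ}
    (hfin : ∀ k, perim (A k) ≠ ⊤) (hP : ∀ k, (perim (A k)).toReal ≤ P) {f : Plane → ℝ}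
    (hlim : ∀ h : Plane → ℝ, BM h →
        Tendsto (fun k => ∫ x in A k, h x ∂gam) atTop (𝓝 (∫ x, h x * f x ∂gam)))
    (R : ℝ) {ε : ℝ} (hε : 0 < ε) (hε1 : ε ≤ 1) :
    ∫ x in ball (0 : Plane) R, f x * (1 - ⨍ y in closedBall x ε, f y) ≤ ε * (P / cmin R) := by
  have hV := vol_cb_pos hε
  set D : Plane → ℝ := fun x => ⨍ y in closedBall x ε, f y with hD
  have hpt : ∀ x, Tendsto (fun k => dav (A k) ε x) atTop (𝓝 (D x)) := by
    intro x
    have hBM : BM ((closedBall x ε).indicator fun _ => (1 : ℝ)) :=
      ⟨measurable_const.indicator measurableSet_closedBall, 1, fun y => by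
        by_cases hy : y ∈ closedBall x ε
        · rw [indicator_of_mem hy]; simp
        · rw [indicator_of_notMem hy]; simp⟩
    have h1 := weak_volume hA hlim hBM (R := ‖x‖ + ε) (fun y hy => by
      apply indicator_of_notMem
      rw [mem_closedBall, dist_eq_norm, not_le]
      have := norm_sub_norm_le y x
      linarith)
    have e1 : ∀ k, ∫ y in A k, (closedBall x ε).indicator (fun _ => (1 : ℝ)) y =
        volume.real (A k ∩ closedBall x ε) := by
      intro k
      rw [setIntegral_indicator measurableSet_closedBall]; simp
    have e2 : ∫ y, (closedBall x ε).indicator (fun _ => (1 : ℝ)) y * f y =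
        ∫ y in closedBall x ε, f y := by
      rw [← integral_indicator measurableSet_closedBall]
      congr 1; ext y
      by_cases hy : y ∈ closedBall x ε
      · rw [indicator_of_mem hy, indicator_of_mem hy, one_mul]
      · rw [indicator_of_notMem hy, indicator_of_notMem hy, zero_mul]
    simp only [e1, e2] at h1
    have h2 := h1.div_const (volume.real (closedBall (0 : Plane) ε))
    have e3 : D x = (∫ y in closedBall x ε, f y) / volume.real (closedBall (0 : Plane) ε) := by
      simp only [hD]
      rw [setAverage_eq]
      have : volume.real (closedBall x ε) = volume.real (closedBall (0 : Plane) ε) := by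
        unfold Measure.real; rw [vol_cb]
      rw [this, smul_eq_mul, div_eq_inv_mul]
    rw [e3]
    exact h2
  have hDm : Measurable D :=
    measurable_of_tendsto_metrizable (fun k => measurable_dav (hA k) ε) (tendsto_pi_nhds.2 hpt)
  have hD01 : ∀ x, 0 ≤ D x ∧ D x ≤ 1 := fun x =>
    ⟨ge_of_tendsto' (hpt x) fun k => dav_nonneg _ _ _,
      le_of_tendsto' (hpt x) fun k => dav_le_one _ hε _⟩
  have hbfin : volume (ball (0 : Plane) R) ≠ ⊤ := measure_ball_lt_top.ne
  -- integrability helpers on the ball
  have hint : ∀ {u : Plane → ℝ}, Measurable u → (∀ x, |u x| ≤ 1) →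
      ∀ S : Set Plane, S ⊆ ball 0 R → IntegrableOn u S := by
    intro u hu hu1 S hS
    refine Measure.integrableOn_of_bounded (M := 1) (ne_top_of_le_ne_top hbfin (measure_mono hS))
      hu.aestronglyMeasurable (Eventually.of_forall fun x => by rw [Real.norm_eq_abs]; exact hu1 x)
  -- weak limit of the left side
  have hBM : BM ((ball (0 : Plane) R).indicator fun x => 1 - D x) :=
    ⟨(measurable_const.sub hDm).indicator measurableSet_ball, 1, fun x => by
      by_cases hx : x ∈ ball (0 : Plane) R
      · rw [indicator_of_mem hx, abs_le]; constructor <;> linarith [(hD01 x).1, (hD01 x).2]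
      · rw [indicator_of_notMem hx]; simp⟩
  have hl := weak_volume hA hlim hBM (R := R) (fun y hy => by
    apply indicator_of_notMem
    rw [mem_ball, dist_zero_right, not_lt]; exact hy.le)
  have e1 : ∀ k, ∫ x in A k, (ball (0 : Plane) R).indicator (fun x => 1 - D x) x =
      ∫ x in A k ∩ ball 0 R, (1 - D x) := fun k => setIntegral_indicator measurableSet_ball
  have e2 : ∫ x, (ball (0 : Plane) R).indicator (fun x => 1 - D x) x * f x =
      ∫ x in ball (0 : Plane) R, f x * (1 - D x) := by
    rw [← integral_indicator measurableSet_ball]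
    congr 1; ext x
    by_cases hx : x ∈ ball (0 : Plane) R
    · rw [indicator_of_mem hx, indicator_of_mem hx, mul_comm]
    · rw [indicator_of_notMem hx, indicator_of_notMem hx, zero_mul]
  simp only [e1, e2] at hl
  -- the error term
  have hb : Tendsto (fun k => ∫ x in ball (0 : Plane) R, |dav (A k) ε x - D x|) atTop (𝓝 0) := by
    have : Tendsto (fun k => ∫ x in ball (0 : Plane) R, |dav (A k) ε x - D x|) atTop
        (𝓝 (∫ x in ball (0 : Plane) R, (0 : ℝ))) := by
      refine tendsto_integral_of_dominated_convergence (fun _ => (1 : ℝ)) ?_ ?_ ?_ ?_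
      · intro k
        have : Measurable fun x => |dav (A k) ε x - D x| :=
          ((measurable_dav (hA k) ε).sub hDm).abs
        exact this.aestronglyMeasurable
      · exact hint measurable_const (by simp) _ Subset.rfl
      · intro k
        refine Eventually.of_forall fun x => ?_
        rw [Real.norm_eq_abs, abs_abs, abs_le]
        have h1 := dav_nonneg (A k) ε x
        have h2 := dav_le_one (A k) hε x
        constructor <;> linarith [(hD01 x).1, (hD01 x).2]
      · refine Eventually.of_forall fun x => ?_
        have := ((hpt x).sub_const (D x)).abs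
        simpa using this
    simpa using this
  have hbound : ∀ k, ∫ x in A k ∩ ball 0 R, (1 - D x) ≤ ε * (P / cmin R) +
      ∫ x in ball (0 : Plane) R, |dav (A k) ε x - D x| := by
    intro k
    have hc := cmin_pos R
    have i1 : IntegrableOn (fun x => 1 - dav (A k) ε x) (A k ∩ ball 0 R) :=
      hint (u := fun x => 1 - dav (A k) ε x) (measurable_const.sub (measurable_dav (hA k) ε)) (fun x => by
        have h1 := dav_nonneg (A k) ε x
        have h2 := dav_le_one (A k) hε x
        rw [abs_le]; constructor <;> linarith) _ inter_subset_right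
    have habs : ∀ x, |dav (A k) ε x - D x| ≤ 1 := fun x => by
      have h1 := dav_nonneg (A k) ε x
      have h2 := dav_le_one (A k) hε x
      rw [abs_le]; constructor <;> linarith [(hD01 x).1, (hD01 x).2]
    have m2 : Measurable fun x => |dav (A k) ε x - D x| :=
      ((measurable_dav (hA k) ε).sub hDm).abs
    have i2 : ∀ S : Set Plane, S ⊆ ball 0 R → IntegrableOn (fun x => |dav (A k) ε x - D x|) S :=
      fun S hS => hint m2 (fun x => by rw [abs_abs]; exact habs x) S hS
    calc ∫ x in A k ∩ ball 0 R, (1 - D x)
        ≤ ∫ x in A k ∩ ball 0 R, ((1 - dav (A k) ε x) + |dav (A k) ε x - D x|) := by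
          refine integral_mono ?_ (i1.add (i2 _ inter_subset_right)) fun x => ?_
          · exact hint (u := fun x => 1 - D x) (measurable_const.sub hDm) (fun x => by
              rw [abs_le]; constructor <;> linarith [(hD01 x).1, (hD01 x).2]) _ inter_subset_right
          · have := le_abs_self (dav (A k) ε x - D x)
            simp only
            linarith
      _ = (∫ x in A k ∩ ball 0 R, (1 - dav (A k) ε x)) +
            ∫ x in A k ∩ ball 0 R, |dav (A k) ε x - D x| :=
          integral_add i1 (i2 _ inter_subset_right)
      _ ≤ ε * (P / cmin R) + ∫ x in ball (0 : Plane) R, |dav (A k) ε x - D x| := by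
          refine add_le_add ((ball_est_real (hA k) (hfin k) R hε hε1).trans ?_) ?_
          · have := hP k
            gcongr
          · exact setIntegral_mono_set (i2 _ Subset.rfl) (Eventually.of_forall fun x => abs_nonneg _)
              (LE.le.eventuallyLE inter_subset_right)
  have hr : Tendsto (fun k => ε * (P / cmin R) +
      ∫ x in ball (0 : Plane) R, |dav (A k) ε x - D x|) atTop (𝓝 (ε * (P / cmin R) + 0)) :=
    tendsto_const_nhds.add hb
  rw [add_zero] at hr
  exact le_of_tendsto_of_tendsto' hl hr hbound

lemma measurable_avg {f : Plane → ℝ} (hf : Measurable f) {ε : ℝ} :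
    Measurable fun x : Plane => ⨍ y in closedBall x ε, f y := by
  have e : (fun x : Plane => ⨍ y in closedBall x ε, f y) = fun x =>
      (volume.real (closedBall (0 : Plane) ε))⁻¹ *
        ∫ y, ({p : Plane × Plane | dist p.2 p.1 ≤ ε}.indicator (fun p => f p.2)) (x, y) := by
    ext x
    have : volume.real (closedBall x ε) = volume.real (closedBall (0 : Plane) ε) := by
      unfold Measure.real; rw [vol_cb]
    rw [setAverage_eq, this, smul_eq_mul, ← integral_indicator measurableSet_closedBall]
    rfl
  rw [e]
  have hQ : MeasurableSet {p : Plane × Plane | dist p.2 p.1 ≤ ε} :=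
    measurableSet_le (measurable_snd.dist measurable_fst) measurable_const
  have h1 : StronglyMeasurable
      ({p : Plane × Plane | dist p.2 p.1 ≤ ε}.indicator (fun p => f p.2)) :=
    ((hf.comp measurable_snd).indicator hQ).stronglyMeasurable
  exact (StronglyMeasurable.integral_prod_right' (ν := (volume : Measure Plane))
    h1).measurable.const_mul _

lemma avg01 {f : Plane → ℝ} (hf : Measurable f) (hf01 : ∀ x, 0 ≤ f x ∧ f x ≤ 1) {ε : ℝ}
    (hε : 0 < ε) (x : Plane) :
    0 ≤ (⨍ y in closedBall x ε, f y) ∧ (⨍ y in closedBall x ε, f y) ≤ 1 := by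
  have hV := vol_cb_pos hε
  have : volume.real (closedBall x ε) = volume.real (closedBall (0 : Plane) ε) := by
    unfold Measure.real; rw [vol_cb]
  rw [setAverage_eq, this, smul_eq_mul]
  have h0 : 0 ≤ ∫ y in closedBall x ε, f y := integral_nonneg fun y => (hf01 y).1
  have h1 : ∫ y in closedBall x ε, f y ≤ volume.real (closedBall (0 : Plane) ε) := by
    rw [← this]
    have h2 : ∫ y in closedBall x ε, f y ≤ ∫ y in closedBall x ε, (1 : ℝ) := by
      refine integral_mono ?_ ?_ fun y => (hf01 y).2
      · exact Measure.integrableOn_of_bounded (M := 1) measure_closedBall_lt_top.ne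
          hf.aestronglyMeasurable (Eventually.of_forall fun y => by
            rw [Real.norm_eq_abs, abs_le]; constructor <;> linarith [(hf01 y).1, (hf01 y).2])
      · exact integrableOn_const measure_closedBall_lt_top.ne
    simpa using h2
  refine ⟨by positivity, ?_⟩
  rw [inv_mul_le_one₀ hV]
  exact h1

/-- The weak limit density takes only the values `0` and `1`. -/
lemma strong {A : ℕ → Set Plane} (hA : ∀ k, MeasurableSet (A k)) {P : ℝ}
    (hfin : ∀ k, perim (A k) ≠ ⊤) (hP : ∀ k, (perim (A k)).toReal ≤ P) {f : Plane → ℝ}
    (hf : Measurable f) (hf01 : ∀ x, 0 ≤ f x ∧ f x ≤ 1)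
    (hlim : ∀ h : Plane → ℝ, BM h →
        Tendsto (fun k => ∫ x in A k, h x ∂gam) atTop (𝓝 (∫ x, h x * f x ∂gam))) :
    ∀ᵐ x : Plane, f x * (1 - f x) = 0 := by
  have hfloc : LocallyIntegrable f (volume : Measure Plane) := by
    intro x
    refine ⟨ball x 1, ball_mem_nhds x one_pos, ?_⟩
    exact Measure.integrableOn_of_bounded (M := 1) measure_ball_lt_top.ne hf.aestronglyMeasurable
      (Eventually.of_forall fun y => by
        rw [Real.norm_eq_abs, abs_le]; constructor <;> linarith [(hf01 y).1, (hf01 y).2])
  have hld : ∀ᵐ x : Plane, Tendsto (fun j : ℕ => ⨍ y in closedBall x (1 / ((j : ℝ) + 1)), f y) atTop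
      (𝓝 (f x)) := by
    filter_upwards [IsUnifLocDoublingMeasure.ae_tendsto_average (volume : Measure Plane) hfloc 1]
      with x hx
    refine hx (fun _ => x) (fun j : ℕ => 1 / ((j : ℝ) + 1)) ?_ ?_
    · rw [tendsto_nhdsWithin_iff]
      exact ⟨tendsto_one_div_add_atTop_nhds_zero_nat, Eventually.of_forall fun j => by
        simp only [mem_Ioi]; positivity⟩
    · exact Eventually.of_forall fun j => by
        simp only [one_mul]
        exact mem_closedBall_self (by positivity)
  have key : ∀ R : ℝ, ∀ᵐ x : Plane, x ∈ ball (0 : Plane) R → f x * (1 - f x) = 0 := by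
    intro R
    have hint : ∀ {u : Plane → ℝ}, Measurable u → (∀ x, |u x| ≤ 1) →
        IntegrableOn u (ball 0 R) := by
      intro u hu hu1
      refine Measure.integrableOn_of_bounded (M := 1) measure_ball_lt_top.ne
        hu.aestronglyMeasurable (Eventually.of_forall fun x => by
          rw [Real.norm_eq_abs]; exact hu1 x)
    have h1 : Tendsto (fun j : ℕ => ∫ x in ball (0 : Plane) R,
        f x * (1 - ⨍ y in closedBall x (1 / ((j : ℝ) + 1)), f y)) atTop
        (𝓝 (∫ x in ball (0 : Plane) R, f x * (1 - f x))) := by
      refine tendsto_integral_of_dominated_convergence (fun _ => (1 : ℝ)) ?_ ?_ ?_ ?_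
      · intro j
        exact (hf.mul (measurable_const.sub (measurable_avg hf))).aestronglyMeasurable
      · exact hint measurable_const (by simp)
      · intro j
        refine Eventually.of_forall fun x => ?_
        have ha := avg01 hf hf01 (ε := 1 / ((j : ℝ) + 1)) (by positivity) x
        have hx := hf01 x
        rw [Real.norm_eq_abs, abs_le]
        constructor <;> nlinarith [ha.1, ha.2, hx.1, hx.2]
      · filter_upwards [ae_restrict_of_ae hld] with x hx
        exact (tendsto_const_nhds.sub hx).const_mul _
    have h2 : ∫ x in ball (0 : Plane) R, f x * (1 - f x) ≤ 0 := by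
      have h3 : Tendsto (fun j : ℕ => 1 / ((j : ℝ) + 1) * (P / cmin R)) atTop
          (𝓝 (0 * (P / cmin R))) :=
        tendsto_one_div_add_atTop_nhds_zero_nat.mul_const _
      rw [zero_mul] at h3
      refine le_of_tendsto_of_tendsto' h1 h3 fun j => ?_
      refine strong_aux hA hfin hP hlim R (by positivity) ?_
      rw [div_le_one (by positivity)]
      have : (0 : ℝ) ≤ j := by positivity
      linarith
    have h4 : 0 ≤ᵐ[volume.restrict (ball (0 : Plane) R)] fun x => f x * (1 - f x) :=
      Eventually.of_forall fun x => by
        have := hf01 x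
        exact mul_nonneg this.1 (by linarith [this.2])
    have h5 : IntegrableOn (fun x => f x * (1 - f x)) (ball (0 : Plane) R) :=
      hint (u := fun x => f x * (1 - f x)) (hf.mul (measurable_const.sub hf)) fun x => by
        have := hf01 x
        rw [abs_le]; constructor <;> nlinarith [this.1, this.2]
    have h6 : ∫ x in ball (0 : Plane) R, f x * (1 - f x) = 0 :=
      le_antisymm h2 (integral_nonneg_of_ae h4)
    rw [integral_eq_zero_iff_of_nonneg_ae h4 h5, EventuallyEq,
      ae_restrict_iff' measurableSet_ball] at h6
    exact h6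
  have key2 : ∀ᵐ x : Plane, ∀ n : ℕ, x ∈ ball (0 : Plane) n → f x * (1 - f x) = 0 :=
    ae_all_iff.2 fun n => key n
  filter_upwards [key2] with x hx
  obtain ⟨n, hn⟩ := exists_nat_gt ‖x‖
  exact hx n (by rw [mem_ball, dist_zero_right]; exact hn)

end Pool.Agent.H911R2.Gauss
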