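import Pool.Agent.H911R2.GaussField

/-! Upper bounds for the weighted perimeter of products of intervals. -/

set_option autoImplicit false

namespace Pool.Agent.H911R2.Gauss

open MeasureTheory Set Filter Topology
open scoped ENNReal

/-- `∫_I f' ≤ M κ` whenever `f ∈ C¹_c` and `|f| ≤ M exp(-t²/2)`. -/
def IntBd (I : Set ℝ) (κ : ℝ) : Prop :=
  ∀ f : ℝ → ℝ, ContDiff ℝ 1 f → HasCompactSupport f → ∀ M : ℝ, 0 ≤ M →
    (∀ t, |f t| ≤ M * g t) → ∫ t in I, deriv f t ≤ M * κ

lemma intBd_Iio (s : ℝ) : IntBd (Iio s) (g s) := by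
  intro f hf hc M hM hb
  rw [setIntegral_congr_set Iio_ae_eq_Iic, hc.integral_Iic_deriv_eq hf]
  exact (le_abs_self _).trans (hb s)

lemma intBd_Ici (s : ℝ) : IntBd (Ici s) (g s) := by
  intro f hf hc M hM hb
  rw [← setIntegral_congr_set Ioi_ae_eq_Ici, hc.integral_Ioi_deriv_eq hf]
  exact (neg_le_abs _).trans (hb s)

lemma integrable_deriv {f : ℝ → ℝ} (hf : ContDiff ℝ 1 f) (hc : HasCompactSupport f) :
    Integrable (deriv f) :=
  (hf.continuous_deriv le_rfl).integrable_of_hasCompactSupport hc.deriv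

lemma intBd_univ : IntBd univ 0 := by
  intro f hf hc M hM hb
  have h := intervalIntegral.integral_Iic_add_Ioi (b := (0 : ℝ))
    (integrable_deriv hf hc).integrableOn (integrable_deriv hf hc).integrableOn
  rw [hc.integral_Iic_deriv_eq hf, hc.integral_Ioi_deriv_eq hf] at h
  rw [Measure.restrict_univ, ← h]
  simp

lemma intBd_ordConnected {J : Set ℝ} (hJ : J.OrdConnected) : IntBd J 2 := by
  intro f hf hc M hM hb
  have hb1 : ∀ t, |f t| ≤ M := fun t =>
    (hb t).trans (mul_le_of_le_one_right hM (g_le_one t))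
  obtain ⟨L, hL⟩ : ∃ L : ℝ, tsupport f ⊆ Icc (-L) L := by
    obtain ⟨L, hL⟩ := (isBounded_iff_forall_norm_le.1 hc.isCompact.isBounded)
    refine ⟨L, fun t ht => ?_⟩
    have := hL t ht
    rw [Real.norm_eq_abs, abs_le] at this
    exact this
  have hd0 : ∀ t, t ∉ Icc (-L) L → deriv f t = 0 := by
    intro t ht
    have h1 : t ∉ tsupport f := fun h => ht (hL h)
    have h2 : t ∉ tsupport (deriv f) := fun h => h1 (tsupport_deriv_subset h)
    exact image_eq_zero_of_notMem_tsupport h2
  have e1 : ∫ t in J, deriv f t = ∫ t in J ∩ Icc (-L) L, deriv f t := by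
    rw [← setIntegral_indicator measurableSet_Icc]
    congr 1
    ext t
    by_cases ht : t ∈ Icc (-L) L
    · rw [indicator_of_mem ht]
    · rw [indicator_of_notMem ht, hd0 t ht]
  rw [e1]
  set J' := J ∩ Icc (-L) L with hJ'
  rcases J'.eq_empty_or_nonempty with hemp | hne
  · rw [hemp]; simp; positivity
  have hbb : BddBelow J' := bddBelow_Icc.mono inter_subset_right
  have hba : BddAbove J' := bddAbove_Icc.mono inter_subset_right
  have hJo : J'.OrdConnected := hJ.inter ordConnected_Icc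
  have hsub1 : Ioo (sInf J') (sSup J') ⊆ J' := by
    intro x hx
    obtain ⟨y, hy, hyx⟩ := exists_lt_of_csInf_lt hne hx.1
    obtain ⟨z, hz, hxz⟩ := exists_lt_of_lt_csSup hne hx.2
    exact hJo.out hy hz ⟨hyx.le, hxz.le⟩
  have hsub2 : J' ⊆ Icc (sInf J') (sSup J') := fun x hx => ⟨csInf_le hbb hx, le_csSup hba hx⟩
  have hab : sInf J' ≤ sSup J' := by
    obtain ⟨x, hx⟩ := hne
    exact (csInf_le hbb hx).trans (le_csSup hba hx)
  have hae : J' =ᵐ[volume] Ioc (sInf J') (sSup J') := by
    have h1 : J' ≤ᵐ[volume] Ioc (sInf J') (sSup J') :=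
      (LE.le.eventuallyLE hsub2).trans Ioc_ae_eq_Icc.symm.le
    have h2 : Ioc (sInf J') (sSup J') ≤ᵐ[volume] J' :=
      Ioo_ae_eq_Ioc.symm.le.trans (LE.le.eventuallyLE hsub1)
    exact h1.antisymm h2
  rw [setIntegral_congr_set hae, ← intervalIntegral.integral_of_le hab,
    intervalIntegral.integral_deriv_eq_sub
      (fun x _ => (hf.differentiable one_ne_zero) x)
      ((integrable_deriv hf hc).intervalIntegrable)]
  have h1 := (abs_le.1 (hb1 (sSup J'))).2
  have h2 := (abs_le.1 (hb1 (sInf J'))).1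
  linarith

lemma continuous_Th : Continuous Th := by
  have : (Th : ℝ × ℝ → Plane) = fun p => !₂[p.1, p.2] := funext Th_apply
  rw [this]
  fun_prop

lemma Th_line0 (a b : ℝ) : Th (a, b) = Th (0, b) + a • EuclideanSpace.single 0 (1 : ℝ) := by
  ext i; fin_cases i <;> simp [Th_apply]

lemma Th_line1 (a b : ℝ) : Th (a, b) = Th (a, 0) + b • EuclideanSpace.single 1 (1 : ℝ) := by
  ext i; fin_cases i <;> simp [Th_apply]

lemma line_deriv {Z : Plane → Plane} (hZ : ContDiff ℝ 1 Z) (p v : Plane) (i : Fin 2) (a : ℝ) :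
    HasDerivAt (fun s : ℝ => Z (p + s • v) i) ((fderiv ℝ Z (p + a • v) v) i) a := by
  have h1 : HasDerivAt (fun s : ℝ => p + s • v) v a := by
    simpa using ((hasDerivAt_id a).smul_const v).const_add p
  have h2 : HasDerivAt (fun s : ℝ => Z (p + s • v)) (fderiv ℝ Z (p + a • v) v) a :=
    ((hZ.differentiable one_ne_zero) (p + a • v)).hasFDerivAt.comp_hasDerivAt a h1
  exact ((EuclideanSpace.proj i : Plane →L[ℝ] ℝ).hasFDerivAt.comp_hasDerivAt a h2)

lemma line_compact {Z : Plane → Plane} (hc : HasCompactSupport Z) (p : Plane) {v : Plane}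
    (hv : v ≠ 0) (i : Fin 2) : HasCompactSupport (fun s : ℝ => Z (p + s • v) i) := by
  have h1 : HasCompactSupport (fun s : ℝ => Z (p + s • v)) := by
    have hemb : IsClosedEmbedding (fun s : ℝ => p + s • v) :=
      (Homeomorph.addLeft p).isClosedEmbedding.comp (isClosedEmbedding_smul_left hv)
    exact hc.comp_isClosedEmbedding hemb
  exact h1.comp_left (g := fun z : Plane => z i) (by simp)

lemma abs_apply_le (x : Plane) (i : Fin 2) : |x i| ≤ ‖x‖ := by
  have := PiLp.norm_apply_le x i
  simpa using this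

lemma perim_prod_le {I J : Set ℝ} {κ κ' : ℝ} (hI : IntBd I κ) (hJ : IntBd J κ')
    (hIm : MeasurableSet I) (hJm : MeasurableSet J) :
    perim {x : Plane | x 0 ∈ I ∧ x 1 ∈ J} ≤
      ENNReal.ofReal ((2 * Real.pi)⁻¹ * (κ * (∫ u in J, g u) + κ' * ∫ u in I, g u)) := by
  refine perim_le fun Z h1 h2 h3 => ENNReal.ofReal_le_ofReal ?_
  have hpre : Th ⁻¹' {x : Plane | x 0 ∈ I ∧ x 1 ∈ J} = I ×ˢ J := by
    ext p; simp [Th_zero, Th_one]
  rw [← mp_Th.setIntegral_preimage_emb Th.measurableEmbedding, hpre]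
  have hcont : ∀ i : Fin 2, Continuous (fun x => (fderiv ℝ Z x (EuclideanSpace.single i 1)) i) := by
    intro i
    have h4 : Continuous (fun x => fderiv ℝ Z x) := h1.continuous_fderiv (by norm_num)
    have h5 : Continuous fun x => fderiv ℝ Z x (EuclideanSpace.single i 1) :=
      h4.clm_apply continuous_const
    fun_prop
  have hcs : ∀ i : Fin 2,
      HasCompactSupport (fun x => (fderiv ℝ Z x (EuclideanSpace.single i 1)) i) := fun i =>
    (h2.fderiv ℝ).comp_left (g := fun L : Plane →L[ℝ] Plane => (L (EuclideanSpace.single i 1)) i)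
      (by simp)
  have hint : ∀ i : Fin 2, Integrable
      (fun p : ℝ × ℝ => (fderiv ℝ Z (Th p) (EuclideanSpace.single i 1)) i) := fun i =>
    (mp_Th.integrable_comp_emb Th.measurableEmbedding).2
      ((hcont i).integrable_of_hasCompactSupport (hcs i))
  have hsplit : ∫ p in I ×ˢ J, divg Z (Th p) =
      (∫ p in I ×ˢ J, (fderiv ℝ Z (Th p) (EuclideanSpace.single 0 1)) 0) +
      ∫ p in I ×ˢ J, (fderiv ℝ Z (Th p) (EuclideanSpace.single 1 1)) 1 := by
    rw [← integral_add (hint 0).integrableOn (hint 1).integrableOn]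
    simp only [divg, Fin.sum_univ_two]
  rw [hsplit]
  have hgJ : IntegrableOn g J := integrable_g.integrableOn
  have hgI : IntegrableOn g I := integrable_g.integrableOn
  -- first term
  have hT0 : ∫ p in I ×ˢ J, (fderiv ℝ Z (Th p) (EuclideanSpace.single 0 1)) 0 ≤
      (2 * Real.pi)⁻¹ * (κ * ∫ u in J, g u) := by
    have hi : IntegrableOn (fun p : ℝ × ℝ => (fderiv ℝ Z (Th p) (EuclideanSpace.single 0 1)) 0)
        (I ×ˢ J) (volume.prod volume) := (hint 0).integrableOn
    have hi2 : IntegrableOn (fun p : ℝ × ℝ => (fderiv ℝ Z (Th p.swap) (EuclideanSpace.single 0 1)) 0)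
        (J ×ˢ I) (volume.prod volume) := by
      have := (hint 0)
      rw [Measure.volume_eq_prod] at this
      exact this.swap.integrableOn
    have e1 : ∫ p in I ×ˢ J, (fderiv ℝ Z (Th p) (EuclideanSpace.single 0 1)) 0 =
        ∫ b in J, ∫ a in I, (fderiv ℝ Z (Th (a, b)) (EuclideanSpace.single 0 1)) 0 := by
      rw [Measure.volume_eq_prod, ← setIntegral_prod_swap, setIntegral_prod _ hi2]
      rfl
    rw [e1]
    have hbd : ∀ b, ∫ a in I, (fderiv ℝ Z (Th (a, b)) (EuclideanSpace.single 0 1)) 0 ≤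
        (2 * Real.pi)⁻¹ * κ * g b := by
      intro b
      let f : ℝ → ℝ := fun s => Z (Th (0, b) + s • EuclideanSpace.single 0 (1 : ℝ)) 0
      have hfd : ∀ a, HasDerivAt f ((fderiv ℝ Z (Th (a, b)) (EuclideanSpace.single 0 1)) 0) a := by
        intro a
        rw [Th_line0 a b]
        exact line_deriv h1 _ _ 0 a
      have hfc : ContDiff ℝ 1 f := by
        have : ContDiff ℝ 1 (fun s : ℝ => Z (Th (0, b) + s • EuclideanSpace.single 0 (1 : ℝ))) :=
          h1.comp (contDiff_const.add (contDiff_id.smul contDiff_const))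
        exact (EuclideanSpace.proj 0 : Plane →L[ℝ] ℝ).contDiff.comp this
      have hfs : HasCompactSupport f := line_compact h2 _ (by simp) 0
      have e2 : ∫ a in I, (fderiv ℝ Z (Th (a, b)) (EuclideanSpace.single 0 1)) 0 =
          ∫ a in I, deriv f a := by
        congr 1; ext a; rw [(hfd a).deriv]
      rw [e2]
      have := hI f hfc hfs ((2 * Real.pi)⁻¹ * g b) (mul_nonneg (by positivity) (g_pos b).le) ?_
      · calc _ ≤ _ := this
          _ = _ := by ring
      · intro a
        have h4 : f a = Z (Th (a, b)) 0 := by rw [Th_line0 a b]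
        rw [h4]
        refine (abs_apply_le _ _).trans ((h3 _).trans ?_)
        rw [dens_eq, Th_zero, Th_one]
        exact le_of_eq (by ring)
    calc ∫ b in J, ∫ a in I, (fderiv ℝ Z (Th (a, b)) (EuclideanSpace.single 0 1)) 0
        ≤ ∫ b in J, (2 * Real.pi)⁻¹ * κ * g b := by
          refine setIntegral_mono_on ?_ (hgJ.const_mul _) hJm fun b _ => hbd b
          have h5 : Integrable (fun p : ℝ × ℝ => (fderiv ℝ Z (Th p.swap)
            (EuclideanSpace.single 0 1)) 0) ((volume.restrict J).prod (volume.restrict I)) := by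
            rw [Measure.prod_restrict]; exact hi2
          exact h5.integral_prod_left
      _ = (2 * Real.pi)⁻¹ * (κ * ∫ u in J, g u) := by
          rw [integral_const_mul]; ring
  have hT1 : ∫ p in I ×ˢ J, (fderiv ℝ Z (Th p) (EuclideanSpace.single 1 1)) 1 ≤
      (2 * Real.pi)⁻¹ * (κ' * ∫ u in I, g u) := by
    have hi : IntegrableOn (fun p : ℝ × ℝ => (fderiv ℝ Z (Th p) (EuclideanSpace.single 1 1)) 1)
        (I ×ˢ J) (volume.prod volume) := (hint 1).integrableOn
    have e1 : ∫ p in I ×ˢ J, (fderiv ℝ Z (Th p) (EuclideanSpace.single 1 1)) 1 =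
        ∫ a in I, ∫ b in J, (fderiv ℝ Z (Th (a, b)) (EuclideanSpace.single 1 1)) 1 := by
      rw [Measure.volume_eq_prod, setIntegral_prod _ hi]
    rw [e1]
    have hbd : ∀ a, ∫ b in J, (fderiv ℝ Z (Th (a, b)) (EuclideanSpace.single 1 1)) 1 ≤
        (2 * Real.pi)⁻¹ * κ' * g a := by
      intro a
      let f : ℝ → ℝ := fun s => Z (Th (a, 0) + s • EuclideanSpace.single 1 (1 : ℝ)) 1
      have hfd : ∀ b, HasDerivAt f ((fderiv ℝ Z (Th (a, b)) (EuclideanSpace.single 1 1)) 1) b := by
        intro b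
        rw [Th_line1 a b]
        exact line_deriv h1 _ _ 1 b
      have hfc : ContDiff ℝ 1 f := by
        have : ContDiff ℝ 1 (fun s : ℝ => Z (Th (a, 0) + s • EuclideanSpace.single 1 (1 : ℝ))) :=
          h1.comp (contDiff_const.add (contDiff_id.smul contDiff_const))
        exact (EuclideanSpace.proj 1 : Plane →L[ℝ] ℝ).contDiff.comp this
      have hfs : HasCompactSupport f := line_compact h2 _ (by simp) 1
      have e2 : ∫ b in J, (fderiv ℝ Z (Th (a, b)) (EuclideanSpace.single 1 1)) 1 =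
          ∫ b in J, deriv f b := by
        congr 1; ext b; rw [(hfd b).deriv]
      rw [e2]
      have := hJ f hfc hfs ((2 * Real.pi)⁻¹ * g a) (mul_nonneg (by positivity) (g_pos a).le) ?_
      · calc _ ≤ _ := this
          _ = _ := by ring
      · intro b
        have h4 : f b = Z (Th (a, b)) 1 := by rw [Th_line1 a b]
        rw [h4]
        refine (abs_apply_le _ _).trans ((h3 _).trans ?_)
        rw [dens_eq, Th_zero, Th_one]
        exact le_of_eq (by ring)
    calc ∫ a in I, ∫ b in J, (fderiv ℝ Z (Th (a, b)) (EuclideanSpace.single 1 1)) 1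
        ≤ ∫ a in I, (2 * Real.pi)⁻¹ * κ' * g a := by
          refine setIntegral_mono_on ?_ (hgI.const_mul _) hIm fun a _ => hbd a
          have h5 : Integrable (fun p : ℝ × ℝ => (fderiv ℝ Z (Th p)
            (EuclideanSpace.single 1 1)) 1) ((volume.restrict I).prod (volume.restrict J)) := by
            rw [Measure.prod_restrict]; exact hi
          exact h5.integral_prod_left
      _ = (2 * Real.pi)⁻¹ * (κ' * ∫ u in I, g u) := by
          rw [integral_const_mul]; ring
  calc _ ≤ _ := add_le_add hT0 hT1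
    _ = _ := by ring

end Pool.Agent.H911R2.Gauss
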