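import Pool.Agent.H911R2.GaussTrans

/-! Weak compactness of sequences of sets in the Gauss plane. -/

set_option autoImplicit false

namespace Pool.Agent.H911R2.Gauss

open MeasureTheory Set Filter Topology Metric
open scoped ENNReal RealInnerProductSpace

lemma weak_extract (f : ℕ → Lp ℝ 2 gam) (C : ℝ) (hf : ∀ k, ‖f k‖ ≤ C) :
    ∃ F : Lp ℝ 2 gam, ∃ φ : ℕ → ℕ, StrictMono φ ∧
      ∀ h : Lp ℝ 2 gam, Tendsto (fun k => ⟪f (φ k), h⟫) atTop (𝓝 ⟪F, h⟫) := by
  have h1 : ∀ k, StrongDual.toWeakDual (InnerProductSpace.toDual ℝ (Lp ℝ 2 gam) (f k)) ∈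
      WeakDual.toStrongDual ⁻¹' closedBall (0 : StrongDual ℝ (Lp ℝ 2 gam)) C := by
    intro k
    simp only [mem_preimage, mem_closedBall, dist_zero_right]
    change ‖InnerProductSpace.toDual ℝ (Lp ℝ 2 gam) (f k)‖ ≤ C
    rw [LinearIsometryEquiv.norm_map]
    exact hf k
  have : Fact ((2 : ℝ≥0∞) ≠ ∞) := ⟨by norm_num⟩
  have : SecondCountableTopology (Lp ℝ 2 gam) := inferInstance
  obtain ⟨ℓ, -, φ, hφ, hlim⟩ := WeakDual.isSeqCompact_closedBall ℝ (Lp ℝ 2 gam) 0 C h1
  refine ⟨(InnerProductSpace.toDual ℝ (Lp ℝ 2 gam)).symm (WeakDual.toStrongDual ℓ), φ, hφ,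
    fun h => ?_⟩
  have h2 := ((WeakDual.eval_continuous h).tendsto ℓ).comp hlim
  rw [InnerProductSpace.toDual_symm_apply]
  exact h2

/-- Bounded measurable functions. -/
def BM (h : Plane → ℝ) : Prop := Measurable h ∧ ∃ C : ℝ, ∀ x, |h x| ≤ C

lemma BM.memLp {h : Plane → ℝ} (hh : BM h) : MemLp h 2 gam := by
  obtain ⟨hm, C, hC⟩ := hh
  exact MemLp.of_bound hm.aestronglyMeasurable C (Eventually.of_forall fun x => by
    rw [Real.norm_eq_abs]; exact hC x)

lemma BM.integrable {h : Plane → ℝ} (hh : BM h) : Integrable h gam :=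
  hh.memLp.integrable one_le_two

lemma weak_sets (A : ℕ → Set Plane) (hA : ∀ k, MeasurableSet (A k)) :
    ∃ f : Plane → ℝ, Measurable f ∧ (∀ x, 0 ≤ f x ∧ f x ≤ 1) ∧ ∃ φ : ℕ → ℕ, StrictMono φ ∧
      ∀ h : Plane → ℝ, BM h →
        Tendsto (fun k => ∫ x in A (φ k), h x ∂gam) atTop (𝓝 (∫ x, h x * f x ∂gam)) := by
  obtain ⟨F, φ, hφ, hlim⟩ := weak_extract
    (fun k => indicatorConstLp 2 (hA k) (measure_ne_top gam _) (1 : ℝ)) 1 (fun k => by
      refine norm_indicatorConstLp_le.trans ?_
      rw [norm_one, one_mul]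
      exact Real.rpow_le_one measureReal_nonneg measureReal_le_one (by norm_num))
  have hlim2 : ∀ h : Plane → ℝ, BM h →
      Tendsto (fun k => ∫ x in A (φ k), h x ∂gam) atTop (𝓝 (∫ x, h x * F x ∂gam)) := by
    intro h hh
    have h1 := hlim (hh.memLp.toLp h)
    have e1 : ∀ k, ⟪indicatorConstLp 2 (hA (φ k)) (measure_ne_top gam _) (1 : ℝ),
        hh.memLp.toLp h⟫ = ∫ x in A (φ k), h x ∂gam := by
      intro k
      rw [L2.inner_indicatorConstLp_one]
      exact setIntegral_congr_ae (hA _) (hh.memLp.coeFn_toLp.mono fun x hx _ => hx)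
    have e2 : ⟪F, hh.memLp.toLp h⟫ = ∫ x, h x * F x ∂gam := by
      rw [L2.inner_def]
      refine integral_congr_ae (hh.memLp.coeFn_toLp.mono fun x hx => ?_)
      simp only [hx]
      rfl
    simp only [e1, e2] at h1
    exact h1
  have hFint : Integrable F gam := (Lp.memLp F).integrable one_le_two
  have hBMind : ∀ S : Set Plane, MeasurableSet S → BM (S.indicator fun _ => (1 : ℝ)) :=
    fun S hS => ⟨measurable_const.indicator hS, 1, fun x => by
      by_cases hx : x ∈ S
      · rw [indicator_of_mem hx]; simp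
      · rw [indicator_of_notMem hx]; simp⟩
  have hS : ∀ S : Set Plane, MeasurableSet S →
      Tendsto (fun k => gam.real (A (φ k) ∩ S)) atTop (𝓝 (∫ x in S, F x ∂gam)) := by
    intro S hSm
    have h1 := hlim2 _ (hBMind S hSm)
    have e1 : ∀ k, ∫ x in A (φ k), S.indicator (fun _ => (1 : ℝ)) x ∂gam =
        gam.real (A (φ k) ∩ S) := by
      intro k
      rw [setIntegral_indicator hSm]; simp
    have e2 : ∫ x, S.indicator (fun _ => (1 : ℝ)) x * F x ∂gam = ∫ x in S, F x ∂gam := by
      rw [← integral_indicator hSm]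
      congr 1; ext x
      by_cases hx : x ∈ S
      · rw [indicator_of_mem hx, indicator_of_mem hx, one_mul]
      · rw [indicator_of_notMem hx, indicator_of_notMem hx, zero_mul]
    simp only [e1, e2] at h1
    exact h1
  have hF0 : 0 ≤ᵐ[gam] F := ae_nonneg_of_forall_setIntegral_nonneg hFint fun S hSm _ =>
    ge_of_tendsto' (hS S hSm) fun k => measureReal_nonneg
  have hF1 : 0 ≤ᵐ[gam] fun x => 1 - F x := by
    refine ae_nonneg_of_forall_setIntegral_nonneg ((integrable_const 1).sub hFint) fun S hSm _ => ?_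
    rw [integral_sub (integrable_const 1).integrableOn hFint.integrableOn]
    have h1 : ∫ x in S, F x ∂gam ≤ gam.real S :=
      le_of_tendsto' (hS S hSm) fun k => measureReal_mono inter_subset_right
    simp only [integral_const, smul_eq_mul, mul_one, measureReal_restrict_apply MeasurableSet.univ,
      univ_inter]
    linarith
  let f : Plane → ℝ := fun x => max 0 (min 1 (F x))
  have hFm : Measurable F := (Lp.stronglyMeasurable F).measurable
  have hfF : f =ᵐ[gam] F := by
    filter_upwards [hF0, hF1] with x h0 h1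
    simp only [Pi.zero_apply] at h0 h1
    simp only [f]
    rw [min_eq_right (by linarith), max_eq_right h0]
  refine ⟨f, measurable_const.max (measurable_const.min hFm), fun x => ⟨le_max_left _ _, ?_⟩, φ, hφ,
    fun h hh => ?_⟩
  · exact max_le zero_le_one (min_le_left _ _)
  · have e : ∫ x, h x * f x ∂gam = ∫ x, h x * F x ∂gam :=
      integral_congr_ae (hfF.mono fun x hx => by simp only [hx])
    rw [e]
    exact hlim2 h hh

lemma setIntegral_gam (S : Set Plane) (hS : MeasurableSet S) (h : Plane → ℝ) :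
    ∫ x in S, h x ∂gam = ∫ x in S, dens x * h x := by
  unfold gam
  rw [restrict_withDensity hS, integral_withDensity_eq_integral_toReal_smul
    (continuous_dens.measurable.ennreal_ofReal) (Eventually.of_forall fun x => ENNReal.ofReal_lt_top)]
  congr 1
  ext x
  rw [ENNReal.toReal_ofReal (dens_pos x).le, smul_eq_mul]

/-- Weak convergence with respect to Lebesgue measure on bounded sets. -/
lemma weak_volume {A : ℕ → Set Plane} (hA : ∀ k, MeasurableSet (A k)) {f : Plane → ℝ}
    (hlim : ∀ h : Plane → ℝ, BM h →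
        Tendsto (fun k => ∫ x in A k, h x ∂gam) atTop (𝓝 (∫ x, h x * f x ∂gam)))
    {H : Plane → ℝ} (hH : BM H) {R : ℝ} (hR : ∀ x, R < ‖x‖ → H x = 0) :
    Tendsto (fun k => ∫ x in A k, H x) atTop (𝓝 (∫ x, H x * f x)) := by
  have hBM : BM (fun x => H x / dens x) := by
    obtain ⟨hm, C, hC⟩ := hH
    have hC0 : 0 ≤ C := (abs_nonneg _).trans (hC 0)
    refine ⟨hm.div continuous_dens.measurable, C / cmin R, fun x => ?_⟩
    have hc := cmin_pos R
    by_cases hx : R < ‖x‖
    · simp only
      rw [hR x hx, zero_div, abs_zero]; positivity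
    · push Not at hx
      simp only
      rw [abs_div, abs_of_pos (dens_pos x)]
      exact div_le_div₀ hC0 (hC x) hc (cmin_le (by linarith))
  have h1 := hlim _ hBM
  have e1 : ∀ k, ∫ x in A k, H x / dens x ∂gam = ∫ x in A k, H x := by
    intro k
    rw [setIntegral_gam _ (hA k)]
    congr 1; ext x
    have := (dens_pos x).ne'
    field_simp
  have e2 : ∫ x, H x / dens x * f x ∂gam = ∫ x, H x * f x := by
    have := setIntegral_gam univ MeasurableSet.univ (fun x => H x / dens x * f x)
    rw [Measure.restrict_univ, Measure.restrict_univ] at this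
    rw [this]
    congr 1; ext x
    have := (dens_pos x).ne'
    field_simp
  simp only [e1, e2] at h1
  exact h1

end Pool.Agent.H911R2.Gauss
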