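import Mathlib

/-!
Steenrod squares on `F_2[x_1,…,x_d]`, the primitives `PH_n` of the dual, the coinvariants
`F_2 ⊗_{GL_d} PH_n`, and Kameko's squaring operation on them.
-/

set_option autoImplicit false

namespace Pool.Agent.H911R2.Kameko

open MvPolynomial

/-- The polynomial algebra `P_d = F_2[x_1,…,x_d]`. -/
abbrev P (d : ℕ) : Type := MvPolynomial (Fin d) (ZMod 2)

/-- The total Steenrod square `f ↦ ∑_k Sq^k(f) T^k`: the ring homomorphism `P_d → P_d[T]` with
`x_i ↦ x_i + x_i^2 T`. -/
noncomputable def totalSq (d : ℕ) : P d →ₐ[ZMod 2] Polynomial (P d) :=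
  aeval (fun i => Polynomial.C (X i) + Polynomial.C (X i ^ 2) * Polynomial.X)

/-- The Steenrod square `Sq^k` on `P_d`: the coefficient of `T^k` of the total square. So
`Sq^0 = id`, `Sq^1 x_i = x_i^2`, `Sq^k x_i = 0` for `k > 1`, and the Cartan formula holds. -/
noncomputable def Sq (d k : ℕ) (f : P d) : P d := (totalSq d f).coeff k

/-- The left action of a matrix `w` on `P_d`: `(w f)(x_1,…,x_d) = f(w(x_1),…,w(x_d))` where
`w(x_j) = ∑_i w_{ij} x_i`. -/
noncomputable def act (d : ℕ) (w : Matrix (Fin d) (Fin d) (ZMod 2)) : P d →ₐ[ZMod 2] P d :=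
  aeval (fun j => ∑ i, C (w i j) * X i)

/-- The primitives `PH_n`: the linear functionals on `P_d` of degree `n` (zero on all homogeneous
polynomials of degree `≠ n`) annihilated by the duals of all `Sq^k`, `k > 0`. -/
noncomputable def PH (d n : ℕ) : Submodule (ZMod 2) (Module.Dual (ZMod 2) (P d)) where
  carrier := {φ | (∀ (m : ℕ) (f : P d), f.IsHomogeneous m → m ≠ n → φ f = 0) ∧
    ∀ (k : ℕ) (f : P d), 0 < k → φ (Sq d k f) = 0}
  zero_mem' := ⟨fun _ _ _ _ => rfl, fun _ _ _ => rfl⟩
  add_mem' := by
    rintro φ ψ ⟨h1, h2⟩ ⟨h3, h4⟩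
    refine ⟨fun m f hf hm => ?_, fun k f hk => ?_⟩
    · rw [LinearMap.add_apply, h1 m f hf hm, h3 m f hf hm, add_zero]
    · rw [LinearMap.add_apply, h2 k f hk, h4 k f hk, add_zero]
  smul_mem' := by
    rintro c φ ⟨h1, h2⟩
    refine ⟨fun m f hf hm => ?_, fun k f hk => ?_⟩
    · rw [LinearMap.smul_apply, h1 m f hf hm, smul_zero]
    · rw [LinearMap.smul_apply, h2 k f hk, smul_zero]

/-- Kameko's linear map on polynomials:
`x_1^{t_1} ⋯ x_d^{t_d} ↦ x_1^{(t_1-1)/2} ⋯ x_d^{(t_d-1)/2}` if all `t_i` are odd, and `↦ 0`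
otherwise (for odd `t`, the natural number `t / 2` is `(t-1)/2`). -/
noncomputable def kdown (d : ℕ) : P d →ₗ[ZMod 2] P d :=
  (basisMonomials (Fin d) (ZMod 2)).constr (ZMod 2) (fun u =>
    if ∀ i, Odd (u i) then monomial (u.mapRange (fun a => a / 2) rfl) 1 else 0)

variable {d : ℕ}

lemma kdown_monomial (u : Fin d →₀ ℕ) :
    kdown d (monomial u 1) =
      if ∀ i, Odd (u i) then monomial (u.mapRange (fun a => a / 2) rfl) 1 else 0 := by
  have h := (basisMonomials (Fin d) (ZMod 2)).constr_basis (ZMod 2) (fun u =>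
    if ∀ i, Odd (u i) then monomial (u.mapRange (fun a => a / 2) rfl) (1 : ZMod 2) else 0) u
  rw [coe_basisMonomials] at h
  exact h

/-- induction on monomials with coefficient `1` for additive properties -/
lemma mono_induction {p : P d → Prop} (h0 : p 0) (hadd : ∀ f g, p f → p g → p (f + g))
    (hmono : ∀ u, p (monomial u 1)) (f : P d) : p f := by
  induction f using MvPolynomial.induction_on' with
  | monomial u a =>
    have ha : a = 0 ∨ a = 1 := by
      fin_cases a
      · left; rfl
      · right; rfl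
    rcases ha with rfl | rfl
    · simpa using h0
    · exact hmono u
  | add f g hf hg => exact hadd f g hf hg

/-! ### `kdown` is semilinear over the squares -/

lemma sq_add (f g : P d) : (f + g) ^ 2 = f ^ 2 + g ^ 2 := CharTwo.add_sq f g

lemma kdown_sq_mul (g f : P d) : kdown d (g ^ 2 * f) = g * kdown d f := by
  induction g using mono_induction with
  | h0 => simp
  | hadd g h hg hh => rw [sq_add, add_mul, map_add, hg, hh, add_mul]
  | hmono v =>
    induction f using mono_induction with
    | h0 => simp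
    | hadd f h hf hh => rw [mul_add, map_add, hf, hh, map_add, mul_add]
    | hmono u =>
      rw [monomial_pow, one_pow, monomial_mul, one_mul, kdown_monomial, kdown_monomial]
      by_cases h : ∀ i, Odd (u i)
      · have h2 : ∀ i, Odd ((2 • v + u) i) := by
          intro i
          have := h i
          simp only [Finsupp.add_apply, Finsupp.smul_apply, smul_eq_mul]
          exact (even_two_mul _).add_odd this
        rw [if_pos h, if_pos h2, monomial_mul, one_mul]
        have h3 : Finsupp.mapRange (fun a => a / 2) rfl (2 • v + u) =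
            v + Finsupp.mapRange (fun a => a / 2) rfl u := by
          apply Finsupp.ext
          intro i
          simp only [Finsupp.mapRange_apply, Finsupp.add_apply, Finsupp.smul_apply, smul_eq_mul]
          omega
        rw [h3]
      · have h2 : ¬ ∀ i, Odd ((2 • v + u) i) := by
          intro h2
          apply h
          intro i
          have := h2 i
          simp only [Finsupp.add_apply, Finsupp.smul_apply, smul_eq_mul] at this
          exact (Nat.odd_add'.mp this).mpr (even_two_mul _)
        rw [if_neg h, if_neg h2, mul_zero]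

/-! ### Monomials as squares times squarefree monomials -/

lemma sq_induction {p : P d → Prop} (h0 : p 0) (hadd : ∀ f g, p f → p g → p (f + g))
    (hmain : ∀ (E : Finset (Fin d)) (g : P d), p (g ^ 2 * ∏ i ∈ E, X i)) (f : P d) : p f := by
  classical
  refine mono_induction h0 hadd (fun u => ?_) f
  have h1 : (monomial u (1 : ZMod 2)) =
      (monomial (u.mapRange (fun a => a / 2) rfl) (1 : ZMod 2)) ^ 2 *
        ∏ i ∈ Finset.univ.filter (fun i => Odd (u i)), X i := by
    have h2 : (∏ i ∈ Finset.univ.filter (fun i => Odd (u i)), (X i : P d)) =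
        monomial (∑ i ∈ Finset.univ.filter (fun i => Odd (u i)), Finsupp.single i 1) 1 := by
      rw [monomial_sum_one]
      rfl
    rw [h2, monomial_pow, one_pow, monomial_mul, one_mul]
    suffices hs : u = 2 • u.mapRange (fun a => a / 2) rfl +
        ∑ i ∈ Finset.univ.filter (fun i => Odd (u i)), Finsupp.single i 1 by
      rw [← hs]
    apply Finsupp.ext
    intro i
    rw [Finsupp.add_apply, Finsupp.smul_apply, Finsupp.finsetSum_apply, Finsupp.mapRange_apply]
    have h3 : (∑ j ∈ Finset.univ.filter (fun j => Odd (u j)), (Finsupp.single j 1 : Fin d →₀ ℕ) i) =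
        if Odd (u i) then 1 else 0 := by
      simp only [Finsupp.single_apply]
      rw [Finset.sum_ite_eq']
      simp
    rw [h3]
    split_ifs with h
    · obtain ⟨m, hm⟩ := h
      simp only [smul_eq_mul]
      omega
    · rw [Nat.not_odd_iff_even] at h
      obtain ⟨m, hm⟩ := h
      simp only [smul_eq_mul]
      omega
  rw [h1]
  exact hmain _ _

lemma prod_X_eq {ι : Type*} (E : Finset ι) (σ : ι → Fin d) :
    (∏ j ∈ E, (X (σ j) : P d)) = monomial (∑ j ∈ E, Finsupp.single (σ j) 1) 1 := by
  rw [monomial_sum_one]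
  rfl

/-- all exponents of a monomial of degree `< d` can not be odd -/
lemma kdown_prod_of_card_lt {ι : Type*} (E : Finset ι) (σ : ι → Fin d) (hE : E.card < d) :
    kdown d (∏ j ∈ E, X (σ j)) = 0 := by
  classical
  rw [prod_X_eq, kdown_monomial, if_neg]
  intro h
  have h1 : ∀ i : Fin d, 1 ≤ (∑ j ∈ E, (Finsupp.single (σ j) 1 : Fin d →₀ ℕ)) i := by
    intro i
    exact (h i).pos
  have h2 : ∑ i : Fin d, (∑ j ∈ E, (Finsupp.single (σ j) 1 : Fin d →₀ ℕ)) i = E.card := by
    simp only [Finsupp.finsetSum_apply]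
    rw [Finset.sum_comm]
    simp [Finsupp.single_apply]
  have h3 : ∑ _i : Fin d, 1 ≤ ∑ i : Fin d, (∑ j ∈ E, (Finsupp.single (σ j) 1 : Fin d →₀ ℕ)) i :=
    Finset.sum_le_sum fun i _ => h1 i
  rw [h2] at h3
  simp at h3
  omega

lemma kdown_prod_univ (σ : Fin d → Fin d) [Decidable (Function.Bijective σ)] :
    kdown d (∏ j, X (σ j)) = if Function.Bijective σ then 1 else 0 := by
  classical
  rw [prod_X_eq, kdown_monomial]
  have h2 : ∑ i : Fin d, (∑ j, (Finsupp.single (σ j) 1 : Fin d →₀ ℕ)) i = d := by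
    simp only [Finsupp.finsetSum_apply]
    rw [Finset.sum_comm]
    simp [Finsupp.single_apply]
  split_ifs with h h3 h3
  · -- all exponents are one
    have h4 : ∀ i, (∑ j, (Finsupp.single (σ j) 1 : Fin d →₀ ℕ)) i = 1 := by
      intro i
      rw [Finsupp.finsetSum_apply]
      have : ∀ j, (Finsupp.single (σ j) 1 : Fin d →₀ ℕ) i = if j = (Equiv.ofBijective σ h3).symm i
          then 1 else 0 := by
        intro j
        rw [Finsupp.single_apply]
        congr 1
        apply propext
        constructor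
        · intro hj
          rw [← hj]
          exact ((Equiv.ofBijective σ h3).symm_apply_apply j).symm
        · intro hj
          rw [hj]
          exact (Equiv.ofBijective σ h3).apply_symm_apply i
      simp only [this]
      simp
    have h5 : Finsupp.mapRange (fun a => a / 2) rfl
        (∑ j, (Finsupp.single (σ j) 1 : Fin d →₀ ℕ)) = 0 := by
      apply Finsupp.ext
      intro i
      rw [Finsupp.mapRange_apply, h4 i]
      rfl
    rw [h5]
    rfl
  · exfalso
    apply h3
    have hs : Function.Surjective σ := by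
      intro i
      by_contra hc
      push Not at hc
      have h6 : (∑ j, (Finsupp.single (σ j) 1 : Fin d →₀ ℕ)) i = 0 := by
        rw [Finsupp.finsetSum_apply]
        apply Finset.sum_eq_zero
        intro j _
        rw [Finsupp.single_apply, if_neg (hc j)]
      have := h i
      rw [h6] at this
      exact absurd this (by decide)
    exact Finite.surjective_iff_bijective.mp hs
  · exfalso
    apply h
    intro i
    have h4 : (∑ j, (Finsupp.single (σ j) 1 : Fin d →₀ ℕ)) i = 1 := by
      rw [Finsupp.finsetSum_apply]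
      have : ∀ j, (Finsupp.single (σ j) 1 : Fin d →₀ ℕ) i = if j = (Equiv.ofBijective σ h3).symm i
          then 1 else 0 := by
        intro j
        rw [Finsupp.single_apply]
        congr 1
        apply propext
        constructor
        · intro hj
          rw [← hj]
          exact ((Equiv.ofBijective σ h3).symm_apply_apply j).symm
        · intro hj
          rw [hj]
          exact (Equiv.ofBijective σ h3).apply_symm_apply i
      simp only [this]
      simp
    rw [h4]
    exact odd_one
  · rfl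

/-! ### Equivariance of `kdown` -/

lemma perm_eq_det (w : Matrix (Fin d) (Fin d) (ZMod 2)) :
    ∑ σ : Equiv.Perm (Fin d), ∏ j, w (σ j) j = w.det := by
  rw [Matrix.det_apply]
  apply Finset.sum_congr rfl
  intro σ _
  rcases Int.units_eq_one_or (Equiv.Perm.sign σ) with h | h
  · rw [h, one_smul]
  · rw [h]
    simp only [Units.neg_smul, one_smul]
    rw [CharTwo.neg_eq]

lemma kdown_prod_linear (w : Matrix (Fin d) (Fin d) (ZMod 2)) :
    kdown d (∏ j, ∑ i, C (w i j) * X i) = C w.det := by
  classical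
  rw [Finset.prod_univ_sum, map_sum]
  have h1 : ∀ σ : Fin d → Fin d, kdown d (∏ j, (C (w (σ j) j) * X (σ j))) =
      if Function.Bijective σ then C (∏ j, w (σ j) j) else 0 := by
    intro σ
    rw [Finset.prod_mul_distrib]
    have h2 : (∏ j, (C (w (σ j) j) : P d)) = C (∏ j, w (σ j) j) := by rw [map_prod]
    rw [h2, ← smul_eq_C_mul, map_smul, kdown_prod_univ]
    split_ifs
    · rw [smul_eq_C_mul, mul_one]
    · rw [smul_zero]
  rw [Fintype.piFinset_univ]
  rw [Finset.sum_congr rfl (fun σ _ => h1 σ), ← perm_eq_det, map_sum, ← Finset.sum_filter]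
  symm
  refine Finset.sum_bij (fun (σ : Equiv.Perm (Fin d)) _ => (σ : Fin d → Fin d)) ?_ ?_ ?_ ?_
  · intro σ _
    exact Finset.mem_filter.mpr ⟨Finset.mem_univ _, σ.bijective⟩
  · intro σ _ τ _ h
    exact DFunLike.coe_injective h
  · intro σ hσ
    simp only [Finset.mem_filter, Finset.mem_univ, true_and] at hσ
    exact ⟨Equiv.ofBijective σ hσ, Finset.mem_univ _, rfl⟩
  · intro σ _
    rfl

lemma card_lt_of_ne_univ {E : Finset (Fin d)} (hE : E ≠ Finset.univ) : E.card < d := by
  have h1 : E.card < (Finset.univ : Finset (Fin d)).card :=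
    Finset.card_lt_card (Finset.ssubset_univ_iff.mpr hE)
  simpa using h1

lemma kdown_prod_linear_lt (w : Matrix (Fin d) (Fin d) (ZMod 2)) (E : Finset (Fin d))
    (hE : E ≠ Finset.univ) : kdown d (∏ j ∈ E, ∑ i, C (w i j) * X i) = 0 := by
  classical
  have hcard : E.card < d := card_lt_of_ne_univ hE
  rw [Finset.prod_sum, map_sum]
  apply Finset.sum_eq_zero
  intro σ _
  rw [Finset.prod_mul_distrib]
  have h2 : (∏ x ∈ E.attach, (C (w (σ x.1 x.2) x.1) : P d)) =
      C (∏ x ∈ E.attach, w (σ x.1 x.2) x.1) := by rw [map_prod]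
  rw [h2, ← smul_eq_C_mul, map_smul,
    kdown_prod_of_card_lt E.attach (fun x => σ x.1 x.2) (by rw [Finset.card_attach]; exact hcard),
    smul_zero]

lemma kdown_act (w : Matrix (Fin d) (Fin d) (ZMod 2)) (hw : w.det = 1) (f : P d) :
    kdown d (act d w f) = act d w (kdown d f) := by
  classical
  induction f using sq_induction with
  | h0 => simp
  | hadd f g hf hg => rw [map_add, map_add, hf, hg, map_add, map_add]
  | hmain E g =>
    rw [map_mul, map_pow, map_prod, kdown_sq_mul, kdown_sq_mul, map_mul]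
    have h1 : ∀ j, act d w (X j) = ∑ i, C (w i j) * X i := fun j => by
      rw [act, aeval_X]
    simp only [h1]
    congr 1
    by_cases hE : E = Finset.univ
    · subst hE
      rw [kdown_prod_linear, hw]
      have h2 := kdown_prod_univ (d := d) id
      rw [if_pos Function.bijective_id] at h2
      have h3 : (∏ j : Fin d, (X j : P d)) = ∏ j, X (id j) := rfl
      rw [h3, h2, map_one, map_one]
    · rw [kdown_prod_linear_lt w E hE]
      have h2 : E.card < d := card_lt_of_ne_univ hE
      have h3 := kdown_prod_of_card_lt (d := d) E id h2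
      have h4 : (∏ j ∈ E, (X j : P d)) = ∏ j ∈ E, X (id j) := rfl
      rw [h4, h3, map_zero]

/-! ### Steenrod squares commute with linear substitutions -/

lemma totalSq_X (i : Fin d) :
    totalSq d (X i) = Polynomial.C (X i) + Polynomial.C (X i ^ 2) * Polynomial.X := by
  rw [totalSq, aeval_X]

lemma act_X (w : Matrix (Fin d) (Fin d) (ZMod 2)) (j : Fin d) :
    act d w (X j) = ∑ i, C (w i j) * X i := by
  rw [act, aeval_X]

lemma linear_sq (c : Fin d → ZMod 2) :
    (∑ i, C (c i) * X i : P d) ^ 2 = ∑ i, C (c i) * X i ^ 2 := by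
  rw [CharTwo.sum_sq]
  apply Finset.sum_congr rfl
  intro i _
  rw [mul_pow, ← map_pow]
  congr 2
  have : c i = 0 ∨ c i = 1 := by
    generalize c i = a
    fin_cases a
    · left; rfl
    · right; rfl
  rcases this with h | h <;> rw [h] <;> rfl

lemma totalSq_act (w : Matrix (Fin d) (Fin d) (ZMod 2)) (f : P d) :
    totalSq d (act d w f) = Polynomial.map (act d w : P d →+* P d) (totalSq d f) := by
  have h : (totalSq d).comp (act d w) = (Polynomial.mapAlgHom (act d w)).comp (totalSq d) := by
    apply MvPolynomial.algHom_ext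
    intro j
    rw [AlgHom.comp_apply, AlgHom.comp_apply, act_X, totalSq_X, map_sum]
    have h1 : Polynomial.mapAlgHom (act d w)
        (Polynomial.C (X j) + Polynomial.C (X j ^ 2) * Polynomial.X) =
        Polynomial.C (∑ i, C (w i j) * X i) +
          Polynomial.C ((∑ i, C (w i j) * X i) ^ 2) * Polynomial.X := by
      rw [Polynomial.coe_mapAlgHom, Polynomial.map_add, Polynomial.map_mul, Polynomial.map_C,
        Polynomial.map_C, Polynomial.map_X]
      simp only [RingHom.coe_coe, map_pow, act_X]
    rw [h1, linear_sq, map_sum, map_sum, Finset.sum_mul, ← Finset.sum_add_distrib]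
    apply Finset.sum_congr rfl
    intro i _
    rw [map_mul, totalSq_X]
    have h2 : totalSq d (C (w i j)) = Polynomial.C (C (w i j)) := by
      rw [← algebraMap_eq, AlgHom.commutes]
      rfl
    rw [h2, map_mul, map_mul]
    ring
  exact DFunLike.congr_fun h f

lemma Sq_act (w : Matrix (Fin d) (Fin d) (ZMod 2)) (k : ℕ) (f : P d) :
    Sq d k (act d w f) = act d w (Sq d k f) := by
  rw [Sq, totalSq_act, Polynomial.coeff_map, Sq]
  rfl

lemma Sq_add (k : ℕ) (f g : P d) : Sq d k (f + g) = Sq d k f + Sq d k g := by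
  rw [Sq, map_add, Polynomial.coeff_add, Sq, Sq]

lemma Sq_zero (k : ℕ) : Sq d k 0 = 0 := by
  rw [Sq, map_zero, Polynomial.coeff_zero]

lemma coeff_sq (G : Polynomial (P d)) (b : ℕ) :
    (G ^ 2).coeff b = if 2 ∣ b then (G.coeff (b / 2)) ^ 2 else 0 := by
  rw [← Polynomial.map_frobenius_expand 2, Polynomial.coeff_map, Polynomial.coeff_expand
    (by norm_num)]
  split_ifs with h
  · rw [frobenius_def]
  · rw [map_zero]

/-- Behaviour of `kdown` under the Steenrod squares. -/
lemma kdown_Sq (E : Finset (Fin d)) (g : P d) (k : ℕ) :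
    kdown d (Sq d k (g ^ 2 * ∏ i ∈ E, X i)) =
      if E = Finset.univ ∧ 2 ∣ k then Sq d (k / 2) g else 0 := by
  classical
  have h1 : totalSq d (g ^ 2 * ∏ i ∈ E, X i) = ∑ J ∈ E.powerset,
      Polynomial.C ((∏ i ∈ E \ J, X i) ^ 2 * ∏ i ∈ J, X i) *
        (Polynomial.X ^ (E \ J).card * (totalSq d g) ^ 2) := by
    rw [map_mul, map_pow, map_prod]
    simp only [totalSq_X]
    rw [Finset.prod_add, Finset.mul_sum]
    apply Finset.sum_congr rfl
    intro J _
    rw [Finset.prod_mul_distrib, Finset.prod_const, map_mul, map_prod, map_pow, map_prod]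
    simp only [map_pow]
    rw [Finset.prod_pow]
    ring
  rw [Sq, h1, Polynomial.finsetSum_coeff, map_sum]
  have h2 : ∀ J ∈ E.powerset, kdown d ((Polynomial.C ((∏ i ∈ E \ J, X i) ^ 2 * ∏ i ∈ J, X i) *
        (Polynomial.X ^ (E \ J).card * (totalSq d g) ^ 2)).coeff k) =
      if J = Finset.univ ∧ 2 ∣ k then Sq d (k / 2) g else 0 := by
    intro J hJ
    rw [Polynomial.coeff_C_mul, Polynomial.coeff_X_pow_mul', coeff_sq]
    by_cases hJu : J = Finset.univ
    · have hE : E \ J = ∅ := by rw [hJu]; simp
      have hc : (E \ J).card = 0 := by rw [hE]; rfl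
      rw [hc, Nat.sub_zero, if_pos (Nat.zero_le k), hE, Finset.prod_empty, one_pow, one_mul]
      by_cases hk : 2 ∣ k
      · rw [if_pos hk, if_pos ⟨hJu, hk⟩, mul_comm, kdown_sq_mul, hJu]
        have h2 := kdown_prod_univ (d := d) id
        rw [if_pos Function.bijective_id] at h2
        have h3 : (∏ j : Fin d, (X j : P d)) = ∏ j, X (id j) := rfl
        rw [h3, h2, mul_one]
        rfl
      · rw [if_neg hk, if_neg (fun h => hk h.2), mul_zero, map_zero]
    · rw [if_neg (fun h : J = Finset.univ ∧ 2 ∣ k => hJu h.1)]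
      have h4 := kdown_prod_of_card_lt (d := d) J id (card_lt_of_ne_univ hJu)
      have h5 : (∏ j ∈ J, (X j : P d)) = ∏ j ∈ J, X (id j) := rfl
      split_ifs
      · have h8 : (∏ i ∈ E \ J, (X i : P d)) ^ 2 * (∏ i ∈ J, X i) *
            (totalSq d g).coeff ((k - (E \ J).card) / 2) ^ 2 =
            ((∏ i ∈ E \ J, (X i : P d)) * (totalSq d g).coeff ((k - (E \ J).card) / 2)) ^ 2 *
            ∏ i ∈ J, X i := by ring
        rw [h8, kdown_sq_mul, h5, h4, mul_zero]
      · rw [mul_zero, map_zero]
      · rw [mul_zero, map_zero]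
  rw [Finset.sum_congr rfl h2]
  by_cases hE : E = Finset.univ
  · rw [Finset.sum_eq_single Finset.univ]
    · simp only [hE, true_and]
    · intro J _ hJ
      rw [if_neg (fun h => hJ h.1)]
    · intro h
      exact absurd (Finset.mem_powerset.mpr hE.ge) h
  · rw [if_neg (fun h => hE h.1)]
    apply Finset.sum_eq_zero
    intro J hJ
    rw [if_neg]
    rintro ⟨h, _⟩
    apply hE
    rw [h, Finset.mem_powerset] at hJ
    exact Finset.univ_subset_iff.mp hJ

/-! ### The right action on the primitives and Kameko's map -/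

lemma PH_act {n : ℕ} (w : Matrix (Fin d) (Fin d) (ZMod 2)) {φ : Module.Dual (ZMod 2) (P d)}
    (hφ : φ ∈ PH d n) : (act d w).toLinearMap.dualMap φ ∈ PH d n := by
  refine ⟨fun m f hf hm => ?_, fun k f hk => ?_⟩
  · rw [LinearMap.dualMap_apply]
    refine hφ.1 m _ ?_ hm
    have h1 : (act d w f).IsHomogeneous (1 * m) := by
      rw [act]
      refine hf.aeval _ (fun j => ?_)
      apply MvPolynomial.IsHomogeneous.sum
      intro i _
      have := (isHomogeneous_C (Fin d) (w i j)).mul (isHomogeneous_X (ZMod 2) i)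
      rwa [zero_add] at this
    rw [one_mul] at h1
    exact h1
  · rw [LinearMap.dualMap_apply]
    have h1 : (act d w).toLinearMap (Sq d k f) = Sq d k (act d w f) := (Sq_act w k f).symm
    rw [h1]
    exact hφ.2 k _ hk

lemma kdown_homogeneous {m : ℕ} {f : P d} (hf : f.IsHomogeneous m) {n : ℕ} (hm : m ≠ 2 * n + d)
    {φ : Module.Dual (ZMod 2) (P d)} (hφ : φ ∈ PH d n) : φ (kdown d f) = 0 := by
  classical
  rw [f.as_sum, map_sum, map_sum]
  apply Finset.sum_eq_zero
  intro u hu
  have hu' : coeff u f ≠ 0 := mem_support_iff.mp hu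
  have hdeg : u.degree = m := by
    rw [Finsupp.degree_eq_weight_one]
    exact hf hu'
  have h1 : monomial u (coeff u f) = coeff u f • monomial u (1 : ZMod 2) := by
    rw [smul_monomial, smul_eq_mul, mul_one]
  rw [h1, map_smul, map_smul, kdown_monomial]
  split_ifs with h
  · rw [hφ.1 (u.mapRange (fun a => a / 2) rfl).degree _ (isHomogeneous_monomial _ rfl) ?_, smul_zero]
    intro h2
    apply hm
    rw [← hdeg, ← h2, Finsupp.degree_eq_sum, Finsupp.degree_eq_sum, Finset.mul_sum]
    have h3 : ∀ i ∈ (Finset.univ : Finset (Fin d)), u i =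
        2 * (u.mapRange (fun a => a / 2) rfl) i + 1 := by
      intro i _
      obtain ⟨a, ha⟩ := h i
      rw [Finsupp.mapRange_apply]
      omega
    rw [Finset.sum_congr rfl h3, Finset.sum_add_distrib]
    simp
  · rw [map_zero, smul_zero]

lemma PH_up {n : ℕ} {φ : Module.Dual (ZMod 2) (P d)} (hφ : φ ∈ PH d n) :
    (kdown d).dualMap φ ∈ PH d (2 * n + d) := by
  refine ⟨fun m f hf hm => ?_, fun k f hk => ?_⟩
  · rw [LinearMap.dualMap_apply]
    exact kdown_homogeneous hf hm hφ
  · rw [LinearMap.dualMap_apply]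
    induction f using sq_induction with
    | h0 => rw [Sq_zero, map_zero, map_zero]
    | hadd f g hf hg => rw [Sq_add, map_add, map_add, hf, hg, add_zero]
    | hmain E g =>
      rw [kdown_Sq]
      split_ifs with h
      · exact hφ.2 _ _ (by omega)
      · rw [map_zero]

/-- The right action of `w ∈ GL_d` on the linear functionals: `(φ w)(f) = φ(w f)`. -/
noncomputable def actR (d : ℕ) (w : GL (Fin d) (ZMod 2)) (φ : Module.Dual (ZMod 2) (P d)) :
    Module.Dual (ZMod 2) (P d) :=
  φ ∘ₗ (act d w.val).toLinearMap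

/-- The subspace of `PH_n` spanned by all `φ w - φ` with `φ ∈ PH_n` and `w ∈ GL_d`. So
`F_2 ⊗_{GL_d} PH_n = PH_n / aug_n`. -/
noncomputable def aug (d n : ℕ) : Submodule (ZMod 2) (Module.Dual (ZMod 2) (P d)) :=
  Submodule.span (ZMod 2) {ψ | ∃ w, ∃ φ ∈ PH d n, ψ = actR d w φ - φ}

/-- Kameko's map on the linear functionals, `φ ↦ φ ∘ kdown`; on the divided power algebra it is
`a_1^{(s_1)} ⋯ a_d^{(s_d)} ↦ a_1^{(2s_1+1)} ⋯ a_d^{(2s_d+1)}`. It maps `PH_n` to `PH_{2n+d}`
(`PH_up`) and `aug_n` to `aug_{2n+d}` (`aug_up`). -/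
noncomputable def kameko (d : ℕ) (φ : Module.Dual (ZMod 2) (P d)) : Module.Dual (ZMod 2) (P d) :=
  φ ∘ₗ kdown d

/-- Kameko's squaring operation
`F_2 ⊗_{GL_d} PH_n = PH_n / aug_n → F_2 ⊗_{GL_d} PH_{2n+d} = PH_{2n+d} / aug_{2n+d}`
(induced by `kameko`) is injective. -/
def SqInjective (d n : ℕ) : Prop :=
  ∀ φ ∈ PH d n, kameko d φ ∈ aug d (2 * n + d) → φ ∈ aug d n

lemma aug_le_PH (d n : ℕ) : aug d n ≤ PH d n := by
  rw [aug, Submodule.span_le]
  rintro ψ ⟨w, φ, hφ, rfl⟩
  exact Submodule.sub_mem _ (PH_act _ hφ) hφ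

/-- `kameko` is `GL_d`-equivariant. -/
lemma kameko_actR (w : GL (Fin d) (ZMod 2)) (φ : Module.Dual (ZMod 2) (P d)) :
    kameko d (actR d w φ) = actR d w (kameko d φ) := by
  apply LinearMap.ext
  intro f
  have hdet : (w : Matrix (Fin d) (Fin d) (ZMod 2)).det = 1 := by
    have h0 : IsUnit (w : Matrix (Fin d) (Fin d) (ZMod 2)).det :=
      (Matrix.isUnit_iff_isUnit_det _).mp w.isUnit
    have : (w : Matrix (Fin d) (Fin d) (ZMod 2)).det ≠ 0 := h0.ne_zero
    generalize (w : Matrix (Fin d) (Fin d) (ZMod 2)).det = a at this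
    fin_cases a
    · exact absurd rfl this
    · rfl
  show φ (act d w.val (kdown d f)) = φ (kdown d (act d w.val f))
  rw [kdown_act _ hdet]

/-- `kameko` maps `aug_n` to `aug_{2n+d}`, so it induces a map of the coinvariants. -/
lemma aug_up {n : ℕ} {φ : Module.Dual (ZMod 2) (P d)} (hφ : φ ∈ aug d n) :
    kameko d φ ∈ aug d (2 * n + d) := by
  rw [aug] at hφ
  induction hφ using Submodule.span_induction with
  | mem x hx =>
    obtain ⟨w, φ, hφ, rfl⟩ := hx
    have h : kameko d (actR d w φ - φ) = actR d w (kameko d φ) - kameko d φ := by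
      rw [← kameko_actR]
      rfl
    rw [h]
    exact Submodule.subset_span ⟨w, kameko d φ, PH_up hφ, rfl⟩
  | zero => exact Submodule.zero_mem _
  | add x y _ _ hx hy => exact Submodule.add_mem _ hx hy
  | smul c x _ hx => exact Submodule.smul_mem _ c hx

end Pool.Agent.H911R2.Kameko
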