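import Pool.Agent.H911R2.KamekoDefs

/-! Non-injectivity of Kameko's squaring operation on the coinvariants. -/

set_option autoImplicit false

namespace Pool.Agent.H911R2.Kameko

open MvPolynomial

variable {d : ℕ}

/-! ### Binomial coefficients -/

lemma choose_spike (k : ℕ) : ∀ m j : ℕ, m + j + 1 = 2 ^ k → 0 < j →
    ((Nat.choose m j : ℕ) : ZMod 2) = 0 := by
  induction k with
  | zero =>
    intro m j h hj
    simp at h
    omega
  | succ k ih =>
    intro m j h hj
    have hl := Choose.choose_modEq_choose_mod_mul_choose_div_nat (n := m) (k := j) (p := 2)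
    have h2 : ((Nat.choose m j : ℕ) : ZMod 2) =
        ((Nat.choose (m % 2) (j % 2) * Nat.choose (m / 2) (j / 2) : ℕ) : ZMod 2) :=
      (ZMod.natCast_eq_natCast_iff _ _ _).mpr hl
    rw [h2, Nat.cast_mul]
    rw [pow_succ] at h
    rcases Nat.even_or_odd' j with ⟨j', hj' | hj'⟩
    · have hz := ih (m / 2) (j / 2) (by omega) (by omega)
      rw [hz, mul_zero]
    · have hm : m % 2 = 0 := by omega
      have hj2 : j % 2 = 1 := by omega
      rw [hm, hj2]
      simp

/-! ### Spikes -/

/-- the coefficient functional -/
noncomputable def dl (s : Fin d →₀ ℕ) : Module.Dual (ZMod 2) (P d) := lcoeff (ZMod 2) s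

lemma dl_apply (s : Fin d →₀ ℕ) (f : P d) : dl s f = coeff s f := rfl

lemma totalSq_monomial (u : Fin d →₀ ℕ) :
    totalSq d (monomial u 1) = ∑ j ∈ Fintype.piFinset (fun i => Finset.range (u i + 1)),
      Polynomial.C (monomial (Finsupp.equivFunOnFinite.symm (fun i => 2 * u i - j i))
        (∏ i, ((u i).choose (j i) : ZMod 2))) * Polynomial.X ^ (∑ i, (u i - j i)) := by
  classical
  have h1 : (monomial u (1 : ZMod 2)) = ∏ i, (X i : P d) ^ u i := by
    rw [monomial_eq, C_1, one_mul, Finsupp.prod_fintype]
    intro i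
    exact pow_zero _
  rw [h1, map_prod]
  simp only [map_pow, totalSq_X]
  have h2 : ∀ i, (Polynomial.C (X i : P d) + Polynomial.C (X i ^ 2) * Polynomial.X) ^ u i =
      ∑ j ∈ Finset.range (u i + 1), Polynomial.C (X i ^ (2 * u i - j) * C ((u i).choose j : ZMod 2)) *
        Polynomial.X ^ (u i - j) := by
    intro i
    rw [add_pow]
    apply Finset.sum_congr rfl
    intro j hj
    have hj' : j ≤ u i := by
      rw [Finset.mem_range] at hj
      omega
    rw [mul_pow, ← Polynomial.C_pow, ← Polynomial.C_pow, ← pow_mul, map_mul,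
      show (2 * u i - j) = j + 2 * (u i - j) by omega, pow_add, map_mul]
    have h3 : Polynomial.C (C ((u i).choose j : ZMod 2) : P d) =
        (((u i).choose j : ℕ) : Polynomial (P d)) := by
      rw [map_natCast, map_natCast]
    rw [h3]
    ring
  have h2' : ∀ i, (Polynomial.C (X i : P d) + Polynomial.C (X i) ^ 2 * Polynomial.X) ^ u i =
      ∑ j ∈ Finset.range (u i + 1), Polynomial.C (X i ^ (2 * u i - j) * C ((u i).choose j : ZMod 2)) *
        Polynomial.X ^ (u i - j) := by
    intro i
    rw [← h2 i, Polynomial.C_pow]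
  simp only [h2']
  rw [Finset.prod_univ_sum]
  apply Finset.sum_congr rfl
  intro j _
  rw [Finset.prod_mul_distrib, Finset.prod_pow_eq_pow_sum, ← map_prod]
  congr 2
  rw [Finset.prod_mul_distrib, ← map_prod, monomial_eq, mul_comm]
  congr 1
  rw [Finsupp.prod_fintype]
  · rfl
  · intro i
    exact pow_zero _

lemma dl_Sq (s : Fin d →₀ ℕ) (hs : ∀ i, ∃ k, s i + 1 = 2 ^ k) (k : ℕ) (hk : 0 < k) (f : P d) :
    dl s (Sq d k f) = 0 := by
  classical
  induction f using mono_induction with
  | h0 => rw [Sq_zero, map_zero]
  | hadd f g hf hg => rw [Sq_add, map_add, hf, hg, add_zero]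
  | hmono u =>
    rw [Sq, totalSq_monomial, Polynomial.finsetSum_coeff, map_sum]
    apply Finset.sum_eq_zero
    intro j hj
    rw [Polynomial.coeff_C_mul, Polynomial.coeff_X_pow]
    split_ifs with h1
    · rw [mul_one, dl_apply, coeff_monomial]
      split_ifs with h2
      · -- some `u i - j i` is positive
        have h3 : ∃ i, 0 < u i - j i := by
          by_contra hc
          push Not at hc
          have : ∑ i, (u i - j i) = 0 := Finset.sum_eq_zero fun i _ => Nat.le_zero.mp (hc i)
          omega
        obtain ⟨i, hi⟩ := h3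
        apply Finset.prod_eq_zero (Finset.mem_univ i)
        obtain ⟨r, hr⟩ := hs i
        have h4 : s i = 2 * u i - j i := by
          rw [← h2]
          rfl
        have h5 : j i ≤ u i := by
          have := Fintype.mem_piFinset.mp hj i
          rw [Finset.mem_range] at this
          omega
        rw [← Nat.choose_symm h5]
        exact choose_spike r (u i) (u i - j i) (by omega) hi
      · rfl
    · rw [mul_zero, map_zero]

lemma dl_mem {n : ℕ} (s : Fin d →₀ ℕ) (hs : ∀ i, ∃ k, s i + 1 = 2 ^ k) (hn : s.degree = n) :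
    dl s ∈ PH d n := by
  refine ⟨fun m f hf hm => ?_, fun k f hk => dl_Sq s hs k hk f⟩
  rw [dl_apply]
  by_contra hc
  apply hm
  rw [← hn, Finsupp.degree_eq_weight_one]
  exact (hf hc).symm

/-! ### Transvections -/

/-- the transvection `x_j ↦ x_j + x_i` -/
noncomputable def trv (i j : Fin d) (h : i ≠ j) : GL (Fin d) (ZMod 2) :=
  Matrix.GeneralLinearGroup.mkOfDetNeZero (Matrix.transvection i j 1) (by
    rw [Matrix.det_transvection_of_ne i j h]
    exact one_ne_zero)

lemma act_trv_X (i j : Fin d) (h : i ≠ j) (l : Fin d) :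
    act d (trv i j h : Matrix (Fin d) (Fin d) (ZMod 2)) (X l) =
      if l = j then X j + X i else X l := by
  classical
  rw [act_X]
  have h1 : ∀ m, (trv i j h : Matrix (Fin d) (Fin d) (ZMod 2)) m l =
      (if m = l then 1 else 0) + (if m = i ∧ l = j then 1 else 0) := by
    intro m
    show (Matrix.transvection i j (1 : ZMod 2)) m l = _
    rw [Matrix.transvection, Matrix.add_apply, Matrix.one_apply, Matrix.single_apply]
    congr 2
    simp only [eq_comm]
  simp only [h1, map_add, add_mul, Finset.sum_add_distrib]
  have h2 : (∑ m, C (if m = l then (1 : ZMod 2) else 0) * X m : P d) = X l := by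
    rw [Finset.sum_eq_single l]
    · rw [if_pos rfl, C_1, one_mul]
    · intro m _ hm
      rw [if_neg hm, C_0, zero_mul]
    · intro h
      exact absurd (Finset.mem_univ _) h
  have h3 : (∑ m, C (if m = i ∧ l = j then (1 : ZMod 2) else 0) * X m : P d) =
      if l = j then X i else 0 := by
    rw [Finset.sum_eq_single i]
    · by_cases hl : l = j
      · rw [if_pos ⟨rfl, hl⟩, if_pos hl, C_1, one_mul]
      · rw [if_neg (fun h => hl h.2), if_neg hl, C_0, zero_mul]
    · intro m _ hm
      rw [if_neg (fun h => hm h.1), C_0, zero_mul]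
    · intro h
      exact absurd (Finset.mem_univ _) h
  rw [h2, h3]
  split_ifs with hl
  · rw [hl]
  · rw [add_zero]

lemma act_trv_monomial (i j : Fin d) (h : i ≠ j) (t : Fin d →₀ ℕ) (htj : t j = 0) (p q : ℕ) :
    act d (trv i j h : Matrix (Fin d) (Fin d) (ZMod 2))
      (monomial (t + Finsupp.single i p + Finsupp.single j q) 1) =
    ∑ r ∈ Finset.range (q + 1),
      monomial (t + Finsupp.single i (p + r) + Finsupp.single j (q - r)) ((q.choose r : ZMod 2)) := by
  classical
  have h1 : (monomial (t + Finsupp.single i p + Finsupp.single j q) (1 : ZMod 2)) =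
      monomial t 1 * X i ^ p * X j ^ q := by
    rw [X_pow_eq_monomial, X_pow_eq_monomial, monomial_mul, monomial_mul, one_mul, one_mul]
  rw [h1, map_mul, map_mul, map_pow, map_pow, act_trv_X, act_trv_X, if_neg h, if_pos rfl]
  have h2 : act d (trv i j h : Matrix (Fin d) (Fin d) (ZMod 2)) (monomial t 1) = monomial t 1 := by
    have h3 : (monomial t (1 : ZMod 2)) = ∏ l, (X l : P d) ^ t l := by
      rw [monomial_eq, C_1, one_mul, Finsupp.prod_fintype]
      intro i
      exact pow_zero _
    rw [h3, map_prod]
    apply Finset.prod_congr rfl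
    intro l _
    rw [map_pow, act_trv_X]
    split_ifs with hl
    · rw [hl, htj, pow_zero, pow_zero]
    · rfl
  rw [h2, add_comm (X j : P d) (X i), add_pow, Finset.mul_sum]
  apply Finset.sum_congr rfl
  intro r hr
  have h4 : ((q.choose r : ℕ) : P d) = C ((q.choose r : ℕ) : ZMod 2) := by
    rw [map_natCast]
  rw [h4]
  have h5 : (monomial (t + Finsupp.single i (p + r) + Finsupp.single j (q - r))
      ((q.choose r : ℕ) : ZMod 2)) =
      monomial t 1 * X i ^ (p + r) * X j ^ (q - r) * C ((q.choose r : ℕ) : ZMod 2) := by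
    rw [X_pow_eq_monomial, X_pow_eq_monomial, monomial_mul, monomial_mul, one_mul, one_mul,
      mul_comm _ (C _), C_mul_monomial, mul_one]
  rw [h5, pow_add]
  ring

lemma single_inj (i j : Fin d) (h : i ≠ j) (t t' : Fin d →₀ ℕ) (hti : t i = 0) (htj : t j = 0)
    (hti' : t' i = 0) (htj' : t' j = 0) (a b p q : ℕ) :
    (t' + Finsupp.single i p + Finsupp.single j q = t + Finsupp.single i a + Finsupp.single j b) ↔
      (t' = t ∧ p = a ∧ q = b) := by
  classical
  constructor
  · intro he
    have h1 := DFunLike.congr_fun he i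
    have h2 := DFunLike.congr_fun he j
    simp only [Finsupp.add_apply, Finsupp.single_apply, if_true, if_neg h, if_neg h.symm, hti, htj,
      hti', htj', add_zero, zero_add] at h1 h2
    refine ⟨?_, h1, h2⟩
    apply Finsupp.ext
    intro l
    have h3 := DFunLike.congr_fun he l
    simp only [Finsupp.add_apply, Finsupp.single_apply, h1, h2] at h3
    omega
  · rintro ⟨rfl, rfl, rfl⟩
    rfl

/-- The action of a transvection on the coefficient functionals, in divided power notation:
`a_i^{(a)} a_j^{(b)} ↦ ∑_r a_i^{(a-r)} a_j^{(r)} a_j^{(b)}`. -/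
lemma dl_trv (i j : Fin d) (h : i ≠ j) (t : Fin d →₀ ℕ) (hti : t i = 0) (htj : t j = 0)
    (a b : ℕ) (f : P d) :
    dl (t + Finsupp.single i a + Finsupp.single j b)
      (act d (trv i j h : Matrix (Fin d) (Fin d) (ZMod 2)) f) =
    ∑ r ∈ Finset.range (a + 1), (((b + r).choose r : ℕ) : ZMod 2) *
      dl (t + Finsupp.single i (a - r) + Finsupp.single j (b + r)) f := by
  classical
  induction f using mono_induction with
  | h0 => simp
  | hadd f g hf hg =>
    rw [map_add, map_add, hf, hg, ← Finset.sum_add_distrib]
    apply Finset.sum_congr rfl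
    intro r _
    rw [map_add, mul_add]
  | hmono u =>
    obtain ⟨t', p, q, hti', htj', rfl⟩ : ∃ (t' : Fin d →₀ ℕ) (p q : ℕ), t' i = 0 ∧ t' j = 0 ∧
        u = t' + Finsupp.single i p + Finsupp.single j q := by
      refine ⟨(u.erase i).erase j, u i, u j, ?_, ?_, ?_⟩
      · rw [Finsupp.erase_ne h, Finsupp.erase_same]
      · rw [Finsupp.erase_same]
      · apply Finsupp.ext
        intro l
        simp only [Finsupp.add_apply, Finsupp.single_apply]
        by_cases hl : l = j
        · subst hl
          rw [Finsupp.erase_same, if_neg h, if_pos rfl]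
          omega
        · rw [Finsupp.erase_ne hl, if_neg (Ne.symm hl)]
          by_cases hl2 : l = i
          · subst hl2
            rw [Finsupp.erase_same, if_pos rfl]
            omega
          · rw [Finsupp.erase_ne hl2, if_neg (Ne.symm hl2)]
            omega
    rw [act_trv_monomial i j h t' htj', map_sum]
    have hL : ∀ r ∈ Finset.range (q + 1), dl (t + Finsupp.single i a + Finsupp.single j b)
        (monomial (t' + Finsupp.single i (p + r) + Finsupp.single j (q - r))
          ((q.choose r : ℕ) : ZMod 2)) =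
        if t' = t ∧ p + r = a ∧ q - r = b then ((q.choose r : ℕ) : ZMod 2) else 0 := by
      intro r _
      rw [dl_apply, coeff_monomial]
      exact if_congr (single_inj i j h t t' hti htj hti' htj' a b (p + r) (q - r)) rfl rfl
    have hR : ∀ r ∈ Finset.range (a + 1), (((b + r).choose r : ℕ) : ZMod 2) *
        dl (t + Finsupp.single i (a - r) + Finsupp.single j (b + r))
          (monomial (t' + Finsupp.single i p + Finsupp.single j q) 1) =
        if t' = t ∧ p = a - r ∧ q = b + r then (((b + r).choose r : ℕ) : ZMod 2) else 0 := by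
      intro r _
      rw [dl_apply, coeff_monomial,
        if_congr (single_inj i j h t t' hti htj hti' htj' (a - r) (b + r) p q) rfl rfl]
      split_ifs
      · rw [mul_one]
      · rw [mul_zero]
    rw [Finset.sum_congr rfl hL, Finset.sum_congr rfl hR]
    by_cases hcase : t' = t ∧ p ≤ a ∧ q = b + (a - p)
    · obtain ⟨h1, h2, h3⟩ := hcase
      rw [Finset.sum_eq_single (a - p), Finset.sum_eq_single (a - p)]
      · rw [if_pos ⟨h1, by omega, by omega⟩, if_pos ⟨h1, by omega, by omega⟩, h3]
      · intro r hr hne
        rw [Finset.mem_range] at hr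
        rw [if_neg]
        rintro ⟨_, h4, h5⟩
        omega
      · intro hc
        exact absurd (Finset.mem_range.mpr (by omega)) hc
      · intro r hr hne
        rw [Finset.mem_range] at hr
        rw [if_neg]
        rintro ⟨_, h4, h5⟩
        omega
      · intro hc
        exact absurd (Finset.mem_range.mpr (by omega)) hc
    · rw [Finset.sum_eq_zero, Finset.sum_eq_zero]
      · intro r hr
        rw [Finset.mem_range] at hr
        rw [if_neg]
        rintro ⟨h4, h5, h6⟩
        exact hcase ⟨h4, by omega, by omega⟩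
      · intro r hr
        rw [Finset.mem_range] at hr
        rw [if_neg]
        rintro ⟨h4, h5, h6⟩
        exact hcase ⟨h4, by omega, by omega⟩

/-! ### Elements of the augmentation subspace -/

lemma augD_act {n : ℕ} {φ : Module.Dual (ZMod 2) (P d)} (h : φ ∈ PH d n)
    (w : GL (Fin d) (ZMod 2)) :
    (act d (w : Matrix (Fin d) (Fin d) (ZMod 2))).toLinearMap.dualMap φ - φ ∈ aug d n :=
  Submodule.subset_span ⟨w, φ, h, rfl⟩

lemma two_spikes {a e : Fin d} (hae : a ≠ e) (t : Fin d →₀ ℕ) (hta : t a = 0) (hte : t e = 0)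
    (ht : ∀ l, ∃ k, t l + 1 = 2 ^ k) (p q : ℕ) (hp : ∃ k, p + 1 = 2 ^ k) (hq : ∃ k, q + 1 = 2 ^ k) :
    dl (t + Finsupp.single a p + Finsupp.single e q) ∈ PH d (t.degree + (p + q)) := by
  classical
  apply dl_mem
  · intro i
    simp only [Finsupp.add_apply, Finsupp.single_apply]
    by_cases h1 : a = i
    · subst h1
      rw [if_pos rfl, if_neg hae.symm, hta]
      simpa using hp
    · by_cases h2 : e = i
      · subst h2
        rw [if_pos rfl, if_neg hae, hte]
        simpa using hq
      · rw [if_neg h1, if_neg h2]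
        simpa using ht i
  · rw [map_add, map_add, Finsupp.degree_single, Finsupp.degree_single, add_assoc]

lemma key_identity {a b c e : Fin d} (hab : a ≠ b) (hac : a ≠ c) (hae : a ≠ e) (hbc : b ≠ c)
    (hbe : b ≠ e) (hce : c ≠ e) (t : Fin d →₀ ℕ) (hta : t a = 0) (htb : t b = 0) (htc : t c = 0)
    (hte : t e = 0) (ht : ∀ l, ∃ k, t l + 1 = 2 ^ k) :
    dl (t + Finsupp.single e 1 + Finsupp.single a 1 + Finsupp.single b 1 + Finsupp.single c 1) ∈
      aug d (t.degree + 4) := by
  classical
  set t1 : Fin d →₀ ℕ := t + Finsupp.single e 1 with ht1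
  have h1a : t1 a = 0 := by simp [ht1, hta, hae.symm]
  have h1b : t1 b = 0 := by simp [ht1, htb, hbe.symm]
  have h1c : t1 c = 0 := by simp [ht1, htc, hce.symm]
  have e31 : (3 : ℕ) + 1 = 2 ^ 2 := by norm_num
  have e11 : (1 : ℕ) + 1 = 2 ^ 1 := by norm_num
  have hA : dl (t + Finsupp.single a 3 + Finsupp.single e 1) ∈ PH d (t.degree + 4) :=
    two_spikes hae t hta hte ht 3 1 ⟨2, e31⟩ ⟨1, e11⟩
  have hB : dl (t + Finsupp.single b 3 + Finsupp.single e 1) ∈ PH d (t.degree + 4) :=
    two_spikes hbe t htb hte ht 3 1 ⟨2, e31⟩ ⟨1, e11⟩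
  have hG : dl (t + Finsupp.single e 3 + Finsupp.single c 1) ∈ PH d (t.degree + 4) :=
    two_spikes hce.symm t hte htc ht 3 1 ⟨2, e31⟩ ⟨1, e11⟩
  have eA : t + Finsupp.single a 3 + Finsupp.single e 1 = t1 + Finsupp.single a 3 := by
    rw [ht1]; abel
  have eB : t + Finsupp.single b 3 + Finsupp.single e 1 = t1 + Finsupp.single b 3 := by
    rw [ht1]; abel
  rw [eA] at hA
  rw [eB] at hB
  set Eab := (act d (trv a b hab : Matrix (Fin d) (Fin d) (ZMod 2))).toLinearMap.dualMap with hEab
  set Ebc := (act d (trv b c hbc : Matrix (Fin d) (Fin d) (ZMod 2))).toLinearMap.dualMap with hEbc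
  set Eac := (act d (trv a c hac : Matrix (Fin d) (Fin d) (ZMod 2))).toLinearMap.dualMap with hEac
  set Eec := (act d (trv e c hce.symm : Matrix (Fin d) (Fin d) (ZMod 2))).toLinearMap.dualMap
    with hEec
  have c0 : ((0 : ℕ) : ZMod 2) = 0 := rfl
  have c1 : ((1 : ℕ) : ZMod 2) = 1 := rfl
  have c2 : ((2 : ℕ) : ZMod 2) = 0 := rfl
  have c3 : ((3 : ℕ) : ZMod 2) = 1 := rfl
  have c4 : ((4 : ℕ) : ZMod 2) = 0 := rfl
  have b22 : Nat.choose 2 1 = 2 := rfl
  have b32 : Nat.choose 3 2 = 3 := rfl
  have b43 : Nat.choose 4 3 = 4 := rfl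
  -- the functional `T`
  set T : Module.Dual (ZMod 2) (P d) := dl (t1 + Finsupp.single a 2 + Finsupp.single b 1) +
    dl (t1 + Finsupp.single a 1 + Finsupp.single b 2) with hT
  have hTeq : T = (Eab (dl (t1 + Finsupp.single a 3)) - dl (t1 + Finsupp.single a 3)) -
      dl (t1 + Finsupp.single b 3) := by
    apply LinearMap.ext
    intro f
    have h := dl_trv a b hab t1 h1a h1b 3 0 f
    rw [Finsupp.single_zero, add_zero] at h
    rw [hT, LinearMap.sub_apply, LinearMap.sub_apply, LinearMap.add_apply, hEab,
      LinearMap.dualMap_apply]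
    show _ = dl (t1 + Finsupp.single a 3) (act d (trv a b hab : Matrix (Fin d) (Fin d) (ZMod 2)) f)
      - _ - _
    rw [h]
    simp only [Finset.sum_range_succ, Finset.sum_range_zero, zero_add, Nat.choose_self, c1, one_mul,
      Nat.sub_zero, Nat.sub_self, Finsupp.single_zero, add_zero]
    ring
  have hTmem : T ∈ PH d (t.degree + 4) := by
    rw [hTeq]
    exact Submodule.sub_mem _ (Submodule.sub_mem _ (PH_act _ hA) hA) hB
  have key : dl (t1 + Finsupp.single a 1 + Finsupp.single b 1 + Finsupp.single c 1) =
      (Ebc T - T) + (Eac (dl (t1 + Finsupp.single a 3)) - dl (t1 + Finsupp.single a 3)) +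
      (Eec (dl (t + Finsupp.single e 3 + Finsupp.single c 1)) -
        dl (t + Finsupp.single e 3 + Finsupp.single c 1)) := by
    apply LinearMap.ext
    intro f
    have h1 := dl_trv b c hbc (t1 + Finsupp.single a 2)
      (by simp [h1b, hab]) (by simp [h1c, hac]) 1 0 f
    have h2 := dl_trv b c hbc (t1 + Finsupp.single a 1)
      (by simp [h1b, hab]) (by simp [h1c, hac]) 2 0 f
    have h3 := dl_trv a c hac t1 h1a h1c 3 0 f
    have h4 := dl_trv e c hce.symm t hte htc 3 1 f
    rw [Finsupp.single_zero, add_zero] at h1 h2 h3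
    simp only [Finset.sum_range_succ, Finset.sum_range_zero, zero_add, Nat.choose_self, c1, one_mul,
      Nat.sub_zero, Nat.sub_self, Finsupp.single_zero, add_zero, Nat.choose_zero_right, b22, b32,
      b43, c2, c3, c4, zero_mul, Nat.reduceAdd, Nat.reduceSub] at h1 h2 h3 h4
    have hTf : (Ebc T) f = dl (t1 + Finsupp.single a 2 + Finsupp.single b 1)
        (act d (trv b c hbc : Matrix (Fin d) (Fin d) (ZMod 2)) f) +
        dl (t1 + Finsupp.single a 1 + Finsupp.single b 2)
        (act d (trv b c hbc : Matrix (Fin d) (Fin d) (ZMod 2)) f) := rfl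
    have hAf : (Eac (dl (t1 + Finsupp.single a 3))) f = dl (t1 + Finsupp.single a 3)
        (act d (trv a c hac : Matrix (Fin d) (Fin d) (ZMod 2)) f) := rfl
    have hGf : (Eec (dl (t + Finsupp.single e 3 + Finsupp.single c 1))) f =
        dl (t + Finsupp.single e 3 + Finsupp.single c 1)
        (act d (trv e c hce.symm : Matrix (Fin d) (Fin d) (ZMod 2)) f) := rfl
    have hTf' : T f = dl (t1 + Finsupp.single a 2 + Finsupp.single b 1) f +
        dl (t1 + Finsupp.single a 1 + Finsupp.single b 2) f := rfl
    simp only [LinearMap.add_apply, LinearMap.sub_apply, hTf, hAf, hGf, hTf', h1, h2, h3, h4]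
    have e1 : t + Finsupp.single e 1 + Finsupp.single c 3 = t1 + Finsupp.single c 3 := rfl
    rw [e1]
    ring_nf
    simp only [c2, show (2 : ZMod 2) = 0 from rfl, mul_zero, add_zero, zero_add]
  rw [key]
  exact Submodule.add_mem _ (Submodule.add_mem _ (augD_act hTmem _) (augD_act hA _)) (augD_act hG _)

/-! ### Kameko's map on the coefficient functionals -/

/-- the exponent `(1,…,1)` -/
noncomputable def ones (d : ℕ) : Fin d →₀ ℕ := Finsupp.equivFunOnFinite.symm (fun _ => 1)

lemma ones_apply (i : Fin d) : ones d i = 1 := rfl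

lemma kameko_dl (t : Fin d →₀ ℕ) : (kdown d).dualMap (dl t) = dl (2 • t + ones d) := by
  classical
  apply LinearMap.ext
  intro f
  rw [LinearMap.dualMap_apply]
  induction f using mono_induction with
  | h0 => rw [map_zero, map_zero, map_zero]
  | hadd f g hf hg => rw [map_add, map_add, map_add, hf, hg]
  | hmono u =>
    rw [kdown_monomial, dl_apply, dl_apply]
    by_cases h : ∀ i, Odd (u i)
    · rw [if_pos h, coeff_monomial, coeff_monomial]
      apply if_congr _ rfl rfl
      constructor
      · intro h2
        apply Finsupp.ext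
        intro i
        have h3 := DFunLike.congr_fun h2 i
        rw [Finsupp.mapRange_apply] at h3
        rw [Finsupp.add_apply, Finsupp.smul_apply, ones_apply, smul_eq_mul, ← h3]
        obtain ⟨m, hm⟩ := h i
        omega
      · intro h2
        apply Finsupp.ext
        intro i
        have h3 := DFunLike.congr_fun h2 i
        rw [Finsupp.add_apply, Finsupp.smul_apply, ones_apply, smul_eq_mul] at h3
        rw [Finsupp.mapRange_apply]
        omega
    · rw [if_neg h, coeff_zero, coeff_monomial, if_neg]
      intro h2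
      apply h
      intro i
      rw [h2, Finsupp.add_apply, Finsupp.smul_apply, ones_apply, smul_eq_mul]
      exact ⟨t i, rfl⟩

/-! ### Words -/

/-- the monomial `∏ x_{l(j)}^{2^j}` of a word `l` -/
noncomputable def mL : List (Fin d) → P d
  | [] => 1
  | a :: l => X a * mL l ^ 2

/-- the linear map `g ↦ x_a g^2` -/
noncomputable def th (a : Fin d) : P d →ₗ[ZMod 2] P d where
  toFun g := X a * g ^ 2
  map_add' f g := by rw [sq_add, mul_add]
  map_smul' c f := by
    have hc : c ^ 2 = c := ZMod.pow_card c
    have h1 : (c • f) ^ 2 = c • f ^ 2 := by rw [smul_pow, hc]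
    rw [h1, RingHom.id_apply, mul_smul_comm]

lemma th_apply (a : Fin d) (g : P d) : th a g = X a * g ^ 2 := rfl

lemma Sq_th (a : Fin d) (k : ℕ) (g : P d) : Sq d (2 * k) (th a g) = th a (Sq d k g) := by
  rw [th_apply, th_apply, Sq, map_mul, map_pow, totalSq_X, add_mul, Polynomial.coeff_add, Polynomial.coeff_C_mul, coeff_sq,
    if_pos (dvd_mul_right 2 k), Nat.mul_div_cancel_left k (by norm_num : 0 < 2), mul_assoc,
    Polynomial.coeff_C_mul]
  have h : (Polynomial.X * (totalSq d g) ^ 2).coeff (2 * k) = 0 := by
    rcases Nat.eq_zero_or_pos k with rfl | hk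
    · rw [mul_zero, Polynomial.coeff_X_mul_zero]
    · obtain ⟨m, rfl⟩ : ∃ m, k = m + 1 := ⟨k - 1, by omega⟩
      rw [show 2 * (m + 1) = (2 * m + 1) + 1 by ring, Polynomial.coeff_X_mul, coeff_sq, if_neg]
      omega
  rw [h, mul_zero, add_zero, Sq]

lemma th_mem {n : ℕ} (a : Fin d) {φ : Module.Dual (ZMod 2) (P d)} (hφ : φ ∈ PH d (2 * n + 1)) :
    (th a).dualMap φ ∈ PH d n := by
  refine ⟨fun m f hf hm => ?_, fun k f hk => ?_⟩
  · have h1 : (X a * f ^ 2 : P d).IsHomogeneous (1 + m * 2) :=
      (isHomogeneous_X (ZMod 2) a).mul (hf.pow 2)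
    have h2 : φ (X a * f ^ 2) = 0 := hφ.1 (1 + m * 2) _ h1 (by omega)
    exact h2
  · rw [LinearMap.dualMap_apply, ← Sq_th]
    exact hφ.2 _ _ (by omega)

lemma Sq_zero_id (f : P d) : Sq d 0 f = f := by
  have h : ((Polynomial.evalRingHom (0 : P d)).comp (totalSq d : P d →+* Polynomial (P d))) =
      RingHom.id (P d) := by
    apply MvPolynomial.ringHom_ext
    · intro r
      have h2 : totalSq d (C r) = Polynomial.C (C r) := by
        rw [← algebraMap_eq, AlgHom.commutes]
        rfl
      simp [h2]
    · intro i
      simp [totalSq_X]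
  have h2 := DFunLike.congr_fun h f
  rw [RingHom.comp_apply, RingHom.id_apply, Polynomial.coe_evalRingHom] at h2
  rw [Sq, Polynomial.coeff_zero_eq_eval_zero]
  exact h2

lemma Sq_one_mul (f g : P d) : Sq d 1 (f * g) = f * Sq d 1 g + Sq d 1 f * g := by
  have hf := Sq_zero_id f
  have hg := Sq_zero_id g
  rw [Sq] at hf hg
  rw [Sq, map_mul, Polynomial.mul_coeff_one, hf, hg]
  rfl

lemma Sq_one_sq (f : P d) : Sq d 1 (f ^ 2) = 0 := by
  rw [sq, Sq_one_mul, mul_comm (Sq d 1 f) f, CharTwo.add_self_eq_zero]

lemma Sq_one_X (i : Fin d) : Sq d 1 (X i) = X i ^ 2 := by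
  rw [Sq, totalSq_X, Polynomial.coeff_add, Polynomial.coeff_C_mul, Polynomial.coeff_X_one,
    Polynomial.coeff_C_succ, mul_one, zero_add]

lemma Sq_one_X3 (i : Fin d) : Sq d 1 (X i ^ 3) = X i ^ 4 := by
  rw [pow_succ, Sq_one_mul, Sq_one_sq, Sq_one_X]
  ring

/-- Two words agree on all primitives. -/
def Rel (l l' : List (Fin d)) : Prop :=
  ∀ φ ∈ PH d (2 ^ l.length - 1), φ (mL l) = φ (mL l')

lemma pow_len (n : ℕ) : 2 ^ (n + 1) - 1 = 2 * (2 ^ n - 1) + 1 := by
  have : 1 ≤ 2 ^ n := Nat.one_le_two_pow
  rw [pow_succ]
  omega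

lemma Rel.cons {l l' : List (Fin d)} (h : Rel l l') (a : Fin d) : Rel (a :: l) (a :: l') := by
  intro φ hφ
  rw [List.length_cons, pow_len] at hφ
  exact h _ (th_mem a hφ)

lemma Rel.swap (a b : Fin d) (l : List (Fin d)) : Rel (a :: b :: l) (b :: a :: l) := by
  intro φ hφ
  have h := hφ.2 1 (X a * X b * (mL l ^ 2) ^ 2) one_pos
  rw [Sq_one_mul, Sq_one_sq, Sq_one_mul, Sq_one_X, Sq_one_X, mul_zero, zero_add, add_mul,
    map_add] at h
  have h2 : mL (a :: b :: l) = X a * X b ^ 2 * (mL l ^ 2) ^ 2 := by
    show X a * (X b * mL l ^ 2) ^ 2 = _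
    ring
  have h3 : mL (b :: a :: l) = X a ^ 2 * X b * (mL l ^ 2) ^ 2 := by
    show X b * (X a * mL l ^ 2) ^ 2 = _
    ring
  rw [h2, h3]
  exact CharTwo.add_eq_zero.mp h

lemma Rel.block (a b : Fin d) (l : List (Fin d)) : Rel (b :: b :: a :: l) (a :: a :: b :: l) := by
  intro φ hφ
  have h := hφ.2 1 (X a ^ 3 * X b ^ 3 * (mL l ^ 4) ^ 2) one_pos
  rw [Sq_one_mul, Sq_one_sq, Sq_one_mul, Sq_one_X3, Sq_one_X3, mul_zero, zero_add, add_mul,
    map_add] at h
  have h2 : mL (b :: b :: a :: l) = X a ^ 4 * X b ^ 3 * (mL l ^ 4) ^ 2 := by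
    show X b * (X b * (X a * mL l ^ 2) ^ 2) ^ 2 = _
    ring
  have h3 : mL (a :: a :: b :: l) = X a ^ 3 * X b ^ 4 * (mL l ^ 4) ^ 2 := by
    show X a * (X a * (X b * mL l ^ 2) ^ 2) ^ 2 = _
    ring
  rw [h2, h3]
  exact (CharTwo.add_eq_zero.mp h).symm

lemma Rel.refl (l : List (Fin d)) : Rel l l := fun _ _ => rfl

lemma Rel.symm {l l' : List (Fin d)} (hl : l.length = l'.length) (h : Rel l l') : Rel l' l := by
  intro φ hφ
  rw [← hl] at hφ
  exact (h φ hφ).symm

lemma Rel.trans {l l' l'' : List (Fin d)} (hl : l.length = l'.length) (h : Rel l l')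
    (h' : Rel l' l'') : Rel l l'' := by
  intro φ hφ
  rw [h φ hφ]
  rw [hl] at hφ
  exact h' φ hφ

lemma Rel.perm {l l' : List (Fin d)} (h : l.Perm l') : Rel l l' := by
  induction h with
  | nil => exact Rel.refl _
  | cons x _ ih => exact ih.cons x
  | swap x y l => exact Rel.swap y x l
  | trans h1 _ ih1 ih2 => exact Rel.trans h1.length_eq ih1 ih2

/-- words with the same length and the same set of letters agree on the primitives -/
lemma Rel.of_support (N : ℕ) : ∀ (l l' : List (Fin d)) (a : Fin d), l.length = l'.length →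
    l.toFinset = l'.toFinset → a ∈ l → (l.length - l.count a) + (l'.length - l'.count a) ≤ N →
    Rel l l' := by
  classical
  have reduce : ∀ (l : List (Fin d)) (a b : Fin d), a ∈ l → b ≠ a → 2 ≤ l.count b →
      ∃ m : List (Fin d), Rel l m ∧ m.length = l.length ∧ m.toFinset = l.toFinset ∧
        m.count a = l.count a + 1 := by
    intro l a b ha hba hb
    have h1 : b ∈ l := List.count_pos_iff.mp (by omega)
    have p1 := List.perm_cons_erase h1
    have h2 : b ∈ l.erase b := by
      apply List.count_pos_iff.mp
      rw [List.count_erase_self]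
      omega
    have p2 := List.perm_cons_erase h2
    have h3 : a ∈ (l.erase b).erase b := by
      rw [List.mem_erase_of_ne hba.symm, List.mem_erase_of_ne hba.symm]
      exact ha
    have p3 := List.perm_cons_erase h3
    set r := ((l.erase b).erase b).erase a with hr
    have p : l.Perm (b :: b :: a :: r) :=
      p1.trans ((p2.trans (p3.cons b)).cons b)
    refine ⟨a :: a :: b :: r, ?_, ?_, ?_, ?_⟩
    · exact Rel.trans p.length_eq (Rel.perm p) (Rel.block a b r)
    · rw [p.length_eq]
      rfl
    · rw [List.toFinset_eq_of_perm _ _ p]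
      ext x
      simp only [List.mem_toFinset, List.mem_cons]
      tauto
    · rw [p.count_eq]
      simp [List.count_cons, hba]
  induction N with
  | zero =>
    intro l l' a hlen hsupp ha hN
    have ha' : a ∈ l' := by
      rw [← List.mem_toFinset, ← hsupp, List.mem_toFinset]
      exact ha
    have h1 : l.count a = l.length := le_antisymm List.count_le_length (by omega)
    have h2 : l'.count a = l'.length := le_antisymm List.count_le_length (by omega)
    rw [List.count_eq_length] at h1 h2
    have e1 : l = List.replicate l.length a := List.eq_replicate_length.mpr (fun b hb => (h1 b hb).symm)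
    have e2 : l' = List.replicate l'.length a :=
      List.eq_replicate_length.mpr (fun b hb => (h2 b hb).symm)
    rw [e1, e2, hlen]
    exact Rel.refl _
  | succ N ih =>
    intro l l' a hlen hsupp ha hN
    have ha' : a ∈ l' := by
      rw [← List.mem_toFinset, ← hsupp, List.mem_toFinset]
      exact ha
    by_cases hb : ∃ b, b ≠ a ∧ 2 ≤ l.count b
    · obtain ⟨b, hba, hb⟩ := hb
      obtain ⟨m, h1, h2, h3, h4⟩ := reduce l a b ha hba hb
      have hlt : l.count a < l.length := by
        have h5 := List.count_le_length (l := m) (a := a)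
        omega
      refine Rel.trans h2.symm h1 (ih m l' a (by omega) (h3.trans hsupp) ?_ (by omega))
      rw [← List.mem_toFinset, h3, List.mem_toFinset]
      exact ha
    · by_cases hb' : ∃ b, b ≠ a ∧ 2 ≤ l'.count b
      · obtain ⟨b, hba, hb'⟩ := hb'
        obtain ⟨m, h1, h2, h3, h4⟩ := reduce l' a b ha' hba hb'
        have hlt : l'.count a < l'.length := by
          have h5 := List.count_le_length (l := m) (a := a)
          omega
        refine Rel.trans (by omega) (ih l m a (by omega) (hsupp.trans h3.symm) ha (by omega))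
          (Rel.symm h2.symm h1)
      · -- all counts agree
        push Not at hb hb'
        apply Rel.perm
        rw [List.perm_iff_count]
        have hne : ∀ b, b ≠ a → l.count b = l'.count b := by
          intro b hba
          have h1 := hb b hba
          have h2 := hb' b hba
          by_cases hbl : b ∈ l
          · have hbl' : b ∈ l' := by
              rw [← List.mem_toFinset, ← hsupp, List.mem_toFinset]
              exact hbl
            have h3 := List.count_pos_iff.mpr hbl
            have h4 := List.count_pos_iff.mpr hbl'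
            omega
          · have hbl' : b ∉ l' := by
              rw [← List.mem_toFinset, ← hsupp, List.mem_toFinset]
              exact hbl
            rw [List.count_eq_zero_of_not_mem hbl, List.count_eq_zero_of_not_mem hbl']
        intro b
        by_cases hba : b = a
        · subst hba
          have s1 : l.length = ∑ x ∈ Finset.univ, l.count x := by
            rw [← List.sum_toFinset_count_eq_length l]
            exact Finset.sum_subset (Finset.subset_univ _) (fun x _ hx =>
              List.count_eq_zero_of_not_mem (fun h => hx (List.mem_toFinset.mpr h)))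
          have s2 : l'.length = ∑ x ∈ Finset.univ, l'.count x := by
            rw [← List.sum_toFinset_count_eq_length l']
            exact Finset.sum_subset (Finset.subset_univ _) (fun x _ hx =>
              List.count_eq_zero_of_not_mem (fun h => hx (List.mem_toFinset.mpr h)))
          rw [← Finset.add_sum_erase _ _ (Finset.mem_univ b)] at s1 s2
          have s3 : ∑ x ∈ Finset.univ.erase b, l.count x = ∑ x ∈ Finset.univ.erase b, l'.count x :=
            Finset.sum_congr rfl (fun x hx => hne x (Finset.ne_of_mem_erase hx))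
          omega
        · exact hne b hba

/-! ### The span of the words of length `k` -/

/-- the span of the monomials of the words of length `k` -/
noncomputable def SL (d k : ℕ) : Submodule (ZMod 2) (P d) :=
  Submodule.span (ZMod 2) (Set.range (fun c : Fin k → Fin d => mL (List.ofFn c)))

lemma mL_mem (l : List (Fin d)) : mL l ∈ SL d l.length := by
  apply Submodule.subset_span
  exact ⟨l.get, by
    show mL (List.ofFn l.get) = mL l
    rw [List.ofFn_get]⟩

lemma th_mem_SL (a : Fin d) {k : ℕ} {g : P d} (hg : g ∈ SL d k) : th a g ∈ SL d (k + 1) := by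
  rw [SL] at hg
  induction hg using Submodule.span_induction with
  | mem x hx =>
    obtain ⟨c, rfl⟩ := hx
    have h := mL_mem (a :: List.ofFn c)
    rw [List.length_cons, List.length_ofFn] at h
    exact h
  | zero => rw [map_zero]; exact Submodule.zero_mem _
  | add x y _ _ hx hy => rw [map_add]; exact Submodule.add_mem _ hx hy
  | smul c x _ hx => rw [map_smul]; exact Submodule.smul_mem _ _ hx

lemma act_mL (w : Matrix (Fin d) (Fin d) (ZMod 2)) (l : List (Fin d)) :
    act d w (mL l) ∈ SL d l.length := by
  induction l with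
  | nil =>
    show act d w 1 ∈ _
    rw [map_one]
    exact mL_mem []
  | cons a l ih =>
    show act d w (X a * mL l ^ 2) ∈ SL d (l.length + 1)
    rw [map_mul, map_pow, act_X, Finset.sum_mul]
    apply Submodule.sum_mem
    intro i _
    have h : C (w i a) * X i * act d w (mL l) ^ 2 = (w i a) • th i (act d w (mL l)) := by
      rw [th_apply, smul_eq_C_mul, mul_assoc]
    rw [h]
    exact Submodule.smul_mem _ _ (th_mem_SL i ih)

lemma act_SL (w : Matrix (Fin d) (Fin d) (ZMod 2)) {k : ℕ} {g : P d} (hg : g ∈ SL d k) :
    act d w g ∈ SL d k := by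
  rw [SL] at hg
  induction hg using Submodule.span_induction with
  | mem x hx =>
    obtain ⟨c, rfl⟩ := hx
    have h := act_mL w (List.ofFn c)
    rwa [List.length_ofFn] at h
  | zero => rw [map_zero]; exact Submodule.zero_mem _
  | add x y _ _ hx hy => rw [map_add]; exact Submodule.add_mem _ hx hy
  | smul c x _ hx => rw [map_smul]; exact Submodule.smul_mem _ _ hx

lemma zmod2_cases (a : ZMod 2) : a = 0 ∨ a = 1 := by
  fin_cases a
  · left; rfl
  · right; rfl

open Classical in
lemma eval_mL (v : Fin d → ZMod 2) (l : List (Fin d)) :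
    eval v (mL l) = if ∀ i ∈ l, v i = 1 then 1 else 0 := by
  induction l with
  | nil =>
    rw [if_pos (by simp)]
    show eval v 1 = 1
    rw [map_one]
  | cons a l ih =>
    show eval v (X a * mL l ^ 2) = _
    rw [map_mul, map_pow, eval_X, ih]
    rcases zmod2_cases (v a) with h | h
    · rw [h, zero_mul, if_neg]
      intro hc
      have := hc a List.mem_cons_self
      rw [h] at this
      exact absurd this (by decide)
    · rw [h, one_mul]
      by_cases hl : ∀ i ∈ l, v i = 1
      · rw [if_pos hl, if_pos (by
          intro i hi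
          rcases List.mem_cons.mp hi with rfl | hi
          · exact h
          · exact hl i hi), one_pow]
      · rw [if_neg hl, if_neg (fun hc => hl fun i hi => hc i (List.mem_cons_of_mem _ hi))]
        rfl

lemma mL_homogeneous (l : List (Fin d)) : (mL l).IsHomogeneous (2 ^ l.length - 1) := by
  induction l with
  | nil => exact isHomogeneous_one _ _
  | cons a l ih =>
    rw [List.length_cons, pow_len]
    have h : (X a * mL l ^ 2 : P d).IsHomogeneous (1 + (2 ^ l.length - 1) * 2) :=
      (isHomogeneous_X (ZMod 2) a).mul (ih.pow 2)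
    have e : 2 * (2 ^ l.length - 1) + 1 = 1 + (2 ^ l.length - 1) * 2 := by ring
    rw [e]
    exact h

/-- A combination of words of length `k` vanishing as a function is killed by the primitives. -/
lemma vanish {k : ℕ} {g : P d} (hg : g ∈ SL d k) (h0 : ∀ v : Fin d → ZMod 2, eval v g = 0)
    {φ : Module.Dual (ZMod 2) (P d)} (hφ : φ ∈ PH d (2 ^ k - 1)) : φ g = 0 := by
  classical
  rw [SL, Submodule.mem_span_range_iff_exists_fun] at hg
  obtain ⟨α, rfl⟩ := hg
  set im : (Fin k → Fin d) → Finset (Fin d) := fun c => (List.ofFn c).toFinset with him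
  set β : Finset (Fin d) → ZMod 2 := fun T => ∑ c ∈ Finset.univ.filter (fun c => im c = T), α c
    with hβ
  have hsum : ∀ T : Finset (Fin d), ∑ T' ∈ T.powerset, β T' = 0 := by
    intro T
    have h := h0 (fun i => if i ∈ T then 1 else 0)
    rw [map_sum] at h
    have h1 : ∀ c ∈ (Finset.univ : Finset (Fin k → Fin d)),
        eval (fun i => if i ∈ T then (1 : ZMod 2) else 0) (α c • mL (List.ofFn c)) =
        if im c ⊆ T then α c else 0 := by
      intro c _
      rw [smul_eval, eval_mL]
      have h2 : (∀ i ∈ List.ofFn c, (if i ∈ T then (1 : ZMod 2) else 0) = 1) ↔ im c ⊆ T := by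
        constructor
        · intro hc i hi
          have := hc i (List.mem_toFinset.mp hi)
          by_contra hiT
          rw [if_neg hiT] at this
          exact absurd this (by decide)
        · intro hc i hi
          rw [if_pos (hc (List.mem_toFinset.mpr hi))]
      rw [if_congr h2 rfl rfl]
      split_ifs
      · rw [mul_one]
      · rw [mul_zero]
    rw [Finset.sum_congr rfl h1] at h
    rw [← h, ← Finset.sum_filter]
    simp only [hβ]
    rw [← Finset.sum_biUnion]
    · apply Finset.sum_congr _ (fun _ _ => rfl)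
      ext c
      simp
    · intro T1 _ T2 _ hne
      rw [Function.onFun, Finset.disjoint_left]
      intro c h1 h2
      rw [Finset.mem_filter] at h1 h2
      exact hne (h1.2.symm.trans h2.2)
  have hzero : ∀ T : Finset (Fin d), β T = 0 := by
    intro T
    induction T using Finset.strongInduction with
    | H T ih =>
      have h := hsum T
      rw [← Finset.add_sum_erase _ _ (Finset.mem_powerset_self T)] at h
      rw [Finset.sum_eq_zero, add_zero] at h
      · exact h
      · intro T' hT'
        rw [Finset.mem_erase, Finset.mem_powerset] at hT'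
        exact ih T' (lt_of_le_of_ne hT'.2 hT'.1)
  rw [map_sum, ← Finset.sum_fiberwise (g := im)]
  apply Finset.sum_eq_zero
  intro T _
  by_cases hne : ∃ c0, im c0 = T
  · obtain ⟨c0, hc0⟩ := hne
    have h1 : ∀ c ∈ Finset.univ.filter (fun c => im c = T),
        φ (α c • mL (List.ofFn c)) = α c * φ (mL (List.ofFn c0)) := by
      intro c hc
      rw [Finset.mem_filter] at hc
      rw [map_smul, smul_eq_mul]
      congr 1
      rcases Nat.eq_zero_or_pos k with hk | hk
      · subst hk
        rw [Subsingleton.elim c c0]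
      · have hlen : (List.ofFn c).length = k := List.length_ofFn
        have hrel : Rel (List.ofFn c) (List.ofFn c0) := by
          refine Rel.of_support _ (List.ofFn c) (List.ofFn c0) (c ⟨0, hk⟩) (by
            rw [List.length_ofFn, List.length_ofFn]) (hc.2.trans hc0.symm) ?_ le_rfl
          rw [List.mem_ofFn]
          exact ⟨_, rfl⟩
        apply hrel
        rw [hlen]
        exact hφ
    rw [Finset.sum_congr rfl h1, ← Finset.sum_mul]
    have h2 := hzero T
    simp only [hβ] at h2
    rw [h2, zero_mul]
  · apply Finset.sum_eq_zero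
    intro c hc
    rw [Finset.mem_filter] at hc
    exact absurd ⟨c, hc.2⟩ hne

lemma exists_invariant {k : ℕ} (hk : d ≤ k) : ∃ f ∈ SL d k, f.IsHomogeneous (2 ^ k - 1) ∧
    ∀ v : Fin d → ZMod 2, eval v f = if v = 0 then 0 else 1 := by
  classical
  have hrep : ∀ T : Finset (Fin d), T.Nonempty → ∃ l : List (Fin d), l.length = k ∧
      l.toFinset = T := by
    rintro T ⟨a, ha⟩
    refine ⟨T.toList ++ List.replicate (k - T.card) a, ?_, ?_⟩
    · rw [List.length_append, List.length_replicate, Finset.length_toList]
      have := T.card_le_univ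
      rw [Fintype.card_fin] at this
      omega
    · ext x
      simp only [List.mem_toFinset, List.mem_append, Finset.mem_toList, List.mem_replicate]
      constructor
      · rintro (h | ⟨_, rfl⟩)
        · exact h
        · exact ha
      · intro h
        exact Or.inl h
  choose! rep hlen hsupp using hrep
  refine ⟨∑ T ∈ Finset.univ.filter (fun T : Finset (Fin d) => T.Nonempty), mL (rep T), ?_, ?_, ?_⟩
  · apply Submodule.sum_mem
    intro T hT
    rw [Finset.mem_filter] at hT
    have h := mL_mem (rep T)
    rwa [hlen T hT.2] at h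
  · apply IsHomogeneous.sum
    intro T hT
    rw [Finset.mem_filter] at hT
    have h := mL_homogeneous (rep T)
    rwa [hlen T hT.2] at h
  · intro v
    rw [map_sum]
    set U : Finset (Fin d) := Finset.univ.filter (fun i => v i = 1) with hU
    have h1 : ∀ T ∈ Finset.univ.filter (fun T : Finset (Fin d) => T.Nonempty),
        eval v (mL (rep T)) = if T ⊆ U then 1 else 0 := by
      intro T hT
      rw [Finset.mem_filter] at hT
      rw [eval_mL]
      apply if_congr _ rfl rfl
      constructor
      · intro h i hi
        rw [hU, Finset.mem_filter]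
        rw [← hsupp T hT.2, List.mem_toFinset] at hi
        exact ⟨Finset.mem_univ _, h i hi⟩
      · intro h i hi
        rw [← List.mem_toFinset, hsupp T hT.2] at hi
        exact (Finset.mem_filter.mp (h hi)).2
    rw [Finset.sum_congr rfl h1, Finset.sum_boole]
    have h2 : (Finset.univ.filter (fun T : Finset (Fin d) => T.Nonempty)).filter (fun T => T ⊆ U) =
        U.powerset.erase ∅ := by
      ext T
      simp only [Finset.mem_filter, Finset.mem_univ, true_and, Finset.mem_erase,
        Finset.mem_powerset, Finset.nonempty_iff_ne_empty]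
    rw [h2, Finset.card_erase_of_mem (Finset.empty_mem_powerset U), Finset.card_powerset]
    by_cases hv : v = 0
    · rw [if_pos hv]
      have hUe : U = ∅ := by
        rw [hU, Finset.filter_eq_empty_iff]
        intro i _ h
        rw [hv] at h
        exact zero_ne_one h
      rw [hUe]
      rfl
    · rw [if_neg hv]
      have hUne : U.Nonempty := by
        obtain ⟨i, hi⟩ := Function.ne_iff.mp hv
        refine ⟨i, ?_⟩
        rw [hU, Finset.mem_filter]
        refine ⟨Finset.mem_univ _, ?_⟩
        rcases zmod2_cases (v i) with h | h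
        · exact absurd h hi
        · exact h
      obtain ⟨m, hm⟩ : ∃ m, U.card = m + 1 := ⟨U.card - 1, by
        have := hUne.card_pos
        omega⟩
      rw [hm, pow_succ]
      have h3 : 2 ^ m * 2 - 1 = 2 * (2 ^ m - 1) + 1 := by
        have : 1 ≤ 2 ^ m := Nat.one_le_two_pow
        omega
      rw [h3, Nat.cast_add, Nat.cast_mul]
      have h4 : ((2 : ℕ) : ZMod 2) = 0 := rfl
      rw [h4, zero_mul, zero_add, Nat.cast_one]

lemma eval_act (w : Matrix (Fin d) (Fin d) (ZMod 2)) (v : Fin d → ZMod 2) (f : P d) :
    eval v (act d w f) = eval (Matrix.vecMul v w) f := by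
  have h : (eval v).comp (act d w : P d →+* P d) = eval (Matrix.vecMul v w) := by
    apply MvPolynomial.ringHom_ext
    · intro r
      have h2 : (act d w : P d →+* P d) (C r) = C r := (act d w).commutes r
      rw [RingHom.comp_apply, h2, eval_C, eval_C]
    · intro i
      rw [RingHom.comp_apply, eval_X]
      show eval v (act d w (X i)) = _
      rw [act_X, map_sum]
      simp only [map_mul, eval_C, eval_X]
      rw [Matrix.vecMul, dotProduct]
      apply Finset.sum_congr rfl
      intro j _
      rw [mul_comm]
  exact DFunLike.congr_fun h f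

lemma coeff_single_of_homogeneous {n : ℕ} {f : P d} (hf : f.IsHomogeneous n) (i : Fin d) :
    coeff (Finsupp.single i n) f = eval (Pi.single i 1) f := by
  classical
  rw [eval_eq]
  by_cases hs : Finsupp.single i n ∈ f.support
  · rw [Finset.sum_eq_single (Finsupp.single i n)]
    · rw [Finset.prod_eq_one, mul_one]
      intro j hj
      rw [Finsupp.mem_support_iff, Finsupp.single_apply] at hj
      have hij : i = j := by
        by_contra hc
        rw [if_neg hc] at hj
        exact hj rfl
      subst hij
      rw [Pi.single_eq_same, one_pow]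
    · intro u hu hne
      apply mul_eq_zero_of_right
      have hdeg : u.degree = n := by
        rw [Finsupp.degree_eq_weight_one]
        exact hf (mem_support_iff.mp hu)
      have h1 : ∃ j, j ≠ i ∧ u j ≠ 0 := by
        by_contra hc
        push Not at hc
        apply hne
        have h2 : u = Finsupp.single i (u i) := by
          apply Finsupp.ext
          intro j
          rw [Finsupp.single_apply]
          split_ifs with h
          · rw [h]
          · exact hc j (Ne.symm h)
        rw [h2] at hdeg
        rw [Finsupp.degree_single] at hdeg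
        rw [h2, hdeg]
      obtain ⟨j, hj1, hj2⟩ := h1
      apply Finset.prod_eq_zero (Finsupp.mem_support_iff.mpr hj2)
      rw [Pi.single_eq_of_ne hj1, zero_pow hj2]
    · intro h
      exact absurd hs h
  · rw [notMem_support_iff.mp hs, Finset.sum_eq_zero]
    intro u hu
    have hne : u ≠ Finsupp.single i n := fun h => hs (h ▸ hu)
    apply mul_eq_zero_of_right
    have hdeg : u.degree = n := by
      rw [Finsupp.degree_eq_weight_one]
      exact hf (mem_support_iff.mp hu)
    have h1 : ∃ j, j ≠ i ∧ u j ≠ 0 := by
      by_contra hc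
      push Not at hc
      apply hne
      have h2 : u = Finsupp.single i (u i) := by
        apply Finsupp.ext
        intro j
        rw [Finsupp.single_apply]
        split_ifs with h
        · rw [h]
        · exact hc j (Ne.symm h)
      rw [h2] at hdeg
      rw [Finsupp.degree_single] at hdeg
      rw [h2, hdeg]
    obtain ⟨j, hj1, hj2⟩ := h1
    apply Finset.prod_eq_zero (Finsupp.mem_support_iff.mpr hj2)
    rw [Pi.single_eq_of_ne hj1, zero_pow hj2]

/-- The class of `a_i^{(2^k-1)}` in the coinvariants is not zero for `k ≥ d`. -/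
lemma single_not_mem (i : Fin d) {k : ℕ} (hk : d ≤ k) :
    dl (Finsupp.single i (2 ^ k - 1)) ∉ aug d (2 ^ k - 1) := by
  classical
  obtain ⟨f, hf1, hf2, hf3⟩ := exists_invariant hk
  intro hmem
  -- evaluation at `f` kills the augmentation subspace
  have hker : aug d (2 ^ k - 1) ≤ LinearMap.ker (Module.Dual.eval (ZMod 2) (P d) f) := by
    rw [aug, Submodule.span_le]
    rintro χ ⟨w, φ, hφ, rfl⟩
    rw [SetLike.mem_coe, LinearMap.mem_ker]
    show φ (act d w.val f) - φ f = 0
    rw [← map_sub]
    apply vanish (Submodule.sub_mem _ (act_SL _ hf1) hf1) _ hφ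
    intro v
    rw [map_sub, eval_act, hf3, hf3]
    have hinj : Matrix.vecMul v (w : Matrix (Fin d) (Fin d) (ZMod 2)) = 0 ↔ v = 0 := by
      constructor
      · intro h
        have h2 := Matrix.vecMul_injective_of_isUnit (A := (w : Matrix (Fin d) (Fin d) (ZMod 2)))
          w.isUnit
        apply h2
        show Matrix.vecMul v _ = Matrix.vecMul 0 _
        rw [h, Matrix.zero_vecMul]
      · rintro rfl
        rw [Matrix.zero_vecMul]
    rw [if_congr hinj rfl rfl, sub_self]
  have h1 := hker hmem
  rw [LinearMap.mem_ker] at h1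
  have h2 : dl (Finsupp.single i (2 ^ k - 1)) f = 0 := h1
  rw [dl_apply, coeff_single_of_homogeneous hf2, hf3, if_neg] at h2
  · exact absurd h2 (by decide)
  · intro h
    have := congrFun h i
    rw [Pi.single_eq_same, Pi.zero_apply] at this
    exact absurd this (by decide)

/-! ### Main results -/

lemma kernel_criterion {n : ℕ} {t : Fin d →₀ ℕ} (ht : dl t ∈ PH d n)
    (h1 : dl t ∉ aug d n) (h2 : dl (2 • t + ones d) ∈ aug d (2 * n + d)) :
    ¬ SqInjective d n := by
  intro hinj
  apply h1
  apply hinj _ ht
  have h3 : kameko d (dl t) = dl (2 • t + ones d) := kameko_dl t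
  rw [h3]
  exact h2

/-- For `d ≥ 5` and `k ≥ d` Kameko's squaring operation on the coinvariants is not injective in
degree `2^k - 1`. -/
theorem not_injective {k : ℕ} (hd : 5 ≤ d) (hk : d ≤ k) :
    ¬ SqInjective d (2 ^ k - 1) := by
  classical
  have hpos : 1 ≤ 2 ^ k := Nat.one_le_two_pow
  set i0 : Fin d := ⟨0, by omega⟩ with hi0
  set a : Fin d := ⟨1, by omega⟩ with ha
  set b : Fin d := ⟨2, by omega⟩ with hb
  set c : Fin d := ⟨3, by omega⟩ with hc
  set e : Fin d := ⟨4, by omega⟩ with he
  apply kernel_criterion (t := Finsupp.single i0 (2 ^ k - 1))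
  · apply dl_mem
    · intro i
      rw [Finsupp.single_apply]
      split_ifs
      · exact ⟨k, by omega⟩
      · exact ⟨0, rfl⟩
    · rw [Finsupp.degree_single]
  · exact single_not_mem i0 hk
  · -- the exponent with the four entries removed
    set t : Fin d →₀ ℕ := Finsupp.equivFunOnFinite.symm (fun i =>
      if i = i0 then 2 * (2 ^ k - 1) + 1 else if i = a ∨ i = b ∨ i = c ∨ i = e then 0 else 1)
      with ht
    have htv : ∀ i, t i = if i = i0 then 2 * (2 ^ k - 1) + 1 else
      if i = a ∨ i = b ∨ i = c ∨ i = e then 0 else 1 := fun i => rfl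
    have hab : a ≠ b := by simp [ha, hb]
    have hac : a ≠ c := by simp [ha, hc]
    have hae : a ≠ e := by simp [ha, he]
    have hbc : b ≠ c := by simp [hb, hc]
    have hbe : b ≠ e := by simp [hb, he]
    have hce : c ≠ e := by simp [hc, he]
    have ha0 : a ≠ i0 := by simp [ha, hi0]
    have hb0 : b ≠ i0 := by simp [hb, hi0]
    have hc0 : c ≠ i0 := by simp [hc, hi0]
    have he0 : e ≠ i0 := by simp [he, hi0]
    have hkey := key_identity hab hac hae hbc hbe hce t
      (by rw [htv, if_neg ha0, if_pos (Or.inl rfl)])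
      (by rw [htv, if_neg hb0, if_pos (Or.inr (Or.inl rfl))])
      (by rw [htv, if_neg hc0, if_pos (Or.inr (Or.inr (Or.inl rfl)))])
      (by rw [htv, if_neg he0, if_pos (Or.inr (Or.inr (Or.inr rfl)))])
      (by
        intro l
        rw [htv]
        split_ifs
        · exact ⟨k + 1, by rw [pow_succ]; omega⟩
        · exact ⟨0, rfl⟩
        · exact ⟨1, rfl⟩)
    have heq : t + Finsupp.single e 1 + Finsupp.single a 1 + Finsupp.single b 1 +
        Finsupp.single c 1 = 2 • Finsupp.single i0 (2 ^ k - 1) + ones d := by
      apply Finsupp.ext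
      intro i
      simp only [Finsupp.add_apply, Finsupp.smul_apply, Finsupp.single_apply, ones_apply, htv,
        smul_eq_mul]
      by_cases h0 : i = i0
      · subst h0
        simp [ha0, hb0, hc0, he0]
      · by_cases h1 : i = a
        · subst h1
          simp [h0, Ne.symm h0, hab, hac, hae, hab.symm, hac.symm, hae.symm]
        · by_cases h2 : i = b
          · subst h2
            simp [h0, Ne.symm h0, hbc, hbe, hab, hbc.symm, hbe.symm]
          · by_cases h3 : i = c
            · subst h3
              simp [h0, Ne.symm h0, hac, hbc, hce, hce.symm]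
            · by_cases h4 : i = e
              · subst h4
                simp [h0, Ne.symm h0, hae, hbe, hce]
              · simp [h0, Ne.symm h0, h1, Ne.symm h1, h2, Ne.symm h2, h3, Ne.symm h3, h4,
                  Ne.symm h4]
    rw [heq] at hkey
    have hdeg : t.degree + 4 = 2 * (2 ^ k - 1) + d := by
      have h1 := congrArg Finsupp.degree heq
      simp only [map_add, Finsupp.degree_single, map_nsmul, smul_eq_mul] at h1
      have h2 : (ones d).degree = d := by
        rw [Finsupp.degree_eq_sum]
        simp [ones_apply]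
      omega
    rw [hdeg] at hkey
    exact hkey

/-- For `d = 4` Kameko's squaring operation is not injective in degree `0`. -/
theorem not_injective_four : ¬ SqInjective 4 0 := by
  classical
  apply kernel_criterion (t := 0)
  · apply dl_mem
    · intro i
      exact ⟨0, rfl⟩
    · rfl
  · intro hmem
    have hker : aug 4 0 ≤ LinearMap.ker (Module.Dual.eval (ZMod 2) (P 4) 1) := by
      rw [aug, Submodule.span_le]
      rintro χ ⟨w, φ, hφ, rfl⟩
      rw [SetLike.mem_coe, LinearMap.mem_ker]
      show φ (act 4 w.val 1) - φ 1 = 0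
      rw [map_one, sub_self]
    have h1 := hker hmem
    rw [LinearMap.mem_ker] at h1
    have h2 : dl (0 : Fin 4 →₀ ℕ) 1 = 0 := h1
    rw [dl_apply, coeff_zero_one] at h2
    exact absurd h2 (by decide)
  · have hkey := key_identity (d := 4) (a := 0) (b := 1) (c := 2) (e := 3) (by decide) (by decide)
      (by decide) (by decide) (by decide) (by decide) 0 rfl rfl rfl rfl (fun l => ⟨0, rfl⟩)
    have heq : (0 : Fin 4 →₀ ℕ) + Finsupp.single 3 1 + Finsupp.single 0 1 + Finsupp.single 1 1 +
        Finsupp.single 2 1 = 2 • (0 : Fin 4 →₀ ℕ) + ones 4 := by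
      apply Finsupp.ext
      intro i
      simp only [Finsupp.add_apply, Finsupp.smul_apply, Finsupp.single_apply, ones_apply,
        Finsupp.zero_apply]
      fin_cases i <;> simp
    rw [heq] at hkey
    have hdeg : (0 : Fin 4 →₀ ℕ).degree + 4 = 2 * 0 + 4 := by simp
    rw [hdeg] at hkey
    exact hkey

end Pool.Agent.H911R2.Kameko
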